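import Pool.Agent.H18.TC.Prob

/-! P4: exclusive coupling of two label processes -/

open Finset
open Classical

namespace Pool.H18.TC

/-- joint weight of two label vectors: at most one of them is nonzero -/
noncomputable def coupNu {J : Type*} [Fintype J] (p q : ℝ) (x y : J → Bool) : ℝ :=
  if x = (fun _ => false) ∧ y = (fun _ => false) then
    wt p (fun _ : J => false) + wt q (fun _ : J => false) - 1
  else if y = (fun _ => false) then wt p x
  else if x = (fun _ => false) then wt q y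
  else 0

theorem coup_wt_zero {J : Type*} [Fintype J] (p : ℝ) :
    wt p (fun _ : J => false) = (1 - p) ^ (Fintype.card J) := by
  unfold wt
  simp

theorem coup_nu_symm {J : Type*} [Fintype J] (p q : ℝ) (x y : J → Bool) :
    coupNu p q x y = coupNu q p y x := by
  unfold coupNu
  by_cases hx : x = (fun _ => false) <;> by_cases hy : y = (fun _ => false) <;>
    simp [hx, hy]
  ring

theorem coup_nu_nonneg {J : Type*} [Fintype J] {p q : ℝ} (hp0 : 0 ≤ p) (hp1 : p ≤ 1)
    (hq0 : 0 ≤ q) (hq1 : q ≤ 1) (hp : 1 / 2 ≤ (1 - p) ^ (Fintype.card J))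
    (hq : 1 / 2 ≤ (1 - q) ^ (Fintype.card J)) (x y : J → Bool) : 0 ≤ coupNu p q x y := by
  unfold coupNu
  split_ifs
  · rw [coup_wt_zero, coup_wt_zero]; linarith
  · exact wt_nonneg hp0 hp1 x
  · exact wt_nonneg hq0 hq1 y
  · exact le_rfl

theorem coup_nu_marg {J : Type*} [Fintype J] (p q : ℝ) (x : J → Bool) :
    ∑ y : J → Bool, coupNu p q x y = wt p x := by
  by_cases hx : x = (fun _ => false)
  · subst hx
    have h1 : ∀ y : J → Bool, coupNu p q (fun _ => false) y
        = wt q y + if y = (fun _ => false) then wt p (fun _ : J => false) - 1 else 0 := by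
      intro y
      unfold coupNu
      by_cases hy : y = (fun _ => false)
      · subst hy; simp; ring
      · simp [hy]
    simp only [h1]
    rw [Finset.sum_add_distrib, Prob_sum_wt, Finset.sum_ite_eq']
    simp
  · have h1 : ∀ y : J → Bool, coupNu p q x y
        = if y = (fun _ => false) then wt p x else 0 := by
      intro y
      unfold coupNu
      by_cases hy : y = (fun _ => false)
      · simp [hx, hy]
      · simp [hx, hy]
    simp only [h1]
    rw [Finset.sum_ite_eq']
    simp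

theorem coup_nu_ne {J : Type*} [Fintype J] (p q : ℝ) (x y : J → Bool) (h : coupNu p q x y ≠ 0) :
    x = (fun _ => false) ∨ y = (fun _ => false) := by
  by_contra hne
  push Not at hne
  apply h
  unfold coupNu
  simp [hne.1, hne.2]

theorem coup_marg {V J : Type*} [Fintype V] [Fintype J] (p q : ℝ) (ω : V × J → Bool) :
    ∑ ω' : V × J → Bool, ∏ v, coupNu p q (fun j => ω (v, j)) (fun j => ω' (v, j)) = wt p ω := by
  have h1 : ∑ ω' : V × J → Bool, ∏ v, coupNu p q (fun j => ω (v, j)) (fun j => ω' (v, j))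
      = ∑ g : V → (J → Bool), ∏ v, coupNu p q (fun j => ω (v, j)) (g v) := by
    apply Fintype.sum_equiv (Equiv.curry V J Bool)
    intro ω'
    rfl
  have h2 := Finset.prod_univ_sum (fun _ : V => (univ : Finset (J → Bool)))
    (fun v y => coupNu p q (fun j => ω (v, j)) y)
  rw [Fintype.piFinset_univ] at h2
  rw [h1, ← h2]
  have h3 : ∀ v, ∑ y : J → Bool, coupNu p q (fun j => ω (v, j)) y = wt p (fun j => ω (v, j)) :=
    fun v => coup_nu_marg p q _
  simp only [h3]
  unfold wt
  rw [Fintype.prod_prod_type]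

theorem coup_marg_inst {V J : Type*} [Fintype V] [Fintype J] (p q : ℝ) (ω : V × J → Bool)
    (inst : Fintype (V × J → Bool)) :
    ∑ ω' ∈ @Finset.univ (V × J → Bool) inst,
      ∏ v, coupNu p q (fun j => ω (v, j)) (fun j => ω' (v, j)) = wt p ω := by
  rw [← coup_marg p q ω]
  exact Finset.sum_congr (Finset.ext fun x => ⟨fun _ => @Finset.mem_univ _ Pi.instFintype x,
    fun _ => @Finset.mem_univ _ inst x⟩) (fun _ _ => rfl)

theorem coup_gen {B : Type*} [Fintype B] (p q : ℝ) (A A' : (B → Bool) → Prop)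
    (W : (B → Bool) → (B → Bool) → ℝ) (hWnn : ∀ ω ω', 0 ≤ W ω ω')
    (hW1 : ∀ ω, ∑ ω', W ω ω' = wt p ω) (hW2 : ∀ ω', ∑ ω, W ω ω' = wt q ω')
    (hW0 : ∀ ω ω', A ω → A' ω' → W ω ω' = 0) : Pr p A + Pr q A' ≤ 1 := by
  have e1 : Pr p A = ∑ ω, ∑ ω', W ω ω' * (if A ω then (1 : ℝ) else 0) := by
    unfold Pr Ex
    apply Finset.sum_congr rfl
    intro ω _
    rw [← hW1 ω, Finset.sum_mul]
  have e2 : Pr q A' = ∑ ω, ∑ ω', W ω ω' * (if A' ω' then (1 : ℝ) else 0) := by
    rw [Finset.sum_comm]
    unfold Pr Ex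
    apply Finset.sum_congr rfl
    intro ω' _
    rw [← hW2 ω', Finset.sum_mul]
  have e3 : ∑ ω, ∑ ω', W ω ω' = 1 := by
    simp only [hW1]
    exact Prob_sum_wt p
  have e4 : Pr p A + Pr q A' ≤ ∑ ω, ∑ ω', W ω ω' := by
    rw [e1, e2, ← Finset.sum_add_distrib]
    apply Finset.sum_le_sum
    intro ω _
    rw [← Finset.sum_add_distrib]
    apply Finset.sum_le_sum
    intro ω' _
    by_cases ha : A ω
    · by_cases ha' : A' ω'
      · rw [hW0 ω ω' ha ha']; simp
      · rw [if_pos ha, if_neg ha']; simp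
    · by_cases ha' : A' ω'
      · rw [if_neg ha, if_pos ha']; simp
      · rw [if_neg ha, if_neg ha']; simp; exact hWnn ω ω'
  linarith

theorem coupling {V J : Type*} [Fintype V] [Fintype J] {p q : ℝ} (hp0 : 0 ≤ p) (hp1 : p ≤ 1)
    (hq0 : 0 ≤ q) (hq1 : q ≤ 1) (hp : 1 / 2 ≤ (1 - p) ^ (Fintype.card J))
    (hq : 1 / 2 ≤ (1 - q) ^ (Fintype.card J)) (A A' : (V × J → Bool) → Prop)
    (h : 1 < Pr p A + Pr q A') :
    ∃ ω ω', A ω ∧ A' ω' ∧ ∀ v : V, (∀ j, ω (v, j) = false) ∨ (∀ j, ω' (v, j) = false) := by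
  by_contra hno
  have key := coup_gen p q A A' (fun ω ω' =>
    ∏ v, coupNu p q (fun j => ω (v, j)) (fun j => ω' (v, j))) ?_ ?_ ?_ ?_
  · linarith
  · intro ω ω'
    exact Finset.prod_nonneg (fun v _ => coup_nu_nonneg hp0 hp1 hq0 hq1 hp hq _ _)
  · intro ω
    exact coup_marg_inst p q ω _
  · intro ω'
    have h2 : ∀ ω : V × J → Bool, ∏ v, coupNu p q (fun j => ω (v, j)) (fun j => ω' (v, j))
        = ∏ v, coupNu q p (fun j => ω' (v, j)) (fun j => ω (v, j)) := by
      intro ω
      apply Finset.prod_congr rfl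
      intro v _
      exact coup_nu_symm p q _ _
    simp only [h2]
    exact coup_marg_inst q p ω' _
  · intro ω ω' ha ha'
    by_contra hne
    apply hno
    refine ⟨ω, ω', ha, ha', fun v => ?_⟩
    have h1 : coupNu p q (fun j => ω (v, j)) (fun j => ω' (v, j)) ≠ 0 := by
      intro h0
      exact hne (Finset.prod_eq_zero (Finset.mem_univ v) h0)
    rcases coup_nu_ne p q _ _ h1 with h2 | h2
    · left; intro j; exact congrFun h2 j
    · right; intro j; exact congrFun h2 j

end Pool.H18.TC
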