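import Pool.Agent.H18.TC.Gbas

/-! G1, paths -/

open Finset
open Classical

namespace Pool.H18.TC

variable {r : ℕ} {V : Type*} [Fintype V] {T m : ℕ}
variable {E : Finset (Fin r → V)} {K : (Fin r → V) → (Fin r → V) → ℝ} {s : ℝ} {χ : V → Fin r}
  {δ : ℝ} {e0 : Fin r → V}

omit [Fintype V] in
/-- positive mass after one round comes from a fired state -/
theorem gpath_step {B : Type*} [Fintype B] (hK : ∀ e f, 0 ≤ K e f) (hδ : 0 < δ)
    (gf : (Fin r → V) → (Fin r → V) → ℝ) (ι : Fin (m + 1) → V → B) (ω : B → Bool)
    (f : Fin r → V) (h : 0 < gnew E K δ e0 gf ι ω f) :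
    Dj f e0 ∧ ∃ a, ∃ e, Dj e f ∧ Fire ι ω a e ∧ 0 < gf f e ∧ K e f ≠ 0 := by
  unfold gnew at h
  split_ifs at h with hd
  · refine ⟨hd, ?_⟩
    rw [Finset.lt_sup'_iff] at h
    obtain ⟨a, _, ha⟩ := h
    have hY : 0 < YY E K δ gf ι ω a f := by
      unfold psi at ha
      have := (lt_min_iff.mp ha).2
      linarith
    unfold YY at hY
    have hex : ∃ e ∈ E.filter (fun e => Dj e f ∧ Fire ι ω a e),
        0 < (1 / δ) ^ r * (gf f e * K e f) := by
      by_contra hno
      push Not at hno
      have := Finset.sum_nonpos hno
      linarith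
    obtain ⟨e, he, hpos⟩ := hex
    rw [Finset.mem_filter] at he
    have h1 : 0 < (1 / δ) ^ r := by positivity
    have h2 : 0 < gf f e * K e f := (mul_pos_iff_of_pos_left h1).mp hpos
    have h3 : 0 < gf f e := by
      by_contra hneg
      push Not at hneg
      have := mul_nonpos_of_nonpos_of_nonneg hneg (hK e f)
      linarith
    exact ⟨a, e, he.2.1, he.2.2, h3, fun h0 => by rw [h0, mul_zero] at h2; exact lt_irrefl _ h2⟩
  · exact absurd h (lt_irrefl _)

/-- positive mass at `f` means a path of disjoint states from `e0` to `f` through active states -/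
theorem G_path (hK : IsKer E K s χ) (hr : 1 ≤ r) (hδ : 0 < δ) (i : ℕ)
    (ω : V × Fin T × Fin (m + 1) → Bool) (f : Fin r → V) (h : 0 < G E K s δ e0 i ω f) :
    ∃ x : ℕ → (Fin r → V), x 0 = e0 ∧ x (i + 1) = f ∧
      (∀ j ≤ i, K (x j) (x (j + 1)) ≠ 0) ∧
      (∀ j k, j < k → k ≤ i + 1 → Dj (x j) (x k)) ∧
      (∀ j, 1 ≤ j → j ≤ i → ∀ c, ∃ t a, ω (x j c, t, a) = true) := by
  induction i generalizing ω f with
  | zero =>
    unfold G at h
    split_ifs at h with hd
    · refine ⟨fun j => if j = 0 then e0 else f, by simp, by simp, ?_, ?_, ?_⟩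
      · intro j hj
        have hj0 : j = 0 := by omega
        subst hj0
        simp only [if_true]
        intro h0
        simp only [Nat.zero_add, one_ne_zero, if_false] at h0
        rw [h0, mul_zero] at h
        exact lt_irrefl _ h
      · intro j k hjk hk
        have hj0 : j = 0 := by omega
        have hk1 : k = 1 := by omega
        subst hj0 hk1
        simp only [if_true, one_ne_zero, if_false]
        intro a b hab
        exact hd b a hab.symm
      · intro j h1 h2
        omega
    · exact absurd h (lt_irrefl _)
  | succ i ih =>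
    unfold G at h
    split_ifs at h with hi
    · obtain ⟨hd, a, e, hef, hfire, hpos, hKef⟩ := gpath_step hK.nonneg hδ _ _ _ _ h
      obtain ⟨x, hx0, hx1, hxK, hxD, hxA⟩ := ih (off (verts f) ω) e hpos
      have hact : ∀ j, 1 ≤ j → j ≤ i → ∀ c, (∃ t a, ω (x j c, t, a) = true) ∧ x j c ∉ verts f := by
        intro j h1 h2 c
        obtain ⟨t, a', hta⟩ := hxA j h1 h2 c
        unfold off at hta
        simp only at hta
        split_ifs at hta with hmem
        exact ⟨⟨t, a', hta⟩, hmem⟩
      have hlast : ∀ j ≤ i + 1, Dj (x j) f := by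
        intro j hj
        by_cases h0 : j = 0
        · subst h0
          rw [hx0]
          intro a b hab
          exact hd b a hab.symm
        · by_cases h1 : j = i + 1
          · subst h1
            rw [hx1]
            exact hef
          · intro a b hab
            apply (hact j (by omega) (by omega) a).2
            unfold verts
            rw [Finset.mem_image]
            exact ⟨b, Finset.mem_univ _, hab.symm⟩
      refine ⟨fun j => if j ≤ i + 1 then x j else f, ?_, ?_, ?_, ?_, ?_⟩
      · simp [hx0]
      · simp
      · intro j hj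
        by_cases h1 : j = i + 1
        · subst h1
          simp only [le_refl, if_true]
          rw [if_neg (by omega), hx1]
          exact hKef
        · simp only
          rw [if_pos hj, if_pos (by omega)]
          exact hxK j (by omega)
      · intro j k hjk hk
        simp only
        rw [if_pos (by omega : j ≤ i + 1)]
        by_cases h1 : k ≤ i + 1
        · rw [if_pos h1]
          exact hxD j k hjk h1
        · rw [if_neg h1]
          exact hlast j (by omega)
      · intro j h1 h2 c
        simp only
        rw [if_pos h2]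
        by_cases h3 : j = i + 1
        · subst h3
          rw [hx1]
          exact ⟨⟨i, hi⟩, a, hfire c⟩
        · exact (hact j h1 (by omega) c).1
    · exact absurd h (lt_irrefl _)

end Pool.H18.TC
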