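import Pool.Agent.H18.TC.Main
import Pool.Agent.H18.TC.Gpath
import Pool.Agent.H18.TC.Coup

/-! CL: closing the cycle -/

open Finset
open Classical

namespace Pool.H18.TC

variable {r : ℕ} {V : Type*} [Fintype V]

/-- the process reaches many states with positive probability -/
theorem Close_many {E : Finset (Fin r → V)} {K : (Fin r → V) → (Fin r → V) → ℝ} {s : ℝ}
    {χ : V → Fin r} {δ p : ℝ} {T m i : ℕ} {e0 : Fin r → V} (hK : IsKer E K s χ) (he0 : e0 ∈ E)
    (hδ : 0 < δ) (hp0 : 0 ≤ p) (hp1 : p ≤ 1)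
    (h : 9 / 10 ≤ Pr p (fun ω : V × Fin T × Fin (m + 1) → Bool =>
      9 / 10 * (E.card : ℝ) < MM E K s δ e0 i ω)) :
    81 / 100 * (E.card : ℝ)
      ≤ ∑ f ∈ E, Pr p (fun ω : V × Fin T × Fin (m + 1) → Bool => 0 < G E K s δ e0 i ω f) := by
  have h1 : Ex p (fun ω : V × Fin T × Fin (m + 1) → Bool => MM E K s δ e0 i ω)
      ≤ ∑ f ∈ E, Pr p (fun ω : V × Fin T × Fin (m + 1) → Bool => 0 < G E K s δ e0 i ω f) := by
    unfold MM mass
    rw [Ex_sum]
    refine Finset.sum_le_sum fun f hf => ?_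
    unfold Pr
    refine Ex_mono hp0 hp1 fun ω => ?_
    split_ifs with hG
    · exact G_le_one hK he0 hδ i ω hf
    · exact not_lt.1 hG
  have h2 : 9 / 10 * (E.card : ℝ) * Pr p (fun ω : V × Fin T × Fin (m + 1) → Bool =>
      9 / 10 * (E.card : ℝ) < MM E K s δ e0 i ω)
      ≤ Ex p (fun ω : V × Fin T × Fin (m + 1) → Bool => MM E K s δ e0 i ω) := by
    unfold Pr
    rw [← Ex_mul_left]
    refine Ex_mono hp0 hp1 fun ω => ?_
    split_ifs with hG
    · rw [mul_one]; exact hG.le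
    · rw [mul_zero]; exact MM_nonneg hK hδ i ω
  have h3 : (0 : ℝ) ≤ E.card := Nat.cast_nonneg _
  nlinarith

/-- two growth processes, for the kernel and its transpose, meet -/
theorem exists_cycle {E : Finset (Fin r → V)} {K K' : (Fin r → V) → (Fin r → V) → ℝ} {s : ℝ}
    {χ : V → Fin r} {δ KK c0 : ℝ} {T m q : ℕ} (hK : IsKer E K s χ) (hK' : IsKer E K' s χ)
    (hKK' : ∀ x y, K' x y = K y x) (hE : Expands E K c0) (hE' : Expands E K' c0)
    (hne : E.Nonempty) (hnum : Num r E.card s δ KK c0 T m q) :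
    ∃ t, 2 ≤ t ∧ ∃ x : ℕ → (Fin r → V), x t = x 0 ∧ (∀ j < t, K (x j) (x (j + 1)) ≠ 0) ∧
      ∀ i j, i < j → j < t → Dj (x i) (x j) := by
  obtain ⟨e0, he0⟩ := hne
  have hδ := hnum.hδ
  have hδ1 := hnum.hδ1
  have hN : (1 : ℝ) ≤ E.card := hnum.hN
  obtain ⟨p, hp, hp2, i, hi, hpi⟩ := main_grow hK hE he0 hnum
  obtain ⟨p', hp', hp2', i', hi', hpi'⟩ := main_grow hK' hE' he0 hnum
  have hp0 : 0 ≤ p := le_trans hδ.le hp
  have hp1 : p ≤ 1 := by linarith
  have hp0' : 0 ≤ p' := le_trans hδ.le hp'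
  have hp1' : p' ≤ 1 := by linarith
  have h1 := Close_many hK he0 hδ hp0 hp1 hpi
  have h2 := Close_many hK' he0 hδ hp0' hp1' hpi'
  -- a state which both processes reach
  obtain ⟨f, hf, hf1⟩ : ∃ f ∈ E, 1 < Pr p (fun ω : V × Fin T × Fin (m + 1) → Bool =>
      0 < G E K s δ e0 i ω f) + Pr p' (fun ω : V × Fin T × Fin (m + 1) → Bool =>
      0 < G E K' s δ e0 i' ω f) := by
    by_contra hcon
    push Not at hcon
    have h3 := Finset.sum_le_sum hcon
    rw [Finset.sum_add_distrib] at h3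
    simp only [Finset.sum_const, nsmul_eq_mul, mul_one] at h3
    linarith
  have hpow : ∀ p : ℝ, p ≤ 2 * δ → 1 / 2 ≤ (1 - p) ^ (Fintype.card (Fin T × Fin (m + 1))) := by
    intro p hp
    have e : Fintype.card (Fin T × Fin (m + 1)) = T * (m + 1) := by simp
    rw [e]
    have hr := hnum.hr
    calc (1 : ℝ) / 2 ≤ (1 - 2 * δ) ^ (r * (T * (m + 1))) := hnum.hoff
      _ ≤ (1 - 2 * δ) ^ (T * (m + 1)) := by
          refine pow_le_pow_of_le_one (by linarith) (by linarith) ?_
          exact Nat.le_mul_of_pos_left _ hr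
      _ ≤ (1 - p) ^ (T * (m + 1)) := pow_le_pow_left₀ (by linarith) (by linarith) _
  obtain ⟨ω, ω', hω, hω', hex⟩ := coupling (V := V) (J := Fin T × Fin (m + 1)) hp0 hp1 hp0' hp1'
    (hpow p hp2) (hpow p' hp2') _ _ hf1
  obtain ⟨x, hx0, hx1, hxK, hxD, hxa⟩ := G_path hK hnum.hr hδ i ω f hω
  obtain ⟨y, hy0, hy1, hyK, hyD, hya⟩ := G_path hK' hnum.hr hδ i' ω' f hω'
  have hsymm : ∀ a b : Fin r → V, Dj a b → Dj b a := fun a b h k l e => h l k e.symm
  -- the glued path
  set z : ℕ → (Fin r → V) := fun j => if j ≤ i + 1 then x j else y (i + i' + 2 - j) with hz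
  have hz1 : ∀ j, j ≤ i + 1 → z j = x j := fun j hj => by rw [hz]; simp only [if_pos hj]
  have hz2 : ∀ j, i + 1 ≤ j → z j = y (i + i' + 2 - j) := by
    intro j hj
    rcases eq_or_lt_of_le hj with h | h
    · rw [← h, hz1 _ le_rfl, hx1, show i + i' + 2 - (i + 1) = i' + 1 by omega, hy1]
    · rw [hz]; simp only [if_neg (not_le.2 h)]
  refine ⟨i + i' + 2, by omega, z, ?_, ?_, ?_⟩
  · rw [hz2 _ (by omega), hz1 0 (by omega), hx0, Nat.sub_self, hy0]
  · intro j hj
    by_cases hj1 : j ≤ i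
    · rw [hz1 j (by omega), hz1 (j + 1) (by omega)]
      exact hxK j hj1
    · rw [hz2 j (by omega), hz2 (j + 1) (by omega),
        show i + i' + 2 - j = (i + i' + 2 - (j + 1)) + 1 by omega, ← hKK']
      exact hyK _ (by omega)
  · intro a b hab hbt
    by_cases hb : b ≤ i + 1
    · rw [hz1 a (by omega), hz1 b hb]
      exact hxD a b hab hb
    · by_cases ha : i + 1 ≤ a
      · rw [hz2 a ha, hz2 b (by omega)]
        exact hsymm _ _ (hyD _ _ (by omega) (by omega))
      · rw [hz1 a (by omega), hz2 b (by omega)]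
        by_cases ha0 : a = 0
        · rw [ha0, hx0, ← hy0]
          exact hyD _ _ (by omega) (by omega)
        · intro k l e
          obtain ⟨t1, a1, h1⟩ := hxa a (by omega) (by omega) k
          obtain ⟨t2, a2, h2⟩ := hya (i + i' + 2 - b) (by omega) (by omega) l
          rw [← e] at h2
          rcases hex (x a k) with h | h
          · have := h (t1, a1)
            rw [h1] at this
            exact absurd this (by simp)
          · have := h (t2, a2)
            rw [h2] at this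
            exact absurd this (by simp)

end Pool.H18.TC
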