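import Mathlib

/-!
# Tight cycles: definitions for the upper bound n^(r-1) (log n)^(1+eps)

All files of this project use classical decidability (`open Classical`).
-/

open Finset
open Classical

namespace Pool.H18.TC

/-! ### Finite product Bernoulli spaces -/

section Prob
variable {B : Type*} [Fintype B]

/-- weight of a configuration under the product Bernoulli measure with parameter `p` -/
noncomputable def wt (p : ℝ) (ω : B → Bool) : ℝ := ∏ b, (if ω b = true then p else 1 - p)

/-- expectation under the product Bernoulli measure with parameter `p` -/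
noncomputable def Ex (p : ℝ) (F : (B → Bool) → ℝ) : ℝ := ∑ ω : B → Bool, wt p ω * F ω

/-- probability of an event -/
noncomputable def Pr (p : ℝ) (A : (B → Bool) → Prop) : ℝ := Ex p (fun ω => if A ω then 1 else 0)

/-- take the bits in `A` from `ω'` and the others from `ω` -/
noncomputable def merge (A : Finset B) (ω' ω : B → Bool) : B → Bool :=
  fun b => if b ∈ A then ω' b else ω b

/-- value with the bit `b` off minus value with the bit `b` on -/
noncomputable def Dd (b : B) (F : (B → Bool) → ℝ) (ω : B → Bool) : ℝ :=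
  F (Function.update ω b false) - F (Function.update ω b true)

end Prob

/-! ### States -/

section State
variable {r : ℕ} {V : Type*} [Fintype V]

/-- the two states (r-tuples of vertices) have no vertex in common -/
def Dj (x y : Fin r → V) : Prop := ∀ k l, x k ≠ y l

/-- vertex set of a state -/
noncomputable def verts (x : Fin r → V) : Finset V := univ.image x

/-- number of choices for coordinate `k`: `U`-states agreeing with `x` off `k` -/
noncomputable def dg (U : Finset (Fin r → V)) (k : Fin r) (x : Fin r → V) : ℕ :=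
  (univ.filter (fun v : V => Function.update x k v ∈ U)).card

/-- total mass of a function on the states of `E` -/
noncomputable def mass (E : Finset (Fin r → V)) (g : (Fin r → V) → ℝ) : ℝ := ∑ x ∈ E, g x

/-- mass of the states of `E` that agree with `τ` on `T` -/
noncomputable def star (E : Finset (Fin r → V)) (g : (Fin r → V) → ℝ) (T : Finset (Fin r))
    (τ : Fin r → V) : ℝ := ∑ x ∈ E.filter (fun x => ∀ k ∈ T, x k = τ k), g x

/-- push forward of the mass function `g` by the kernel `K` -/
noncomputable def push (E : Finset (Fin r → V)) (K : (Fin r → V) → (Fin r → V) → ℝ)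
    (g : (Fin r → V) → ℝ) (f : Fin r → V) : ℝ := ∑ e ∈ E, g e * K e f

/-- doubly stochastic kernels on `E` that spread every coordinate over at least `s` vertices -/
structure IsKer (E : Finset (Fin r → V)) (K : (Fin r → V) → (Fin r → V) → ℝ) (s : ℝ)
    (χ : V → Fin r) : Prop where
  one_le : 1 ≤ s
  part : ∀ x ∈ E, ∀ k, χ (x k) = k
  nonneg : ∀ e f, 0 ≤ K e f
  row : ∀ e ∈ E, ∑ f ∈ E, K e f = 1
  col : ∀ f ∈ E, ∑ e ∈ E, K e f = 1
  rowT : ∀ e ∈ E, ∀ (T : Finset (Fin r)) (τ : Fin r → V), star E (fun f => K e f) T τ ≤ (1 / s) ^ T.card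
  colT : ∀ f ∈ E, ∀ (T : Finset (Fin r)) (τ : Fin r → V), star E (fun e => K e f) T τ ≤ (1 / s) ^ T.card

/-- the expansion property of `(E, K)` with constant `c` -/
def Expands (E : Finset (Fin r → V)) (K : (Fin r → V) → (Fin r → V) → ℝ) (c : ℝ) : Prop :=
  ∀ g : (Fin r → V) → ℝ, (∀ x ∈ E, 0 ≤ g x) → (∀ x ∈ E, g x ≤ 1) → 1 ≤ mass E g →
    mass E g ≤ (9 / 10) * (E.card : ℝ) →
    c * (1 + Real.log ((E.card : ℝ) / mass E g)) * mass E g
      ≤ ∑ f ∈ E, min (push E K g f) (1 - push E K g f)

end State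

/-! ### The potential -/

/-- `log (1 + log (N/M))` for `M ≥ 1`, extended linearly below `1` -/
noncomputable def Lam (N M : ℝ) : ℝ :=
  Real.log (1 + Real.log (N / max M 1)) + (1 - min M 1) / (2 * (1 + Real.log N))

/-- half of the slope of `Lam` -/
noncomputable def ww (N M : ℝ) : ℝ := 1 / (2 * (max M 1 * (1 + Real.log (N / max M 1))))

/-! ### The process -/

/-- amplification by two, capped at one -/
noncomputable def psi (y : ℝ) : ℝ := min 1 (2 * y)

section Step
variable {r : ℕ} {V : Type*} [Fintype V] {B : Type*} [Fintype B] {m : ℕ}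

/-- all vertices of `e` are in the random set number `a` (bits read off by `ι a`) -/
def Fire (ι : Fin (m + 1) → V → B) (ω : B → Bool) (a : Fin (m + 1)) (e : Fin r → V) : Prop :=
  ∀ k, ω (ι a (e k)) = true

/-- rescaled mass sent to `f` by the fired states, from the mass functions `gf f ≤ g` -/
noncomputable def YY (E : Finset (Fin r → V)) (K : (Fin r → V) → (Fin r → V) → ℝ) (δ : ℝ)
    (gf : (Fin r → V) → (Fin r → V) → ℝ) (ι : Fin (m + 1) → V → B) (ω : B → Bool)
    (a : Fin (m + 1)) (f : Fin r → V) : ℝ :=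
  ∑ e ∈ E.filter (fun e => Dj e f ∧ Fire ι ω a e), (1 / δ) ^ r * (gf f e * K e f)

/-- the new mass function -/
noncomputable def gnew (E : Finset (Fin r → V)) (K : (Fin r → V) → (Fin r → V) → ℝ) (δ : ℝ)
    (e0 : Fin r → V) (gf : (Fin r → V) → (Fin r → V) → ℝ) (ι : Fin (m + 1) → V → B)
    (ω : B → Bool) (f : Fin r → V) : ℝ :=
  if Dj f e0 then univ.sup' univ_nonempty (fun a => psi (YY E K δ gf ι ω a f)) else 0

/-- rescaled fired mass of copy `a` -/
noncomputable def WW (E : Finset (Fin r → V)) (δ : ℝ) (g : (Fin r → V) → ℝ)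
    (ι : Fin (m + 1) → V → B) (ω : B → Bool) (a : Fin (m + 1)) : ℝ :=
  ∑ e ∈ E.filter (fun e => Fire ι ω a e), (1 / δ) ^ r * g e

end Step

section Proc
variable {r : ℕ} {V : Type*} [Fintype V] {T m : ℕ}

/-- switch off all bits of the vertices in `X` -/
noncomputable def off (X : Finset V) (ω : V × Fin T × Fin (m + 1) → Bool) :
    V × Fin T × Fin (m + 1) → Bool := fun b => if b.1 ∈ X then false else ω b

/-- the bits of round `i`; beyond the last round we use a dummy round and the process is not used -/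
def bitOf (i : ℕ) (hi : i < T) (a : Fin (m + 1)) (v : V) : V × Fin T × Fin (m + 1) :=
  (v, ⟨i, hi⟩, a)

/-- the growth process; `G i ω f > 0` implies that `f` is reachable from `e0` by a path of pairwise
disjoint states through fired states of rounds `0, ..., i-1`. -/
noncomputable def G (E : Finset (Fin r → V)) (K : (Fin r → V) → (Fin r → V) → ℝ) (s δ : ℝ)
    (e0 : Fin r → V) : ℕ → (V × Fin T × Fin (m + 1) → Bool) → (Fin r → V) → ℝ
  | 0, _, f => if Dj f e0 then s ^ r * K e0 f else 0
  | (i + 1), ω, f =>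
      if hi : i < T then
        gnew E K δ e0 (fun f' e => G E K s δ e0 i (off (verts f') ω) e) (bitOf i hi) ω f
      else 0

/-- total mass of the process -/
noncomputable def MM (E : Finset (Fin r → V)) (K : (Fin r → V) → (Fin r → V) → ℝ) (s δ : ℝ)
    (e0 : Fin r → V) (i : ℕ) (ω : V × Fin T × Fin (m + 1) → Bool) : ℝ :=
  mass E (G E K s δ e0 i ω)

/-- the mass lost because of the vertex avoidance -/
noncomputable def Loss (E : Finset (Fin r → V)) (K : (Fin r → V) → (Fin r → V) → ℝ) (s δ : ℝ)
    (e0 : Fin r → V) (i : ℕ) (ω : V × Fin T × Fin (m + 1) → Bool) : ℝ :=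
  ∑ e ∈ E, ∑ f ∈ E, (G E K s δ e0 i ω e - G E K s δ e0 i (off (verts f) ω) e) * K e f

end Proc

/-! ### The kernels of an expander -/

section Kernel
variable {r : ℕ} {V : Type*} [Fintype V]

/-- first `k` coordinates from `f`, the others from `e` -/
def mix (k : ℕ) (e f : Fin r → V) : Fin r → V := fun j => if j.val < k then f j else e j

/-- resample the coordinate `k` uniformly inside `E` -/
noncomputable def Kone (E : Finset (Fin r → V)) (k : Fin r) (x y : Fin r → V) : ℝ :=
  if x ∈ E ∧ y ∈ E ∧ ∀ j, j ≠ k → x j = y j then 1 / (dg E k x : ℝ) else 0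

/-- resample the coordinates of a list, one after the other -/
noncomputable def KL (E : Finset (Fin r → V)) : List (Fin r) → (Fin r → V) → (Fin r → V) → ℝ
  | [], x, y => if x ∈ E ∧ x = y then 1 else 0
  | (k :: l), x, y => ∑ z ∈ E, Kone E k x z * KL E l z y

end Kernel

/-! ### Numerical parameters -/

/-- upper bound for `Lam` -/
noncomputable def Lmax (N : ℝ) : ℝ := Real.log (1 + Real.log N) + 1 / 2

/-- `(1+1/x)^r - 1`, with `x = δ s` -/
noncomputable def kap (r : ℕ) (x : ℝ) : ℝ := (1 + 1 / x) ^ r - 1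

/-- bound for the spread constants -/
noncomputable def Cmx (m : ℕ) (K : ℝ) : ℝ := 4 * (m + 1) * K

/-- failure probability of one copy -/
noncomputable def kapa (r : ℕ) (x C : ℝ) : ℝ := kap r x * (256 * C + 350)

/-- the gain of one round -/
noncomputable def cgain (N c0 : ℝ) : ℝ := min (3 * c0 / 16) (1 / (32 * (1 + Real.log N)))

/-- failure probability of one round -/
noncomputable def kap3 (r : ℕ) (x K : ℝ) (m q : ℕ) : ℝ :=
  kapa r x (Cmx m K) ^ (m + 1) + (m + 1) * (2 ^ (r + 1) / K) ^ q

/-- everything that is needed of the parameters -/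
structure Num (r : ℕ) (N s δ0 K c0 : ℝ) (T m q : ℕ) : Prop where
  hr : 1 ≤ r
  hN : 1 ≤ N
  hs : 1 ≤ s
  hδ : 0 < δ0
  hδ1 : 2 * δ0 < 1
  hoff : 1 / 2 ≤ (1 - 2 * δ0) ^ (r * (T * (m + 1)))
  hK : 1 ≤ K
  hc0 : 0 < c0
  hκ : kap r (δ0 * s) * (32 * Cmx m K + 192) ≤ 1 / 64
  hM : 2 ≤ s ^ r / (8 * Cmx m K)
  hl1 : r * T / s ≤ 1 / 16
  hl2 : 2 * r / s ≤ 1 / 16
  hmom : 1 + Cmx m K * (kap r (δ0 * s / (r * q))) ≤ 2
  hT : 40 * Lmax N ≤ cgain N c0 * T
  hfail : T * kap3 r (δ0 * s) K m q ≤ 1 / 20
  herr : 24 * Lmax N / s + 6 * r / s + 4 * (16 * kap r (δ0 * s)) ^ (m + 1)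
      + kapa r (δ0 * s) (Cmx m K) ^ (m + 1) * (Lmax N + 1)
      + Lmax N * (T * kap3 r (δ0 * s) K m q) ≤ cgain N c0 / 40
  hq : 1 ≤ q
  hT1 : 1 ≤ T

end Pool.H18.TC
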