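import Pool.Agent.H18.TC.Fail

/-! S1, third part: the expected decrease of the potential in one round -/

open Finset
open Classical

namespace Pool.H18.TC

variable {r : ℕ} {V : Type*} [Fintype V] {B : Type*} [Fintype B] {m : ℕ}
variable {E : Finset (Fin r → V)} {K : (Fin r → V) → (Fin r → V) → ℝ} {s : ℝ} {χ : V → Fin r}
  {δ C : ℝ} {e0 : Fin r → V} {g : (Fin r → V) → ℝ} {gf : (Fin r → V) → (Fin r → V) → ℝ}
  {ι : Fin (m + 1) → V → B}

/-- the elementary inequality behind the drift estimate: `γ` the gain, `l` the loss,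
`z` the linear fluctuation, `t` the nonnegative error, `x` the clamped relative increase -/
theorem drift_scalar {γ l z t x : ℝ} (hγ : 0 ≤ γ) (hγ1 : γ ≤ 1 / 16) (hl : 0 ≤ l) (ht : 0 ≤ t)
    (hx : x = max (-(1 / 2)) (min (1 / 8) (γ - l + z - t))) :
    γ + z - 2 * γ ^ 2 - 2 * l - 2 * t - 8 * z ^ 2 ≤ x - x ^ 2 := by
  have h1 : (γ - l + z - t) - 4 * z ^ 2 ≤ x := by
    rcases le_total (γ - l + z - t) (1 / 8) with h | h
    · have h2 : γ - l + z - t ≤ x := by
        rw [hx, min_eq_right h]; exact le_max_right _ _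
      nlinarith [sq_nonneg z]
    · have h2 : 1 / 8 ≤ x := by
        rw [hx, min_eq_left h]; exact le_max_right _ _
      nlinarith [sq_nonneg (2 * z - 1 / 4)]
  have h2 : x ^ 2 ≤ 2 * γ ^ 2 + 4 * z ^ 2 + l + t := by
    rcases le_total 0 (γ - l + z - t) with h | h
    · have h3 : 0 ≤ x := by
        rw [hx]; exact le_max_of_le_right (le_min (by norm_num) h)
      have h4 : x ≤ γ - l + z - t := by
        rw [hx]; exact max_le (by linarith) (min_le_right _ _)
      have h5 : x ≤ γ + z := by linarith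
      nlinarith [sq_nonneg (γ - z), sq_nonneg z, mul_self_le_mul_self h3 h5]
    · have h3 : x ≤ 0 := by
        rw [hx]; exact max_le (by norm_num) ((min_le_right _ _).trans h)
      have h4 : -(1 / 2) ≤ x := by
        rw [hx]; exact le_max_left _ _
      have h5 : γ - l + z - t ≤ x := by
        rw [hx, min_eq_right (by linarith)]; exact le_max_right _ _
      rcases le_total (-x / 2) (-z) with h6 | h6
      · nlinarith [sq_nonneg γ]
      · nlinarith [sq_nonneg γ, sq_nonneg z]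
  linarith

theorem drift_kap_nonneg (h : Step E K s χ δ C e0 g gf ι) : 0 ≤ kap r (δ * s) := by
  unfold kap
  have h1 : 0 < δ * s := mul_pos h.δ0 (lt_of_lt_of_le one_pos h.ker.one_le)
  have h2 : (1 : ℝ) ≤ (1 + 1 / (δ * s)) ^ r := by
    apply one_le_pow₀
    have : 0 < 1 / (δ * s) := by positivity
    linarith
  linarith

/-- the error term of one state -/
noncomputable def driftErr (E : Finset (Fin r → V)) (K : (Fin r → V) → (Fin r → V) → ℝ) (δ : ℝ)
    (gf : (Fin r → V) → (Fin r → V) → ℝ) (ι : Fin (m + 1) → V → B) (f : Fin r → V)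
    (ω : B → Bool) : ℝ :=
  if yy E K gf f ≤ 1 / 4 then 2 * (YY E K δ gf ι ω 0 f - yy E K gf f) ^ 2
  else if yy E K gf f < 3 / 4 then 16 * (YY E K δ gf ι ω 0 f - yy E K gf f) ^ 2
  else if ∀ a, YY E K δ gf ι ω a f < 1 / 2 then 1 else 0

/-- the gain of one state -/
noncomputable def driftGain (E : Finset (Fin r → V)) (K : (Fin r → V) → (Fin r → V) → ℝ)
    (gf : (Fin r → V) → (Fin r → V) → ℝ) (f : Fin r → V) : ℝ :=
  if yy E K gf f ≤ 1 / 4 then yy E K gf f
    else if yy E K gf f < 3 / 4 then 3 / 16 else 1 - yy E K gf f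

theorem driftErr_nonneg (E : Finset (Fin r → V)) (K : (Fin r → V) → (Fin r → V) → ℝ) (δ : ℝ)
    (gf : (Fin r → V) → (Fin r → V) → ℝ) (ι : Fin (m + 1) → V → B) (f : Fin r → V)
    (ω : B → Bool) : 0 ≤ driftErr E K δ gf ι f ω := by
  unfold driftErr
  split_ifs <;> positivity

theorem drift_point (h : Step E K s χ δ C e0 g gf ι) (ω) {f} (hf : f ∈ FF E e0) :
    yy E K gf f + driftGain E K gf f
      + (if yy E K gf f ≤ 1 / 4 then 2 * (YY E K δ gf ι ω 0 f - yy E K gf f) else 0)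
      - driftErr E K δ gf ι f ω ≤ gnew E K δ e0 gf ι ω f := by
  have hD : Dj f e0 := (Finset.mem_filter.1 hf).2
  have hsup : ∀ a, psi (YY E K δ gf ι ω a f) ≤ gnew E K δ e0 gf ι ω f := by
    intro a
    rw [gnew, if_pos hD]
    exact Finset.le_sup' (fun a => psi (YY E K δ gf ι ω a f)) (Finset.mem_univ a)
  unfold driftGain driftErr
  by_cases h1 : yy E K gf f ≤ 1 / 4
  · simp only [h1, if_true]
    have h2 := psi_low (Y := YY E K δ gf ι ω 0 f) h1
    have h3 := hsup 0
    linarith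
  · simp only [h1, if_false]
    by_cases h2 : yy E K gf f < 3 / 4
    · simp only [h2, if_true]
      have h3 := psi_mid (le_of_lt (not_le.1 h1)) h2.le (YY_nonneg h ω 0 f)
      have h4 := hsup 0
      linarith
    · simp only [h2, if_false]
      by_cases h3 : ∀ a, YY E K δ gf ι ω a f < 1 / 2
      · rw [if_pos h3]
        have := gnew_nonneg h ω f
        linarith
      · rw [if_neg h3]
        push Not at h3
        obtain ⟨a, ha⟩ := h3
        have h4 := psi_sat' (YY_nonneg h ω a f)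
        rw [if_neg (not_lt.2 ha)] at h4
        have h5 := hsup a
        linarith

theorem drift_lower (h : Step E K s χ δ C e0 g gf ι) (ω) :
    ∑ f ∈ FF E e0, yy E K gf f + Gam E K gf e0 + ZZ E K δ gf e0 ι ω 0
      - ∑ f ∈ FF E e0, driftErr E K δ gf ι f ω ≤ mass E (gnew E K δ e0 gf ι ω) := by
  have h1 : mass E (gnew E K δ e0 gf ι ω) = ∑ f ∈ FF E e0, gnew E K δ e0 gf ι ω f := by
    rw [mass, FF, Finset.sum_filter]
    apply Finset.sum_congr rfl
    intro f _
    by_cases hD : Dj f e0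
    · rw [if_pos hD]
    · rw [if_neg hD, gnew, if_neg hD]
  have h2 : ZZ E K δ gf e0 ι ω 0 = ∑ f ∈ FF E e0,
      (if yy E K gf f ≤ 1 / 4 then 2 * (YY E K δ gf ι ω 0 f - yy E K gf f) else 0) := by
    rw [ZZ, Finset.mul_sum, Finset.sum_filter]
  rw [h1, h2]
  unfold Gam
  rw [← Finset.sum_add_distrib, ← Finset.sum_add_distrib, ← Finset.sum_sub_distrib]
  exact Finset.sum_le_sum fun f hf => drift_point h ω hf

theorem drift_sat (h : Step E K s χ δ C e0 g gf ι) {f} (hf : f ∈ E) (hy : 3 / 4 ≤ yy E K gf f) :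
    Pr δ (fun ω => ∀ a, YY E K δ gf ι ω a f < 1 / 2) ≤ (16 * kap r (δ * s)) ^ (m + 1) := by
  have hκ := drift_kap_nonneg h
  rw [Pr_forall_indep δ (fun a => univ.image (ι a)) ?_ (fun a ω => YY E K δ gf ι ω a f < 1 / 2) ?_]
  · have h1 : ∀ a ∈ (univ : Finset (Fin (m + 1))),
        Pr δ (fun ω => YY E K δ gf ι ω a f < 1 / 2) ≤ 16 * kap r (δ * s) := by
      intro a _
      have h2 := Pr_le_of_lt (A := fun ω => YY E K δ gf ι ω a f < 1 / 2) h.δ0.le h.δ1
        (F := fun ω => (YY E K δ gf ι ω a f - yy E K gf f) ^ 2) (fun ω => sq_nonneg _)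
        (t := 1 / 16) (by norm_num) (fun ω hω => by nlinarith)
      have h3 := Var_YY h a hf
      have h4 := yy_le_one h hf
      have h5 : kap r (δ * s) * yy E K gf f ≤ kap r (δ * s) := by nlinarith
      calc _ ≤ _ := h2
        _ ≤ _ := by
          rw [div_eq_mul_inv]
          norm_num
          linarith
    have h0 : ∀ a ∈ (univ : Finset (Fin (m + 1))),
        0 ≤ Pr δ (fun ω => YY E K δ gf ι ω a f < 1 / 2) := by
      intro a _
      exact Ex_nonneg h.δ0.le h.δ1 (fun ω => by split_ifs <;> norm_num)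
    calc _ ≤ ∏ a : Fin (m + 1), 16 * kap r (δ * s) := Finset.prod_le_prod h0 h1
      _ = _ := by rw [Finset.prod_const, Finset.card_univ, Fintype.card_fin]
  · intro i j hij
    rw [Finset.disjoint_left]
    intro b hb hb'
    obtain ⟨v, -, hv⟩ := Finset.mem_image.1 hb
    obtain ⟨w, -, hw⟩ := Finset.mem_image.1 hb'
    exact hij (h.inj i j v w (hv.trans hw.symm)).1
  · intro a ω ω' hb
    have h1 : YY E K δ gf ι ω a f = YY E K δ gf ι ω' a f := by
      unfold YY
      apply Finset.sum_congr _ fun _ _ => rfl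
      apply Finset.filter_congr
      intro e _
      have h2 : Fire ι ω a e ↔ Fire ι ω' a e := by
        unfold Fire
        refine forall_congr' fun k => ?_
        rw [hb _ (Finset.mem_image_of_mem _ (Finset.mem_univ _))]
      rw [h2]
    rw [h1]

theorem drift_err (h : Step E K s χ δ C e0 g gf ι) {f} (hf : f ∈ E) :
    Ex δ (driftErr E K δ gf ι f) ≤ 64 * kap r (δ * s) * driftGain E K gf f
      + 4 / 3 * (16 * kap r (δ * s)) ^ (m + 1) * yy E K gf f := by
  have hκ := drift_kap_nonneg h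
  have hy0 := yy_nonneg h f
  have hy1 := yy_le_one h hf
  have hpow : 0 ≤ (16 * kap r (δ * s)) ^ (m + 1) := by positivity
  have hV := Var_YY h 0 hf
  by_cases h1 : yy E K gf f ≤ 1 / 4
  · have h2 : driftErr E K δ gf ι f = fun ω => 2 * (YY E K δ gf ι ω 0 f - yy E K gf f) ^ 2 := by
      funext ω
      unfold driftErr
      rw [if_pos h1]
    rw [h2, Ex_mul_left]
    unfold driftGain
    rw [if_pos h1]
    have h3 : 0 ≤ 4 / 3 * (16 * kap r (δ * s)) ^ (m + 1) * yy E K gf f := by positivity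
    have h4 : 0 ≤ kap r (δ * s) * yy E K gf f := by positivity
    nlinarith
  · by_cases h2 : yy E K gf f < 3 / 4
    · have h3 : driftErr E K δ gf ι f = fun ω => 16 * (YY E K δ gf ι ω 0 f - yy E K gf f) ^ 2 := by
        funext ω
        unfold driftErr
        rw [if_neg h1, if_pos h2]
      rw [h3, Ex_mul_left]
      unfold driftGain
      rw [if_neg h1, if_pos h2]
      have h4 : 0 ≤ 4 / 3 * (16 * kap r (δ * s)) ^ (m + 1) * yy E K gf f := by positivity
      nlinarith
    · have h3 : driftErr E K δ gf ι f =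
          fun ω => if ∀ a, YY E K δ gf ι ω a f < 1 / 2 then (1 : ℝ) else 0 := by
        funext ω
        unfold driftErr
        rw [if_neg h1, if_neg h2]
      rw [h3]
      unfold driftGain
      rw [if_neg h1, if_neg h2]
      have h4 := drift_sat h hf (not_lt.1 h2)
      simp only [Pr] at h4
      have h4' : (Ex δ fun ω => if ∀ a, YY E K δ gf ι ω a f < 1 / 2 then (1 : ℝ) else 0) ≤
          (16 * kap r (δ * s)) ^ (m + 1) := by
        convert h4
      have h5 : 0 ≤ 64 * kap r (δ * s) * (1 - yy E K gf f) := by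
        apply mul_nonneg (by positivity) (by linarith)
      have h6 : (16 * kap r (δ * s)) ^ (m + 1) ≤
          4 / 3 * (16 * kap r (δ * s)) ^ (m + 1) * yy E K gf f := by
        have h7 : 3 / 4 ≤ yy E K gf f := not_lt.1 h2
        nlinarith
      linarith

theorem drift_err_total (h : Step E K s χ δ C e0 g gf ι) :
    Ex δ (fun ω => ∑ f ∈ FF E e0, driftErr E K δ gf ι f ω) ≤ 64 * kap r (δ * s) * Gam E K gf e0
      + 4 / 3 * (16 * kap r (δ * s)) ^ (m + 1) * mass E g := by
  have hκ := drift_kap_nonneg h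
  rw [Ex_sum]
  have h1 : ∑ f ∈ FF E e0, Ex δ (driftErr E K δ gf ι f) ≤
      ∑ f ∈ FF E e0, (64 * kap r (δ * s) * driftGain E K gf f
        + 4 / 3 * (16 * kap r (δ * s)) ^ (m + 1) * yy E K gf f) :=
    Finset.sum_le_sum fun f hf => drift_err h (Finset.mem_filter.1 hf).1
  rw [Finset.sum_add_distrib, ← Finset.mul_sum, ← Finset.mul_sum] at h1
  have h2 : ∑ f ∈ FF E e0, driftGain E K gf f = Gam E K gf e0 := rfl
  have h3 := sum_yy_le h
  rw [h2] at h1
  have h4 : 4 / 3 * (16 * kap r (δ * s)) ^ (m + 1) * ∑ f ∈ FF E e0, yy E K gf f ≤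
      4 / 3 * (16 * kap r (δ * s)) ^ (m + 1) * mass E g :=
    mul_le_mul_of_nonneg_left h3 (by positivity)
  linarith

theorem drift_arith {κ C γ l P A Bz X G : ℝ} (hk0 : 0 ≤ κ) (hκ : κ * (32 * C + 192) ≤ 1 / 64)
    (hγ0 : 0 ≤ γ) (hγ1 : γ ≤ 1 / 16) (hG : G ≤ 16 * γ) (hC0 : 0 ≤ C) (hP : 0 ≤ P)
    (hA : A ≤ 64 * κ * G + 4 / 3 * P) (hB : Bz ≤ 4 * κ * C * G)
    (hX : γ - 2 * γ ^ 2 - 2 * l - 2 * A - 8 * Bz ≤ X) : 1 / 2 * γ - 2 * l - 4 * P ≤ X := by
  have h1 : 64 * κ * G ≤ 64 * κ * (16 * γ) := mul_le_mul_of_nonneg_left hG (by positivity)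
  have h2 : 4 * κ * C * G ≤ 4 * κ * C * (16 * γ) := mul_le_mul_of_nonneg_left hG (by positivity)
  have h3 : κ * (512 * C + 2048) ≤ 1 / 4 := by linarith
  have h4 : κ * (512 * C + 2048) * γ ≤ 1 / 4 * γ := mul_le_mul_of_nonneg_right h3 hγ0
  have h5 : 0 ≤ γ * (1 / 16 - γ) := mul_nonneg hγ0 (by linarith)
  have h6 : 2 * γ ^ 2 ≤ 1 / 8 * γ := by linarith
  linarith

theorem drift (h : Step E K s χ δ C e0 g gf ι) (hM : 2 ≤ mass E g)
    (hκ : kap r (δ * s) * (32 * C + 192) ≤ 1 / 64) :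
    Ex δ (fun ω => Lam E.card (mass E (gnew E K δ e0 gf ι ω)))
      ≤ Lam E.card (mass E g)
        - (1 / (1 + Real.log (E.card / mass E g))) *
          (1 / 2 * min (3 / 8 * (∑ f ∈ E, min (push E K g f) (1 - push E K g f)) / mass E g) (1 / 16)
            - 3 * (loss1 E K g gf + 2 * r / s * mass E g) / mass E g
            - 4 * (16 * kap r (δ * s)) ^ (m + 1))
        + (kapa r (δ * s) C) ^ (m + 1) * (Lmax E.card + 1) := by
  have hk0 := drift_kap_nonneg h
  set κ := kap r (δ * s) with hκdef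
  set M := mass E g with hMdef
  set N : ℝ := (E.card : ℝ) with hNdef
  set Γ := Gam E K gf e0 with hΓdef
  set Q := ∑ f ∈ E, min (push E K g f) (1 - push E K g f) with hQdef
  set lam := loss1 E K g gf + 2 * r / s * M with hlam
  set P := (16 * κ) ^ (m + 1) with hP
  have hM0 : 0 < M := by linarith
  have hs0 : 0 < s := lt_of_lt_of_le one_pos h.ker.one_le
  have hMN : M ≤ N := by
    rw [hMdef, mass, hNdef]
    have h1 := Finset.sum_le_card_nsmul E g 1 h.g1
    simpa using h1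
  have hN1 : 1 ≤ N := by linarith
  have hMN' : ∀ ω, mass E (gnew E K δ e0 gf ι ω) ≤ N := by
    intro ω
    rw [mass, hNdef]
    have h1 := Finset.sum_le_card_nsmul E (gnew E K δ e0 gf ι ω) 1
      fun f _ => gnew_le_one E K δ e0 gf ι ω f
    simpa using h1
  have hM'0 : ∀ ω, 0 ≤ mass E (gnew E K δ e0 gf ι ω) := fun ω =>
    Finset.sum_nonneg fun f _ => gnew_nonneg h ω f
  have hlam0 : 0 ≤ lam := by
    have h1 : 0 ≤ loss1 E K g gf := by
      apply Finset.sum_nonneg fun e _ => Finset.sum_nonneg fun f _ => ?_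
      exact mul_nonneg (by linarith [h.gfg f e]) (h.ker.nonneg e f)
    have h2 : 0 ≤ 2 * r / s * M := by positivity
    linarith
  have hΓ0 : 0 ≤ Γ := Gam_nonneg h
  have hΓM : Γ ≤ M := Gam_le h
  have hP0 : 0 ≤ P := by positivity
  set J := 1 + Real.log (N / M) with hJ
  have hJ1 : 1 ≤ J := by
    have : 0 ≤ Real.log (N / M) := Real.log_nonneg (by rw [le_div_iff₀ hM0]; linarith)
    linarith
  have hJ0 : 0 < J := by linarith
  -- the scalars
  set γ := min (Γ / M) (1 / 16) with hγ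
  set l := lam / M with hl
  let Z : (B → Bool) → ℝ := fun ω => ZZ E K δ gf e0 ι ω 0
  let D : (B → Bool) → ℝ := fun ω => ∑ f ∈ FF E e0, driftErr E K δ gf ι f ω
  let X : (B → Bool) → ℝ := fun ω =>
    max (-(1 / 2)) (min (1 / 8) (γ - l + Z ω / M - D ω / M))
  have hγ0 : 0 ≤ γ := le_min (by positivity) (by norm_num)
  have hγ1 : γ ≤ 1 / 16 := min_le_right _ _
  have hl0 : 0 ≤ l := by positivity
  have hD0 : ∀ ω, 0 ≤ D ω := fun ω => Finset.sum_nonneg fun f _ => driftErr_nonneg E K δ gf ι f ω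
  have hLmax : 0 < Lmax N := Lmax_pos hN1
  have hXl : ∀ ω, -(1 / 2) ≤ X ω := fun ω => le_max_left _ _
  have hXu : ∀ ω, X ω ≤ 1 / 8 := fun ω => max_le (by norm_num) (min_le_left _ _)
  -- the pointwise inequality
  have hpoint : ∀ ω, Lam N (mass E (gnew E K δ e0 gf ι ω)) ≤
      (Lam N M - (1 / J) * (X ω - X ω ^ 2)) +
        (Lmax N + 1) * (if mass E (gnew E K δ e0 gf ι ω) < M / 2 then 1 else 0) := by
    intro ω
    have hx8 : X ω - X ω ^ 2 ≤ 1 / 8 := by nlinarith [hXu ω, sq_nonneg (X ω)]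
    split_ifs with hlt
    · have h1 := Lam_le hN1 (hM'0 ω) (hMN' ω)
      have h2 := Lam_nonneg hN1 hM0.le hMN
      have h3 : (1 / J) * (X ω - X ω ^ 2) ≤ 1 := by
        have h4 : 1 / J ≤ 1 := by rw [div_le_one hJ0]; exact hJ1
        have h5 : 0 < 1 / J := by positivity
        nlinarith
      linarith
    · rw [mul_zero, add_zero]
      refine Lam_step hN1 hM hMN (not_lt.1 hlt) (hMN' ω) (hXl ω) (hXu ω) ?_
      rcases le_total (-(1 / 2)) (min (1 / 8) (γ - l + Z ω / M - D ω / M)) with h1 | h1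
      · have h2 : X ω = min (1 / 8) (γ - l + Z ω / M - D ω / M) := max_eq_right h1
        have h3 : X ω ≤ γ - l + Z ω / M - D ω / M := by rw [h2]; exact min_le_right _ _
        have h4 := drift_lower h ω
        have h5 := sum_yy_ge h
        have h6 : γ ≤ Γ / M := min_le_left _ _
        have h7 : (1 + X ω) * M ≤ (1 + (Γ / M - l + Z ω / M - D ω / M)) * M :=
          mul_le_mul_of_nonneg_right (by linarith) hM0.le
        have h8 : (1 + (Γ / M - l + Z ω / M - D ω / M)) * M = M + Γ - lam + Z ω - D ω := by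
          rw [hl]; field_simp; try ring
        rw [h8] at h7
        have h9 : Z ω = ZZ E K δ gf e0 ι ω 0 := rfl
        have h10 : D ω = ∑ f ∈ FF E e0, driftErr E K δ gf ι f ω := rfl
        rw [← h9, ← h10] at h4
        linarith
      · have h2 : X ω = -(1 / 2) := max_eq_left h1
        rw [h2]
        have := not_lt.1 hlt
        linarith
  -- expectations
  have hE1 : Ex δ (fun ω => Lam N (mass E (gnew E K δ e0 gf ι ω))) ≤
      Lam N M - (1 / J) * Ex δ (fun ω => X ω - X ω ^ 2) +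
        (Lmax N + 1) * Pr δ (fun ω => mass E (gnew E K δ e0 gf ι ω) < M / 2) := by
    refine (Ex_mono h.δ0.le h.δ1 hpoint).trans (le_of_eq ?_)
    rw [Ex_add, Ex_sub, Ex_const, Ex_mul_left, Ex_mul_left]
    rfl
  have hfail := fail_half h hM0
  have hE2 : γ - 2 * γ ^ 2 - 2 * l - 2 * (Ex δ D / M) - 8 * (Ex δ (fun ω => Z ω ^ 2) / M ^ 2) ≤
      Ex δ (fun ω => X ω - X ω ^ 2) := by
    have h1 : ∀ ω, (γ - 2 * γ ^ 2 - 2 * l) + (1 / M) * Z ω - (2 / M) * D ω -
        (8 / M ^ 2) * (Z ω ^ 2) ≤ X ω - X ω ^ 2 := by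
      intro ω
      have h2 := drift_scalar (γ := γ) (l := l) (z := Z ω / M) (t := D ω / M) (x := X ω)
        hγ0 hγ1 hl0 (div_nonneg (hD0 ω) hM0.le) rfl
      have h3 : (8 / M ^ 2) * (Z ω ^ 2) = 8 * (Z ω / M) ^ 2 := by ring
      have h4 : (1 / M) * Z ω = Z ω / M := by ring
      have h5 : (2 / M) * D ω = 2 * (D ω / M) := by ring
      rw [h3, h4, h5]
      linarith
    have h2 := Ex_mono h.δ0.le h.δ1 h1
    rw [Ex_sub, Ex_sub, Ex_add, Ex_const, Ex_mul_left, Ex_mul_left, Ex_mul_left] at h2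
    have h3 : Ex δ Z = 0 := Ex_ZZ h 0
    rw [h3] at h2
    have h4 : (2 / M) * Ex δ D = 2 * (Ex δ D / M) := by ring
    have h5 : (8 / M ^ 2) * Ex δ (fun ω => Z ω ^ 2) = 8 * (Ex δ (fun ω => Z ω ^ 2) / M ^ 2) := by
      ring
    rw [h4, h5] at h2
    linarith
  have hD := drift_err_total h
  have hZ := Var_ZZ h 0
  have hΓγ : Γ / M ≤ 16 * γ := by
    rcases le_total (Γ / M) (1 / 16) with h1 | h1
    · rw [hγ, min_eq_left h1]
      have : 0 ≤ Γ / M := by positivity
      linarith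
    · rw [hγ, min_eq_right h1]
      rw [div_le_iff₀ hM0]; linarith
  have hD' : Ex δ D / M ≤ 64 * κ * (Γ / M) + 4 / 3 * P := by
    rw [div_le_iff₀ hM0]
    have h1 : (64 * κ * (Γ / M) + 4 / 3 * P) * M = 64 * κ * Γ + 4 / 3 * P * M := by
      field_simp
    rw [h1]
    exact hD
  have hZ' : Ex δ (fun ω => Z ω ^ 2) / M ^ 2 ≤ 4 * κ * C * (Γ / M) := by
    rw [div_le_iff₀ (by positivity)]
    have h1 : 4 * κ * C * (Γ / M) * M ^ 2 = 4 * κ * C * M * Γ := by
      field_simp
    rw [h1]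
    exact hZ
  have hC0 : 0 ≤ C := by linarith [h.C0]
  have hE3 : 1 / 2 * γ - 2 * l - 4 * P ≤ Ex δ (fun ω => X ω - X ω ^ 2) :=
    drift_arith hk0 hκ hγ0 hγ1 hΓγ hC0 hP0 hD' hZ' hE2
  have hγge : min (3 / 8 * Q / M) (1 / 16) - 3 / 8 * l ≤ γ := by
    have h1 := Gam_ge h
    have h2 : 3 / 8 * Q / M - 3 / 8 * l ≤ Γ / M := by
      rw [hl, le_div_iff₀ hM0]
      have h3 : (3 / 8 * Q / M - 3 / 8 * (lam / M)) * M = 3 / 8 * (Q - lam) := by
        field_simp
      rw [h3]
      exact h1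
    rw [hγ]
    apply le_min
    · have := min_le_left (3 / 8 * Q / M) (1 / 16)
      linarith
    · have := min_le_right (3 / 8 * Q / M) (1 / 16)
      linarith
  have hfin : 1 / 2 * min (3 / 8 * Q / M) (1 / 16) - 3 * lam / M - 4 * P ≤
      Ex δ (fun ω => X ω - X ω ^ 2) := by
    have h1 : 3 * lam / M = 3 * l := by rw [hl]; ring
    rw [h1]
    linarith
  have hJinv : 0 < 1 / J := by positivity
  have h1 := mul_le_mul_of_nonneg_left hfin hJinv.le
  have h2 : (Lmax N + 1) * Pr δ (fun ω => mass E (gnew E K δ e0 gf ι ω) < M / 2) ≤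
      (Lmax N + 1) * (kapa r (δ * s) C) ^ (m + 1) :=
    mul_le_mul_of_nonneg_left hfail (by linarith)
  rw [mul_comm ((kapa r (δ * s) C) ^ (m + 1))]
  linarith

end Pool.H18.TC
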