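import Pool.Agent.H18.TC.One

/-! S1, second part: failure probabilities of one round -/

open Finset
open Classical

namespace Pool.H18.TC

variable {r : ℕ} {V : Type*} [Fintype V] {B : Type*} [Fintype B] {m : ℕ}
variable {E : Finset (Fin r → V)} {K : (Fin r → V) → (Fin r → V) → ℝ} {s : ℝ} {χ : V → Fin r}
  {δ C : ℝ} {e0 : Fin r → V} {g : (Fin r → V) → ℝ} {gf : (Fin r → V) → (Fin r → V) → ℝ}
  {ι : Fin (m + 1) → V → B}

/-- the quadratic error term of copy `a` -/
noncomputable def fail_E (E : Finset (Fin r → V)) (K : (Fin r → V) → (Fin r → V) → ℝ) (δ : ℝ)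
    (gf : (Fin r → V) → (Fin r → V) → ℝ) (e0 : Fin r → V) (ι : Fin (m + 1) → V → B) (ω : B → Bool)
    (a : Fin (m + 1)) : ℝ :=
  ∑ f ∈ FF E e0, (if yy E K gf f ≤ 1 / 4 then 2 else 16) *
    (YY E K δ gf ι ω a f - yy E K gf f) ^ 2

/-- pointwise lower bound for one copy -/
lemma fail_point (h : Step E K s χ δ C e0 g gf ι) (ω : B → Bool) (a : Fin (m + 1)) :
    ∑ f ∈ FF E e0, yy E K gf f + Gam E K gf e0 + ZZ E K δ gf e0 ι ω a
      - fail_E E K δ gf e0 ι ω a ≤ ∑ f ∈ FF E e0, psi (YY E K δ gf ι ω a f) := by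
  have h1 : ZZ E K δ gf e0 ι ω a = ∑ f ∈ FF E e0,
      (if yy E K gf f ≤ 1 / 4 then 2 * (YY E K δ gf ι ω a f - yy E K gf f) else 0) := by
    unfold ZZ
    rw [Finset.mul_sum, Finset.sum_filter]
  rw [h1]
  unfold Gam fail_E
  rw [← Finset.sum_add_distrib, ← Finset.sum_add_distrib, ← Finset.sum_sub_distrib]
  apply Finset.sum_le_sum
  intro f _
  have hY := YY_nonneg h ω a f
  set y := yy E K gf f with hy
  set Y := YY E K δ gf ι ω a f with hYdef
  by_cases h2 : y ≤ 1 / 4
  · rw [if_pos h2, if_pos h2, if_pos h2]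
    have := psi_low (Y := Y) h2
    linarith
  · rw [if_neg h2, if_neg h2, if_neg h2]
    push Not at h2
    by_cases h3 : y < 3 / 4
    · rw [if_pos h3]
      have := psi_mid (Y := Y) h2.le h3.le hY
      linarith
    · rw [if_neg h3]
      push Not at h3
      have := psi_sat (Y := Y) h3 hY
      linarith

lemma fail_kap_nonneg (h : Step E K s χ δ C e0 g gf ι) : 0 ≤ kap r (δ * s) := by
  have hs : 0 < s := lt_of_lt_of_le one_pos h.ker.one_le
  have hδ := h.δ0
  unfold kap
  have h1 : (1 : ℝ) ≤ (1 + 1 / (δ * s)) ^ r := one_le_pow₀ (by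
    have : 0 < 1 / (δ * s) := by positivity
    linarith)
  linarith

lemma fail_E_nonneg (ω : B → Bool) (a : Fin (m + 1)) : 0 ≤ fail_E E K δ gf e0 ι ω a := by
  unfold fail_E
  apply Finset.sum_nonneg
  intro f _
  split_ifs <;> positivity

/-- expected quadratic error -/
lemma fail_Ex_E (h : Step E K s χ δ C e0 g gf ι) (a : Fin (m + 1)) :
    Ex δ (fun ω => fail_E E K δ gf e0 ι ω a) ≤ 16 * kap r (δ * s) * mass E g := by
  have hk := fail_kap_nonneg h
  unfold fail_E
  rw [Ex_sum]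
  calc ∑ f ∈ FF E e0, Ex δ (fun ω => (if yy E K gf f ≤ 1 / 4 then (2 : ℝ) else 16) *
        (YY E K δ gf ι ω a f - yy E K gf f) ^ 2)
      ≤ ∑ f ∈ FF E e0, 16 * (kap r (δ * s) * yy E K gf f) := by
        apply Finset.sum_le_sum
        intro f hf
        have hfE : f ∈ E := by
          unfold FF at hf
          exact (Finset.mem_filter.mp hf).1
        rw [Ex_mul_left]
        have h1 := Var_YY h a hfE
        have h2 : 0 ≤ Ex δ (fun ω => (YY E K δ gf ι ω a f - yy E K gf f) ^ 2) :=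
          Ex_nonneg h.δ0.le h.δ1 (fun ω => sq_nonneg _)
        have h3 : (if yy E K gf f ≤ 1 / 4 then (2 : ℝ) else 16) ≤ 16 := by
          split_ifs <;> norm_num
        calc (if yy E K gf f ≤ 1 / 4 then (2 : ℝ) else 16)
              * Ex δ (fun ω => (YY E K δ gf ι ω a f - yy E K gf f) ^ 2)
            ≤ 16 * Ex δ (fun ω => (YY E K δ gf ι ω a f - yy E K gf f) ^ 2) :=
              mul_le_mul_of_nonneg_right h3 h2
          _ ≤ 16 * (kap r (δ * s) * yy E K gf f) := by linarith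
    _ = 16 * kap r (δ * s) * ∑ f ∈ FF E e0, yy E K gf f := by
        rw [Finset.mul_sum]
        apply Finset.sum_congr rfl
        intro f _
        ring
    _ ≤ 16 * kap r (δ * s) * mass E g := by
        apply mul_le_mul_of_nonneg_left (sum_yy_le h) (by positivity)

/-- the bad event of the copy `a` -/
def fail_bad (E : Finset (Fin r → V)) (K : (Fin r → V) → (Fin r → V) → ℝ) (δ : ℝ)
    (g : (Fin r → V) → ℝ)
    (gf : (Fin r → V) → (Fin r → V) → ℝ) (e0 : Fin r → V) (ι : Fin (m + 1) → V → B)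
    (a : Fin (m + 1)) (ω : B → Bool) : Prop :=
  3 * mass E g / 16 ≤ |ZZ E K δ gf e0 ι ω a| ∨ 3 * mass E g / 16 ≤ fail_E E K δ gf e0 ι ω a

lemma fail_Pr_bad (h : Step E K s χ δ C e0 g gf ι) (hM : 0 < mass E g) (a : Fin (m + 1)) :
    Pr δ (fail_bad E K δ g gf e0 ι a) ≤ kapa r (δ * s) C := by
  have hk := fail_kap_nonneg h
  have hC := h.C0
  have h1 : Pr δ (fun ω => 3 * mass E g / 16 ≤ |ZZ E K δ gf e0 ι ω a|)
      ≤ (4 * kap r (δ * s) * C * mass E g * Gam E K gf e0) / (3 * mass E g / 16) ^ 2 := by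
    refine (Pr_le_of_lt (p := δ) h.δ0.le h.δ1
      (F := fun ω => (ZZ E K δ gf e0 ι ω a) ^ 2) (fun ω => sq_nonneg _)
      (t := (3 * mass E g / 16) ^ 2) (by positivity) ?_).trans ?_
    · intro ω hω
      rw [← sq_abs (ZZ E K δ gf e0 ι ω a)]
      exact pow_le_pow_left₀ (by positivity) hω 2
    · exact div_le_div_of_nonneg_right (Var_ZZ h a) (by positivity)
  have h2 : Pr δ (fun ω => 3 * mass E g / 16 ≤ fail_E E K δ gf e0 ι ω a)
      ≤ (16 * kap r (δ * s) * mass E g) / (3 * mass E g / 16) := by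
    refine (Pr_le_of_lt (p := δ) h.δ0.le h.δ1
      (F := fun ω => fail_E E K δ gf e0 ι ω a) (fun ω => fail_E_nonneg ω a)
      (t := 3 * mass E g / 16) (by positivity) (fun ω hω => hω)).trans ?_
    exact div_le_div_of_nonneg_right (fail_Ex_E h a) (by positivity)
  have h3 : (4 * kap r (δ * s) * C * mass E g * Gam E K gf e0) / (3 * mass E g / 16) ^ 2
      ≤ 114 * C * kap r (δ * s) := by
    rw [div_le_iff₀ (by positivity)]
    have h4 := Gam_le h
    have h5 : 4 * kap r (δ * s) * C * mass E g * Gam E K gf e0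
        ≤ 4 * kap r (δ * s) * C * mass E g * mass E g := by
      apply mul_le_mul_of_nonneg_left h4 (by positivity)
    have h6 : 0 ≤ kap r (δ * s) * C * mass E g * mass E g := by positivity
    nlinarith
  have h4 : (16 * kap r (δ * s) * mass E g) / (3 * mass E g / 16) ≤ 86 * kap r (δ * s) := by
    rw [div_le_iff₀ (by positivity)]
    have h6 : 0 ≤ kap r (δ * s) * mass E g := by positivity
    nlinarith
  have h5 := Pr_or_le (p := δ) h.δ0.le h.δ1
    (fun ω : B → Bool => 3 * mass E g / 16 ≤ |ZZ E K δ gf e0 ι ω a|)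
    (fun ω : B → Bool => 3 * mass E g / 16 ≤ fail_E E K δ gf e0 ι ω a)
  have h6 : Pr δ (fail_bad E K δ g gf e0 ι a) ≤ 114 * C * kap r (δ * s) + 86 * kap r (δ * s) :=
    le_trans h5 (by linarith)
  refine h6.trans ?_
  unfold kapa
  have h7 : 0 ≤ C * kap r (δ * s) := by positivity
  nlinarith

lemma fail_YY_congr (E : Finset (Fin r → V)) (K : (Fin r → V) → (Fin r → V) → ℝ) (δ : ℝ)
    (gf : (Fin r → V) → (Fin r → V) → ℝ) (ι : Fin (m + 1) → V → B) (a : Fin (m + 1))
    {ω ω' : B → Bool} (h : ∀ v, ω (ι a v) = ω' (ι a v)) (f : Fin r → V) :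
    YY E K δ gf ι ω a f = YY E K δ gf ι ω' a f := by
  unfold YY
  congr 1
  apply Finset.filter_congr
  intro e _
  unfold Fire
  simp only [h]

lemma fail_Pr_all (h : Step E K s χ δ C e0 g gf ι) (hM : 0 < mass E g) :
    Pr δ (fun ω => ∀ a, fail_bad E K δ g gf e0 ι a ω) ≤ (kapa r (δ * s) C) ^ (m + 1) := by
  have h1 := Pr_forall_indep (n := m + 1) δ (fun a => (univ : Finset V).image (ι a)) (by
    intro a b hab
    rw [Finset.disjoint_left]
    intro x hx hx'
    obtain ⟨v, _, hv⟩ := Finset.mem_image.mp hx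
    obtain ⟨w, _, hw⟩ := Finset.mem_image.mp hx'
    exact hab (h.inj a b v w (by rw [hv, hw])).1) (fun a => fail_bad E K δ g gf e0 ι a) (by
    intro a ω ω' hω
    have h2 : ∀ v, ω (ι a v) = ω' (ι a v) := fun v => hω _ (Finset.mem_image_of_mem _ (mem_univ v))
    have h3 : ∀ f, YY E K δ gf ι ω a f = YY E K δ gf ι ω' a f := fail_YY_congr E K δ gf ι a h2
    unfold fail_bad ZZ fail_E
    simp only [h3])
  rw [h1]
  calc ∏ a : Fin (m + 1), Pr δ (fail_bad E K δ g gf e0 ι a)
      ≤ ∏ _a : Fin (m + 1), kapa r (δ * s) C := by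
        apply Finset.prod_le_prod
        · intro a _
          exact Ex_nonneg h.δ0.le h.δ1 (fun ω => by split_ifs <;> norm_num)
        · intro a _
          exact fail_Pr_bad h hM a
    _ = (kapa r (δ * s) C) ^ (m + 1) := by
        rw [Finset.prod_const, Finset.card_univ, Fintype.card_fin]

lemma fail_not_bad (h : Step E K s χ δ C e0 g gf ι) (ω : B → Bool) (a : Fin (m + 1))
    (hb : ¬ fail_bad E K δ g gf e0 ι a ω) :
    mass E g / 2 + Gam E K gf e0 ≤ mass E (gnew E K δ e0 gf ι ω) := by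
  unfold fail_bad at hb
  push Not at hb
  obtain ⟨h1, h2⟩ := hb
  have h3 := fail_point h ω a
  have h4 := mass_gnew_ge h ω a
  have h5 := sum_yy_ge h
  have h6 := h.lam
  have h7 := neg_abs_le (ZZ E K δ gf e0 ι ω a)
  linarith

theorem fail_half (h : Step E K s χ δ C e0 g gf ι) (hM : 0 < mass E g) :
    Pr δ (fun ω => mass E (gnew E K δ e0 gf ι ω) < mass E g / 2)
      ≤ (kapa r (δ * s) C) ^ (m + 1) := by
  refine le_trans (Pr_mono h.δ0.le h.δ1 ?_) (fail_Pr_all h hM)
  intro ω hω a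
  by_contra hb
  have h1 := fail_not_bad h ω a hb
  have h2 := Gam_nonneg h
  linarith

theorem fail_grow (h : Step E K s χ δ C e0 g gf ι) (hM : 0 < mass E g)
    (hq : ∀ e ∈ E, g e ≤ 1 / 4) :
    Pr δ (fun ω => mass E (gnew E K δ e0 gf ι ω) < mass E g)
      ≤ (kapa r (δ * s) C) ^ (m + 1) := by
  refine le_trans (Pr_mono h.δ0.le h.δ1 ?_) (fail_Pr_all h hM)
  intro ω hω a
  by_contra hb
  have h1 := fail_not_bad h ω a hb
  have h2 : ∀ f ∈ FF E e0, yy E K gf f ≤ 1 / 4 := by
    intro f hf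
    have hfE : f ∈ E := by
      unfold FF at hf
      exact (Finset.mem_filter.mp hf).1
    refine (yy_le_push h f).trans ?_
    unfold push
    calc ∑ e ∈ E, g e * K e f ≤ ∑ e ∈ E, 1 / 4 * K e f := by
          apply Finset.sum_le_sum
          intro e he
          exact mul_le_mul_of_nonneg_right (hq e he) (h.ker.nonneg e f)
      _ = 1 / 4 := by rw [← Finset.mul_sum, h.ker.col f hfE, mul_one]
  have h3 : Gam E K gf e0 = ∑ f ∈ FF E e0, yy E K gf f := by
    unfold Gam
    apply Finset.sum_congr rfl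
    intro f hf
    rw [if_pos (h2 f hf)]
  have h4 := sum_yy_ge h
  have h5 := h.lam
  linarith

end Pool.H18.TC
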