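import Pool.Agent.H18.TC.Defs

/-! choice of the parameters -/

open Finset
open Classical

namespace Pool.H18.TC

theorem NumC_pow (r : ℕ) (u : ℝ) (h0 : 0 ≤ u) (h1 : u ≤ 1) : (1 + u) ^ r - 1 ≤ u * (2 ^ r - 1) := by
  induction r with
  | zero => simp
  | succ n ih =>
    have hp : (1:ℝ) ≤ 2 ^ n := one_le_pow₀ (by norm_num)
    have h2 : (1 + u) ^ (n + 1) = (1 + u) ^ n * (1 + u) := pow_succ _ _
    have h3 : (1 + u) ^ n * (1 + u) ≤ (1 + u * (2 ^ n - 1)) * (1 + u) := by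
      apply mul_le_mul_of_nonneg_right _ (by linarith)
      linarith
    have h4 : u * (u * (2 ^ n - 1)) ≤ u * (2 ^ n - 1) := by
      apply mul_le_of_le_one_left _ h1
      apply mul_nonneg h0; linarith
    rw [h2, pow_succ]
    nlinarith

theorem NumC_kap_le (r : ℕ) (x : ℝ) (hx : 1 ≤ x) : kap r x ≤ 2 ^ r / x := by
  have h := NumC_pow r (1 / x) (by positivity) (by rw [div_le_one (by linarith)]; exact hx)
  unfold kap
  have hx0 : 0 < x := by linarith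
  have h2 : 1 / x * (2 ^ r - 1) ≤ 2 ^ r / x := by
    rw [div_mul_eq_mul_div, one_mul]
    apply div_le_div_of_nonneg_right _ hx0.le
    linarith
  linarith

theorem NumC_kap_nonneg (r : ℕ) (x : ℝ) (hx : 0 ≤ x) : 0 ≤ kap r x := by
  unfold kap
  have : (1:ℝ) ≤ (1 + 1 / x) ^ r := one_le_pow₀ (by have : 0 ≤ 1 / x := by positivity
                                                    linarith)
  linarith

theorem NumC_two_pow {l : ℝ} (hl : 1 ≤ l) {q : ℕ} (hq : 8 * Real.log l ≤ q) : l ^ 5 ≤ (2:ℝ) ^ q := by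
  have hl0 : 0 < l := by linarith
  have hlog : 0 ≤ Real.log l := Real.log_nonneg hl
  rw [← Real.log_le_log_iff (by positivity) (by positivity), Real.log_pow, Real.log_pow]
  have h2 : (0.69:ℝ) < Real.log 2 := by
    have := Real.log_two_gt_d9
    linarith
  push_cast
  nlinarith

/-- the eventual inequalities for `ℓ` -/
theorem NumC_ev (r : ℕ) : ∀ᶠ l : ℝ in Filter.atTop, Real.log l ^ 3 ≤ l ∧ 10 ^ 8 * (r:ℝ) ^ 3 ≤ l ∧
      1 ≤ Real.log l ∧ Real.log (2 * r) + 1 / 2 ≤ Real.log l := by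
  have e1 : ∀ᶠ l : ℝ in Filter.atTop, Real.log l ^ 3 ≤ l := by
    have h := (Real.isLittleO_pow_log_id_atTop (n := 3)).bound (c := 1) one_pos
    filter_upwards [h, Filter.eventually_ge_atTop 1] with x hx hx1
    have hlog := Real.log_nonneg hx1
    simp only [Real.norm_eq_abs, id, one_mul] at hx
    rw [abs_of_nonneg (by positivity), abs_of_nonneg (by linarith)] at hx
    exact hx
  have e2 := Filter.eventually_ge_atTop (10 ^ 8 * (r:ℝ) ^ 3)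
  have e3 := Real.tendsto_log_atTop.eventually_ge_atTop 1
  have e4 := Real.tendsto_log_atTop.eventually_ge_atTop (Real.log (2 * r) + 1 / 2)
  filter_upwards [e1, e2, e3, e4] with x h1 h2 h3 h4
  exact ⟨h1, h2, h3, h4⟩

theorem NumC_cgain {r l N : ℝ} (hr : 2 ≤ r) (hl : 1 ≤ l) (hN : 1 ≤ N) (hlogN : Real.log N ≤ r * l) :
    cgain N (1 / (2000 * r ^ 3 * l)) = 3 / (32000 * r ^ 3 * l) := by
  have hlogN0 : 0 ≤ Real.log N := Real.log_nonneg hN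
  have hl0 : 0 < l := by linarith
  have hr0 : 0 < r := by linarith
  unfold cgain
  have e : 3 * (1 / (2000 * r ^ 3 * l)) / 16 = 3 / (32000 * r ^ 3 * l) := by
    field_simp; norm_num
  rw [e]
  apply min_eq_left
  rw [div_le_div_iff₀ (by positivity) (by positivity)]
  have hr2 : 4 ≤ r ^ 2 := by nlinarith
  have h1 : r ≤ r ^ 3 := by nlinarith
  have h2 : r * l ≤ r ^ 3 * l := mul_le_mul_of_nonneg_right h1 hl0.le
  have h3 : 1 ≤ r * l := by nlinarith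
  nlinarith

theorem NumC_Lmax {r l N : ℝ} (hr : 2 ≤ r) (hl : 1 ≤ l) (hN : 1 ≤ N) (hlogN : Real.log N ≤ r * l)
    (h4 : Real.log (2 * r) + 1 / 2 ≤ Real.log l) : Lmax N ≤ 2 * Real.log l := by
  have hlogN0 : 0 ≤ Real.log N := Real.log_nonneg hN
  have hl0 : 0 < l := by linarith
  have hr0 : 0 < r := by linarith
  unfold Lmax
  have h1 : Real.log (1 + Real.log N) ≤ Real.log (2 * r * l) := by
    apply Real.log_le_log (by linarith)
    nlinarith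
  rw [Real.log_mul (by positivity) (by positivity)] at h1
  linarith

theorem NumC_Lmax_pos {N : ℝ} (hN : 1 ≤ N) : 0 < Lmax N := by
  have hlogN0 : 0 ≤ Real.log N := Real.log_nonneg hN
  unfold Lmax
  have := Real.log_nonneg (show 1 ≤ 1 + Real.log N by linarith)
  linarith

/-- basic bounds for the quantities that involve `kap` -/
theorem NumC_k1 {R A' L k C : ℝ} (hR : 4 ≤ R) (hL : 1 ≤ L) (hA' : 10 ^ 6 * (R * R) ≤ A')
    (_hk0 : 0 ≤ k) (hk : k ≤ R / (A' * L ^ 2)) (hC0 : 0 ≤ C) (hC : C ≤ 144 * R * L) :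
    k * (32 * C + 192) ≤ 1 / 64 ∧ k * (256 * C + 350) ≤ 1 / 2 ∧ 16 * k ≤ 1 / 2 := by
  have hRR : 16 ≤ R * R := by nlinarith
  have hA'pos : 0 < A' := by nlinarith
  have hLL : 0 < A' * L ^ 2 := by positivity
  have key : ∀ Y : ℝ, 0 ≤ Y → ∀ c : ℝ, 0 < c → R * Y ≤ c * (10 ^ 6 * (R * R)) * L → k * Y ≤ c := by
    intro Y hY c hc h
    have h1 : k * Y ≤ R / (A' * L ^ 2) * Y := mul_le_mul_of_nonneg_right hk hY
    refine le_trans h1 ?_
    rw [div_mul_eq_mul_div, div_le_iff₀ hLL]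
    refine le_trans h ?_
    have h2 : c * (10 ^ 6 * (R * R)) * L ≤ c * A' * L := by
      apply mul_le_mul_of_nonneg_right _ (by linarith)
      exact mul_le_mul_of_nonneg_left hA' hc.le
    have h3 : c * A' * L ≤ c * (A' * L ^ 2) := by
      have : L ≤ L ^ 2 := by nlinarith
      have := mul_le_mul_of_nonneg_left this (show 0 ≤ c * A' by positivity)
      linarith
    linarith
  have hRL : 4 ≤ R * L := by nlinarith
  refine ⟨?_, ?_, ?_⟩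
  · apply key _ (by positivity) _ (by norm_num)
    have h5 : 32 * C + 192 ≤ 4656 * (R * L) := by nlinarith
    have h6 : R * (32 * C + 192) ≤ R * (4656 * (R * L)) := mul_le_mul_of_nonneg_left h5 (by linarith)
    have h7 : 0 ≤ R * R * L := by positivity
    nlinarith
  · apply key _ (by positivity) _ (by norm_num)
    have h5 : 256 * C + 350 ≤ 37000 * (R * L) := by nlinarith
    have h6 : R * (256 * C + 350) ≤ R * (37000 * (R * L)) := mul_le_mul_of_nonneg_left h5 (by linarith)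
    have h7 : 0 ≤ R * R * L := by positivity
    nlinarith
  · rw [mul_comm]
    apply key _ (by positivity) _ (by norm_num)
    have h7 : R * 1 ≤ R * (R * L) := mul_le_mul_of_nonneg_left (by linarith) (by linarith)
    nlinarith

theorem NumC_T {ρ l L M cg : ℝ} {T : ℕ} (hρ : 2 ≤ ρ) (hl : 1 ≤ l) (hL : 1 ≤ L) (hM0 : 0 < M)
    (hM : M ≤ 2 * L) (hcg : cg = 3 / (32000 * ρ ^ 3 * l)) (hT : T = ⌈40 * M / cg⌉₊) :
    40 * M ≤ cg * T ∧ 0 < T ∧ (T:ℝ) ≤ 10 ^ 6 * ρ ^ 3 * l * L := by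
  have hρ3 : 8 ≤ ρ ^ 3 := by
    calc (8:ℝ) = 2 ^ 3 := by norm_num
      _ ≤ ρ ^ 3 := pow_le_pow_left₀ (by norm_num) hρ 3
  have hρl : 1 ≤ ρ ^ 3 * l := one_le_mul_of_one_le_of_one_le (by linarith) hl
  have hρlL : 1 ≤ ρ ^ 3 * l * L := one_le_mul_of_one_le_of_one_le hρl hL
  have hcgpos : 0 < cg := by rw [hcg]; positivity
  refine ⟨?_, ?_, ?_⟩
  · have : 40 * M / cg ≤ T := by rw [hT]; exact Nat.le_ceil _
    rw [div_le_iff₀ hcgpos] at this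
    linarith
  · rw [hT]; exact Nat.ceil_pos.2 (by positivity)
  · have h1 := Nat.ceil_lt_add_one (a := 40 * M / cg) (by positivity)
    rw [← hT] at h1
    have h2 : 40 * M / cg ≤ 900000 * (ρ ^ 3 * l * L) := by
      rw [div_le_iff₀ hcgpos, hcg, mul_div_assoc', le_div_iff₀ (by positivity)]
      have h3 : M * (ρ ^ 3 * l) ≤ 2 * L * (ρ ^ 3 * l) := mul_le_mul_of_nonneg_right hM (by positivity)
      have h4 : 0 ≤ ρ ^ 3 * l * L := by linarith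
      nlinarith
    linarith

theorem NumC_small {ρ l L δ T q : ℝ} (hρ : 2 ≤ ρ) (hδ : 0 < δ) (hl : 1 ≤ l) (hL : 1 ≤ L)
    (hδ2 : 10 ^ 8 * ρ ^ 4 * l * L ^ 2 * δ ≤ 1) (hT : 1 ≤ T) (hT2 : T ≤ 10 ^ 6 * ρ ^ 3 * l * L)
    (hq : 1 ≤ q) (hq2 : q ≤ 9 * L) : 2 * δ * (ρ * (T * q)) ≤ 1 / 2 ∧ 2 * δ < 1 := by
  have hTq : T * q ≤ 9 * 10 ^ 6 * ρ ^ 3 * l * L ^ 2 := by
    calc T * q ≤ (10 ^ 6 * ρ ^ 3 * l * L) * (9 * L) := by
          apply mul_le_mul hT2 hq2 (by positivity) (by positivity)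
      _ = _ := by ring
  have hoff1 : 2 * δ * (ρ * (T * q)) ≤ 1 / 2 := by
    have h1 : 2 * δ * (ρ * (T * q)) ≤ 2 * δ * (ρ * (9 * 10 ^ 6 * ρ ^ 3 * l * L ^ 2)) := by
      apply mul_le_mul_of_nonneg_left _ (by positivity)
      exact mul_le_mul_of_nonneg_left hTq (by linarith)
    have h2 : 2 * δ * (ρ * (9 * 10 ^ 6 * ρ ^ 3 * l * L ^ 2)) = 18 / 100 * (10 ^ 8 * ρ ^ 4 * l * L ^ 2 * δ) := by
      ring
    rw [h2] at h1
    linarith
  refine ⟨hoff1, ?_⟩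
  have h1 : 1 ≤ ρ * (T * q) :=
    one_le_mul_of_one_le_of_one_le (by linarith) (one_le_mul_of_one_le_of_one_le hT hq)
  have h2 : 2 * δ * 1 ≤ 2 * δ * (ρ * (T * q)) := mul_le_mul_of_nonneg_left h1 (by positivity)
  linarith

theorem NumC_pow1 {L : ℝ} (h : 1 ≤ L) (n : ℕ) : L ≤ L ^ (n + 1) := by
  calc L = L ^ 1 := (pow_one L).symm
    _ ≤ L ^ (n + 1) := pow_le_pow_right₀ h (by omega)

theorem NumC_fail {ρ l L : ℝ} (hρ : 2 ≤ ρ) (hl : 20 ≤ l) (hL : 1 ≤ L) (c1 : L ^ 3 ≤ l)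
    (c2 : 10 ^ 8 * ρ ^ 3 ≤ l) : 10 ^ 7 * ρ ^ 3 * L ^ 2 / l ^ 4 ≤ 1 / 20 := by
  have hlpos : 0 < l := by linarith
  have hρpos : 0 < ρ := by linarith
  have hLl : L ^ 2 ≤ l := by
    have : L ^ 2 ≤ L ^ 3 := pow_le_pow_right₀ hL (by norm_num)
    linarith
  rw [div_le_iff₀ (by positivity)]
  have h0 : 0 ≤ ρ ^ 3 := by positivity
  have h1 : 10 ^ 7 * ρ ^ 3 ≤ l := by linarith
  have h2 : 10 ^ 7 * ρ ^ 3 * L ^ 2 ≤ l * l := mul_le_mul h1 hLl (by positivity) hlpos.le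
  have h3 : 20 ≤ l * l := by nlinarith
  have h4 : 20 * (l * l) ≤ (l * l) * (l * l) := mul_le_mul_of_nonneg_right h3 (by positivity)
  have h5 : (l * l) * (l * l) = l ^ 4 := by ring
  linarith

theorem NumC_err1 {ρ l L A' A s M : ℝ} (hρ : 2 ≤ ρ) (hl : 1 ≤ l) (hL : 1 ≤ L) (hA' : 10 ^ 7 ≤ A')
    (hA : A = 10 ^ 8 * A' * ρ ^ 4) (hs : A * l * L ^ 4 ≤ s) (hs0 : 0 < s) (hM : M ≤ 2 * L) :
    24 * M / s + 6 * ρ / s ≤ 1 / (10 ^ 7 * ρ ^ 3 * l) := by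
  have hρpos : 0 < ρ := by linarith
  have hlpos : 0 < l := by linarith
  have hρ4 : 0 < ρ ^ 4 := by positivity
  have hApos : 0 < A := by rw [hA]; positivity
  rw [← add_div, div_le_div_iff₀ hs0 (by positivity)]
  have h2a : ρ ≤ ρ * L := le_mul_of_one_le_right hρpos.le hL
  have h2b : 2 * L ≤ ρ * L := mul_le_mul_of_nonneg_right hρ (by linarith)
  have h2 : 24 * M + 6 * ρ ≤ 54 * ρ * L := by linarith
  have h3 : 54 * ρ * (10 ^ 7 * ρ ^ 3) ≤ A := by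
    have e : 54 * ρ * (10 ^ 7 * ρ ^ 3) = 54 * 10 ^ 7 * ρ ^ 4 := by ring
    rw [hA, e]
    exact mul_le_mul_of_nonneg_right (by linarith) hρ4.le
  have h5 : 54 * ρ * (10 ^ 7 * ρ ^ 3) * (l * L) ≤ A * (l * L ^ 4) := by
    apply mul_le_mul h3 _ (by positivity) hApos.le
    exact mul_le_mul_of_nonneg_left (NumC_pow1 hL 3) hlpos.le
  have h6 : (24 * M + 6 * ρ) * (10 ^ 7 * ρ ^ 3 * l) ≤ 54 * ρ * L * (10 ^ 7 * ρ ^ 3 * l) :=
    mul_le_mul_of_nonneg_right (by linarith) (by positivity)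
  linarith

theorem NumC_err2 {ρ l L : ℝ} (hρ : 2 ≤ ρ) (hl : 20 ≤ l) (hL : 1 ≤ L) (c1 : L ^ 3 ≤ l)
    (c2 : 10 ^ 8 * ρ ^ 3 ≤ l) :
    4 * (1 / l ^ 5) + 1 / l ^ 5 * (3 * L) + 2 * L * (10 ^ 7 * ρ ^ 3 * L ^ 2 / l ^ 4)
        ≤ 1 / (10 ^ 7 * ρ ^ 3 * l) := by
  have hlpos : 0 < l := by linarith
  have hρpos : 0 < ρ := by linarith
  have hρ3 : 1 ≤ ρ ^ 3 := one_le_pow₀ (by linarith)
  have f1 : 4 * (1 / l ^ 5) + 1 / l ^ 5 * (3 * L) ≤ L ^ 3 * (1 / l ^ 4) := by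
    have g1 : 1 / l ^ 5 = 1 / l * (1 / l ^ 4) := by field_simp
    have g2 : 7 * (1 / l) ≤ 1 := by
      rw [mul_one_div, div_le_one hlpos]; linarith
    have g3 : (4 + 3 * L) * (1 / l) ≤ L ^ 3 := by
      have h7 : (4 + 3 * L) * (1 / l) ≤ 7 * L * (1 / l) :=
        mul_le_mul_of_nonneg_right (by linarith) (by positivity)
      have h8 : L * (7 * (1 / l)) ≤ L * 1 := mul_le_mul_of_nonneg_left g2 (by linarith)
      have h9 : L ≤ L ^ 3 := NumC_pow1 hL 2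
      linarith
    have g4 : (4 + 3 * L) * (1 / l) * (1 / l ^ 4) ≤ L ^ 3 * (1 / l ^ 4) :=
      mul_le_mul_of_nonneg_right g3 (by positivity)
    rw [g1]; linarith
  have f2 : 2 * L * (10 ^ 7 * ρ ^ 3 * L ^ 2 / l ^ 4) = 2 * 10 ^ 7 * (ρ ^ 3 * L ^ 3 * (1 / l ^ 4)) := by
    ring
  have f3 : L ^ 3 * (1 / l ^ 4) ≤ ρ ^ 3 * L ^ 3 * (1 / l ^ 4) := by
    have h1 : 0 ≤ L ^ 3 * (1 / l ^ 4) := by positivity
    have h2 : 1 * (L ^ 3 * (1 / l ^ 4)) ≤ ρ ^ 3 * (L ^ 3 * (1 / l ^ 4)) := mul_le_mul_of_nonneg_right hρ3 h1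
    linarith
  have f4 : ρ ^ 3 * L ^ 3 * (1 / l ^ 4) ≤ ρ ^ 3 * l * (1 / l ^ 4) := by
    apply mul_le_mul_of_nonneg_right _ (by positivity)
    exact mul_le_mul_of_nonneg_left c1 (by positivity)
  have f5 : ρ ^ 3 * l * (1 / l ^ 4) = ρ ^ 3 / l ^ 3 := by field_simp
  have f6 : 3 * 10 ^ 7 * (ρ ^ 3 / l ^ 3) ≤ 1 / (10 ^ 7 * ρ ^ 3 * l) := by
    rw [mul_div_assoc', div_le_div_iff₀ (by positivity) (by positivity)]
    have g1 : (10 ^ 8 * ρ ^ 3) * (10 ^ 8 * ρ ^ 3) ≤ l * l :=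
      mul_le_mul c2 c2 (by positivity) hlpos.le
    have g2 : (10 ^ 8 * ρ ^ 3) * (10 ^ 8 * ρ ^ 3) * l ≤ l * l * l :=
      mul_le_mul_of_nonneg_right g1 hlpos.le
    have g3 : 0 ≤ ρ ^ 3 * ρ ^ 3 * l := by positivity
    have g4 : l * l * l = l ^ 3 := by ring
    have g5 : 3 * 10 ^ 7 * ρ ^ 3 * (10 ^ 7 * ρ ^ 3 * l) = 3 * 10 ^ 14 * (ρ ^ 3 * ρ ^ 3 * l) := by ring
    have g6 : (10 ^ 8 * ρ ^ 3) * (10 ^ 8 * ρ ^ 3) * l = 10 ^ 16 * (ρ ^ 3 * ρ ^ 3 * l) := by ring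
    rw [g5]; rw [g6, g4] at g2
    linarith
  have f7 : 0 ≤ ρ ^ 3 / l ^ 3 := by positivity
  linarith

theorem NumC_err3 {ρ l : ℝ} (hρ : 0 < ρ) (hl : 0 < l) :
    1 / (10 ^ 7 * ρ ^ 3 * l) + 1 / (10 ^ 7 * ρ ^ 3 * l) ≤ 3 / (32000 * ρ ^ 3 * l) / 40 := by
  rw [← add_div, div_div, div_le_div_iff₀ (by positivity) (by positivity)]
  have : 0 ≤ ρ ^ 3 * l := by positivity
  linarith

theorem NumC_mom {r : ℕ} {ρ R A' L q C : ℝ} (hR : R = 2 ^ r) (hR4 : 4 ≤ R) (hρ : 2 ≤ ρ) (hL : 1 ≤ L)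
    (hA' : A' = 10 ^ 6 * (R * R) * ρ) (hq : 1 ≤ q) (hq2 : q ≤ 9 * L)
    (hC : C ≤ 144 * R * L) : 1 + C * kap r (A' * L ^ 2 / (ρ * q)) ≤ 2 := by
  have hρpos : 0 < ρ := by linarith
  have hRpos : 0 < R := by linarith
  have hLpos : 0 < L := by linarith
  have hA'pos : 0 < A' := by rw [hA']; positivity
  have h1 : A' * L / (9 * ρ) ≤ A' * L ^ 2 / (ρ * q) := by
    rw [div_le_div_iff₀ (by positivity) (by positivity)]
    have : A' * L * ρ * q ≤ A' * L * ρ * (9 * L) := mul_le_mul_of_nonneg_left hq2 (by positivity)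
    have e1 : A' * L * (ρ * q) = A' * L * ρ * q := by ring
    have e2 : A' * L ^ 2 * (9 * ρ) = A' * L * ρ * (9 * L) := by ring
    rw [e1, e2]; exact this
  have h2 : 1 ≤ A' * L / (9 * ρ) := by
    rw [le_div_iff₀ (by positivity), hA']
    have h5 : 9 ≤ 10 ^ 6 * (R * R) := by nlinarith
    have h6 : 9 * ρ ≤ 10 ^ 6 * (R * R) * ρ := mul_le_mul_of_nonneg_right h5 hρpos.le
    have h7 : 10 ^ 6 * (R * R) * ρ * 1 ≤ 10 ^ 6 * (R * R) * ρ * L :=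
      mul_le_mul_of_nonneg_left hL (by positivity)
    linarith
  have h3 : kap r (A' * L ^ 2 / (ρ * q)) ≤ R / (A' * L / (9 * ρ)) := by
    refine le_trans (NumC_kap_le r _ (le_trans h2 h1)) ?_
    rw [← hR]
    exact div_le_div_of_nonneg_left hRpos.le (by linarith) h1
  have h4 : C * kap r (A' * L ^ 2 / (ρ * q)) ≤ 144 * R * L * (R / (A' * L / (9 * ρ))) :=
    mul_le_mul hC h3 (NumC_kap_nonneg r _ (by positivity)) (by positivity)
  have h5 : 144 * R * L * (R / (A' * L / (9 * ρ))) ≤ 1 := by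
    have : 144 * R * L * (R / (A' * L / (9 * ρ))) = 1296 / 10 ^ 6 := by
      rw [hA']; field_simp; norm_num
    rw [this]; norm_num
  linarith

theorem NumC_core (r : ℕ) (hr : 2 ≤ r) {A' A l L s R N : ℝ} (hR : R = 2 ^ r) (hR4 : 4 ≤ R)
    (hA' : A' = 10 ^ 6 * (R * R) * r) (hA : A = 10 ^ 8 * A' * r ^ 4) (hL : L = Real.log l)
    (c1 : L ^ 3 ≤ l) (c2 : 10 ^ 8 * (r:ℝ) ^ 3 ≤ l) (c3 : 1 ≤ L) (c4 : Real.log (2 * r) + 1 / 2 ≤ L)
    (hN : 1 ≤ N) (hlogN : Real.log N ≤ r * l) (hs : A * l * L ^ 4 ≤ s) :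
    ∃ (δ0 K : ℝ) (T m q : ℕ), Num r N s δ0 K (1 / (2000 * r ^ 3 * l)) T m q := by
  have hrR : (2:ℝ) ≤ r := by exact_mod_cast hr
  generalize hρ : (r:ℝ) = ρ at *
  have hr3 : 8 ≤ ρ ^ 3 := by
    calc (8:ℝ) = 2 ^ 3 := by norm_num
      _ ≤ ρ ^ 3 := pow_le_pow_left₀ (by norm_num) hrR 3
  have hr4 : 16 ≤ ρ ^ 4 := by
    calc (16:ℝ) = 2 ^ 4 := by norm_num
      _ ≤ ρ ^ 4 := pow_le_pow_left₀ (by norm_num) hrR 4
  have hRR : 16 ≤ R * R := by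
    have := mul_le_mul hR4 hR4 (by norm_num) (by linarith)
    linarith
  have hRpos : 0 < R := by linarith
  have hRR4 : 4 * R ≤ R * R := mul_le_mul_of_nonneg_right hR4 hRpos.le
  have hA'1 : 10 ^ 6 * (R * R) ≤ A' := by
    rw [hA']; exact le_mul_of_one_le_right (by positivity) (by linarith)
  have hA'2 : 10 ^ 7 ≤ A' := by linarith
  have hA1 : 10 ^ 9 * A' ≤ A := by
    rw [hA]
    have : 10 ^ 8 * A' * 16 ≤ 10 ^ 8 * A' * ρ ^ 4 := mul_le_mul_of_nonneg_left hr4 (by linarith)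
    linarith
  have hlbig : 10 ^ 8 ≤ l := by linarith
  have hlpos : 0 < l := by linarith
  have hLpos : 0 < L := by linarith
  have hA'pos : 0 < A' := by linarith
  have hApos : 0 < A := by linarith
  have hrpos : 0 < ρ := by linarith
  have hL4 : 1 ≤ L ^ 4 := one_le_pow₀ c3
  have hL2 : 1 ≤ L ^ 2 := one_le_pow₀ c3
  have hLmax := NumC_Lmax hrR (by linarith) hN hlogN (by rw [← hL]; exact c4)
  have hLmax0 := NumC_Lmax_pos hN
  rw [← hL] at hLmax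
  have hcg := NumC_cgain hrR (by linarith) hN hlogN
  -- q
  obtain ⟨q, hq⟩ : ∃ q : ℕ, q = ⌈8 * L⌉₊ := ⟨_, rfl⟩
  have hq1 : 8 * L ≤ q := by rw [hq]; exact Nat.le_ceil _
  have hq2 : (q:ℝ) ≤ 9 * L := by
    have := Nat.ceil_lt_add_one (a := 8 * L) (by positivity)
    rw [← hq] at this
    linarith
  have hqpos : 0 < q := by
    rw [hq]; exact Nat.ceil_pos.2 (by positivity)
  clear hq
  have hqR : (1:ℝ) ≤ q := by exact_mod_cast hqpos
  have hmn : q - 1 + 1 = q := by omega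
  have hm : ((q - 1 : ℕ) : ℝ) + 1 = q := by exact_mod_cast hmn
  have h2q : l ^ 5 ≤ (2:ℝ) ^ q := NumC_two_pow (by linarith) (by rw [← hL]; exact hq1)
  have hhalf : (1 / 2 : ℝ) ^ q ≤ 1 / l ^ 5 := by
    rw [one_div_pow]
    exact one_div_le_one_div_of_le (by positivity) h2q
  -- s
  have hsA : A * l ≤ s := by
    have : A * l * 1 ≤ A * l * L ^ 4 := mul_le_mul_of_nonneg_left hL4 (by positivity)
    linarith
  have hAl : A ≤ A * l := by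
    have : A * 1 ≤ A * l := mul_le_mul_of_nonneg_left (by linarith) hApos.le
    linarith
  have hsAL : A * L ≤ s := by
    have h2 : A * L ≤ A * L ^ 4 := mul_le_mul_of_nonneg_left (NumC_pow1 c3 3) hApos.le
    have h3 : A * L ^ 4 ≤ A * l * L ^ 4 := mul_le_mul_of_nonneg_right hAl (by positivity)
    linarith
  have hs1' : 1 ≤ s := by linarith
  have hspos : 0 < s := by linarith
  -- Cmx
  obtain ⟨K, hK⟩ : ∃ K : ℝ, K = 2 ^ (r + 2) := ⟨_, rfl⟩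
  have hKR : K = 4 * R := by rw [hK, hR, pow_add]; ring
  have hC : Cmx (q - 1) K = 16 * R * q := by
    unfold Cmx; rw [hm, hKR]; ring
  have hC2 : Cmx (q - 1) K ≤ 144 * R * L := by
    rw [hC]
    calc 16 * R * (q:ℝ) ≤ 16 * R * (9 * L) := mul_le_mul_of_nonneg_left hq2 (by positivity)
      _ = 144 * R * L := by ring
  have hCpos : 0 < Cmx (q - 1) K := by rw [hC]; positivity
  -- δ0
  obtain ⟨δ0, hδ0⟩ : ∃ δ0 : ℝ, δ0 = A' * L ^ 2 / s := ⟨_, rfl⟩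
  have hδs : δ0 * s = A' * L ^ 2 := by rw [hδ0]; field_simp
  have hδpos : 0 < δ0 := by rw [hδ0]; positivity
  have hkx : kap r (δ0 * s) ≤ R / (A' * L ^ 2) := by
    rw [hδs, hR]; exact NumC_kap_le r _ (one_le_mul_of_one_le_of_one_le (by linarith) hL2)
  have hk0 : 0 ≤ kap r (δ0 * s) := NumC_kap_nonneg r _ (by positivity)
  obtain ⟨k1, k2, k3⟩ := NumC_k1 hR4 c3 hA'1 hk0 hkx hCpos.le hC2
  -- δ0 is small
  have hδsmall : 10 ^ 8 * ρ ^ 4 * l * L ^ 2 * δ0 ≤ 1 := by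
    rw [hδ0, mul_div_assoc', div_le_one hspos]
    refine le_trans (le_of_eq ?_) hs
    rw [hA]; ring
  -- T
  obtain ⟨cg, hcgd⟩ : ∃ cg : ℝ, cg = 3 / (32000 * ρ ^ 3 * l) := ⟨_, rfl⟩
  obtain ⟨T, hT⟩ : ∃ T : ℕ, T = ⌈40 * Lmax N / cg⌉₊ := ⟨_, rfl⟩
  obtain ⟨hT1, hTpos, hT2⟩ := NumC_T hrR (by linarith) c3 hLmax0 hLmax hcgd hT
  clear hT
  have hTR : (1:ℝ) ≤ T := by exact_mod_cast hTpos
  obtain ⟨hoff1, hδ2⟩ := NumC_small hrR hδpos (by linarith) c3 hδsmall hTR hT2 hqR hq2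
  -- kap3
  have hkapa : kapa r (δ0 * s) (Cmx (q - 1) K) ≤ 1 / 2 := k2
  have hkapa0 : 0 ≤ kapa r (δ0 * s) (Cmx (q - 1) K) := by
    unfold kapa; positivity
  have hkapaq : kapa r (δ0 * s) (Cmx (q - 1) K) ^ q ≤ 1 / l ^ 5 :=
    le_trans (pow_le_pow_left₀ hkapa0 hkapa q) hhalf
  have hKhalf : (2:ℝ) ^ (r + 1) / K = 1 / 2 := by
    rw [hK, pow_succ (2:ℝ) (r + 1)]; field_simp
  have hkap3 : kap3 r (δ0 * s) K (q - 1) q ≤ 10 * L / l ^ 5 := by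
    unfold kap3
    rw [hmn, hm, hKhalf]
    have h1 : (q:ℝ) * (1 / 2) ^ q ≤ 9 * L * (1 / l ^ 5) :=
      mul_le_mul hq2 hhalf (by positivity) (by positivity)
    have h2 : 1 / l ^ 5 ≤ L * (1 / l ^ 5) := by
      have : 1 * (1 / l ^ 5) ≤ L * (1 / l ^ 5) := mul_le_mul_of_nonneg_right c3 (by positivity)
      linarith
    have h3 : 10 * L / l ^ 5 = L * (1 / l ^ 5) + 9 * L * (1 / l ^ 5) := by ring
    rw [h3]; linarith
  have hkap30 : 0 ≤ kap3 r (δ0 * s) K (q - 1) q := by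
    unfold kap3
    rw [hKhalf]
    positivity
  have hTk : T * kap3 r (δ0 * s) K (q - 1) q ≤ 10 ^ 7 * ρ ^ 3 * L ^ 2 / l ^ 4 := by
    calc T * kap3 r (δ0 * s) K (q - 1) q ≤ (10 ^ 6 * ρ ^ 3 * l * L) * (10 * L / l ^ 5) :=
          mul_le_mul hT2 hkap3 hkap30 (by positivity)
      _ = _ := by field_simp
  have hfail : T * kap3 r (δ0 * s) K (q - 1) q ≤ 1 / 20 :=
    le_trans hTk (NumC_fail hrR (by linarith) c3 c1 c2)
  have hA32 : 32 * 10 ^ 6 * ρ ^ 4 ≤ A := by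
    rw [hA]
    exact mul_le_mul_of_nonneg_right (by linarith) (by positivity)
  refine ⟨δ0, K, T, q - 1, q, ?_⟩
  refine
    { hr := by omega
      hN := hN
      hs := hs1'
      hδ := hδpos
      hδ1 := hδ2
      hoff := ?_
      hK := by rw [hKR]; linarith
      hc0 := by positivity
      hκ := k1
      hM := ?_
      hl1 := ?_
      hl2 := ?_
      hmom := ?_
      hT := ?_
      hfail := hfail
      herr := ?_
      hq := hqpos
      hT1 := hTpos }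
  · -- hoff
    rw [hmn]
    have h := one_add_mul_le_pow (a := -(2 * δ0)) (by linarith) (r * (T * q))
    have e : (1 + -(2 * δ0)) = 1 - 2 * δ0 := by ring
    rw [e] at h
    push_cast at h
    rw [hρ] at h
    linarith
  · -- hM
    rw [le_div_iff₀ (by positivity)]
    have h1 : s ≤ s ^ r := le_self_pow₀ hs1' (by omega)
    have h2 : 2 * (8 * Cmx (q - 1) K) ≤ 2304 * R * L := by linarith
    have h3 : 2304 * R ≤ A := by linarith
    have h4 : 2304 * R * L ≤ A * L := mul_le_mul_of_nonneg_right h3 hLpos.le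
    linarith
  · rw [hρ, div_le_iff₀ hspos]
    have h1 : ρ * T ≤ ρ * (10 ^ 6 * ρ ^ 3 * l * L) := mul_le_mul_of_nonneg_left hT2 hrpos.le
    have h4 : 16 * (10 ^ 6 * ρ ^ 4) * (l * L) ≤ A * (l * L ^ 4) := by
      apply mul_le_mul (by linarith) _ (by positivity) hApos.le
      exact mul_le_mul_of_nonneg_left (NumC_pow1 c3 3) hlpos.le
    linarith
  · rw [hρ, div_le_iff₀ hspos]
    have h5 : ρ ≤ ρ ^ 4 := NumC_pow1 (by linarith) 3
    linarith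
  · -- hmom
    rw [hρ]
    have e : δ0 * s / (ρ * q) = A' * L ^ 2 / (ρ * q) := by rw [hδs]
    rw [e]
    exact NumC_mom hR hR4 hrR c3 hA' hqR hq2 hC2
  · rw [hcg, ← hcgd]; exact hT1
  · -- herr
    rw [hmn, hρ, hcg]
    have t1 : 24 * Lmax N / s + 6 * ρ / s ≤ 1 / (10 ^ 7 * ρ ^ 3 * l) :=
      NumC_err1 hrR (by linarith) c3 hA'2 hA hs hspos hLmax
    have t2 : 4 * (16 * kap r (δ0 * s)) ^ q ≤ 4 * (1 / l ^ 5) :=
      mul_le_mul_of_nonneg_left (le_trans (pow_le_pow_left₀ (by positivity) k3 q) hhalf) (by norm_num)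
    have t3 : kapa r (δ0 * s) (Cmx (q - 1) K) ^ q * (Lmax N + 1) ≤ 1 / l ^ 5 * (3 * L) :=
      mul_le_mul hkapaq (by linarith) (by linarith) (by positivity)
    have t4 : Lmax N * (T * kap3 r (δ0 * s) K (q - 1) q) ≤ 2 * L * (10 ^ 7 * ρ ^ 3 * L ^ 2 / l ^ 4) :=
      mul_le_mul hLmax hTk (by positivity) (by positivity)
    have e2 := NumC_err2 hrR (by linarith) c3 c1 c2
    have e3 := NumC_err3 hrpos hlpos
    linarith

/-- `ℓ = log n`; for `s ≥ A ℓ (log ℓ)^4` all numerical conditions can be met -/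
theorem num_choice (r : ℕ) (hr : 2 ≤ r) : ∃ A ℓ0 : ℝ, 1 ≤ A ∧ 1 ≤ ℓ0 ∧
    ∀ ℓ : ℝ, ℓ0 ≤ ℓ → ∀ N : ℝ, 1 ≤ N → Real.log N ≤ r * ℓ → ∀ s : ℝ, A * ℓ * (Real.log ℓ) ^ 4 ≤ s →
      ∃ (δ0 K : ℝ) (T m q : ℕ), Num r N s δ0 K (1 / (2000 * r ^ 3 * ℓ)) T m q := by
  have hrR : (2:ℝ) ≤ r := by exact_mod_cast hr
  obtain ⟨l0, hl0⟩ := Filter.eventually_atTop.1 (NumC_ev r)
  have h2r : (4:ℝ) ≤ 2 ^ r := by
    calc (4:ℝ) = 2 ^ 2 := by norm_num
      _ ≤ 2 ^ r := pow_le_pow_right₀ (by norm_num) hr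
  obtain ⟨R, hR⟩ : ∃ R : ℝ, R = 2 ^ r := ⟨_, rfl⟩
  obtain ⟨A', hA'⟩ : ∃ A' : ℝ, A' = 10 ^ 6 * (R * R) * r := ⟨_, rfl⟩
  obtain ⟨A, hA⟩ : ∃ A : ℝ, A = 10 ^ 8 * A' * r ^ 4 := ⟨_, rfl⟩
  have hR4 : 4 ≤ R := by rw [hR]; exact h2r
  refine ⟨A, max l0 1, ?_, le_max_right _ _, ?_⟩
  · have hr4 : (16:ℝ) ≤ (r:ℝ) ^ 4 := by
      calc (16:ℝ) = 2 ^ 4 := by norm_num
        _ ≤ (r:ℝ) ^ 4 := pow_le_pow_left₀ (by norm_num) hrR 4
    have h1 : 16 ≤ R * R := by nlinarith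
    have h2 : 1 ≤ A' := by rw [hA']; nlinarith
    rw [hA]; nlinarith
  · intro l hl N hN hlogN s hs
    obtain ⟨c1, c2, c3, c4⟩ := hl0 l (le_trans (le_max_left _ _) hl)
    exact NumC_core r hr hR hR4 hA' hA rfl c1 c2 c3 c4 hN hlogN hs

end Pool.H18.TC
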