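import Pool.Agent.H18.TC.Defs

/-! r-partite reduction -/

open Finset
open Classical

namespace Pool.H18.TC

/-- the colourings that colour `y k` with `k` -/
theorem part_count {r n : ℕ} (y : Fin r → Fin n) (hy : Function.Injective y) :
    Fintype.card (Fin n → Fin r) ≤
      (univ.filter (fun χ : Fin n → Fin r => ∀ k, χ (y k) = k)).card * r ^ r := by
  have h1 : r ^ r = Fintype.card (Fin r → Fin r) := by simp
  rw [h1, ← Finset.card_univ, ← Finset.card_univ (α := Fin r → Fin r), ← Finset.card_product]
  -- override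
  let ov : (Fin n → Fin r) → (Fin n → Fin r) := fun χ v =>
    if h : ∃ k, y k = v then h.choose else χ v
  have hov : ∀ χ k, ov χ (y k) = k := by
    intro χ k
    have h : ∃ k', y k' = y k := ⟨k, rfl⟩
    simp only [ov]
    rw [dif_pos h]
    exact hy h.choose_spec
  apply Finset.card_le_card_of_injOn (fun χ => (ov χ, fun k => χ (y k)))
  · intro χ _
    simp only [Finset.coe_product, Set.mem_prod, Finset.mem_coe, Finset.mem_filter, Finset.mem_univ,
      true_and, and_true]
    exact hov χ
  · intro χ _ χ' _ h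
    simp only [Prod.mk.injEq] at h
    funext v
    by_cases hv : ∃ k, y k = v
    · obtain ⟨k, rfl⟩ := hv
      exact congrFun h.2 k
    · have := congrFun h.1 v
      simp only [ov] at this
      rw [dif_neg hv, dif_neg hv] at this
      exact this

theorem partite {r n : ℕ} (hr : 1 ≤ r) (H : Finset (Finset (Fin n))) (hH : ∀ e ∈ H, e.card = r) :
    ∃ (χ : Fin n → Fin r) (E0 : Finset (Fin r → Fin n)),
      (∀ x ∈ E0, ∀ k, χ (x k) = k) ∧ (∀ x ∈ E0, univ.image x ∈ H) ∧
      (H.card : ℝ) ≤ (r : ℝ) ^ r * E0.card := by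
  have hne : Nonempty (Fin r) := ⟨⟨0, hr⟩⟩
  rcases H.eq_empty_or_nonempty with hHe | ⟨e1, he1⟩
  · exact ⟨fun _ => hne.some, ∅, by simp, by simp, by simp [hHe]⟩
  have hn : Nonempty (Fin n) := by
    have : e1.Nonempty := Finset.card_pos.1 (by rw [hH e1 he1]; exact hr)
    exact ⟨this.choose⟩
  -- the chosen enumeration of an edge
  have hex : ∀ e ∈ H, ∃ y : Fin r → Fin n, Function.Injective y ∧ univ.image y = e := by
    intro e he
    refine ⟨fun k => (e.orderIsoOfFin (hH e he) k : Fin n), ?_, ?_⟩
    · intro a b hab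
      exact (e.orderIsoOfFin (hH e he)).injective (Subtype.ext hab)
    · ext v
      simp only [Finset.mem_image, Finset.mem_univ, true_and]
      constructor
      · rintro ⟨k, rfl⟩; exact (e.orderIsoOfFin (hH e he) k).2
      · intro hv
        exact ⟨(e.orderIsoOfFin (hH e he)).symm ⟨v, hv⟩, by simp⟩
  choose! y hyinj hyim using hex
  let E0 : (Fin n → Fin r) → Finset (Fin r → Fin n) := fun χ =>
    univ.filter (fun x => (∀ k, χ (x k) = k) ∧ univ.image x ∈ H)
  have key : ∑ _χ : Fin n → Fin r, H.card ≤ ∑ χ : Fin n → Fin r, r ^ r * (E0 χ).card := by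
    have h1 : ∀ χ : Fin n → Fin r,
        (H.filter (fun e => ∀ k, χ (y e k) = k)).card ≤ (E0 χ).card := by
      intro χ
      apply Finset.card_le_card_of_injOn y
      · intro e he
        simp only [Finset.coe_filter, Set.mem_setOf_eq] at he
        simp only [E0, Finset.coe_filter, Finset.mem_univ, true_and, Set.mem_setOf_eq]
        exact ⟨he.2, by rw [hyim e he.1]; exact he.1⟩
      · intro e he e' he' h
        simp only [Finset.coe_filter, Set.mem_setOf_eq] at he he'
        rw [← hyim e he.1, ← hyim e' he'.1, h]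
    calc ∑ _χ : Fin n → Fin r, H.card
        = ∑ e ∈ H, Fintype.card (Fin n → Fin r) := by
          rw [Finset.sum_const, Finset.sum_const, Finset.card_univ, smul_eq_mul, smul_eq_mul, mul_comm]
      _ ≤ ∑ e ∈ H, (univ.filter (fun χ : Fin n → Fin r => ∀ k, χ (y e k) = k)).card * r ^ r :=
          Finset.sum_le_sum (fun e he => part_count (y e) (hyinj e he))
      _ = ∑ χ : Fin n → Fin r, r ^ r * (H.filter (fun e => ∀ k, χ (y e k) = k)).card := by
          rw [← Finset.sum_mul, ← Finset.mul_sum, mul_comm]
          congr 1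
          simp only [Finset.card_filter]
          rw [Finset.sum_comm]
      _ ≤ ∑ χ : Fin n → Fin r, r ^ r * (E0 χ).card :=
          Finset.sum_le_sum (fun χ _ => Nat.mul_le_mul_left _ (h1 χ))
  obtain ⟨χ, _, hχ⟩ := Finset.exists_le_of_sum_le Finset.univ_nonempty key
  refine ⟨χ, E0 χ, ?_, ?_, ?_⟩
  · intro x hx k
    simp only [E0, Finset.mem_filter, Finset.mem_univ, true_and] at hx
    exact hx.1 k
  · intro x hx
    simp only [E0, Finset.mem_filter, Finset.mem_univ, true_and] at hx
    exact hx.2
  · exact_mod_cast hχ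

end Pool.H18.TC
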