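import Pool.Agent.H18.TC.Defs

/-! from a cycle of states to a tight cycle -/

open Finset
open Classical

namespace Pool.H18.TC

variable {r : ℕ} {V : Type*} [Fintype V]

theorem tight_of_states (hr : 2 ≤ r) (E : Finset (Fin r → V))
    (hinj : ∀ e ∈ E, Function.Injective e) (t : ℕ) (ht : 2 ≤ t) (x : ℕ → (Fin r → V))
    (hx : x t = x 0) (hmix : ∀ j < t, ∀ k ≤ r, mix k (x j) (x (j + 1)) ∈ E)
    (hdj : ∀ i j, i < j → j < t → Dj (x i) (x j)) :
    ∃ ℓ : ℕ, r + 1 ≤ ℓ ∧ ∃ v : ZMod ℓ → V, Function.Injective v ∧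
      ∀ i : ZMod ℓ, ∃ e ∈ E, univ.image (fun j : Fin r => v (i + (j.val : ZMod ℓ))) = univ.image e := by
  have hr0 : 0 < r := by omega
  have ht0 : 0 < t := by omega
  have hℓ : 0 < r * t := Nat.mul_pos hr0 ht0
  have : NeZero (r * t) := ⟨hℓ.ne'⟩
  set vv : ℕ → V := fun n => x ((n / r) % t) ⟨n % r, Nat.mod_lt _ hr0⟩ with hvv
  have hvvmod : ∀ n, vv (n % (r * t)) = vv n := by
    intro n
    simp only [hvv]
    congr 1
    · rw [Nat.mod_mul_right_div_self, Nat.mod_mod]
    · apply Fin.ext
      simp only [Nat.mod_mul_right_mod]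
  have hE : ∀ q < t, x q ∈ E := by
    intro q hq
    have := hmix q hq 0 (Nat.zero_le _)
    have h2 : mix 0 (x q) (x (q + 1)) = x q := by
      funext j
      simp [mix]
    rwa [h2] at this
  refine ⟨r * t, by nlinarith, fun i => vv i.val, ?_, ?_⟩
  · intro i i' h
    simp only [hvv] at h
    have hi : i.val / r < t := Nat.div_lt_of_lt_mul (ZMod.val_lt i)
    have hi' : i'.val / r < t := Nat.div_lt_of_lt_mul (ZMod.val_lt i')
    rw [Nat.mod_eq_of_lt hi, Nat.mod_eq_of_lt hi'] at h
    apply ZMod.val_injective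
    rcases lt_trichotomy (i.val / r) (i'.val / r) with hlt | heq | hgt
    · exact absurd h (hdj _ _ hlt hi' _ _)
    · rw [← heq] at h
      have h1 := hinj _ (hE _ hi) h
      have h2 := congrArg Fin.val h1
      simp only at h2
      rw [← Nat.div_add_mod i.val r, ← Nat.div_add_mod i'.val r, heq, h2]
    · exact absurd h.symm (hdj _ _ hgt hi _ _)
  · intro i
    set q := i.val / r with hq
    set c := i.val % r with hc
    have hqt : q < t := Nat.div_lt_of_lt_mul (ZMod.val_lt i)
    have hcr : c < r := Nat.mod_lt _ hr0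
    have hiv : i.val = r * q + c := (Nat.div_add_mod i.val r).symm
    refine ⟨mix c (x q) (x (q + 1)), hmix q hqt c hcr.le, ?_⟩
    have hval : ∀ j : Fin r, vv (i + (j.val : ZMod (r * t))).val
        = mix c (x q) (x (q + 1)) ⟨(c + j.val) % r, Nat.mod_lt _ hr0⟩ := by
      intro j
      rw [ZMod.val_add, ZMod.val_natCast, Nat.add_mod_mod, hvvmod]
      have hj := j.isLt
      simp only [hvv, mix]
      by_cases hcj : c + j.val < r
      · have h1 : (i.val + j.val) / r = q := by
          rw [hiv, add_assoc, Nat.mul_add_div hr0, Nat.div_eq_of_lt hcj, add_zero]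
        have h2 : (i.val + j.val) % r = c + j.val := by
          rw [hiv, add_assoc, Nat.mul_add_mod, Nat.mod_eq_of_lt hcj]
        have h3 : (c + j.val) % r = c + j.val := Nat.mod_eq_of_lt hcj
        rw [if_neg (by rw [h3]; omega)]
        simp only [h1, h2, h3, Nat.mod_eq_of_lt hqt]
      · have h0 : c + j.val = r * 1 + (c + j.val - r) := by omega
        have h4 : c + j.val - r < r := by omega
        have h1 : (i.val + j.val) / r = q + 1 := by
          rw [hiv, add_assoc, Nat.mul_add_div hr0, h0, Nat.mul_add_div hr0,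
            Nat.div_eq_of_lt h4, add_zero]
        have h3 : (c + j.val) % r = c + j.val - r := by
          rw [h0, Nat.mul_add_mod, Nat.mod_eq_of_lt (by omega)]
          omega
        have h2 : (i.val + j.val) % r = c + j.val - r := by
          rw [hiv, add_assoc, Nat.mul_add_mod, h3]
        rw [if_pos (by rw [h3]; omega)]
        have h5 : x ((q + 1) % t) = x (q + 1) := by
          by_cases hq1 : q + 1 = t
          · rw [hq1, Nat.mod_self, hx]
          · rw [Nat.mod_eq_of_lt (by omega)]
        simp only [h1, h2, h3, h5]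
    ext w
    simp only [Finset.mem_image, Finset.mem_univ, true_and]
    constructor
    · rintro ⟨j, hj⟩
      rw [hval j] at hj
      exact ⟨_, hj⟩
    · rintro ⟨k, hk⟩
      refine ⟨⟨(k.val + (r - c)) % r, Nat.mod_lt _ hr0⟩, ?_⟩
      rw [hval]
      rw [← hk]
      congr 1
      apply Fin.ext
      simp only
      rw [Nat.add_mod_mod, show c + (k.val + (r - c)) = k.val + r by omega, Nat.add_mod_right,
        Nat.mod_eq_of_lt k.isLt]

end Pool.H18.TC
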