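import Pool.Agent.H18.TC.Defs

/-! X1: extraction of an expander -/

open Finset
open Classical

namespace Pool.H18.TC

variable {r : ℕ} {V : Type*} [Fintype V]

/-- truncated sum of the degrees -/
noncomputable def XexpPhi (s : ℕ) (U : Finset (Fin r → V)) : ℕ :=
  ∑ k : Fin r, ∑ τ : Fin r → V, min s (dg U k τ)

theorem Xexp_sum_dg (U : Finset (Fin r → V)) (k : Fin r) :
    ∑ τ : Fin r → V, dg U k τ = Fintype.card V * U.card := by
  have h1 : ∀ τ : Fin r → V, dg U k τ = ∑ v : V, if Function.update τ k v ∈ U then 1 else 0 := by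
    intro τ
    unfold dg
    rw [Finset.card_filter]
  simp_rw [h1]
  rw [← Fintype.sum_prod_type' (f := fun (τ : Fin r → V) (v : V) =>
    if Function.update τ k v ∈ U then 1 else 0)]
  let e : ((Fin r → V) × V) ≃ ((Fin r → V) × V) :=
    { toFun := fun p => (Function.update p.1 k p.2, p.1 k)
      invFun := fun p => (Function.update p.1 k p.2, p.1 k)
      left_inv := by
        rintro ⟨τ, v⟩
        simp
      right_inv := by
        rintro ⟨τ, v⟩
        simp }
  have h2 := Equiv.sum_comp e (fun p : (Fin r → V) × V => if p.1 ∈ U then (1 : ℕ) else 0)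
  have h3 : ∑ p : (Fin r → V) × V, (if Function.update p.1 k p.2 ∈ U then (1 : ℕ) else 0) =
      ∑ p : (Fin r → V) × V, (if (e p).1 ∈ U then (1 : ℕ) else 0) := rfl
  rw [h3, h2, Fintype.sum_prod_type' (f := fun (τ : Fin r → V) (_ : V) =>
    if τ ∈ U then (1 : ℕ) else 0)]
  simp only [Finset.sum_const, Finset.card_univ, smul_eq_mul]
  rw [← Finset.mul_sum]
  simp

theorem Xexp_dg_le (U : Finset (Fin r → V)) (k : Fin r) (τ : Fin r → V) :
    dg U k τ ≤ Fintype.card V := by
  unfold dg
  exact (Finset.card_filter_le _ _).trans (le_of_eq Finset.card_univ)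

theorem Xexp_dg_mono {U W : Finset (Fin r → V)} (h : U ⊆ W) (k : Fin r) (τ : Fin r → V) :
    dg U k τ ≤ dg W k τ := by
  unfold dg
  apply Finset.card_le_card
  intro v hv
  rw [Finset.mem_filter] at hv ⊢
  exact ⟨hv.1, h hv.2⟩

theorem Xexp_dg_add {U E : Finset (Fin r → V)} (h : U ⊆ E) (k : Fin r) (τ : Fin r → V) :
    dg U k τ + dg (E \ U) k τ = dg E k τ := by
  unfold dg
  rw [← Finset.card_union_of_disjoint]
  · congr 1
    ext v
    simp only [Finset.mem_union, Finset.mem_filter, Finset.mem_univ, true_and, Finset.mem_sdiff]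
    constructor
    · rintro (h1 | h1)
      · exact h h1
      · exact h1.1
    · intro h1
      by_cases h2 : Function.update τ k v ∈ U
      · exact Or.inl h2
      · exact Or.inr ⟨h1, h2⟩
  · rw [Finset.disjoint_left]
    intro v hv hv'
    simp only [Finset.mem_filter, Finset.mem_univ, true_and, Finset.mem_sdiff] at hv hv'
    exact hv'.2 hv

theorem Xexp_Phi_le (s : ℕ) (U : Finset (Fin r → V)) :
    XexpPhi s U ≤ s * (r * Fintype.card V ^ r) := by
  unfold XexpPhi
  calc ∑ k : Fin r, ∑ τ : Fin r → V, min s (dg U k τ) ≤ ∑ _k : Fin r, ∑ _τ : Fin r → V, s :=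
        Finset.sum_le_sum fun k _ => Finset.sum_le_sum fun τ _ => min_le_left _ _
    _ = s * (r * Fintype.card V ^ r) := by
        simp only [Finset.sum_const, Finset.card_univ, smul_eq_mul, Fintype.card_fun,
          Fintype.card_fin]
        ring

theorem Xexp_Phi_succ (s : ℕ) (hs : 1 ≤ s) (U : Finset (Fin r → V)) :
    XexpPhi (s + 1) U ≤ 2 * XexpPhi s U := by
  unfold XexpPhi
  rw [Finset.mul_sum]
  refine Finset.sum_le_sum fun k _ => ?_
  rw [Finset.mul_sum]
  refine Finset.sum_le_sum fun τ _ => ?_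
  omega

theorem Xexp_Phi_large (s : ℕ) (hs : Fintype.card V ≤ s) (U : Finset (Fin r → V)) :
    XexpPhi s U = r * (Fintype.card V * U.card) := by
  unfold XexpPhi
  have h1 : ∀ k : Fin r, ∑ τ : Fin r → V, min s (dg U k τ) = Fintype.card V * U.card := by
    intro k
    rw [← Xexp_sum_dg U k]
    refine Finset.sum_congr rfl fun τ _ => ?_
    exact min_eq_right ((Xexp_dg_le U k τ).trans hs)
  rw [Finset.sum_congr rfl (fun k _ => h1 k)]
  simp

/-- removing a short line -/
theorem Xexp_remove (s : ℕ) (E : Finset (Fin r → V)) (x : Fin r → V) (k : Fin r)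
    (hc : dg E k x ≤ s) :
    XexpPhi s (E.filter (fun y => ¬ ∃ v, Function.update x k v = y)) +
      Fintype.card V * dg E k x ≤ XexpPhi s E ∧
    (E.filter (fun y => ¬ ∃ v, Function.update x k v = y)).card + dg E k x = E.card := by
  set U := E.filter (fun y => ¬ ∃ v, Function.update x k v = y) with hU
  have hUE : U ⊆ E := Finset.filter_subset _ _
  have hinj : Function.Injective (fun v : V => Function.update x k v) :=
    Function.update_injective x k
  constructor
  · set S : Finset (Fin r → V) := univ.image (fun v : V => Function.update x k v) with hS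
    have hScard : S.card = Fintype.card V := by
      rw [hS, Finset.card_image_of_injective _ hinj, Finset.card_univ]
    have hk : ∑ τ : Fin r → V, min s (dg U k τ) + Fintype.card V * dg E k x ≤
        ∑ τ : Fin r → V, min s (dg E k τ) := by
      have h1 : ∀ τ ∈ S, min s (dg U k τ) = 0 := by
        intro τ hτ
        rw [hS, Finset.mem_image] at hτ
        obtain ⟨u, -, rfl⟩ := hτ
        have : dg U k (Function.update x k u) = 0 := by
          unfold dg
          rw [Finset.card_eq_zero, Finset.filter_eq_empty_iff]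
          intro v _ hv
          rw [Function.update_idem, hU, Finset.mem_filter] at hv
          exact hv.2 ⟨v, rfl⟩
        rw [this]
        exact Nat.min_zero s
      have h2 : ∀ τ ∈ S, min s (dg E k τ) = dg E k x := by
        intro τ hτ
        rw [hS, Finset.mem_image] at hτ
        obtain ⟨u, -, rfl⟩ := hτ
        have : dg E k (Function.update x k u) = dg E k x := by
          unfold dg
          congr 1
          ext v
          simp
        rw [this]
        exact min_eq_right hc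
      have e1 := Finset.sum_add_sum_compl S (fun τ => min s (dg U k τ))
      have e2 := Finset.sum_add_sum_compl S (fun τ => min s (dg E k τ))
      rw [Finset.sum_congr rfl h1, Finset.sum_const_zero] at e1
      rw [Finset.sum_congr rfl h2, Finset.sum_const, hScard, smul_eq_mul] at e2
      have h3 : ∑ τ ∈ Sᶜ, min s (dg U k τ) ≤ ∑ τ ∈ Sᶜ, min s (dg E k τ) :=
        Finset.sum_le_sum fun τ _ => min_le_min le_rfl (Xexp_dg_mono hUE k τ)
      omega
    unfold XexpPhi
    rw [← Finset.add_sum_erase _ _ (Finset.mem_univ k),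
      ← Finset.add_sum_erase univ (fun k => ∑ τ : Fin r → V, min s (dg E k τ)) (Finset.mem_univ k)]
    have h4 : ∑ j ∈ univ.erase k, ∑ τ : Fin r → V, min s (dg U j τ) ≤
        ∑ j ∈ univ.erase k, ∑ τ : Fin r → V, min s (dg E j τ) :=
      Finset.sum_le_sum fun j _ => Finset.sum_le_sum fun τ _ =>
        min_le_min le_rfl (Xexp_dg_mono hUE j τ)
    omega
  · have h1 : (E.filter (fun y => ∃ v, Function.update x k v = y)).card = dg E k x := by
      unfold dg
      rw [← Finset.card_image_of_injective (univ.filter (fun v : V => Function.update x k v ∈ E))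
        hinj]
      congr 1
      ext y
      simp only [Finset.mem_filter, Finset.mem_image, Finset.mem_univ, true_and]
      constructor
      · rintro ⟨h1, v, rfl⟩
        exact ⟨v, h1, rfl⟩
      · rintro ⟨v, h1, rfl⟩
        exact ⟨h1, v, rfl⟩
    have h2 := Finset.card_filter_add_card_filter_not (s := E)
      (fun y => ∃ v, Function.update x k v = y)
    rw [hU]
    omega

theorem Xexp_rpow_add {M c a : ℝ} (hM : 1 ≤ M) (hc : 0 ≤ c) (ha : 0 ≤ a) :
    (M + c) ^ (1 - a) ≤ M ^ (1 - a) + c := by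
  have hM0 : 0 < M := by linarith
  have hMc : 0 < M + c := by linarith
  have h1 : (M + c) ^ (1 - a) = (M + c) * (M + c) ^ (-a) := by
    rw [show (1 - a) = 1 + (-a) by ring, Real.rpow_add hMc, Real.rpow_one]
  have h2 : M ^ (1 - a) = M * M ^ (-a) := by
    rw [show (1 - a) = 1 + (-a) by ring, Real.rpow_add hM0, Real.rpow_one]
  have h3 : (M + c) ^ (-a) ≤ M ^ (-a) :=
    Real.rpow_le_rpow_of_nonpos hM0 (by linarith) (by linarith)
  have h4 : M ^ (-a) ≤ 1 := Real.rpow_le_one_of_one_le_of_nonpos hM (by linarith)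
  have h5 : 0 ≤ M ^ (-a) := Real.rpow_nonneg hM0.le _
  rw [h1, h2]
  calc (M + c) * (M + c) ^ (-a) ≤ (M + c) * M ^ (-a) := by gcongr
    _ = M * M ^ (-a) + c * M ^ (-a) := by ring
    _ ≤ M * M ^ (-a) + c * 1 := by gcongr
    _ = _ := by ring

theorem Xexp_rpow_ge {u a : ℝ} (hu : 0 < u) :
    u * (1 + a * Real.log u⁻¹) ≤ u ^ (1 - a) := by
  have h1 : u ^ (1 - a) = u * Real.exp (a * Real.log u⁻¹) := by
    rw [Real.rpow_def_of_pos hu, Real.log_inv]
    conv_rhs => rw [← Real.exp_log hu]
    rw [Real.log_exp, ← Real.exp_add]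
    congr 1
    ring
  rw [h1]
  have h2 := Real.add_one_le_exp (a * Real.log u⁻¹)
  have h3 : 1 + a * Real.log u⁻¹ ≤ Real.exp (a * Real.log u⁻¹) := by linarith
  exact mul_le_mul_of_nonneg_left h3 hu.le

theorem Xexp_entropy {u a : ℝ} (hu : 0 < u) (hu1 : u < 1) :
    1 + a * Real.binEntropy u ≤ u ^ (1 - a) + (1 - u) ^ (1 - a) := by
  have h1 := Xexp_rpow_ge (a := a) hu
  have h2 := Xexp_rpow_ge (a := a) (show 0 < 1 - u by linarith)
  unfold Real.binEntropy
  linarith

theorem Xexp_final {n N L f a H Na : ℝ} (hn : 0 ≤ n) (hN : 0 ≤ N) (hL : 0 < L) (hf : 1 / 2 ≤ f)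
    (ha : a = 1 / L) (hH : 0 ≤ H) (hNa : Real.exp (-1) ≤ Na) :
    n * (1 / (2 * Real.exp 1 * L)) * N * H ≤ f * (n * (N * Na)) * (a * H) := by
  have h12 : n * (1 / (2 * Real.exp 1 * L)) * N * H =
      1 / 2 * (n * (N * Real.exp (-1))) * (a * H) := by
    rw [ha, Real.exp_neg, one_div, mul_inv, mul_inv]
    ring
  have ha0 : 0 ≤ a := by rw [ha]; positivity
  rw [h12]
  gcongr

theorem expander (hr : 1 ≤ r) (E0 : Finset (Fin r → V))
    (hN : Real.exp 1 * r * (Fintype.card V : ℝ) ^ (r - 1) < E0.card) :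
    ∃ E ⊆ E0, ∃ s : ℕ, 1 ≤ s ∧
      (E0.card : ℝ) / (Real.exp 1 * r * (Fintype.card V : ℝ) ^ (r - 1)) - 1 ≤ s ∧
      E.Nonempty ∧ (∀ x ∈ E, ∀ k, s ≤ dg E k x) ∧
      ∀ U ⊆ E, (Fintype.card V : ℝ) * (1 / (2 * Real.exp 1 * Real.log E0.card)) * E.card *
        Real.binEntropy ((U.card : ℝ) / E.card)
        ≤ ∑ k : Fin r, ∑ τ : Fin r → V, (min (dg U k τ : ℝ) (dg (E \ U) k τ : ℝ)) := by
  have hrR : (1 : ℝ) ≤ r := by exact_mod_cast hr
  have hE0pos : (0 : ℝ) < E0.card := lt_of_le_of_lt (by positivity) hN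
  have hE0 : E0.Nonempty := by
    rw [← Finset.card_pos]; exact_mod_cast hE0pos
  obtain ⟨x0, hx0⟩ := hE0
  have hV : 1 ≤ Fintype.card V := Fintype.card_pos_iff.2 ⟨x0 ⟨0, hr⟩⟩
  set n : ℕ := Fintype.card V with hn
  have hnR : (1 : ℝ) ≤ n := by exact_mod_cast hV
  set D : ℝ := Real.exp 1 * r * (n : ℝ) ^ (r - 1) with hD
  have hDpos : 0 < D := by
    rw [hD]; positivity
  have hDe : Real.exp 1 ≤ D := by
    rw [hD]
    have h1 : (1 : ℝ) ≤ r * (n : ℝ) ^ (r - 1) := by
      have := one_le_pow₀ (n := r - 1) hnR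
      nlinarith
    calc Real.exp 1 = Real.exp 1 * 1 := by ring
      _ ≤ Real.exp 1 * (r * (n : ℝ) ^ (r - 1)) := by gcongr
      _ = _ := by ring
  have hlog1 : 1 < Real.log E0.card := by
    rw [Real.lt_log_iff_exp_lt hE0pos]
    linarith
  set a : ℝ := 1 / Real.log E0.card with ha
  have ha0 : 0 < a := by rw [ha]; positivity
  have ha1 : a < 1 := by
    rw [ha, div_lt_one (by linarith)]; exact hlog1
  have hN0a : (E0.card : ℝ) ^ (-a) = Real.exp (-1) := by
    rw [Real.rpow_def_of_pos hE0pos]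
    congr 1
    rw [ha]
    field_simp
  -- the property
  set A : ℕ → Prop := fun s => ∃ U ⊆ E0, U.Nonempty ∧
    (XexpPhi s U : ℝ) < n * (U.card : ℝ) ^ (1 - a) with hA
  have hAs : ∀ s : ℕ, (s : ℝ) * D < E0.card → A s := by
    intro s hs
    refine ⟨E0, Finset.Subset.refl _, ⟨x0, hx0⟩, ?_⟩
    have h1 : (XexpPhi s E0 : ℝ) ≤ s * (r * (n : ℝ) ^ r) := by
      exact_mod_cast Xexp_Phi_le s E0
    have h2 : (E0.card : ℝ) ^ (1 - a) = E0.card * Real.exp (-1) := by
      rw [show (1 - a) = 1 + (-a) by ring, Real.rpow_add hE0pos, Real.rpow_one, hN0a]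
    have h3 : (n : ℝ) ^ r = n * (n : ℝ) ^ (r - 1) := by
      rw [← pow_succ']
      congr 1
      omega
    rw [h2]
    refine lt_of_le_of_lt h1 ?_
    rw [h3]
    have h4 : s * (r * ((n : ℝ) * (n : ℝ) ^ (r - 1))) = n * (s * D * Real.exp (-1)) := by
      rw [hD]
      have : Real.exp 1 * Real.exp (-1) = 1 := by rw [← Real.exp_add]; simp
      calc (s : ℝ) * (r * ((n : ℝ) * (n : ℝ) ^ (r - 1))) =
          n * (s * (r * (n : ℝ) ^ (r - 1)) * (Real.exp 1 * Real.exp (-1))) := by rw [this]; ring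
        _ = _ := by ring
    rw [h4]
    have h5 : (s : ℝ) * D * Real.exp (-1) < E0.card * Real.exp (-1) :=
      mul_lt_mul_of_pos_right hs (Real.exp_pos _)
    exact mul_lt_mul_of_pos_left h5 (by linarith)
  have hcardpos : ∀ U : Finset (Fin r → V), U.Nonempty → (1 : ℝ) ≤ U.card := by
    intro U hU
    exact_mod_cast Finset.card_pos.2 hU
  have hAn : ¬ A n := by
    rintro ⟨U, -, hU, h⟩
    have h1 := Xexp_Phi_large n (le_of_eq hn.symm) U
    have h2 := hcardpos U hU
    have h3 : (U.card : ℝ) ^ (1 - a) ≤ U.card := by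
      calc (U.card : ℝ) ^ (1 - a) ≤ (U.card : ℝ) ^ (1 : ℝ) :=
            Real.rpow_le_rpow_of_exponent_le h2 (by linarith)
        _ = U.card := Real.rpow_one _
    rw [h1] at h
    push_cast at h
    have h4 : (n : ℝ) * (U.card : ℝ) ^ (1 - a) ≤ n * U.card := by gcongr
    have h5 : (n : ℝ) * U.card ≤ r * (n * U.card) := by
      have : 0 ≤ (n : ℝ) * U.card := by positivity
      nlinarith
    linarith
  have hA1 : A 1 := hAs 1 (by rw [Nat.cast_one, one_mul]; exact hN)
  have hex : ∃ t, ¬ A (t + 1) := by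
    refine ⟨n - 1, ?_⟩
    rw [Nat.sub_add_cancel hV]
    exact hAn
  set s := Nat.find hex with hs
  have hs1 : ¬ A (s + 1) := Nat.find_spec hex
  have hs0 : 1 ≤ s := by
    by_contra h
    have : s = 0 := by omega
    rw [this] at hs1
    exact hs1 hA1
  have hsA : A s := by
    have h := Nat.find_min hex (m := s - 1) (by omega)
    rw [not_not, Nat.sub_add_cancel hs0] at h
    exact h
  -- the minimiser
  set R : Finset (Fin r → V) → ℝ := fun U => (XexpPhi s U : ℝ) / (n * (U.card : ℝ) ^ (1 - a))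
    with hR
  have hden : ∀ U : Finset (Fin r → V), U.Nonempty → 0 < (n : ℝ) * (U.card : ℝ) ^ (1 - a) := by
    intro U hU
    have h2 := hcardpos U hU
    have : (0 : ℝ) < (U.card : ℝ) ^ (1 - a) := Real.rpow_pos_of_pos (by linarith) _
    positivity
  obtain ⟨U1, hU1, hU1n, hU1R⟩ := hsA
  have hne : (E0.powerset.filter (fun U => U.Nonempty)).Nonempty :=
    ⟨U1, Finset.mem_filter.2 ⟨Finset.mem_powerset.2 hU1, hU1n⟩⟩
  obtain ⟨E, hE, hEmin⟩ := Finset.exists_min_image _ R hne
  rw [Finset.mem_filter, Finset.mem_powerset] at hE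
  obtain ⟨hEE0, hEne⟩ := hE
  set f := R E with hf
  have hf1 : f < 1 := by
    have h1 := hEmin U1 (Finset.mem_filter.2 ⟨Finset.mem_powerset.2 hU1, hU1n⟩)
    have h2 : R U1 < 1 := by
      rw [hR]
      simp only
      rw [div_lt_one (hden U1 hU1n)]
      exact hU1R
    linarith
  have hfmin : ∀ U ⊆ E0, U.Nonempty → f * (n * (U.card : ℝ) ^ (1 - a)) ≤ XexpPhi s U := by
    intro U hU hUn
    have h1 := hEmin U (Finset.mem_filter.2 ⟨Finset.mem_powerset.2 hU, hUn⟩)
    rw [← le_div_iff₀ (hden U hUn)]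
    exact h1
  have hfE : f * (n * (E.card : ℝ) ^ (1 - a)) = XexpPhi s E := by
    rw [hf, hR]
    simp only
    rw [div_mul_cancel₀ _ (hden E hEne).ne']
  have hf2 : 1 / 2 ≤ f := by
    have h1 : ¬ (XexpPhi (s + 1) E : ℝ) < n * (E.card : ℝ) ^ (1 - a) := by
      intro h
      exact hs1 ⟨E, hEE0, hEne, h⟩
    rw [not_lt] at h1
    have h2 : (XexpPhi (s + 1) E : ℝ) ≤ 2 * XexpPhi s E := by
      exact_mod_cast Xexp_Phi_succ s hs0 E
    have h3 : (n : ℝ) * (E.card : ℝ) ^ (1 - a) ≤ 2 * (f * (n * (E.card : ℝ) ^ (1 - a))) := by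
      rw [hfE]; linarith
    have h4 := hden E hEne
    by_contra h5
    rw [not_le] at h5
    have h6 : 2 * (f * (n * (E.card : ℝ) ^ (1 - a))) < 1 * (n * (E.card : ℝ) ^ (1 - a)) := by
      rw [← mul_assoc]
      exact mul_lt_mul_of_pos_right (by linarith) h4
    linarith
  have hf0 : 0 < f := by linarith
  have hEcard : (1 : ℝ) ≤ E.card := hcardpos E hEne
  have hnpos : (0 : ℝ) < n := by linarith
  refine ⟨E, hEE0, s, hs0, ?_, hEne, ?_, ?_⟩
  · have h1 : ¬ ((s + 1 : ℕ) : ℝ) * D < E0.card := fun h => hs1 (hAs _ h)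
    rw [not_lt] at h1
    have h2 : (E0.card : ℝ) / D ≤ (s + 1 : ℕ) := by
      rw [div_le_iff₀ hDpos]; exact h1
    push_cast at h2
    linarith
  · intro x hx k
    by_contra hlt
    rw [not_le] at hlt
    have hc1 : 1 ≤ dg E k x := by
      unfold dg
      rw [Nat.one_le_iff_ne_zero, Ne, Finset.card_eq_zero, ← Ne, ← Finset.nonempty_iff_ne_empty]
      exact ⟨x k, by simp [hx]⟩
    have hc1R : (1 : ℝ) ≤ dg E k x := by exact_mod_cast hc1
    obtain ⟨h1, h2⟩ := Xexp_remove s E x k hlt.le
    set U := E.filter (fun y => ¬ ∃ v, Function.update x k v = y) with hU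
    have h1R : (XexpPhi s U : ℝ) + n * dg E k x ≤ XexpPhi s E := by exact_mod_cast h1
    have h2R : (U.card : ℝ) + dg E k x = E.card := by exact_mod_cast h2
    rcases U.eq_empty_or_nonempty with hUe | hUn
    · rw [hUe, Finset.card_empty, Nat.cast_zero, zero_add] at h2R
      have h3 : (0 : ℝ) ≤ XexpPhi s U := by positivity
      have h4 : (n : ℝ) * E.card ≤ f * (n * (E.card : ℝ) ^ (1 - a)) := by
        rw [hfE, ← h2R]; linarith
      have h5 : (E.card : ℝ) ^ (1 - a) ≤ E.card := by
        calc (E.card : ℝ) ^ (1 - a) ≤ (E.card : ℝ) ^ (1 : ℝ) :=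
              Real.rpow_le_rpow_of_exponent_le hEcard (by linarith)
          _ = E.card := Real.rpow_one _
      have h6 : f * (n * (E.card : ℝ) ^ (1 - a)) ≤ f * (n * E.card) := by gcongr
      have h7 : f * ((n : ℝ) * E.card) < 1 * (n * E.card) :=
        mul_lt_mul_of_pos_right hf1 (by positivity)
      linarith
    · have h3 := hfmin U ((Finset.filter_subset _ _).trans hEE0) hUn
      have h4 := Xexp_rpow_add (a := a) (hcardpos U hUn) (show (0 : ℝ) ≤ dg E k x by positivity)
        ha0.le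
      rw [h2R] at h4
      have h5 : f * (n * (U.card : ℝ) ^ (1 - a)) + n * dg E k x ≤
          f * (n * (E.card : ℝ) ^ (1 - a)) := by rw [hfE]; linarith
      have h6 : f * (n * (E.card : ℝ) ^ (1 - a)) ≤
          f * (n * ((U.card : ℝ) ^ (1 - a) + dg E k x)) := by gcongr
      have h7 : (n : ℝ) * dg E k x ≤ f * (n * dg E k x) := by linarith
      have h8 : f * ((n : ℝ) * dg E k x) < 1 * (n * dg E k x) :=
        mul_lt_mul_of_pos_right hf1 (by positivity)
      linarith
  · intro U hUE
    set W := E \ U with hW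
    have hRHS : (0 : ℝ) ≤ ∑ k : Fin r, ∑ τ : Fin r → V, (min (dg U k τ : ℝ) (dg W k τ : ℝ)) :=
      Finset.sum_nonneg fun k _ => Finset.sum_nonneg fun τ _ =>
        le_min (Nat.cast_nonneg _) (Nat.cast_nonneg _)
    have hUW : (U.card : ℝ) + W.card = E.card := by
      have h1 := Finset.card_sdiff_add_card_eq_card hUE
      rw [← hW] at h1
      have : U.card + W.card = E.card := by omega
      exact_mod_cast this
    rcases U.eq_empty_or_nonempty with hUe | hUn
    · rw [hUe, Finset.card_empty, Nat.cast_zero, zero_div, Real.binEntropy_zero, mul_zero]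
      rw [← hUe]
      exact hRHS
    rcases W.eq_empty_or_nonempty with hWe | hWn
    · have h1 : (U.card : ℝ) = E.card := by
        rw [hWe, Finset.card_empty, Nat.cast_zero, add_zero] at hUW
        exact hUW
      rw [h1, div_self (by linarith), Real.binEntropy_one, mul_zero]
      exact hRHS
    have hWE : W ⊆ E := Finset.sdiff_subset
    have h1 := hfmin U (hUE.trans hEE0) hUn
    have h2 := hfmin W (hWE.trans hEE0) hWn
    have h3 : (XexpPhi s U : ℝ) + XexpPhi s W ≤ XexpPhi s E +
        ∑ k : Fin r, ∑ τ : Fin r → V, (min (dg U k τ : ℝ) (dg W k τ : ℝ)) := by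
      have h4 : XexpPhi s U + XexpPhi s W ≤ XexpPhi s E +
          ∑ k : Fin r, ∑ τ : Fin r → V, (min (dg U k τ) (dg W k τ)) := by
        unfold XexpPhi
        rw [← Finset.sum_add_distrib, ← Finset.sum_add_distrib]
        refine Finset.sum_le_sum fun k _ => ?_
        rw [← Finset.sum_add_distrib, ← Finset.sum_add_distrib]
        refine Finset.sum_le_sum fun τ _ => ?_
        have h5 := Xexp_dg_add hUE k τ
        rw [← hW] at h5
        omega
      have h5 : ((XexpPhi s U + XexpPhi s W : ℕ) : ℝ) ≤ ((XexpPhi s E +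
          ∑ k : Fin r, ∑ τ : Fin r → V, (min (dg U k τ) (dg W k τ)) : ℕ) : ℝ) := by
        exact_mod_cast h4
      push_cast at h5
      exact h5
    rw [← hfE] at h3
    set N : ℝ := (E.card : ℝ) with hNdef
    set u : ℝ := U.card / N with hu
    have hN0 : 0 < N := by linarith
    have hU1' := hcardpos U hUn
    have hW1' := hcardpos W hWn
    have hu0 : 0 < u := by rw [hu]; positivity
    have hu1 : u < 1 := by
      rw [hu, div_lt_one hN0]; linarith
    have hUu : (U.card : ℝ) = N * u := by rw [hu]; field_simp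
    have hWu : (W.card : ℝ) = N * (1 - u) := by
      rw [mul_sub, mul_one, ← hUu]; linarith
    have e1 : (U.card : ℝ) ^ (1 - a) = N ^ (1 - a) * u ^ (1 - a) := by
      rw [hUu, Real.mul_rpow hN0.le hu0.le]
    have e2 : (W.card : ℝ) ^ (1 - a) = N ^ (1 - a) * (1 - u) ^ (1 - a) := by
      rw [hWu, Real.mul_rpow hN0.le (by linarith)]
    have h6 := Xexp_entropy (a := a) hu0 hu1
    have h7 : f * (n * N ^ (1 - a)) * (a * Real.binEntropy u) ≤
        ∑ k : Fin r, ∑ τ : Fin r → V, (min (dg U k τ : ℝ) (dg W k τ : ℝ)) := by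
      rw [e1] at h1
      rw [e2] at h2
      have h8 : f * (n * N ^ (1 - a)) * (a * Real.binEntropy u) ≤
          f * (n * N ^ (1 - a)) * (u ^ (1 - a) + (1 - u) ^ (1 - a) - 1) := by
        apply mul_le_mul_of_nonneg_left
        · linarith
        · exact mul_nonneg hf0.le (hden E hEne).le
      refine h8.trans ?_
      have h9 : f * (n * N ^ (1 - a)) * (u ^ (1 - a) + (1 - u) ^ (1 - a) - 1) =
          f * (n * (N ^ (1 - a) * u ^ (1 - a))) + f * (n * (N ^ (1 - a) * (1 - u) ^ (1 - a))) -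
            f * (n * N ^ (1 - a)) := by ring
      rw [h9]
      linarith
    refine le_trans ?_ h7
    have hH : 0 ≤ Real.binEntropy u := Real.binEntropy_nonneg hu0.le hu1.le
    have h10 : N ^ (1 - a) = N * N ^ (-a) := by
      rw [show (1 - a) = 1 + (-a) by ring, Real.rpow_add hN0, Real.rpow_one]
    have h11 : Real.exp (-1) ≤ N ^ (-a) := by
      rw [← hN0a]
      have hcc : (E.card : ℝ) ≤ E0.card := by exact_mod_cast Finset.card_le_card hEE0
      exact Real.rpow_le_rpow_of_nonpos hN0 hcc (by linarith)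
    rw [h10]
    exact Xexp_final hnpos.le hN0.le (by linarith) hf2 ha hH h11

end Pool.H18.TC
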