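import Pool.Agent.H18.TC.Xker

/-! X3: the expansion property of the kernels -/

open Finset
open Classical

namespace Pool.H18.TC

variable {r : ℕ} {V : Type*} [Fintype V]

/-! ### averaging over the lines of one direction -/

/-- averaging over the lines of direction `k` -/
noncomputable def xisoP (E : Finset (Fin r → V)) (k : Fin r) (g : (Fin r → V) → ℝ) :
    (Fin r → V) → ℝ := push E (Kone E k) g

omit [Fintype V] in
theorem xiso_update_eq {k : Fin r} {x y : Fin r → V} (h : ∀ j, j ≠ k → x j = y j) (v : V) :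
    Function.update x k v = Function.update y k v := by
  funext j
  by_cases hj : j = k
  · subst hj; simp
  · simp [Function.update_of_ne hj, h j hj]

theorem xiso_dg_eq (E : Finset (Fin r → V)) {k : Fin r} {x y : Fin r → V}
    (h : ∀ j, j ≠ k → x j = y j) : dg E k x = dg E k y := by
  unfold dg
  congr 1
  ext v
  simp only [mem_filter, mem_univ, true_and]
  rw [xiso_update_eq h]

theorem xiso_dg_pos {E : Finset (Fin r → V)} (k : Fin r) {x : Fin r → V} (hx : x ∈ E) :
    0 < dg E k x := by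
  unfold dg
  rw [Finset.card_pos]
  exact ⟨x k, by simpa using hx⟩

theorem xiso_card_line (E : Finset (Fin r → V)) (k : Fin r) (x : Fin r → V) :
    (E.filter (fun y => ∀ j, j ≠ k → x j = y j)).card = dg E k x := by
  unfold dg
  symm
  refine Finset.card_bij (fun v _ => Function.update x k v) ?_ ?_ ?_
  · intro v hv
    simp only [mem_filter, mem_univ, true_and] at hv ⊢
    exact ⟨hv, fun j hj => (Function.update_of_ne hj _ _).symm⟩
  · intro v _ w _ h
    have := congrFun h k
    simpa using this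
  · intro y hy
    simp only [mem_filter] at hy
    refine ⟨y k, ?_, ?_⟩
    · simp only [mem_filter, mem_univ, true_and]
      rw [xiso_update_eq hy.2, Function.update_eq_self]
      exact hy.1
    · rw [xiso_update_eq hy.2, Function.update_eq_self]

theorem xiso_Kone_row {E : Finset (Fin r → V)} (k : Fin r) {x : Fin r → V} (hx : x ∈ E) :
    ∑ y ∈ E, Kone E k x y = 1 := by
  have h1 : ∑ y ∈ E, Kone E k x y =
      ∑ y ∈ E.filter (fun y => ∀ j, j ≠ k → x j = y j), 1 / (dg E k x : ℝ) := by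
    rw [Finset.sum_filter]
    refine Finset.sum_congr rfl fun y hy => ?_
    unfold Kone
    by_cases h : ∀ j, j ≠ k → x j = y j
    · rw [if_pos ⟨hx, hy, h⟩, if_pos h]
    · rw [if_neg (fun h' => h h'.2.2), if_neg h]
  rw [h1, Finset.sum_const, xiso_card_line, nsmul_eq_mul]
  have : (dg E k x : ℝ) ≠ 0 := by
    have := xiso_dg_pos k hx
    positivity
  field_simp

theorem xiso_Kone_symm (E : Finset (Fin r → V)) (k : Fin r) (x y : Fin r → V) :
    Kone E k x y = Kone E k y x := by
  unfold Kone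
  by_cases h : x ∈ E ∧ y ∈ E ∧ ∀ j, j ≠ k → x j = y j
  · rw [if_pos h, if_pos ⟨h.2.1, h.1, fun j hj => (h.2.2 j hj).symm⟩, xiso_dg_eq E h.2.2]
  · rw [if_neg h, if_neg fun h' => h ⟨h'.2.1, h'.1, fun j hj => (h'.2.2 j hj).symm⟩]

theorem xiso_Kone_nonneg (E : Finset (Fin r → V)) (k : Fin r) (x y : Fin r → V) :
    0 ≤ Kone E k x y := by
  unfold Kone
  split_ifs <;> positivity

/-- constant on the lines of direction `k` -/
def XisoC (E : Finset (Fin r → V)) (k : Fin r) (h : (Fin r → V) → ℝ) : Prop :=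
  ∀ x ∈ E, ∀ y ∈ E, (∀ j, j ≠ k → x j = y j) → h x = h y

theorem xisoP_const (E : Finset (Fin r → V)) (k : Fin r) (g : (Fin r → V) → ℝ) :
    XisoC E k (xisoP E k g) := by
  intro x hx y hy hxy
  unfold xisoP push
  refine Finset.sum_congr rfl fun e he => ?_
  congr 1
  unfold Kone
  have : (e ∈ E ∧ x ∈ E ∧ ∀ j, j ≠ k → e j = x j) ↔ (e ∈ E ∧ y ∈ E ∧ ∀ j, j ≠ k → e j = y j) := by
    constructor
    · rintro ⟨a, -, c⟩
      exact ⟨a, hy, fun j hj => (c j hj).trans (hxy j hj)⟩
    · rintro ⟨a, -, c⟩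
      exact ⟨a, hx, fun j hj => (c j hj).trans (hxy j hj).symm⟩
  by_cases h : e ∈ E ∧ x ∈ E ∧ ∀ j, j ≠ k → e j = x j
  · rw [if_pos h, if_pos (this.1 h)]
  · rw [if_neg h, if_neg fun h' => h (this.2 h')]

theorem xiso_pair (E : Finset (Fin r → V)) (k : Fin r) (g h : (Fin r → V) → ℝ)
    (hh : XisoC E k h) : ∑ y ∈ E, h y * xisoP E k g y = ∑ y ∈ E, h y * g y := by
  unfold xisoP push
  simp_rw [Finset.mul_sum]
  rw [Finset.sum_comm]
  refine Finset.sum_congr rfl fun e he => ?_
  have h1 : ∀ y ∈ E, h y * (g e * Kone E k e y) = h e * g e * Kone E k e y := by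
    intro y hy
    by_cases hk : Kone E k e y = 0
    · rw [hk]; ring
    · have : h y = h e := by
        have h2 : e ∈ E ∧ y ∈ E ∧ ∀ j, j ≠ k → e j = y j := by
          by_contra h3
          exact hk (if_neg h3)
        exact (hh e he y hy h2.2.2).symm
      rw [this]; ring
  rw [Finset.sum_congr rfl h1, ← Finset.mul_sum, xiso_Kone_row k he, mul_one]

theorem xiso_mass (E : Finset (Fin r → V)) (k : Fin r) (g : (Fin r → V) → ℝ) :
    ∑ y ∈ E, xisoP E k g y = ∑ y ∈ E, g y := by
  have := xiso_pair E k g (fun _ => 1) (fun _ _ _ _ _ => rfl)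
  simpa using this

theorem xisoP_fix (E : Finset (Fin r → V)) (k : Fin r) (h : (Fin r → V) → ℝ)
    (hh : XisoC E k h) {y : Fin r → V} (hy : y ∈ E) : xisoP E k h y = h y := by
  unfold xisoP push
  have h1 : ∀ e ∈ E, h e * Kone E k e y = h y * Kone E k y e := by
    intro e he
    rw [xiso_Kone_symm E k e y]
    by_cases hk : Kone E k y e = 0
    · rw [hk]; ring
    · have h2 : y ∈ E ∧ e ∈ E ∧ ∀ j, j ≠ k → y j = e j := by
        by_contra h3
        exact hk (if_neg h3)
      rw [hh y hy e he h2.2.2]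
  rw [Finset.sum_congr rfl h1, ← Finset.mul_sum, xiso_Kone_row k hy, mul_one]

theorem xisoP_sub (E : Finset (Fin r → V)) (k : Fin r) (g h : (Fin r → V) → ℝ)
    (y : Fin r → V) : xisoP E k (fun x => g x - h x) y = xisoP E k g y - xisoP E k h y := by
  unfold xisoP push
  rw [← Finset.sum_sub_distrib]
  exact Finset.sum_congr rfl fun e _ => by ring

theorem xiso_pyth (E : Finset (Fin r → V)) (k : Fin r) (g : (Fin r → V) → ℝ) :
    ∑ y ∈ E, g y ^ 2 = ∑ y ∈ E, xisoP E k g y ^ 2 + ∑ y ∈ E, (xisoP E k g y - g y) ^ 2 := by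
  have h1 := xiso_pair E k g _ (xisoP_const E k g)
  have h2 : ∑ y ∈ E, (xisoP E k g y - g y) ^ 2 = ∑ y ∈ E, xisoP E k g y * xisoP E k g y
      - 2 * ∑ y ∈ E, xisoP E k g y * g y + ∑ y ∈ E, g y ^ 2 := by
    rw [Finset.mul_sum, ← Finset.sum_sub_distrib, ← Finset.sum_add_distrib]
    exact Finset.sum_congr rfl fun e _ => by ring
  have h3 : ∑ y ∈ E, xisoP E k g y ^ 2 = ∑ y ∈ E, xisoP E k g y * xisoP E k g y :=
    Finset.sum_congr rfl fun e _ => by ring
  rw [h2, h3, ← h1]
  ring

theorem xiso_best (E : Finset (Fin r → V)) (k : Fin r) (f h : (Fin r → V) → ℝ)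
    (hh : XisoC E k h) :
    ∑ y ∈ E, (f y - xisoP E k f y) ^ 2 ≤ ∑ y ∈ E, (f y - h y) ^ 2 := by
  have h1 := xiso_pyth E k (fun x => f x - h x)
  have h2 : ∑ y ∈ E, (xisoP E k (fun x => f x - h x) y - (f y - h y)) ^ 2 =
      ∑ y ∈ E, (f y - xisoP E k f y) ^ 2 := by
    refine Finset.sum_congr rfl fun y hy => ?_
    rw [xisoP_sub, xisoP_fix E k h hh hy]
    ring
  have h3 : 0 ≤ ∑ y ∈ E, xisoP E k (fun x => f x - h x) y ^ 2 :=
    Finset.sum_nonneg fun y _ => sq_nonneg _
  linarith

theorem xisoP_mem {E : Finset (Fin r → V)} (k : Fin r) {g : (Fin r → V) → ℝ}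
    (h0 : ∀ x ∈ E, 0 ≤ g x) (h1 : ∀ x ∈ E, g x ≤ 1) {y : Fin r → V} (hy : y ∈ E) :
    0 ≤ xisoP E k g y ∧ xisoP E k g y ≤ 1 := by
  constructor
  · exact Finset.sum_nonneg fun e he => mul_nonneg (h0 e he) (xiso_Kone_nonneg _ _ _ _)
  · have h2 : xisoP E k g y ≤ ∑ e ∈ E, Kone E k y e := by
      refine Finset.sum_le_sum fun e he => ?_
      rw [xiso_Kone_symm E k e y]
      exact mul_le_of_le_one_left (xiso_Kone_nonneg _ _ _ _) (h1 e he)
    rwa [xiso_Kone_row k hy] at h2

/-! ### the chain of averages -/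

/-- the successive averages -/
noncomputable def xisoIt (E : Finset (Fin r → V)) (l : List (Fin r)) (g : (Fin r → V) → ℝ) :
    (Fin r → V) → ℝ := l.foldl (fun h k => xisoP E k h) g

theorem xiso_push (E : Finset (Fin r → V)) (l : List (Fin r)) : ∀ (g : (Fin r → V) → ℝ)
    (y : Fin r → V), y ∈ E → push E (KL E l) g y = xisoIt E l g y := by
  induction l with
  | nil =>
    intro g y hy
    have e1 : ∀ e ∈ E, g e * KL E [] e y = if e = y then g e else 0 := by
      intro e he
      show g e * (if e ∈ E ∧ e = y then (1 : ℝ) else 0) = _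
      by_cases h : e = y
      · rw [if_pos ⟨he, h⟩, if_pos h, mul_one]
      · rw [if_neg (fun h' => h h'.2), if_neg h, mul_zero]
    show ∑ e ∈ E, g e * KL E [] e y = g y
    rw [Finset.sum_congr rfl e1, Finset.sum_ite_eq' E y g, if_pos hy]
  | cons k l ih =>
    intro g y hy
    show push E (KL E (k :: l)) g y = xisoIt E l (xisoP E k g) y
    rw [← ih (xisoP E k g) y hy]
    show ∑ e ∈ E, g e * ∑ z ∈ E, Kone E k e z * KL E l z y =
      ∑ z ∈ E, (∑ e ∈ E, g e * Kone E k e z) * KL E l z y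
    simp_rw [Finset.mul_sum, Finset.sum_mul]
    rw [Finset.sum_comm]
    exact Finset.sum_congr rfl fun z _ => Finset.sum_congr rfl fun e _ => by ring

theorem xisoIt_mass (E : Finset (Fin r → V)) (l : List (Fin r)) : ∀ (g : (Fin r → V) → ℝ),
    ∑ y ∈ E, xisoIt E l g y = ∑ y ∈ E, g y := by
  induction l with
  | nil => intro g; rfl
  | cons k l ih => intro g; exact (ih (xisoP E k g)).trans (xiso_mass E k g)

theorem xisoIt_mem {E : Finset (Fin r → V)} (l : List (Fin r)) : ∀ {g : (Fin r → V) → ℝ},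
    (∀ x ∈ E, 0 ≤ g x) → (∀ x ∈ E, g x ≤ 1) → ∀ {y : Fin r → V}, y ∈ E →
    0 ≤ xisoIt E l g y ∧ xisoIt E l g y ≤ 1 := by
  induction l with
  | nil => intro g h0 h1 y hy; exact ⟨h0 y hy, h1 y hy⟩
  | cons k l ih =>
    intro g h0 h1 y hy
    exact ih (fun x hx => (xisoP_mem k h0 h1 hx).1) (fun x hx => (xisoP_mem k h0 h1 hx).2) hy

theorem xisoIt_energy (E : Finset (Fin r → V)) (l : List (Fin r)) : ∀ (g : (Fin r → V) → ℝ),
    ∑ y ∈ E, g y ^ 2 = ∑ y ∈ E, xisoIt E l g y ^ 2 + ∑ i ∈ range l.length,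
      ∑ y ∈ E, (xisoIt E (l.take (i + 1)) g y - xisoIt E (l.take i) g y) ^ 2 := by
  induction l with
  | nil => intro g; simp [xisoIt]
  | cons k l ih =>
    intro g
    rw [List.length_cons, Finset.sum_range_succ']
    have h1 := ih (xisoP E k g)
    have h2 := xiso_pyth E k g
    simp only [List.take_succ_cons, List.take_zero] at *
    have h3 : ∀ (m : List (Fin r)) (y), xisoIt E (k :: m) g y = xisoIt E m (xisoP E k g) y :=
      fun m y => rfl
    have h4 : ∀ y, xisoIt E [] g y = g y := fun y => rfl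
    have h5 : ∀ y, xisoIt E [] (xisoP E k g) y = xisoP E k g y := fun y => rfl
    simp only [h3, h4, h5] at *
    rw [h2, h1]
    ring

/-- the squared deviation from a reference function, after `j` averages -/
theorem xiso_dev (E : Finset (Fin r → V)) (l : List (Fin r)) (f g : (Fin r → V) → ℝ) (j : ℕ) :
    ∑ y ∈ E, (f y - xisoIt E (l.take j) g y) ^ 2 ≤ (j + 1) * (∑ y ∈ E, (f y - g y) ^ 2 +
      ∑ i ∈ range j, ∑ y ∈ E, (xisoIt E (l.take (i + 1)) g y - xisoIt E (l.take i) g y) ^ 2) := by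
  have h1 : ∀ y, (f y - xisoIt E (l.take j) g y) ^ 2 ≤ (j + 1) * ((f y - g y) ^ 2 +
      ∑ i ∈ range j, (xisoIt E (l.take (i + 1)) g y - xisoIt E (l.take i) g y) ^ 2) := by
    intro y
    set a : ℕ → ℝ := fun i => Nat.rec (f y - g y)
      (fun i _ => xisoIt E (l.take i) g y - xisoIt E (l.take (i + 1)) g y) i with ha
    have e1 : f y - xisoIt E (l.take j) g y = ∑ i ∈ range (j + 1), a i := by
      rw [Finset.sum_range_succ']
      have : ∑ i ∈ range j, a (i + 1) = g y - xisoIt E (l.take j) g y := by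
        have h0 : g y = xisoIt E (l.take 0) g y := by simp [xisoIt]
        rw [h0]
        exact Finset.sum_range_sub' (fun i => xisoIt E (l.take i) g y) j
      rw [this]
      show _ = _ + (f y - g y)
      ring
    have e2 : (f y - g y) ^ 2 + ∑ i ∈ range j,
        (xisoIt E (l.take (i + 1)) g y - xisoIt E (l.take i) g y) ^ 2 =
        ∑ i ∈ range (j + 1), a i ^ 2 := by
      rw [Finset.sum_range_succ', add_comm]
      congr 1
      exact Finset.sum_congr rfl fun i _ => by
        show _ = (xisoIt E (l.take i) g y - xisoIt E (l.take (i + 1)) g y) ^ 2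
        ring
    rw [e1, e2]
    have := sq_sum_le_card_mul_sum_sq (s := range (j + 1)) (f := a)
    rw [Finset.card_range] at this
    push_cast at this
    exact this
  calc ∑ y ∈ E, (f y - xisoIt E (l.take j) g y) ^ 2
      ≤ ∑ y ∈ E, (j + 1) * ((f y - g y) ^ 2 +
        ∑ i ∈ range j, (xisoIt E (l.take (i + 1)) g y - xisoIt E (l.take i) g y) ^ 2) :=
        Finset.sum_le_sum fun y _ => h1 y
    _ = _ := by
        rw [← Finset.mul_sum, Finset.sum_add_distrib, Finset.sum_comm]

/-! ### the contribution of the lines -/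

theorem xiso_count (E : Finset (Fin r → V)) (k : Fin r) (φ : (Fin r → V) → ℝ) :
    ∑ τ : Fin r → V, ∑ v : V, (if Function.update τ k v ∈ E then φ (Function.update τ k v) else 0) =
      (Fintype.card V : ℝ) * ∑ x ∈ E, φ x := by
  have h1 : ∀ (τ : Fin r → V) (v : V),
      (if Function.update τ k v ∈ E then φ (Function.update τ k v) else 0) =
      ∑ x ∈ E, if Function.update τ k v = x then φ x else 0 := by
    intro τ v
    rw [Finset.sum_ite_eq]
  simp_rw [h1]
  rw [← Finset.sum_product', Finset.sum_comm, Finset.mul_sum]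
  refine Finset.sum_congr rfl fun x hx => ?_
  rw [← Finset.sum_filter, Finset.sum_const, nsmul_eq_mul]
  congr 2
  rw [← Finset.card_univ (α := V)]
  symm
  refine Finset.card_bij (fun w _ => (Function.update x k w, x k)) ?_ ?_ ?_
  · intro w _
    simp
  · intro w _ w' _ h
    have := congrFun (Prod.mk.inj h).1 k
    simpa using this
  · rintro ⟨τ, v⟩ h
    simp only [mem_filter, mem_product, mem_univ, true_and] at h
    refine ⟨τ k, mem_univ _, ?_⟩
    subst h
    simp

theorem xisoP_ind (E U : Finset (Fin r → V)) (hU : U ⊆ E) (k : Fin r) {y : Fin r → V}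
    (hy : y ∈ E) : xisoP E k (fun x => if x ∈ U then 1 else 0) y = (dg U k y : ℝ) / dg E k y := by
  unfold xisoP push
  have h1 : ∀ e ∈ E, (if e ∈ U then (1 : ℝ) else 0) * Kone E k e y =
      if (e ∈ U ∧ ∀ j, j ≠ k → y j = e j) then 1 / (dg E k y : ℝ) else 0 := by
    intro e he
    rw [xiso_Kone_symm E k e y]
    unfold Kone
    by_cases h2 : e ∈ U
    · by_cases h3 : ∀ j, j ≠ k → y j = e j
      · rw [if_pos h2, if_pos ⟨hy, he, h3⟩, if_pos ⟨h2, h3⟩, one_mul]
      · rw [if_pos h2, if_neg (fun h => h3 h.2.2), if_neg (fun h => h3 h.2), one_mul]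
    · rw [if_neg h2, zero_mul, if_neg (fun h => h2 h.1)]
  rw [Finset.sum_congr rfl h1, ← Finset.sum_filter, Finset.sum_const, nsmul_eq_mul]
  have h2 : E.filter (fun e => e ∈ U ∧ ∀ j, j ≠ k → y j = e j) =
      U.filter (fun e => ∀ j, j ≠ k → y j = e j) := by
    ext e
    simp only [mem_filter]
    exact ⟨fun h => h.2, fun h => ⟨hU h.1, h⟩⟩
  rw [h2, xiso_card_line]
  ring

theorem xiso_dg_add (E U : Finset (Fin r → V)) (hU : U ⊆ E) (k : Fin r) (τ : Fin r → V) :
    dg E k τ = dg U k τ + dg (E \ U) k τ := by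
  unfold dg
  rw [← Finset.card_union_of_disjoint]
  · congr 1
    ext v
    simp only [mem_filter, mem_univ, true_and, mem_union, mem_sdiff]
    constructor
    · intro h
      by_cases h' : Function.update τ k v ∈ U
      · exact Or.inl h'
      · exact Or.inr ⟨h, h'⟩
    · rintro (h | h)
      · exact hU h
      · exact h.1
  · rw [Finset.disjoint_left]
    intro v hv hv'
    simp only [mem_filter, mem_univ, true_and, mem_sdiff] at hv hv'
    exact hv'.2 hv

theorem xiso_line (E U : Finset (Fin r → V)) (hU : U ⊆ E) (k : Fin r) (τ : Fin r → V) :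
    (min (dg U k τ : ℝ) (dg (E \ U) k τ : ℝ)) / 2 ≤
      ∑ v : V, (if Function.update τ k v ∈ E then
        ((if Function.update τ k v ∈ U then (1 : ℝ) else 0) -
          xisoP E k (fun x => if x ∈ U then 1 else 0) (Function.update τ k v)) ^ 2 else 0) := by
  set a : ℝ := (dg U k τ : ℝ) with ha
  set b : ℝ := (dg (E \ U) k τ : ℝ) with hb
  have hab : (dg E k τ : ℝ) = a + b := by
    rw [xiso_dg_add E U hU k τ]; push_cast; rfl
  have hoff : ∀ v, ∀ j, j ≠ k → Function.update τ k v j = τ j := fun v j hj =>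
    Function.update_of_ne hj _ _
  have h1 : ∀ v, (if Function.update τ k v ∈ E then
        ((if Function.update τ k v ∈ U then (1 : ℝ) else 0) -
          xisoP E k (fun x => if x ∈ U then 1 else 0) (Function.update τ k v)) ^ 2 else 0) =
      (if Function.update τ k v ∈ U then (1 - a / (a + b)) ^ 2 else 0) +
      (if Function.update τ k v ∈ E \ U then (a / (a + b)) ^ 2 else 0) := by
    intro v
    by_cases hE : Function.update τ k v ∈ E
    · rw [if_pos hE, xisoP_ind E U hU k hE, xiso_dg_eq U (hoff v), xiso_dg_eq E (hoff v), hab]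
      by_cases hU' : Function.update τ k v ∈ U
      · rw [if_pos hU', if_pos hU', if_neg (by simp [hU']), add_zero]
      · rw [if_neg hU', if_neg hU', if_pos (by simp [hU', hE]), zero_add]
        ring
    · rw [if_neg hE, if_neg (fun h => hE (hU h)), if_neg (by simp [hE]), add_zero]
  simp_rw [h1]
  rw [Finset.sum_add_distrib, ← Finset.sum_filter, ← Finset.sum_filter, Finset.sum_const,
    Finset.sum_const, nsmul_eq_mul, nsmul_eq_mul]
  show min a b / 2 ≤ a * (1 - a / (a + b)) ^ 2 + b * (a / (a + b)) ^ 2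
  have ha0 : 0 ≤ a := by positivity
  have hb0 : 0 ≤ b := by positivity
  rcases eq_or_lt_of_le (add_nonneg ha0 hb0) with h0 | h0
  · have h2 : a = 0 := by linarith
    have h3 : b = 0 := by linarith
    simp [h2, h3]
  · have h2 : a * (1 - a / (a + b)) ^ 2 + b * (a / (a + b)) ^ 2 = a * b / (a + b) := by
      field_simp
      ring
    rw [h2, le_div_iff₀ h0]
    rcases le_total a b with h | h
    · rw [min_eq_left h]
      nlinarith
    · rw [min_eq_right h]
      nlinarith

theorem xiso_sum_min (E U : Finset (Fin r → V)) (hU : U ⊆ E) (k : Fin r) :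
    ∑ τ : Fin r → V, (min (dg U k τ : ℝ) (dg (E \ U) k τ : ℝ)) ≤
      2 * ((Fintype.card V : ℝ) * ∑ x ∈ E, ((if x ∈ U then (1 : ℝ) else 0) -
        xisoP E k (fun x => if x ∈ U then 1 else 0) x) ^ 2) := by
  rw [← xiso_count, Finset.mul_sum]
  refine Finset.sum_le_sum fun τ _ => ?_
  have := xiso_line E U hU k τ
  linarith

/-! ### the conclusion -/

theorem xiso_entropy {u L M N : ℝ} (hN : 0 < N) (hM : 0 < M) (hL : L = Real.log (N / M))
    (hL0 : 0 ≤ L) (h1 : 98 / 100 * (M / N) ≤ u) (h2 : u ≤ 102 / 100 * (M / N))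
    (h3 : u ≤ 918 / 1000) : 5 / 100 * (M / N) * (1 + L) ≤ Real.binEntropy u := by
  have hMN : 0 < M / N := by positivity
  have hu : 0 < u := lt_of_lt_of_le (by positivity) h1
  have e1 : Real.binEntropy u = u * Real.log u⁻¹ + (1 - u) * Real.log (1 - u)⁻¹ := rfl
  have e2 : u ≤ Real.log (1 - u)⁻¹ := by
    rw [Real.log_inv]
    have := Real.log_le_sub_one_of_pos (show 0 < 1 - u by linarith)
    linarith
  have e3 : L - 2 / 100 ≤ Real.log u⁻¹ := by
    rw [Real.log_inv, hL]
    have h4 : Real.log u ≤ Real.log (102 / 100 * (M / N)) := Real.log_le_log hu h2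
    rw [Real.log_mul (by norm_num) hMN.ne'] at h4
    have h5 : Real.log (102 / 100 : ℝ) ≤ 2 / 100 := by
      have := Real.log_le_sub_one_of_pos (show (0 : ℝ) < 102 / 100 by norm_num)
      linarith
    have h6 : Real.log (N / M) = - Real.log (M / N) := by
      rw [← Real.log_inv, inv_div]
    linarith
  have e4 : u * (L - 2 / 100) ≤ u * Real.log u⁻¹ := mul_le_mul_of_nonneg_left e3 hu.le
  have e5 : (1 - u) * u ≤ (1 - u) * Real.log (1 - u)⁻¹ :=
    mul_le_mul_of_nonneg_left e2 (by linarith)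
  have e6 : u * (L + 62 / 1000) ≤ Real.binEntropy u := by
    rw [e1]
    nlinarith
  have e7 : 98 / 100 * (M / N) * (L + 62 / 1000) ≤ u * (L + 62 / 1000) :=
    mul_le_mul_of_nonneg_right h1 (by linarith)
  nlinarith [mul_nonneg hMN.le hL0]

theorem KL_expands (hr : 1 ≤ r) (E : Finset (Fin r → V)) (hE : E.Nonempty) (s : ℝ) (hs : 1 ≤ s)
    (hdeg : ∀ x ∈ E, ∀ k, s ≤ (dg E k x : ℝ))
    (l : List (Fin r)) (hl : l.Nodup) (hall : ∀ k, k ∈ l) (β : ℝ) (hβ : 0 < β)
    (hβ1 : β * (1 + Real.log E.card) ≤ 1 / 2)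
    (hiso : ∀ U ⊆ E, (Fintype.card V : ℝ) * β * E.card * Real.binEntropy ((U.card : ℝ) / E.card)
        ≤ ∑ k : Fin r, ∑ τ : Fin r → V, (min (dg U k τ : ℝ) (dg (E \ U) k τ : ℝ))) :
    Expands E (KL E l) (β / (80 * r ^ 2)) := by
  intro g hg0 hg1 hM1 hM9
  have hr1 : (1 : ℝ) ≤ r := by exact_mod_cast hr
  have hlen : l.length = r := by
    have h1 : l.toFinset = univ := by
      ext k
      simpa using hall k
    have h2 := List.toFinset_card_of_nodup hl
    rw [h1, Finset.card_univ, Fintype.card_fin] at h2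
    exact h2.symm
  set N : ℝ := (E.card : ℝ) with hN
  set M : ℝ := mass E g with hM
  have hNpos : 0 < N := by rw [hN]; exact_mod_cast hE.card_pos
  have hMpos : 0 < M := by linarith
  -- replace the push by the chain
  have hpush : ∑ f ∈ E, min (push E (KL E l) g f) (1 - push E (KL E l) g f) =
      ∑ f ∈ E, min (xisoIt E l g f) (1 - xisoIt E l g f) :=
    Finset.sum_congr rfl fun f hf => by rw [xiso_push E l g f hf]
  rw [hpush]
  set D : ℕ → ℝ := fun i =>
    ∑ y ∈ E, (xisoIt E (l.take (i + 1)) g y - xisoIt E (l.take i) g y) ^ 2 with hD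
  have hD0 : ∀ i, 0 ≤ D i := fun i => Finset.sum_nonneg fun y _ => sq_nonneg _
  set Q : ℝ := ∑ f ∈ E, xisoIt E l g f * (1 - xisoIt E l g f) with hQ
  have hQle : Q ≤ ∑ f ∈ E, min (xisoIt E l g f) (1 - xisoIt E l g f) := by
    refine Finset.sum_le_sum fun f hf => ?_
    obtain ⟨a0, a1⟩ := xisoIt_mem l hg0 hg1 hf
    refine le_min ?_ ?_
    · nlinarith
    · nlinarith
  have hQeq : Q = ∑ f ∈ E, g f * (1 - g f) + ∑ i ∈ range r, D i := by
    have h1 := xisoIt_energy E l g
    have h2 := xisoIt_mass E l g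
    rw [hlen] at h1
    have h3 : Q = ∑ f ∈ E, xisoIt E l g f - ∑ f ∈ E, xisoIt E l g f ^ 2 := by
      rw [← Finset.sum_sub_distrib]
      exact Finset.sum_congr rfl fun f _ => by ring
    have h4 : ∑ f ∈ E, g f * (1 - g f) = ∑ f ∈ E, g f - ∑ f ∈ E, g f ^ 2 := by
      rw [← Finset.sum_sub_distrib]
      exact Finset.sum_congr rfl fun f _ => by ring
    rw [h3, h4, h2, h1]
    ring
  set U : Finset (Fin r → V) := E.filter (fun x => 1 / 2 < g x) with hU
  have hUE : U ⊆ E := Finset.filter_subset _ _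
  set ind : (Fin r → V) → ℝ := fun x => if x ∈ U then 1 else 0 with hind
  have hindU : ∀ x ∈ E, (1 / 2 < g x ∧ ind x = 1) ∨ (g x ≤ 1 / 2 ∧ ind x = 0) := by
    intro x hx
    by_cases h : 1 / 2 < g x
    · left
      refine ⟨h, if_pos ?_⟩
      rw [hU, mem_filter]
      exact ⟨hx, h⟩
    · right
      refine ⟨not_lt.1 h, if_neg ?_⟩
      rw [hU, mem_filter]
      exact fun h' => h h'.2
  have hcardU : (U.card : ℝ) = ∑ x ∈ E, ind x := by
    rw [hind, ← Finset.sum_filter, Finset.sum_const, nsmul_eq_mul, mul_one]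
    congr 2
    ext x
    simp only [mem_filter]
    exact ⟨fun h => ⟨hUE h, h⟩, fun h => h.2⟩
  have hsq : ∑ x ∈ E, (ind x - g x) ^ 2 ≤ ∑ x ∈ E, g x * (1 - g x) := by
    refine Finset.sum_le_sum fun x hx => ?_
    have h0 := hg0 x hx
    have h1 := hg1 x hx
    rcases hindU x hx with ⟨h2, h3⟩ | ⟨h2, h3⟩
    · rw [h3]; nlinarith
    · rw [h3]; nlinarith
  have hGQ : ∑ x ∈ E, g x * (1 - g x) ≤ Q := by
    rw [hQeq]
    have := Finset.sum_nonneg fun i (_ : i ∈ range r) => hD0 i
    linarith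
  have hU1 : (U.card : ℝ) ≤ M + 2 * Q := by
    have : ∑ x ∈ E, ind x ≤ ∑ x ∈ E, (g x + 2 * (g x * (1 - g x))) := by
      refine Finset.sum_le_sum fun x hx => ?_
      have h0 := hg0 x hx
      have h1 := hg1 x hx
      rcases hindU x hx with ⟨h2, h3⟩ | ⟨h2, h3⟩
      · rw [h3]; nlinarith
      · rw [h3]; nlinarith
    rw [Finset.sum_add_distrib, ← Finset.mul_sum, ← hcardU] at this
    have h5 : M = ∑ x ∈ E, g x := rfl
    linarith
  have hU2 : M - 2 * Q ≤ (U.card : ℝ) := by
    have : ∑ x ∈ E, (g x - 2 * (g x * (1 - g x))) ≤ ∑ x ∈ E, ind x := by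
      refine Finset.sum_le_sum fun x hx => ?_
      have h0 := hg0 x hx
      have h1 := hg1 x hx
      rcases hindU x hx with ⟨h2, h3⟩ | ⟨h2, h3⟩
      · rw [h3]; nlinarith
      · rw [h3]; nlinarith
    rw [Finset.sum_sub_distrib, ← Finset.mul_sum, ← hcardU] at this
    have h5 : M = ∑ x ∈ E, g x := rfl
    linarith
  -- every direction
  have hdir : ∀ k : Fin r, ∑ x ∈ E, (ind x - xisoP E k ind x) ^ 2 ≤ (r + 1) * Q := by
    intro k
    obtain ⟨j, hj, hjk⟩ := List.getElem_of_mem (hall k)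
    have hjr : j + 1 ≤ r := by omega
    have htake : l.take (j + 1) = l.take j ++ [k] := by
      rw [List.take_succ_eq_append_getElem hj, hjk]
    have hconst : XisoC E k (xisoIt E (l.take (j + 1)) g) := by
      rw [htake]
      have : xisoIt E (l.take j ++ [k]) g = xisoP E k (xisoIt E (l.take j) g) := by
        simp [xisoIt]
      rw [this]
      exact xisoP_const E k _
    have h1 := xiso_best E k ind _ hconst
    have h2 := xiso_dev E l ind g (j + 1)
    have h3 : ∑ i ∈ range (j + 1), D i ≤ ∑ i ∈ range r, D i :=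
      Finset.sum_le_sum_of_subset_of_nonneg (Finset.range_mono hjr) fun i _ _ => hD0 i
    have h4 : ∑ y ∈ E, (ind y - g y) ^ 2 + ∑ i ∈ range (j + 1), D i ≤ Q := by
      rw [hQeq]; linarith
    have h5 : 0 ≤ ∑ y ∈ E, (ind y - g y) ^ 2 + ∑ i ∈ range (j + 1), D i :=
      add_nonneg (Finset.sum_nonneg fun y _ => sq_nonneg _) (Finset.sum_nonneg fun i _ => hD0 i)
    have h6 : (((j + 1 : ℕ) : ℝ) + 1) ≤ r + 1 := by
      have : ((j + 1 : ℕ) : ℝ) ≤ r := by exact_mod_cast hjr
      linarith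
    calc ∑ x ∈ E, (ind x - xisoP E k ind x) ^ 2
        ≤ ∑ y ∈ E, (ind y - xisoIt E (l.take (j + 1)) g y) ^ 2 := h1
      _ ≤ (((j + 1 : ℕ) : ℝ) + 1) * (∑ y ∈ E, (ind y - g y) ^ 2 + ∑ i ∈ range (j + 1), D i) := h2
      _ ≤ (r + 1) * (∑ y ∈ E, (ind y - g y) ^ 2 + ∑ i ∈ range (j + 1), D i) :=
          mul_le_mul_of_nonneg_right h6 h5
      _ ≤ (r + 1) * Q := mul_le_mul_of_nonneg_left h4 (by positivity)
  have hQ0 : 0 ≤ Q := by
    refine le_trans (Finset.sum_nonneg fun x hx => ?_) hGQ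
    exact mul_nonneg (hg0 x hx) (by linarith [hg1 x hx])
  have hVpos : 0 < (Fintype.card V : ℝ) := by
    obtain ⟨x, -⟩ := hE
    have : Nonempty V := ⟨x ⟨0, by omega⟩⟩
    exact_mod_cast Fintype.card_pos
  have hmain : β * N * Real.binEntropy ((U.card : ℝ) / N) ≤ 4 * r ^ 2 * Q := by
    have h1 := hiso U hUE
    have h2 : ∑ k : Fin r, ∑ τ : Fin r → V, (min (dg U k τ : ℝ) (dg (E \ U) k τ : ℝ)) ≤
        ∑ k : Fin r, 2 * ((Fintype.card V : ℝ) * ((r + 1) * Q)) := by
      refine Finset.sum_le_sum fun k _ => (xiso_sum_min E U hUE k).trans ?_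
      have := hdir k
      exact mul_le_mul_of_nonneg_left (mul_le_mul_of_nonneg_left this hVpos.le) (by norm_num)
    rw [Finset.sum_const, Finset.card_univ, Fintype.card_fin, nsmul_eq_mul] at h2
    have h3 : (Fintype.card V : ℝ) * (β * N * Real.binEntropy ((U.card : ℝ) / N)) ≤
        (Fintype.card V : ℝ) * (4 * r ^ 2 * Q) := by
      calc (Fintype.card V : ℝ) * (β * N * Real.binEntropy ((U.card : ℝ) / N))
          = (Fintype.card V : ℝ) * β * N * Real.binEntropy ((U.card : ℝ) / N) := by ring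
        _ ≤ _ := h1
        _ ≤ r * (2 * ((Fintype.card V : ℝ) * ((r + 1) * Q))) := h2
        _ ≤ (Fintype.card V : ℝ) * (4 * r ^ 2 * Q) := by
            have h4 : (r : ℝ) * (2 * (r + 1)) ≤ 4 * r ^ 2 := by nlinarith
            have h5 : 0 ≤ (Fintype.card V : ℝ) * Q := by positivity
            nlinarith [mul_le_mul_of_nonneg_left h4 h5]
    exact le_of_mul_le_mul_left h3 hVpos
  refine le_trans ?_ hQle
  set L : ℝ := Real.log (N / M) with hL
  have hMN : 10 / 9 ≤ N / M := by
    rw [le_div_iff₀ hMpos]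
    linarith
  have hL0 : 0 ≤ L := Real.log_nonneg (by linarith)
  have hr2 : (1 : ℝ) ≤ r ^ 2 := by nlinarith
  by_cases hcase : M / 100 < Q
  · -- large Q
    have h1 : L ≤ Real.log N := Real.log_le_log (by positivity) (div_le_self hNpos.le hM1)
    have h2 : β * (1 + L) ≤ 1 / 2 :=
      (mul_le_mul_of_nonneg_left (by linarith) hβ.le).trans hβ1
    have h3 : β / (80 * r ^ 2) * (1 + L) * M ≤ M / 160 := by
      have e : β / (80 * r ^ 2) * (1 + L) * M = (β * (1 + L)) * M / (80 * r ^ 2) := by ring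
      rw [e, div_le_iff₀ (by positivity)]
      have h4 : β * (1 + L) * M ≤ 1 / 2 * M := mul_le_mul_of_nonneg_right h2 hMpos.le
      nlinarith [mul_le_mul_of_nonneg_left hr2 hMpos.le]
    linarith
  · have hQ1 : Q ≤ M / 100 := not_lt.1 hcase
    have hMdN : M ≤ 9 / 10 * N := hM9
    have h1 : 98 / 100 * (M / N) ≤ (U.card : ℝ) / N := by
      rw [le_div_iff₀ hNpos]
      have : 98 / 100 * (M / N) * N = 98 / 100 * M := by field_simp
      rw [this]
      linarith
    have h2 : (U.card : ℝ) / N ≤ 102 / 100 * (M / N) := by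
      rw [div_le_iff₀ hNpos]
      have : 102 / 100 * (M / N) * N = 102 / 100 * M := by field_simp
      rw [this]
      linarith
    have h3 : (U.card : ℝ) / N ≤ 918 / 1000 := by
      rw [div_le_iff₀ hNpos]
      linarith
    have h4 := xiso_entropy hNpos hMpos hL hL0 h1 h2 h3
    have h5 : β * N * (5 / 100 * (M / N) * (1 + L)) ≤ 4 * r ^ 2 * Q :=
      (mul_le_mul_of_nonneg_left h4 (by positivity)).trans hmain
    have e : β * N * (5 / 100 * (M / N) * (1 + L)) = 5 / 100 * (β * (1 + L) * M) := by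
      field_simp
    rw [e] at h5
    have e2 : β / (80 * r ^ 2) * (1 + L) * M = (β * (1 + L)) * M / (80 * r ^ 2) := by ring
    rw [e2, div_le_iff₀ (by positivity)]
    nlinarith

end Pool.H18.TC
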