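import Pool.Agent.H18.TC.Close
import Pool.Agent.H18.TC.Tight
import Pool.Agent.H18.TC.Part
import Pool.Agent.H18.TC.NumC
import Pool.Agent.H18.TC.Xexp
import Pool.Agent.H18.TC.Xiso

/-! the final theorem -/

open Finset
open Classical

namespace Pool.H18.TC

/-- a tight cycle of length `ℓ ≥ r + 1` in the `r`-graph `H` -/
def HasTightCycle {V : Type*} (r : ℕ) (H : Finset (Finset V)) : Prop :=
  ∃ ℓ : ℕ, r + 1 ≤ ℓ ∧ ∃ v : ZMod ℓ → V, Function.Injective v ∧
    ∀ i : ZMod ℓ, univ.image (fun j : Fin r => v (i + (j.val : ZMod ℓ))) ∈ H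

theorem Fin_expands_mono {r : ℕ} {V : Type*} [Fintype V] {E : Finset (Fin r → V)}
    {K : (Fin r → V) → (Fin r → V) → ℝ} {c c' : ℝ} (hc : c ≤ c') (h : Expands E K c') :
    Expands E K c := by
  intro g g0 g1 hM hMN
  refine le_trans ?_ (h g g0 g1 hM hMN)
  have hpos : 0 < mass E g := by linarith
  have hlog : 0 ≤ Real.log ((E.card : ℝ) / mass E g) := by
    apply Real.log_nonneg
    rw [le_div_iff₀ hpos]
    have : (0:ℝ) ≤ (E.card : ℝ) := Nat.cast_nonneg _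
    linarith
  apply mul_le_mul_of_nonneg_right _ hpos.le
  apply mul_le_mul_of_nonneg_right hc
  linarith

theorem Fin_core (r : ℕ) (hr : 2 ≤ r) {V : Type*} [Fintype V] (χ : V → Fin r)
    (E0 : Finset (Fin r → V)) (hχ : ∀ x ∈ E0, ∀ k, χ (x k) = k) (ℓ S : ℝ) (hℓ1 : 1 ≤ ℓ) (hS : 0 ≤ S)
    (hV1 : (1 : ℝ) ≤ Fintype.card V) (hVℓ : Real.log (Fintype.card V) ≤ ℓ)
    (hnum : ∀ N : ℝ, 1 ≤ N → Real.log N ≤ r * ℓ → ∀ s : ℝ, S ≤ s →
      ∃ (δ0 K : ℝ) (T m q : ℕ), Num r N s δ0 K (1 / (2000 * r ^ 3 * ℓ)) T m q)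
    (hbig : (S + 1) * (Real.exp 1 * r * (Fintype.card V : ℝ) ^ (r - 1)) < E0.card) :
    ∃ t, 2 ≤ t ∧ ∃ x : ℕ → (Fin r → V), x t = x 0 ∧
      (∀ j < t, ∀ k ≤ r, mix k (x j) (x (j + 1)) ∈ E0) ∧
      ∀ i j, i < j → j < t → Dj (x i) (x j) := by
  have he1 : 0 < Real.exp 1 := Real.exp_pos 1
  have hrR : (2 : ℝ) ≤ r := by exact_mod_cast hr
  have hℓpos : 0 < ℓ := by linarith
  have h1n : (1 : ℝ) ≤ (Fintype.card V : ℝ) ^ (r - 1) := one_le_pow₀ hV1
  have hD : 0 < Real.exp 1 * r * (Fintype.card V : ℝ) ^ (r - 1) := by positivity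
  have hN : Real.exp 1 * r * (Fintype.card V : ℝ) ^ (r - 1) < E0.card := by
    nlinarith
  obtain ⟨E, hEE0, s, hs1, hsge, hEne, hdeg, hiso⟩ := expander (show 1 ≤ r by omega) E0 hN
  have hs1R : (1 : ℝ) ≤ s := by exact_mod_cast hs1
  have hsbig : S ≤ s := by
    have h1 : S + 1 ≤ (E0.card : ℝ) / (Real.exp 1 * r * (Fintype.card V : ℝ) ^ (r - 1)) := by
      rw [le_div_iff₀ hD]
      exact hbig.le
    linarith
  have hE0card1 : Real.exp 1 < E0.card := by
    have h2 : Real.exp 1 ≤ Real.exp 1 * r * (Fintype.card V : ℝ) ^ (r - 1) := by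
      have h3 : 1 ≤ (r : ℝ) * (Fintype.card V : ℝ) ^ (r - 1) := by nlinarith
      have h4 : Real.exp 1 * 1 ≤ Real.exp 1 * ((r : ℝ) * (Fintype.card V : ℝ) ^ (r - 1)) :=
        mul_le_mul_of_nonneg_left h3 he1.le
      linarith
    linarith
  have hE0pos : (0 : ℝ) < E0.card := by linarith
  have hlogN0 : 1 ≤ Real.log E0.card := by
    rw [← Real.log_exp 1]
    exact Real.log_le_log he1 hE0card1.le
  have hlogN0le : Real.log E0.card ≤ r * ℓ := by
    have h1 : (E0.card : ℝ) ≤ (Fintype.card V : ℝ) ^ r := by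
      have := Finset.card_le_univ E0
      rw [Fintype.card_fun, Fintype.card_fin] at this
      exact_mod_cast this
    have h2 := Real.log_le_log hE0pos h1
    rw [Real.log_pow] at h2
    have h3 : (r : ℝ) * Real.log (Fintype.card V) ≤ r * ℓ :=
      mul_le_mul_of_nonneg_left hVℓ (by linarith)
    linarith
  have hEcard1 : (1 : ℝ) ≤ E.card := by exact_mod_cast hEne.card_pos
  have hElog : Real.log E.card ≤ Real.log E0.card := by
    apply Real.log_le_log (by linarith)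
    exact_mod_cast Finset.card_le_card hEE0
  have hβpos : 0 < 1 / (2 * Real.exp 1 * Real.log E0.card) := by positivity
  have hβ1 : 1 / (2 * Real.exp 1 * Real.log E0.card) * (1 + Real.log E.card) ≤ 1 / 2 := by
    rw [div_mul_eq_mul_div, one_mul, div_le_iff₀ (by positivity)]
    have := Real.add_one_le_exp (1 : ℝ)
    nlinarith
  have hχE : ∀ x ∈ E, ∀ k, χ (x k) = k := fun x hx => hχ x (hEE0 hx)
  have hdegR : ∀ x ∈ E, ∀ k, (s : ℝ) ≤ (dg E k x : ℝ) := fun x hx k => by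
    exact_mod_cast hdeg x hx k
  have hc0 : 1 / (2000 * (r : ℝ) ^ 3 * ℓ)
      ≤ (1 / (2 * Real.exp 1 * Real.log E0.card)) / (80 * (r : ℝ) ^ 2) := by
    rw [div_div]
    apply one_div_le_one_div_of_le (by positivity)
    have h4 := Real.exp_one_lt_d9
    have h5 : 2 * Real.exp 1 * Real.log E0.card * (80 * (r : ℝ) ^ 2)
        ≤ 2 * Real.exp 1 * (r * ℓ) * (80 * (r : ℝ) ^ 2) := by
      apply mul_le_mul_of_nonneg_right _ (by positivity)
      exact mul_le_mul_of_nonneg_left hlogN0le (by positivity)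
    have h6 : 2 * Real.exp 1 * (r * ℓ) * (80 * (r : ℝ) ^ 2) = Real.exp 1 * (160 * ((r : ℝ) ^ 3 * ℓ)) := by
      ring
    have h7 : 0 ≤ 160 * ((r : ℝ) ^ 3 * ℓ) := by positivity
    have h8 : Real.exp 1 * (160 * ((r : ℝ) ^ 3 * ℓ)) ≤ 3 * (160 * ((r : ℝ) ^ 3 * ℓ)) :=
      mul_le_mul_of_nonneg_right (by linarith) h7
    have h9 : 0 ≤ (r : ℝ) ^ 3 * ℓ := by positivity
    linarith
  have hall : ∀ k : Fin r, k ∈ List.finRange r := List.mem_finRange
  have hall' : ∀ k : Fin r, k ∈ (List.finRange r).reverse := fun k =>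
    List.mem_reverse.2 (List.mem_finRange k)
  have hnd := List.nodup_finRange r
  have hnd' : (List.finRange r).reverse.Nodup := List.nodup_reverse.2 hnd
  have hex := Fin_expands_mono hc0 (KL_expands (show 1 ≤ r by omega) E hEne s hs1R hdegR
    (List.finRange r) hnd hall _ hβpos hβ1 hiso)
  have hex' := Fin_expands_mono hc0 (KL_expands (show 1 ≤ r by omega) E hEne s hs1R hdegR
    (List.finRange r).reverse hnd' hall' _ hβpos hβ1 hiso)
  obtain ⟨δ0, KK, T, m, q, hN'⟩ := hnum E.card hEcard1 (le_trans hElog hlogN0le) s hsbig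
  obtain ⟨t, ht, x, hx, hKx, hdj⟩ := exists_cycle
    (KL_isKer E s hs1R χ hχE hdegR (List.finRange r) hnd hall)
    (KL_isKer E s hs1R χ hχE hdegR (List.finRange r).reverse hnd' hall')
    (fun x y => KL_rev E (List.finRange r) x y) hex hex' hEne hN'
  exact ⟨t, ht, x, hx, fun j hj k hk => hEE0 (KL_mix E _ _ (hKx j hj) k hk), hdj⟩

theorem Fin_card_le {r n : ℕ} (H : Finset (Finset (Fin n))) (hH : ∀ e ∈ H, e.card = r) :
    (H.card : ℝ) ≤ (n : ℝ) ^ r := by
  have h1 : H ⊆ Finset.powersetCard r (univ : Finset (Fin n)) := by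
    intro e he
    rw [Finset.mem_powersetCard]
    exact ⟨Finset.subset_univ _, hH e he⟩
  have h2 := Finset.card_le_card h1
  rw [Finset.card_powersetCard, Finset.card_univ, Fintype.card_fin] at h2
  have h3 : H.card ≤ n ^ r := le_trans h2 (Nat.choose_le_pow n r)
  exact_mod_cast h3

/-- for large `n` -/
theorem Fin_large (r : ℕ) (hr : 2 ≤ r) {n : ℕ} (hn : 1 ≤ n) (S : ℝ) (hS : 0 ≤ S)
    (hℓ1 : 1 ≤ Real.log n)
    (hnum : ∀ N : ℝ, 1 ≤ N → Real.log N ≤ r * Real.log n → ∀ s : ℝ, S ≤ s →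
      ∃ (δ0 K : ℝ) (T m q : ℕ), Num r N s δ0 K (1 / (2000 * r ^ 3 * Real.log n)) T m q)
    (H : Finset (Finset (Fin n))) (hH : ∀ e ∈ H, e.card = r) (hno : ¬ HasTightCycle r H) :
    (H.card : ℝ) ≤ (r : ℝ) ^ r * ((S + 1) * (Real.exp 1 * r * (n : ℝ) ^ (r - 1))) := by
  by_contra hcon
  push Not at hcon
  have hrR : (2 : ℝ) ≤ r := by exact_mod_cast hr
  obtain ⟨χ, E0, hχ, hE0H, hE0⟩ := partite (n := n) (show 1 ≤ r by omega) H hH
  have hrr : (0 : ℝ) < (r : ℝ) ^ r := by positivity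
  have hbig : (S + 1) * (Real.exp 1 * r * (Fintype.card (Fin n) : ℝ) ^ (r - 1)) < E0.card := by
    rw [Fintype.card_fin]
    have h1 : (r : ℝ) ^ r * ((S + 1) * (Real.exp 1 * r * (n : ℝ) ^ (r - 1))) < (r : ℝ) ^ r * E0.card :=
      lt_of_lt_of_le hcon hE0
    exact lt_of_mul_lt_mul_left h1 hrr.le
  obtain ⟨t, ht, x, hx, hmix, hdj⟩ := Fin_core r hr χ E0 hχ (Real.log n) S hℓ1 hS
    (by rw [Fintype.card_fin]; exact_mod_cast hn) (by rw [Fintype.card_fin]) hnum hbig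
  have hinj : ∀ e ∈ E0, Function.Injective e := by
    intro e he a b hab
    rw [← hχ e he a, ← hχ e he b, hab]
  obtain ⟨L, hL, v, hv, hvE⟩ := tight_of_states hr E0 hinj t ht x hx hmix hdj
  refine hno ⟨L, hL, v, hv, fun i => ?_⟩
  obtain ⟨e, he, hie⟩ := hvE i
  have h1 := hE0H e he
  convert h1 using 1
  ext a
  have h3 := Finset.ext_iff.1 hie a
  simp only [Finset.mem_image, Finset.mem_univ, true_and] at h3 ⊢
  exact h3

theorem tight_upper (r : ℕ) (hr : 2 ≤ r) : ∃ C : ℝ, 0 < C ∧ ∀ n : ℕ, 16 ≤ n →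
    ∀ H : Finset (Finset (Fin n)), (∀ e ∈ H, e.card = r) → ¬ HasTightCycle r H →
      (H.card : ℝ) ≤ C * (n : ℝ) ^ (r - 1) * Real.log n * (Real.log (Real.log n)) ^ 4 := by
  obtain ⟨A, ℓ0, hA, hℓ0, hnum⟩ := num_choice r hr
  have he1 : 0 < Real.exp 1 := Real.exp_pos 1
  have hrR : (2 : ℝ) ≤ r := by exact_mod_cast hr
  have hD0 : 0 ≤ (r : ℝ) ^ r * (Real.exp 1 * r * (A + 1)) := by positivity
  refine ⟨Real.exp ℓ0 + (r : ℝ) ^ r * (Real.exp 1 * r * (A + 1)), by positivity, ?_⟩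
  intro n hn H hH hno
  have hnR : (16 : ℝ) ≤ n := by exact_mod_cast hn
  have hnpos : (0 : ℝ) < n := by linarith
  have hℓe : Real.exp 1 < Real.log n := by
    have h1 : Real.log 16 ≤ Real.log n := Real.log_le_log (by norm_num) hnR
    have h2 : Real.log 16 = 4 * Real.log 2 := by
      rw [show (16 : ℝ) = 2 ^ 4 by norm_num, Real.log_pow]
      norm_num
    have h3 := Real.log_two_gt_d9
    have h4 := Real.exp_one_lt_d9
    linarith
  have hℓpos : 0 < Real.log n := by linarith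
  have hll : 1 ≤ Real.log (Real.log n) := by
    rw [← Real.log_exp 1]
    exact Real.log_le_log he1 hℓe.le
  have hℓ1 : 1 ≤ Real.log n := by
    have := Real.add_one_le_exp (1 : ℝ)
    linarith
  have h4 : 1 ≤ (Real.log (Real.log n)) ^ 4 := one_le_pow₀ hll
  have hL41 : 1 ≤ Real.log n * (Real.log (Real.log n)) ^ 4 := by nlinarith
  have hpn : (0 : ℝ) < (n : ℝ) ^ (r - 1) := by positivity
  have hrew : (Real.exp ℓ0 + (r : ℝ) ^ r * (Real.exp 1 * r * (A + 1))) * (n : ℝ) ^ (r - 1)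
        * Real.log n * (Real.log (Real.log n)) ^ 4
      = Real.exp ℓ0 * (n : ℝ) ^ (r - 1) * (Real.log n * (Real.log (Real.log n)) ^ 4)
        + (r : ℝ) ^ r * (Real.exp 1 * r * (A + 1)) * (n : ℝ) ^ (r - 1)
          * (Real.log n * (Real.log (Real.log n)) ^ 4) := by
    ring
  rw [hrew]
  by_cases hlarge : ℓ0 ≤ Real.log n
  · have h5 := Fin_large r hr (show 1 ≤ n by omega) (A * Real.log n * (Real.log (Real.log n)) ^ 4)
      (by positivity) hℓ1 (fun N hN1 hN2 s hs => hnum (Real.log n) hlarge N hN1 hN2 s hs) H hH hno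
    refine le_trans h5 ?_
    have h6 : (A * Real.log n * (Real.log (Real.log n)) ^ 4 + 1)
        ≤ (A + 1) * (Real.log n * (Real.log (Real.log n)) ^ 4) := by linarith
    have h7 : (r : ℝ) ^ r * ((A * Real.log n * (Real.log (Real.log n)) ^ 4 + 1) *
          (Real.exp 1 * r * (n : ℝ) ^ (r - 1)))
        ≤ (r : ℝ) ^ r * ((A + 1) * (Real.log n * (Real.log (Real.log n)) ^ 4) *
          (Real.exp 1 * r * (n : ℝ) ^ (r - 1))) := by
      apply mul_le_mul_of_nonneg_left _ (by positivity)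
      exact mul_le_mul_of_nonneg_right h6 (by positivity)
    have h8 : (r : ℝ) ^ r * ((A + 1) * (Real.log n * (Real.log (Real.log n)) ^ 4) *
          (Real.exp 1 * r * (n : ℝ) ^ (r - 1)))
        = (r : ℝ) ^ r * (Real.exp 1 * r * (A + 1)) * (n : ℝ) ^ (r - 1)
          * (Real.log n * (Real.log (Real.log n)) ^ 4) := by ring
    have h9 : 0 ≤ Real.exp ℓ0 * (n : ℝ) ^ (r - 1) * (Real.log n * (Real.log (Real.log n)) ^ 4) := by
      positivity
    linarith
  · push Not at hlarge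
    have hcard := Fin_card_le H hH
    have h5 : (n : ℝ) ^ r = (n : ℝ) ^ (r - 1) * n := by
      rw [← pow_succ]
      congr 1
      omega
    have h6 : (n : ℝ) ≤ Real.exp ℓ0 := by
      rw [← Real.exp_log hnpos]
      exact Real.exp_le_exp.2 hlarge.le
    have h7 : (n : ℝ) ^ (r - 1) * n ≤ (n : ℝ) ^ (r - 1) * Real.exp ℓ0 :=
      mul_le_mul_of_nonneg_left h6 hpn.le
    have h8 : Real.exp ℓ0 * (n : ℝ) ^ (r - 1) * 1
        ≤ Real.exp ℓ0 * (n : ℝ) ^ (r - 1) * (Real.log n * (Real.log (Real.log n)) ^ 4) :=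
      mul_le_mul_of_nonneg_left hL41 (by positivity)
    have h9 : 0 ≤ (r : ℝ) ^ r * (Real.exp 1 * r * (A + 1)) * (n : ℝ) ^ (r - 1)
          * (Real.log n * (Real.log (Real.log n)) ^ 4) := by positivity
    rw [h5] at hcard
    linarith

end Pool.H18.TC
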