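import Pool.Agent.H18.TC.One

/-! G1: basic facts on the process -/

open Finset
open Classical

namespace Pool.H18.TC

section gen

variable {r : ℕ} {V : Type*} [Fintype V] {B : Type*} [Fintype B] {m : ℕ}
variable {E : Finset (Fin r → V)} {K : (Fin r → V) → (Fin r → V) → ℝ} {δ : ℝ} {e0 : Fin r → V}
  {gf gf' : (Fin r → V) → (Fin r → V) → ℝ} {ι : Fin (m + 1) → V → B}

theorem gbas_YY_nonneg (hK : ∀ e f, 0 ≤ K e f) (hδ : 0 < δ) (hg : ∀ f e, 0 ≤ gf f e) (ω : B → Bool)
    (a f) : 0 ≤ YY E K δ gf ι ω a f :=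
  Finset.sum_nonneg fun e _ => mul_nonneg (pow_nonneg (by positivity) _)
    (mul_nonneg (hg f e) (hK e f))

theorem gbas_YY_mono (hK : ∀ e f, 0 ≤ K e f) (hδ : 0 < δ) (hg : ∀ f e, 0 ≤ gf f e)
    (hgg : ∀ f e, gf f e ≤ gf' f e) {ω ω' : B → Bool} (h : ω ≤ ω') (a f) :
    YY E K δ gf ι ω a f ≤ YY E K δ gf' ι ω' a f := by
  have hd : (0 : ℝ) ≤ (1 / δ) ^ r := pow_nonneg (by positivity) _
  unfold YY
  calc ∑ e ∈ E.filter (fun e => Dj e f ∧ Fire ι ω a e), (1 / δ) ^ r * (gf f e * K e f)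
      ≤ ∑ e ∈ E.filter (fun e => Dj e f ∧ Fire ι ω a e), (1 / δ) ^ r * (gf' f e * K e f) :=
        Finset.sum_le_sum fun e _ => mul_le_mul_of_nonneg_left
          (mul_le_mul_of_nonneg_right (hgg f e) (hK e f)) hd
    _ ≤ _ := by
        refine Finset.sum_le_sum_of_subset_of_nonneg ?_ fun e _ _ =>
          mul_nonneg hd (mul_nonneg ((hg f e).trans (hgg f e)) (hK e f))
        intro e he
        rw [Finset.mem_filter] at he ⊢
        refine ⟨he.1, he.2.1, fun k => ?_⟩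
        have h1 := h (ι a (e k))
        rw [he.2.2 k] at h1
        exact le_antisymm (Bool.le_true _) h1

theorem gbas_psi_mono {x y : ℝ} (h : x ≤ y) : psi x ≤ psi y :=
  min_le_min_left 1 (by linarith)

theorem gbas_gnew_nonneg (hK : ∀ e f, 0 ≤ K e f) (hδ : 0 < δ) (hg : ∀ f e, 0 ≤ gf f e)
    (ω : B → Bool) (f) : 0 ≤ gnew E K δ e0 gf ι ω f := by
  unfold gnew
  split_ifs
  · exact (psi_nonneg' (gbas_YY_nonneg hK hδ hg ω 0 f)).trans
      (Finset.le_sup' (fun a => psi (YY E K δ gf ι ω a f)) (Finset.mem_univ 0))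
  · exact le_rfl

theorem gbas_gnew_mono (hK : ∀ e f, 0 ≤ K e f) (hδ : 0 < δ) (hg : ∀ f e, 0 ≤ gf f e)
    (hgg : ∀ f e, gf f e ≤ gf' f e) {ω ω' : B → Bool} (h : ω ≤ ω') (f) :
    gnew E K δ e0 gf ι ω f ≤ gnew E K δ e0 gf' ι ω' f := by
  unfold gnew
  split_ifs
  · refine Finset.sup'_le _ _ fun a _ => ?_
    exact (gbas_psi_mono (gbas_YY_mono hK hδ hg hgg h a f)).trans
      (Finset.le_sup' (fun a => psi (YY E K δ gf' ι ω' a f)) (Finset.mem_univ a))
  · exact le_rfl

end gen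

variable {r : ℕ} {V : Type*} [Fintype V] {T m : ℕ}
variable {E : Finset (Fin r → V)} {K : (Fin r → V) → (Fin r → V) → ℝ} {s : ℝ} {χ : V → Fin r}
  {δ : ℝ} {e0 : Fin r → V}

theorem gbas_succ (i : ℕ) (hi : i < T) (ω : V × Fin T × Fin (m + 1) → Bool) (f) :
    G E K s δ e0 (i + 1) ω f =
      gnew E K δ e0 (fun f' e => G E K s δ e0 i (off (verts f') ω) e) (bitOf i hi) ω f := by
  rw [G, dif_pos hi]

theorem gbas_succ' (i : ℕ) (hi : ¬ i < T) (ω : V × Fin T × Fin (m + 1) → Bool) (f) :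
    G E K s δ e0 (i + 1) ω f = 0 := by
  rw [G, dif_neg hi]

theorem gbas_zero (ω : V × Fin T × Fin (m + 1) → Bool) (f) :
    G E K s δ e0 0 ω f = if Dj f e0 then s ^ r * K e0 f else 0 := by
  rw [G]

theorem G_nonneg (hK : IsKer E K s χ) (hδ : 0 < δ) (i : ℕ) (ω : V × Fin T × Fin (m + 1) → Bool) (f) :
    0 ≤ G E K s δ e0 i ω f := by
  induction i generalizing ω f with
  | zero =>
    rw [gbas_zero]
    split_ifs
    · exact mul_nonneg (pow_nonneg (zero_le_one.trans hK.one_le) _) (hK.nonneg _ _)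
    · exact le_rfl
  | succ i ih =>
    by_cases hi : i < T
    · rw [gbas_succ i hi]
      exact gbas_gnew_nonneg hK.nonneg hδ (fun f e => ih _ _) ω f
    · rw [gbas_succ' i hi]

theorem gbas_ker_le (hK : IsKer E K s χ) (he0 : e0 ∈ E) {f} (hf : f ∈ E) :
    K e0 f ≤ (1 / s) ^ r := by
  have h1 := hK.rowT e0 he0 univ f
  rw [Finset.card_univ, Fintype.card_fin] at h1
  refine le_trans ?_ h1
  unfold star
  exact Finset.single_le_sum (f := fun x => K e0 x) (fun x _ => hK.nonneg e0 x)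
    (Finset.mem_filter.2 ⟨hf, fun k _ => rfl⟩)

theorem G_le_one (hK : IsKer E K s χ) (he0 : e0 ∈ E) (hδ : 0 < δ) (i : ℕ)
    (ω : V × Fin T × Fin (m + 1) → Bool) {f} (hf : f ∈ E) : G E K s δ e0 i ω f ≤ 1 := by
  have hs : 0 < s := lt_of_lt_of_le one_pos hK.one_le
  cases i with
  | zero =>
    rw [gbas_zero]
    split_ifs
    · calc s ^ r * K e0 f ≤ s ^ r * (1 / s) ^ r :=
            mul_le_mul_of_nonneg_left (gbas_ker_le hK he0 hf) (by positivity)
        _ = 1 := by rw [← mul_pow, mul_one_div_cancel hs.ne', one_pow]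
    · exact zero_le_one
  | succ i =>
    by_cases hi : i < T
    · rw [gbas_succ i hi]
      exact gnew_le_one _ _ _ _ _ _ _ _
    · rw [gbas_succ' i hi]; exact zero_le_one

theorem off_le (X : Finset V) (ω : V × Fin T × Fin (m + 1) → Bool) : off X ω ≤ ω := by
  intro b
  unfold off
  split_ifs
  · exact Bool.false_le _
  · exact le_rfl

theorem gbas_off_mono (X : Finset V) {ω ω' : V × Fin T × Fin (m + 1) → Bool} (h : ω ≤ ω') :
    off X ω ≤ off X ω' := by
  intro b
  unfold off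
  split_ifs
  · exact le_rfl
  · exact h b

theorem G_mono (hK : IsKer E K s χ) (hδ : 0 < δ) (i : ℕ) {ω ω' : V × Fin T × Fin (m + 1) → Bool}
    (h : ω ≤ ω') (f) : G E K s δ e0 i ω f ≤ G E K s δ e0 i ω' f := by
  induction i generalizing ω ω' f with
  | zero => rw [gbas_zero, gbas_zero]
  | succ i ih =>
    by_cases hi : i < T
    · rw [gbas_succ i hi, gbas_succ i hi]
      exact gbas_gnew_mono hK.nonneg hδ (fun f e => G_nonneg hK hδ _ _ _)
        (fun f e => ih (gbas_off_mono _ h) e) h f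
    · rw [gbas_succ' i hi, gbas_succ' i hi]

theorem gbas_off_congr (X : Finset V) {i : ℕ} {ω ω' : V × Fin T × Fin (m + 1) → Bool}
    (h : ∀ b : V × Fin T × Fin (m + 1), b.2.1.val < i → ω b = ω' b) :
    ∀ b : V × Fin T × Fin (m + 1), b.2.1.val < i → off X ω b = off X ω' b := by
  intro b hb
  unfold off
  split_ifs
  · rfl
  · exact h b hb

/-- only the bits of the rounds before `i` matter -/
theorem G_congr (i : ℕ) {ω ω' : V × Fin T × Fin (m + 1) → Bool}
    (h : ∀ b : V × Fin T × Fin (m + 1), b.2.1.val < i → ω b = ω' b) (f) :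
    G E K s δ e0 i ω f = G E K s δ e0 i ω' f := by
  induction i generalizing ω ω' f with
  | zero => rw [gbas_zero, gbas_zero]
  | succ i ih =>
    by_cases hi : i < T
    · rw [gbas_succ i hi, gbas_succ i hi]
      have h1 : (fun (f' : Fin r → V) e => G E K s δ e0 i (off (verts f') ω) e) =
          fun f' e => G E K s δ e0 i (off (verts f') ω') e := by
        funext f' e
        exact ih (gbas_off_congr _ fun b hb => h b (by omega)) e
      rw [h1]
      exact gnew_congr _ _ _ _ _ _ (fun a v => h _ (by show i < i + 1; omega)) f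
    · rw [gbas_succ' i hi, gbas_succ' i hi]

theorem off_eq_merge (X : Finset V) (ω : V × Fin T × Fin (m + 1) → Bool) :
    off X ω = merge (univ.filter (fun b : V × Fin T × Fin (m + 1) => b.1 ∈ X)) (fun _ => false) ω := by
  funext b
  unfold off merge
  simp

theorem MM_le (hK : IsKer E K s χ) (he0 : e0 ∈ E) (hδ : 0 < δ) (i : ℕ)
    (ω : V × Fin T × Fin (m + 1) → Bool) : MM E K s δ e0 i ω ≤ E.card := by
  unfold MM mass
  calc ∑ x ∈ E, G E K s δ e0 i ω x ≤ ∑ _x ∈ E, (1 : ℝ) :=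
        Finset.sum_le_sum fun x hx => G_le_one hK he0 hδ i ω hx
    _ = E.card := by simp

theorem MM_nonneg (hK : IsKer E K s χ) (hδ : 0 < δ) (i : ℕ)
    (ω : V × Fin T × Fin (m + 1) → Bool) : 0 ≤ MM E K s δ e0 i ω :=
  Finset.sum_nonneg fun x _ => G_nonneg hK hδ i ω x

theorem MM_mono (hK : IsKer E K s χ) (hδ : 0 < δ) (i : ℕ) {ω ω' : V × Fin T × Fin (m + 1) → Bool}
    (h : ω ≤ ω') : MM E K s δ e0 i ω ≤ MM E K s δ e0 i ω' :=
  Finset.sum_le_sum fun x _ => G_mono hK hδ i h x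

/-- one step of the process: the past `ω`, the fresh bits `ω'` -/
noncomputable def Gs (E : Finset (Fin r → V)) (K : (Fin r → V) → (Fin r → V) → ℝ) (s δ : ℝ)
    (e0 : Fin r → V) (i : ℕ) (hi : i < T) (ω ω' : V × Fin T × Fin (m + 1) → Bool)
    (f : Fin r → V) : ℝ :=
  gnew E K δ e0 (fun f' e => G E K s δ e0 i (off (verts f') ω) e) (bitOf i hi) ω' f

theorem G_succ (i : ℕ) (hi : i < T) (ω : V × Fin T × Fin (m + 1) → Bool) (f) :
    G E K s δ e0 (i + 1) ω f = Gs E K s δ e0 i hi ω ω f := gbas_succ i hi ω f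

/-- the expectation over one round: the past and the fresh bits are independent -/
theorem Ex_step (p : ℝ) (i : ℕ) (hi : i < T)
    (Ψ : (V × Fin T × Fin (m + 1) → Bool) → (V × Fin T × Fin (m + 1) → Bool) → ℝ)
    (h1 : ∀ ω1 ω2 ω', (∀ b : V × Fin T × Fin (m + 1), b.2.1.val < i → ω1 b = ω2 b) →
      Ψ ω1 ω' = Ψ ω2 ω')
    (h2 : ∀ ω ω1 ω2, (∀ b : V × Fin T × Fin (m + 1), b.2.1.val = i → ω1 b = ω2 b) →
      Ψ ω ω1 = Ψ ω ω2) :
    Ex p (fun ω => Ψ ω ω) = Ex p (fun ω => Ex p (fun ω' => Ψ ω ω')) := by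
  rw [Ex_resample p (univ.filter (fun b : V × Fin T × Fin (m + 1) => b.2.1.val = i))
    (fun ω => Ψ ω ω)]
  congr 1
  funext ω
  congr 1
  funext ω'
  rw [h1 _ ω _ (fun b hb => by
    unfold merge
    rw [if_neg]
    rw [Finset.mem_filter]
    rintro ⟨_, h⟩
    omega)]
  exact h2 _ _ _ (fun b hb => by
    unfold merge
    rw [if_pos]
    rw [Finset.mem_filter]
    exact ⟨Finset.mem_univ b, hb⟩)

theorem Gs_past (i : ℕ) (hi : i < T) {ω1 ω2 ω' : V × Fin T × Fin (m + 1) → Bool}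
    (h : ∀ b : V × Fin T × Fin (m + 1), b.2.1.val < i → ω1 b = ω2 b) (f) :
    Gs E K s δ e0 i hi ω1 ω' f = Gs E K s δ e0 i hi ω2 ω' f := by
  unfold Gs
  have h1 : (fun (f' : Fin r → V) e => G E K s δ e0 i (off (verts f') ω1) e) =
      fun f' e => G E K s δ e0 i (off (verts f') ω2) e := by
    funext f' e
    exact G_congr i (gbas_off_congr _ h) e
  rw [h1]

theorem Gs_fresh (i : ℕ) (hi : i < T) {ω ω1 ω2 : V × Fin T × Fin (m + 1) → Bool}
    (h : ∀ b : V × Fin T × Fin (m + 1), b.2.1.val = i → ω1 b = ω2 b) (f) :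
    Gs E K s δ e0 i hi ω ω1 f = Gs E K s δ e0 i hi ω ω2 f :=
  gnew_congr _ _ _ _ _ _ (fun a v => h _ rfl) f

theorem Gs_mono (hK : IsKer E K s χ) (hδ : 0 < δ) (i : ℕ) (hi : i < T)
    {ω ω1 ω2 : V × Fin T × Fin (m + 1) → Bool} (h : ω1 ≤ ω2) (f) :
    Gs E K s δ e0 i hi ω ω1 f ≤ Gs E K s δ e0 i hi ω ω2 f :=
  gbas_gnew_mono hK.nonneg hδ (fun f e => G_nonneg hK hδ _ _ _) (fun f e => le_rfl) h f

/-- initial mass -/
theorem MM_zero (hK : IsKer E K s χ) (he0 : e0 ∈ E) (hs : 2 * r / s ≤ 1)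
    (ω : V × Fin T × Fin (m + 1) → Bool) : s ^ r / 2 ≤ MM E K s δ e0 0 ω := by
  have hs0 : 0 < s := lt_of_lt_of_le one_pos hK.one_le
  have h1 := one_meet hK he0 he0
  have h2 := hK.row e0 he0
  have h3 : ∑ f ∈ E.filter (fun f => Dj f e0), K e0 f +
      ∑ f ∈ E.filter (fun f => ¬ Dj f e0), K e0 f = 1 := by
    rw [← h2]
    exact Finset.sum_filter_add_sum_filter_not E _ _
  have h4 : MM E K s δ e0 0 ω = s ^ r * ∑ f ∈ E.filter (fun f => Dj f e0), K e0 f := by
    unfold MM mass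
    rw [Finset.sum_filter, Finset.mul_sum]
    refine Finset.sum_congr rfl fun f _ => ?_
    rw [gbas_zero]
    split_ifs
    · rfl
    · rw [mul_zero]
  rw [h4]
  have h5 : 1 / 2 ≤ ∑ f ∈ E.filter (fun f => Dj f e0), K e0 f := by
    have h6 : 2 * (r / s : ℝ) ≤ 1 := by rw [← mul_div_assoc]; exact hs
    linarith
  have h7 : (0 : ℝ) < s ^ r := by positivity
  nlinarith

/-- initial spread -/
theorem star_zero (hK : IsKer E K s χ) (he0 : e0 ∈ E) (ω : V × Fin T × Fin (m + 1) → Bool)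
    (S : Finset (Fin r)) (τ : Fin r → V) :
    star E (G E K s δ e0 0 ω) S τ ≤ s ^ r * (1 / s) ^ S.card := by
  have hs0 : 0 < s := lt_of_lt_of_le one_pos hK.one_le
  have h1 := hK.rowT e0 he0 S τ
  calc star E (G E K s δ e0 0 ω) S τ ≤ s ^ r * star E (fun f => K e0 f) S τ := by
        unfold star
        rw [Finset.mul_sum]
        refine Finset.sum_le_sum fun f _ => ?_
        rw [gbas_zero]
        split_ifs
        · exact le_rfl
        · exact mul_nonneg (by positivity) (hK.nonneg _ _)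
    _ ≤ _ := mul_le_mul_of_nonneg_left h1 (by positivity)

/-- spread after one round -/
theorem star_succ (hK : IsKer E K s χ) (hδ : 0 < δ) (i : ℕ) (hi : i < T)
    (ω ω' : V × Fin T × Fin (m + 1) → Bool) (S : Finset (Fin r)) (τ : Fin r → V) :
    star E (Gs E K s δ e0 i hi ω ω') S τ
      ≤ 2 * (1 / s) ^ S.card * ∑ a, WW E δ (G E K s δ e0 i ω) (bitOf i hi) ω' a := by
  have hd : (0 : ℝ) ≤ (1 / δ) ^ r := pow_nonneg (by positivity) _
  have hY : ∀ a f, YY E K δ (fun f' e => G E K s δ e0 i (off (verts f') ω) e) (bitOf i hi) ω' a f ≤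
      ∑ e ∈ E.filter (fun e => Fire (bitOf i hi) ω' a e),
        (1 / δ) ^ r * (G E K s δ e0 i ω e * K e f) := by
    intro a f
    unfold YY
    calc _ ≤ ∑ e ∈ E.filter (fun e => Dj e f ∧ Fire (bitOf i hi) ω' a e),
          (1 / δ) ^ r * (G E K s δ e0 i ω e * K e f) :=
          Finset.sum_le_sum fun e _ => mul_le_mul_of_nonneg_left
            (mul_le_mul_of_nonneg_right (G_mono hK hδ i (off_le _ _) e) (hK.nonneg e f)) hd
      _ ≤ _ := by
          refine Finset.sum_le_sum_of_subset_of_nonneg ?_ fun e _ _ =>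
            mul_nonneg hd (mul_nonneg (G_nonneg hK hδ i ω e) (hK.nonneg e f))
          intro e he
          rw [Finset.mem_filter] at he ⊢
          exact ⟨he.1, he.2.2⟩
  have hG : ∀ f, Gs E K s δ e0 i hi ω ω' f ≤
      ∑ a, 2 * ∑ e ∈ E.filter (fun e => Fire (bitOf i hi) ω' a e),
        (1 / δ) ^ r * (G E K s δ e0 i ω e * K e f) := by
    intro f
    have hterm : ∀ a, 0 ≤ 2 * ∑ e ∈ E.filter (fun e => Fire (bitOf i hi) ω' a e),
        (1 / δ) ^ r * (G E K s δ e0 i ω e * K e f) := fun a =>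
      mul_nonneg zero_le_two (Finset.sum_nonneg fun e _ =>
        mul_nonneg hd (mul_nonneg (G_nonneg hK hδ i ω e) (hK.nonneg e f)))
    unfold Gs gnew
    split_ifs
    · refine Finset.sup'_le _ _ fun a _ => ?_
      calc psi _ ≤ 2 * YY E K δ (fun f' e => G E K s δ e0 i (off (verts f') ω) e)
            (bitOf i hi) ω' a f := min_le_right _ _
        _ ≤ 2 * ∑ e ∈ E.filter (fun e => Fire (bitOf i hi) ω' a e),
            (1 / δ) ^ r * (G E K s δ e0 i ω e * K e f) :=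
            mul_le_mul_of_nonneg_left (hY a f) zero_le_two
        _ ≤ _ := Finset.single_le_sum (f := fun a => 2 * ∑ e ∈ E.filter
            (fun e => Fire (bitOf i hi) ω' a e), (1 / δ) ^ r * (G E K s δ e0 i ω e * K e f))
            (fun a _ => hterm a) (Finset.mem_univ a)
    · exact Finset.sum_nonneg fun a _ => hterm a
  unfold star
  calc ∑ f ∈ E.filter (fun x => ∀ k ∈ S, x k = τ k), Gs E K s δ e0 i hi ω ω' f
      ≤ ∑ f ∈ E.filter (fun x => ∀ k ∈ S, x k = τ k), ∑ a, 2 * ∑ e ∈ E.filter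
        (fun e => Fire (bitOf i hi) ω' a e), (1 / δ) ^ r * (G E K s δ e0 i ω e * K e f) :=
        Finset.sum_le_sum fun f _ => hG f
    _ = ∑ a, ∑ e ∈ E.filter (fun e => Fire (bitOf i hi) ω' a e), 2 * ((1 / δ) ^ r *
          G E K s δ e0 i ω e * ∑ f ∈ E.filter (fun x => ∀ k ∈ S, x k = τ k), K e f) := by
        rw [Finset.sum_comm]
        refine Finset.sum_congr rfl fun a _ => ?_
        rw [← Finset.mul_sum, Finset.sum_comm, Finset.mul_sum]
        refine Finset.sum_congr rfl fun e _ => ?_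
        congr 1
        rw [Finset.mul_sum]
        exact Finset.sum_congr rfl fun f _ => by ring
    _ ≤ ∑ a, ∑ e ∈ E.filter (fun e => Fire (bitOf i hi) ω' a e), 2 * ((1 / δ) ^ r *
          G E K s δ e0 i ω e * (1 / s) ^ S.card) := by
        refine Finset.sum_le_sum fun a _ => Finset.sum_le_sum fun e he => ?_
        refine mul_le_mul_of_nonneg_left ?_ zero_le_two
        exact mul_le_mul_of_nonneg_left (hK.rowT e (Finset.mem_filter.1 he).1 S τ)
          (mul_nonneg hd (G_nonneg hK hδ i ω e))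
    _ = _ := by
        unfold WW
        rw [Finset.mul_sum]
        refine Finset.sum_congr rfl fun a _ => ?_
        rw [Finset.mul_sum]
        exact Finset.sum_congr rfl fun e _ => by ring

end Pool.H18.TC
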