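import Pool.Agent.H18.TC.Prob

/-! P3: high moments of the fired mass -/

open Finset
open Classical

namespace Pool.H18.TC

variable {r : ℕ} {V : Type*} [Fintype V] {B : Type*} [Fintype B] {m : ℕ}

/-- the fired mass of copy `a` -/
noncomputable def mom_W0 (E : Finset (Fin r → V)) (g : (Fin r → V) → ℝ)
    (ι : Fin (m + 1) → V → B) (a : Fin (m + 1)) (ω : B → Bool) : ℝ :=
  ∑ e ∈ E.filter (fun e => Fire ι ω a e), g e

/-- probability that all vertices of `X` are on in copy `a` -/
lemma mom_on (ι : Fin (m + 1) → V → B) (a : Fin (m + 1)) (hι : Function.Injective (ι a))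
    (p : ℝ) (X : Finset V) :
    Ex p (fun ω => if (∀ v ∈ X, ω (ι a v) = true) then (1 : ℝ) else 0) = p ^ X.card := by
  have h := Pr_all_on p (X.image (ι a))
  rw [Finset.card_image_of_injective _ hι] at h
  rw [← h]
  unfold Pr
  congr 1
  funext ω
  have : (∀ v ∈ X, ω (ι a v) = true) ↔ (∀ b ∈ X.image (ι a), ω b = true) := by
    simp
  by_cases h1 : ∀ v ∈ X, ω (ι a v) = true
  · rw [if_pos h1, if_pos (this.mp h1)]
  · rw [if_neg h1, if_neg (fun h2 => h1 (this.mpr h2))]

/-- the sum of `g` over the states with `e k ∈ X` for `k ∈ T` -/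
lemma mom_hit (E : Finset (Fin r → V)) (g : (Fin r → V) → ℝ) (g0 : ∀ e, 0 ≤ g e)
    (T : Finset (Fin r)) (hT : T.Nonempty) (X : Finset V) (D : ℝ)
    (hD : ∀ τ : Fin r → V, star E g T τ ≤ D) :
    ∑ e ∈ E.filter (fun e => ∀ k ∈ T, e k ∈ X), g e ≤ (X.card : ℝ) ^ T.card * D := by
  rcases X.eq_empty_or_nonempty with hX | ⟨x0, hx0⟩
  · have h1 : E.filter (fun e => ∀ k ∈ T, e k ∈ X) = ∅ := by
      apply Finset.filter_eq_empty_iff.mpr
      intro e _ h
      obtain ⟨k, hk⟩ := hT
      have := h k hk
      simp [hX] at this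
    rw [h1, hX]
    have : T.card ≠ 0 := Finset.card_ne_zero.mpr hT
    simp [this]
  · set P : Finset (Fin r → V) := Fintype.piFinset (fun k => if k ∈ T then X else {x0}) with hP
    have hcard : P.card = X.card ^ T.card := by
      rw [hP, Fintype.card_piFinset]
      have h1 : ∀ k : Fin r, (if k ∈ T then X else {x0}).card = if k ∈ T then X.card else 1 := by
        intro k; split_ifs <;> simp
      simp_rw [h1]
      rw [Finset.prod_ite]
      simp
    have h2 : ∑ e ∈ E.filter (fun e => ∀ k ∈ T, e k ∈ X), g e ≤ ∑ τ ∈ P, star E g T τ := by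
      unfold star
      simp_rw [Finset.sum_filter]
      rw [Finset.sum_comm]
      apply Finset.sum_le_sum
      intro e _
      split_ifs with h
      · set τ : Fin r → V := fun k => if k ∈ T then e k else x0 with hτ
        have hτP : τ ∈ P := by
          rw [hP, Fintype.mem_piFinset]
          intro k
          by_cases hk : k ∈ T
          · simp [hτ, hk, h k hk]
          · simp [hτ, hk]
        have h3 : (if ∀ k ∈ T, e k = τ k then g e else 0) = g e := by
          rw [if_pos]
          intro k hk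
          simp [hτ, hk]
        calc g e = (if ∀ k ∈ T, e k = τ k then g e else 0) := h3.symm
          _ ≤ ∑ τ ∈ P, (if ∀ k ∈ T, e k = τ k then g e else 0) :=
            Finset.single_le_sum (f := fun τ : Fin r → V =>
              if ∀ k ∈ T, e k = τ k then g e else 0)
              (fun τ' _ => by split_ifs; exacts [g0 e, le_refl _]) hτP
      · exact Finset.sum_nonneg (fun τ' _ => by split_ifs; exacts [g0 e, le_refl _])
    refine h2.trans ?_
    calc ∑ τ ∈ P, star E g T τ ≤ ∑ τ ∈ P, D := Finset.sum_le_sum (fun τ _ => hD τ)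
      _ = (X.card : ℝ) ^ T.card * D := by
        rw [Finset.sum_const, nsmul_eq_mul, hcard]
        push_cast
        ring

/-- `(1+y)^r = sum of y^|T|` -/
lemma mom_binom (y : ℝ) : ∑ T : Finset (Fin r), y ^ T.card = (1 + y) ^ r := by
  have h := Finset.sum_pow_mul_eq_add_pow y 1 (univ : Finset (Fin r))
  simp only [one_pow, mul_one, Finset.powerset_univ, Finset.card_univ, Fintype.card_fin] at h
  rw [h, add_comm]

/-- one step of the moment computation -/
lemma mom_step (E : Finset (Fin r → V)) (hinj : ∀ e ∈ E, Function.Injective e)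
    (g : (Fin r → V) → ℝ) (g0 : ∀ e, 0 ≤ g e) {δ0 δ s C : ℝ} {q : ℕ} (hq : 1 ≤ q) (hr : 1 ≤ r)
    (h0 : 0 < δ0) (hδ : δ0 ≤ δ) (hδ1 : δ ≤ 1) (hs : 0 < s) (hC : 0 ≤ C)
    (hstar : ∀ (T : Finset (Fin r)) (τ : Fin r → V), T.Nonempty →
      star E g T τ ≤ C * (1 / s) ^ T.card * mass E g)
    (hmom : 1 + C * (kap r (δ0 * s / (r * q))) ≤ 2) (X : Finset V) (hX : X.card ≤ r * q) :
    ∑ e ∈ E, g e * δ ^ (X ∪ verts e).card ≤ δ ^ X.card * (2 * δ ^ r * mass E g) := by
  have hδ0 : 0 < δ := lt_of_lt_of_le h0 hδ
  have hM : 0 ≤ mass E g := Finset.sum_nonneg (fun e _ => g0 e)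
  have hq' : (0 : ℝ) < q := by exact_mod_cast hq
  have hr' : (0 : ℝ) < r := by exact_mod_cast hr
  -- the size of the union
  have hsize : ∀ e ∈ E, δ ^ (X ∪ verts e).card
      = δ ^ X.card * δ ^ r * (1 / δ) ^ (univ.filter (fun k => e k ∈ X)).card := by
    intro e he
    have h1 : (X ∪ verts e).card + (X ∩ verts e).card = X.card + (verts e).card :=
      Finset.card_union_add_card_inter X (verts e)
    have h2 : (verts e).card = r := by
      unfold verts
      rw [Finset.card_image_of_injective _ (hinj e he)]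
      simp
    have h3 : (X ∩ verts e).card = (univ.filter (fun k => e k ∈ X)).card := by
      have : X ∩ verts e = (univ.filter (fun k => e k ∈ X)).image e := by
        ext v
        simp only [verts, Finset.mem_inter, Finset.mem_image, Finset.mem_filter,
          Finset.mem_univ, true_and]
        constructor
        · rintro ⟨hv, k, rfl⟩
          exact ⟨k, hv, rfl⟩
        · rintro ⟨k, hk, rfl⟩
          exact ⟨hk, k, rfl⟩
      rw [this, Finset.card_image_of_injective _ (hinj e he)]
    rw [h3, h2] at h1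
    have h4 : δ ^ (X ∪ verts e).card * δ ^ (univ.filter (fun k => e k ∈ X)).card
        = δ ^ X.card * δ ^ r := by
      rw [← pow_add, h1, pow_add]
    rw [← h4, mul_assoc, ← mul_pow, mul_one_div_cancel hδ0.ne', one_pow, mul_one]
  -- expand
  have hexp : ∀ e : Fin r → V, (1 / δ) ^ (univ.filter (fun k => e k ∈ X)).card
      ≤ 1 + ∑ T ∈ (univ : Finset (Finset (Fin r))).filter (fun T => T.Nonempty),
        (if (∀ k ∈ T, e k ∈ X) then (1 / δ) ^ T.card else 0) := by
    intro e
    set I := (univ : Finset (Fin r)).filter (fun k => e k ∈ X) with hI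
    have hnn : ∀ T ∈ (univ : Finset (Finset (Fin r))).filter (fun T => T.Nonempty),
        0 ≤ (if (∀ k ∈ T, e k ∈ X) then (1 / δ) ^ T.card else (0 : ℝ)) := by
      intro T _
      split_ifs
      · positivity
      · exact le_refl _
    rcases I.eq_empty_or_nonempty with h | h
    · rw [h]
      simp only [Finset.card_empty, pow_zero]
      have := Finset.sum_nonneg hnn
      linarith
    · have h1 : (if (∀ k ∈ I, e k ∈ X) then (1 / δ) ^ I.card else (0 : ℝ)) = (1 / δ) ^ I.card := by
        rw [if_pos]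
        intro k hk
        rw [hI, Finset.mem_filter] at hk
        exact hk.2
      have h2 := Finset.single_le_sum hnn (a := I) (by simp [h])
      rw [h1] at h2
      linarith
  have hlhs : ∑ e ∈ E, g e * δ ^ (X ∪ verts e).card
      = δ ^ X.card * δ ^ r * ∑ e ∈ E, g e * (1 / δ) ^ (univ.filter (fun k => e k ∈ X)).card := by
    rw [Finset.mul_sum]
    apply Finset.sum_congr rfl
    intro e he
    rw [hsize e he]
    ring
  rw [hlhs]
  have hmain : ∑ e ∈ E, g e * (1 / δ) ^ (univ.filter (fun k => e k ∈ X)).card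
      ≤ 2 * mass E g := by
    calc ∑ e ∈ E, g e * (1 / δ) ^ (univ.filter (fun k => e k ∈ X)).card
        ≤ ∑ e ∈ E, g e * (1 + ∑ T ∈ (univ : Finset (Finset (Fin r))).filter (fun T => T.Nonempty),
          (if (∀ k ∈ T, e k ∈ X) then (1 / δ) ^ T.card else 0)) := by
          apply Finset.sum_le_sum
          intro e _
          exact mul_le_mul_of_nonneg_left (hexp e) (g0 e)
      _ = mass E g + ∑ T ∈ (univ : Finset (Finset (Fin r))).filter (fun T => T.Nonempty),
          (1 / δ) ^ T.card * ∑ e ∈ E.filter (fun e => ∀ k ∈ T, e k ∈ X), g e := by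
          simp_rw [mul_add, mul_one, Finset.mul_sum]
          rw [Finset.sum_add_distrib, Finset.sum_comm]
          unfold mass
          congr 1
          apply Finset.sum_congr rfl
          intro T _
          rw [Finset.sum_filter]
          apply Finset.sum_congr rfl
          intro e _
          split_ifs <;> ring
      _ ≤ mass E g + ∑ T ∈ (univ : Finset (Finset (Fin r))).filter (fun T => T.Nonempty),
          (1 / δ) ^ T.card * ((X.card : ℝ) ^ T.card * (C * (1 / s) ^ T.card * mass E g)) := by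
          gcongr with T hT
          rw [Finset.mem_filter] at hT
          exact mom_hit E g g0 T hT.2 X _ (fun τ => hstar T τ hT.2)
      _ = mass E g + C * mass E g * ∑ T ∈ (univ : Finset (Finset (Fin r))).filter
            (fun T => T.Nonempty), ((X.card : ℝ) / (δ * s)) ^ T.card := by
          rw [Finset.mul_sum]
          congr 1
          apply Finset.sum_congr rfl
          intro T _
          have : (X.card : ℝ) / (δ * s) = (1 / δ) * (X.card : ℝ) * (1 / s) := by
            field_simp
          rw [this, mul_pow, mul_pow]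
          ring
      _ = mass E g + C * mass E g * ((1 + (X.card : ℝ) / (δ * s)) ^ r - 1) := by
          congr 2
          have h1 := mom_binom (r := r) ((X.card : ℝ) / (δ * s))
          rw [← h1, ← Finset.sum_filter_add_sum_filter_not univ (fun T : Finset (Fin r) => T.Nonempty)]
          have h2 : (univ : Finset (Finset (Fin r))).filter (fun T => ¬ T.Nonempty) = {∅} := by
            ext T
            simp [Finset.not_nonempty_iff_eq_empty]
          rw [h2]
          simp
      _ ≤ mass E g + C * mass E g * kap r (δ0 * s / (r * q)) := by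
          unfold kap
          have h1 : 1 / (δ0 * s / (r * q)) = (r * q : ℝ) / (δ0 * s) := by
            field_simp
          rw [h1]
          have h2 : (X.card : ℝ) ≤ r * q := by exact_mod_cast hX
          have h3 : (X.card : ℝ) / (δ * s) ≤ (r * q : ℝ) / (δ0 * s) := by
            apply div_le_div₀ (by positivity) h2 (by positivity)
            gcongr
          gcongr
      _ = (1 + C * kap r (δ0 * s / (r * q))) * mass E g := by ring
      _ ≤ 2 * mass E g := by gcongr
  calc δ ^ X.card * δ ^ r * ∑ e ∈ E, g e * (1 / δ) ^ (univ.filter (fun k => e k ∈ X)).card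
      ≤ δ ^ X.card * δ ^ r * (2 * mass E g) := by gcongr
    _ = δ ^ X.card * (2 * δ ^ r * mass E g) := by ring

/-- the moments of the fired mass -/
lemma mom_claim (E : Finset (Fin r → V)) (hinj : ∀ e ∈ E, Function.Injective e)
    (g : (Fin r → V) → ℝ) (g0 : ∀ e, 0 ≤ g e) (ι : Fin (m + 1) → V → B) (a : Fin (m + 1))
    (hι : Function.Injective (ι a)) {δ0 δ s C : ℝ} {q : ℕ} (hq : 1 ≤ q) (hr : 1 ≤ r)
    (h0 : 0 < δ0) (hδ : δ0 ≤ δ) (hδ1 : δ ≤ 1) (hs : 0 < s) (hC : 0 ≤ C)
    (hstar : ∀ (T : Finset (Fin r)) (τ : Fin r → V), T.Nonempty →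
      star E g T τ ≤ C * (1 / s) ^ T.card * mass E g)
    (hmom : 1 + C * (kap r (δ0 * s / (r * q))) ≤ 2) (j : ℕ) :
    ∀ X : Finset V, X.card + r * j ≤ r * q →
      Ex δ (fun ω => mom_W0 E g ι a ω ^ j * (if (∀ v ∈ X, ω (ι a v) = true) then (1 : ℝ) else 0))
        ≤ δ ^ X.card * (2 * δ ^ r * mass E g) ^ j := by
  have hδ0 : 0 < δ := lt_of_lt_of_le h0 hδ
  have hM : 0 ≤ mass E g := Finset.sum_nonneg (fun e _ => g0 e)
  induction j with
  | zero =>
    intro X _
    simp only [pow_zero, one_mul, mul_one]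
    exact (mom_on ι a hι δ X).le
  | succ j ih =>
    intro X hX
    have hX' : X.card ≤ r * q := by
      have := Nat.zero_le (r * (j + 1)); omega
    have hrw : ∀ ω : B → Bool, mom_W0 E g ι a ω ^ (j + 1)
          * (if (∀ v ∈ X, ω (ι a v) = true) then (1 : ℝ) else 0)
        = ∑ e ∈ E, g e * (mom_W0 E g ι a ω ^ j
          * (if (∀ v ∈ X ∪ verts e, ω (ι a v) = true) then (1 : ℝ) else 0)) := by
      intro ω
      rw [pow_succ]
      conv_lhs => rw [mul_assoc]
      have h1 : mom_W0 E g ι a ω * (if (∀ v ∈ X, ω (ι a v) = true) then (1 : ℝ) else 0)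
          = ∑ e ∈ E, g e * (if (∀ v ∈ X ∪ verts e, ω (ι a v) = true) then (1 : ℝ) else 0) := by
        unfold mom_W0
        rw [Finset.sum_filter, Finset.sum_mul]
        apply Finset.sum_congr rfl
        intro e _
        have h2 : (∀ v ∈ X ∪ verts e, ω (ι a v) = true)
            ↔ (Fire ι ω a e ∧ ∀ v ∈ X, ω (ι a v) = true) := by
          unfold Fire verts
          constructor
          · intro h
            refine ⟨fun k => h _ ?_, fun v hv => h v ?_⟩
            · simp
            · simp [hv]
          · rintro ⟨h3, h4⟩ v hv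
            rw [Finset.mem_union, Finset.mem_image] at hv
            rcases hv with hv | ⟨k, _, rfl⟩
            · exact h4 v hv
            · exact h3 k
        by_cases h3 : Fire ι ω a e
        · by_cases h4 : ∀ v ∈ X, ω (ι a v) = true
          · rw [if_pos h3, if_pos h4, if_pos (h2.mpr ⟨h3, h4⟩)]
          · rw [if_neg h4, if_neg (fun h => h4 (h2.mp h).2), mul_zero, mul_zero]
        · rw [if_neg h3, if_neg (fun h => h3 (h2.mp h).1), zero_mul, mul_zero]
      rw [h1, Finset.mul_sum]
      apply Finset.sum_congr rfl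
      intro e _
      ring
    simp_rw [hrw]
    rw [Ex_sum]
    simp_rw [Ex_mul_left]
    have hA : 0 ≤ (2 * δ ^ r * mass E g) ^ j := by positivity
    calc ∑ e ∈ E, g e * Ex δ (fun ω => mom_W0 E g ι a ω ^ j
          * (if (∀ v ∈ X ∪ verts e, ω (ι a v) = true) then (1 : ℝ) else 0))
        ≤ ∑ e ∈ E, g e * (δ ^ (X ∪ verts e).card * (2 * δ ^ r * mass E g) ^ j) := by
          apply Finset.sum_le_sum
          intro e _
          apply mul_le_mul_of_nonneg_left _ (g0 e)
          apply ih
          have h1 : (X ∪ verts e).card ≤ X.card + (verts e).card := Finset.card_union_le _ _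
          have h2 : (verts e).card ≤ r := by
            unfold verts
            have := Finset.card_image_le (s := (univ : Finset (Fin r))) (f := e)
            simpa using this
          have h3 : r * (j + 1) = r * j + r := by ring
          omega
      _ = (∑ e ∈ E, g e * δ ^ (X ∪ verts e).card) * (2 * δ ^ r * mass E g) ^ j := by
          rw [Finset.sum_mul]
          apply Finset.sum_congr rfl
          intro e _
          ring
      _ ≤ (δ ^ X.card * (2 * δ ^ r * mass E g)) * (2 * δ ^ r * mass E g) ^ j := by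
          apply mul_le_mul_of_nonneg_right _ hA
          exact mom_step E hinj g g0 hq hr h0 hδ hδ1 hs hC hstar hmom X hX'
      _ = δ ^ X.card * (2 * δ ^ r * mass E g) ^ (j + 1) := by ring

theorem moments (E : Finset (Fin r → V)) (hinj : ∀ e ∈ E, Function.Injective e)
    (g : (Fin r → V) → ℝ) (g0 : ∀ e, 0 ≤ g e) (ι : Fin (m + 1) → V → B) (a : Fin (m + 1))
    (hι : Function.Injective (ι a)) {δ0 δ s C K : ℝ} {q : ℕ} (hq : 1 ≤ q) (hr : 1 ≤ r)
    (h0 : 0 < δ0) (hδ : δ0 ≤ δ) (hδ2 : δ ≤ 2 * δ0) (hδ1 : δ ≤ 1) (hs : 0 < s) (hC : 0 ≤ C)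
    (hK : 0 < K)
    (hstar : ∀ (T : Finset (Fin r)) (τ : Fin r → V), T.Nonempty →
      star E g T τ ≤ C * (1 / s) ^ T.card * mass E g)
    (hmom : 1 + C * (kap r (δ0 * s / (r * q))) ≤ 2) :
    Pr δ (fun ω => K * mass E g < WW E δ0 g ι ω a) ≤ (2 ^ (r + 1) / K) ^ q := by
  have hδ0 : 0 < δ := lt_of_lt_of_le h0 hδ
  have hM : 0 ≤ mass E g := Finset.sum_nonneg (fun e _ => g0 e)
  have hWW : ∀ ω, WW E δ0 g ι ω a = (1 / δ0) ^ r * mom_W0 E g ι a ω := by
    intro ω
    unfold WW mom_W0
    rw [Finset.mul_sum]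
  have hW0 : ∀ ω, 0 ≤ mom_W0 E g ι a ω := fun ω => Finset.sum_nonneg (fun e _ => g0 e)
  rcases hM.eq_or_lt with hM0 | hMpos
  · -- the mass vanishes
    have h1 : ∀ ω, mom_W0 E g ι a ω = 0 := by
      intro ω
      have h2 : mom_W0 E g ι a ω ≤ mass E g := by
        unfold mom_W0 mass
        exact Finset.sum_le_sum_of_subset_of_nonneg (Finset.filter_subset _ _)
          (fun e _ _ => g0 e)
      exact le_antisymm (h2.trans hM0.symm.le) (hW0 ω)
    have h2 : Pr δ (fun ω => K * mass E g < WW E δ0 g ι ω a) = 0 := by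
      unfold Pr
      have h3 : (fun ω : B → Bool => if K * mass E g < WW E δ0 g ι ω a then (1 : ℝ) else 0)
          = fun _ => 0 := by
        funext ω
        rw [hWW, h1, ← hM0]
        simp
      rw [h3, Ex_const]
    rw [h2]
    positivity
  · have ht : 0 < (K * mass E g * δ0 ^ r) ^ q := by positivity
    have h1 := Pr_le_of_lt (p := δ) hδ0.le hδ1 (F := fun ω : B → Bool => mom_W0 E g ι a ω ^ q)
      (fun ω => pow_nonneg (hW0 ω) q) (A := fun ω => K * mass E g < WW E δ0 g ι ω a) ht (by
        intro ω hω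
        rw [hWW] at hω
        apply pow_le_pow_left₀ (by positivity)
        have h2 : K * mass E g * δ0 ^ r ≤ (1 / δ0) ^ r * mom_W0 E g ι a ω * δ0 ^ r :=
          mul_le_mul_of_nonneg_right hω.le (by positivity)
        have h3 : (1 / δ0) ^ r * mom_W0 E g ι a ω * δ0 ^ r = mom_W0 E g ι a ω := by
          have : (1 / δ0) ^ r * δ0 ^ r = 1 := by
            rw [← mul_pow, one_div_mul_cancel h0.ne', one_pow]
          calc (1 / δ0) ^ r * mom_W0 E g ι a ω * δ0 ^ r
              = ((1 / δ0) ^ r * δ0 ^ r) * mom_W0 E g ι a ω := by ring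
            _ = _ := by rw [this, one_mul]
        linarith)
    refine h1.trans ?_
    have h2 := mom_claim E hinj g g0 ι a hι hq hr h0 hδ hδ1 hs hC hstar hmom q ∅ (by simp)
    simp only [Finset.notMem_empty, IsEmpty.forall_iff, implies_true, if_true, mul_one,
      Finset.card_empty, pow_zero, one_mul] at h2
    calc Ex δ (fun ω : B → Bool => mom_W0 E g ι a ω ^ q) / (K * mass E g * δ0 ^ r) ^ q
        ≤ (2 * δ ^ r * mass E g) ^ q / (K * mass E g * δ0 ^ r) ^ q := by gcongr
      _ = (2 * δ ^ r / (K * δ0 ^ r)) ^ q := by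
          rw [← div_pow]
          congr 1
          field_simp
      _ ≤ (2 ^ (r + 1) / K) ^ q := by
          apply pow_le_pow_left₀ (by positivity)
          rw [div_le_div_iff₀ (by positivity) hK]
          have h3 : δ ^ r ≤ (2 * δ0) ^ r := pow_le_pow_left₀ hδ0.le hδ2 r
          rw [mul_pow] at h3
          calc 2 * δ ^ r * K ≤ 2 * (2 ^ r * δ0 ^ r) * K := by gcongr
            _ = 2 ^ (r + 1) * (K * δ0 ^ r) := by ring

end Pool.H18.TC
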