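import Pool.Agent.H18.TC.Gpi
import Pool.Agent.H18.TC.Fail
import Pool.Agent.H18.TC.Mom

/-! MN, first part: the good events -/

open Finset
open Classical

namespace Pool.H18.TC

variable {r : ℕ} {V : Type*} [Fintype V] {T m : ℕ}
variable {E : Finset (Fin r → V)} {K : (Fin r → V) → (Fin r → V) → ℝ} {s : ℝ} {χ : V → Fin r}
  {δ : ℝ} {e0 : Fin r → V} {KK c0 : ℝ} {q : ℕ}

/-- `G i` is spread and large enough -/
def Good (E : Finset (Fin r → V)) (K : (Fin r → V) → (Fin r → V) → ℝ) (s δ KK : ℝ)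
    (e0 : Fin r → V) (i : ℕ) (ω : V × Fin T × Fin (m + 1) → Bool) : Prop :=
  (∀ (S : Finset (Fin r)) (τ : Fin r → V), S.Nonempty →
    star E (G E K s δ e0 i ω) S τ ≤ Cmx m KK * (1 / s) ^ S.card * MM E K s δ e0 i ω) ∧
  s ^ r / (8 * Cmx m KK) ≤ MM E K s δ e0 i ω

theorem Good_Cmx {m : ℕ} {K : ℝ} (hK : 1 ≤ K) : 4 ≤ Cmx m K := by
  unfold Cmx
  have hm : (0 : ℝ) ≤ m := Nat.cast_nonneg m
  nlinarith

omit [Fintype V] in
theorem Good_bitOf_inj {i : ℕ} (hi : i < T) (a b : Fin (m + 1)) (v w : V)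
    (h : bitOf (T := T) i hi a v = bitOf (T := T) i hi b w) : a = b ∧ v = w := by
  unfold bitOf at h
  simp only [Prod.mk.injEq, true_and] at h
  exact ⟨h.2, h.1⟩

theorem Good_step (hK : IsKer E K s χ) (he0 : e0 ∈ E) (hnum : Num r E.card s δ KK c0 T m q)
    {i : ℕ} (hi : i < T) {ω : V × Fin T × Fin (m + 1) → Bool}
    (h : Good E K s δ KK e0 i ω) :
    Step E K s χ δ (Cmx m KK) e0 (G E K s δ e0 i ω)
      (fun f' e => G E K s δ e0 i (off (verts f') ω) e) (bitOf (m := m) i hi) ∧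
    loss1 E K (G E K s δ e0 i ω) (fun f' e => G E K s δ e0 i (off (verts f') ω) e)
      = Loss E K s δ e0 i ω ∧ 2 ≤ MM E K s δ e0 i ω := by
  have hδ : 0 < δ := hnum.hδ
  have hC4 : 4 ≤ Cmx m KK := Good_Cmx hnum.hK
  have hs : 0 < s := lt_of_lt_of_le one_pos hnum.hs
  have hM2 : 2 ≤ MM E K s δ e0 i ω := le_trans hnum.hM h.2
  refine ⟨?_, rfl, hM2⟩
  refine { ker := hK, hr := hnum.hr, δ0 := hδ, δ1 := by linarith [hnum.hδ1], e0E := he0,
           gf0 := fun f e => G_nonneg hK hδ i _ e,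
           gfg := fun f e => G_mono hK hδ i (off_le _ _) e,
           g1 := fun e he => G_le_one hK he0 hδ i ω he,
           C0 := by linarith,
           inj := fun a b v w hh => Good_bitOf_inj hi a b v w hh,
           spread := fun S τ hS => h.1 S τ hS,
           lam := ?_ }
  have hL := Loss_le (e0 := e0) hK hδ i hi.le ω
  have hloss : loss1 E K (G E K s δ e0 i ω) (fun f' e => G E K s δ e0 i (off (verts f') ω) e)
      = Loss E K s δ e0 i ω := rfl
  rw [hloss]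
  have hMM : mass E (G E K s δ e0 i ω) = MM E K s δ e0 i ω := rfl
  rw [hMM]
  have hMM0 : 0 ≤ MM E K s δ e0 i ω := by linarith
  have h1 : (r : ℝ) * i / s ≤ 1 / 16 := by
    refine le_trans ?_ hnum.hl1
    have hiT : (i : ℝ) ≤ T := by exact_mod_cast hi.le
    have hr0 : (0 : ℝ) ≤ r := Nat.cast_nonneg r
    gcongr
  have h2 := hnum.hl2
  have h3 : (r : ℝ) * i / s * MM E K s δ e0 i ω ≤ 1 / 16 * MM E K s δ e0 i ω :=
    mul_le_mul_of_nonneg_right h1 hMM0
  have h4 : 2 * (r : ℝ) / s * MM E K s δ e0 i ω ≤ 1 / 16 * MM E K s δ e0 i ω :=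
    mul_le_mul_of_nonneg_right h2 hMM0
  linarith

theorem Good_zero (hK : IsKer E K s χ) (he0 : e0 ∈ E) (hnum : Num r E.card s δ KK c0 T m q)
    (ω : V × Fin T × Fin (m + 1) → Bool) : Good E K s δ KK e0 0 ω := by
  have hδ : 0 < δ := hnum.hδ
  have hC4 : 4 ≤ Cmx m KK := Good_Cmx hnum.hK
  have hs : 0 < s := lt_of_lt_of_le one_pos hnum.hs
  have hsr : 0 < s ^ r := pow_pos hs r
  have h0 : s ^ r / 2 ≤ MM E K s δ e0 0 ω :=
    MM_zero hK he0 (le_trans hnum.hl2 (by norm_num)) ω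
  refine ⟨fun S τ _ => ?_, ?_⟩
  · refine le_trans (star_zero hK he0 ω S τ) ?_
    have hp : 0 ≤ (1 / s) ^ S.card := by positivity
    have h1 : s ^ r ≤ Cmx m KK * MM E K s δ e0 0 ω := by nlinarith
    calc s ^ r * (1 / s) ^ S.card ≤ (Cmx m KK * MM E K s δ e0 0 ω) * (1 / s) ^ S.card :=
          mul_le_mul_of_nonneg_right h1 hp
      _ = Cmx m KK * (1 / s) ^ S.card * MM E K s δ e0 0 ω := by ring
  · refine le_trans ?_ h0
    apply div_le_div_of_nonneg_left hsr.le (by norm_num)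
    linarith

/-- the good event of round `i+1` in terms of the past and the fresh bits -/
def GoodS (E : Finset (Fin r → V)) (K : (Fin r → V) → (Fin r → V) → ℝ) (s δ KK : ℝ)
    (e0 : Fin r → V) (i : ℕ) (hi : i < T) (ω ω' : V × Fin T × Fin (m + 1) → Bool) : Prop :=
  (∀ (S : Finset (Fin r)) (τ : Fin r → V), S.Nonempty →
    star E (Gs E K s δ e0 i hi ω ω') S τ
      ≤ Cmx m KK * (1 / s) ^ S.card * mass E (Gs E K s δ e0 i hi ω ω')) ∧
  s ^ r / (8 * Cmx m KK) ≤ mass E (Gs E K s δ e0 i hi ω ω')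

theorem Good_succ_iff (i : ℕ) (hi : i < T) (ω : V × Fin T × Fin (m + 1) → Bool) :
    Good E K s δ KK e0 (i + 1) ω ↔ GoodS E K s δ KK e0 i hi ω ω := by
  have h : G E K s δ e0 (i + 1) ω = Gs E K s δ e0 i hi ω ω := by
    funext f
    exact G_succ i hi ω f
  unfold Good GoodS MM
  rw [h]

theorem GoodS_past (i : ℕ) (hi : i < T) {ω1 ω2 ω' : V × Fin T × Fin (m + 1) → Bool}
    (h : ∀ b : V × Fin T × Fin (m + 1), b.2.1.val < i → ω1 b = ω2 b) :
    GoodS E K s δ KK e0 i hi ω1 ω' ↔ GoodS E K s δ KK e0 i hi ω2 ω' := by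
  have hh : Gs E K s δ e0 i hi ω1 ω' = Gs E K s δ e0 i hi ω2 ω' := by
    funext f
    exact Gs_past i hi h f
  unfold GoodS
  rw [hh]

theorem GoodS_fresh (i : ℕ) (hi : i < T) {ω ω1 ω2 : V × Fin T × Fin (m + 1) → Bool}
    (h : ∀ b : V × Fin T × Fin (m + 1), b.2.1.val = i → ω1 b = ω2 b) :
    GoodS E K s δ KK e0 i hi ω ω1 ↔ GoodS E K s δ KK e0 i hi ω ω2 := by
  have hh : Gs E K s δ e0 i hi ω ω1 = Gs E K s δ e0 i hi ω ω2 := by
    funext f
    exact Gs_fresh i hi h f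
  unfold GoodS
  rw [hh]

theorem Good_past (i : ℕ) {ω1 ω2 : V × Fin T × Fin (m + 1) → Bool}
    (h : ∀ b : V × Fin T × Fin (m + 1), b.2.1.val < i → ω1 b = ω2 b) :
    Good E K s δ KK e0 i ω1 ↔ Good E K s δ KK e0 i ω2 := by
  have hh : G E K s δ e0 i ω1 = G E K s δ e0 i ω2 := by
    funext f
    exact G_congr i h f
  unfold Good MM
  rw [hh]

theorem Good_Pr_step (p : ℝ) (i : ℕ) (hi : i < T)
    (A : (V × Fin T × Fin (m + 1) → Bool) → (V × Fin T × Fin (m + 1) → Bool) → Prop)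
    (h1 : ∀ ω1 ω2 ω', (∀ b : V × Fin T × Fin (m + 1), b.2.1.val < i → ω1 b = ω2 b) →
      (A ω1 ω' ↔ A ω2 ω'))
    (h2 : ∀ ω ω1 ω2, (∀ b : V × Fin T × Fin (m + 1), b.2.1.val = i → ω1 b = ω2 b) →
      (A ω ω1 ↔ A ω ω2)) :
    Pr p (fun ω => A ω ω) = Ex p (fun ω => Pr p (fun ω' => A ω ω')) := by
  unfold Pr
  refine Ex_step p i hi (fun ω ω' => if A ω ω' then (1 : ℝ) else 0) ?_ ?_
  · intro ω1 ω2 ω' h
    simp only [h1 ω1 ω2 ω' h]
  · intro ω ω1 ω2 h
    simp only [h2 ω ω1 ω2 h]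

/-- a decreasing event for the fresh bits: pass from rate `δ` to rate `p` -/
theorem Good_antitone (hK : IsKer E K s χ) (hδ : 0 < δ) (i : ℕ) (hi : i < T) {p : ℝ}
    (hp : δ ≤ p) (hp1 : p ≤ 1) (ω : V × Fin T × Fin (m + 1) → Bool) (t : ℝ) :
    Pr p (fun ω' => mass E (Gs E K s δ e0 i hi ω ω') < t)
      ≤ Pr δ (fun ω' => mass E (Gs E K s δ e0 i hi ω ω') < t) := by
  unfold Pr
  refine Ex_antitone hδ.le hp hp1 ?_
  intro ω1 ω2 h12
  have hm : mass E (Gs E K s δ e0 i hi ω ω1) ≤ mass E (Gs E K s δ e0 i hi ω ω2) :=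
    Finset.sum_le_sum fun f _ => Gs_mono hK hδ i hi h12 f
  by_cases h2 : mass E (Gs E K s δ e0 i hi ω ω2) < t
  · have h1 : mass E (Gs E K s δ e0 i hi ω ω1) < t := lt_of_le_of_lt hm h2
    simp [h1, h2]
  · simp only [h2, if_false]
    split_ifs <;> norm_num

/-- failure of one round, given the past -/
theorem Good_round (hK : IsKer E K s χ) (he0 : e0 ∈ E) (hnum : Num r E.card s δ KK c0 T m q)
    {i : ℕ} (hi : i < T) {p : ℝ} (hp : δ ≤ p) (hp2 : p ≤ 2 * δ)
    {ω : V × Fin T × Fin (m + 1) → Bool} (hg : Good E K s δ KK e0 i ω) :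
    Pr p (fun ω' => ¬ GoodS E K s δ KK e0 i hi ω ω') ≤ kap3 r (δ * s) KK m q := by
  have hδ : 0 < δ := hnum.hδ
  have hp0 : 0 ≤ p := hδ.le.trans hp
  have hp1 : p ≤ 1 := by linarith [hnum.hδ1]
  have hC4 : 4 ≤ Cmx m KK := Good_Cmx hnum.hK
  have hs : 0 < s := lt_of_lt_of_le one_pos hnum.hs
  have hKK : 0 < KK := lt_of_lt_of_le one_pos hnum.hK
  obtain ⟨hstep, -, hM2⟩ := Good_step hK he0 hnum hi hg
  have hMpos : 0 < mass E (G E K s δ e0 i ω) := by
    have : mass E (G E K s δ e0 i ω) = MM E K s δ e0 i ω := rfl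
    rw [this]; linarith
  set M : ℝ := mass E (G E K s δ e0 i ω) with hMdef
  have hMMM : MM E K s δ e0 i ω = M := rfl
  -- the threshold
  obtain ⟨t, htM, hts, hft⟩ : ∃ t : ℝ, M / 2 ≤ t ∧ s ^ r / (8 * Cmx m KK) ≤ t ∧
      Pr δ (fun ω' => mass E (Gs E K s δ e0 i hi ω ω') < t)
        ≤ (kapa r (δ * s) (Cmx m KK)) ^ (m + 1) := by
    by_cases hq : ∀ e ∈ E, G E K s δ e0 i ω e ≤ 1 / 4
    · refine ⟨M, by linarith, ?_, ?_⟩
      · rw [← hMMM]; exact hg.2
      · exact fail_grow hstep hMpos hq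
    · refine ⟨M / 2, le_refl _, ?_, ?_⟩
      · push Not at hq
        obtain ⟨e, heE, he⟩ := hq
        have hr : 0 < r := hnum.hr
        have hne : (univ : Finset (Fin r)).Nonempty := ⟨⟨0, hr⟩, mem_univ _⟩
        have hst := hg.1 univ e hne
        have hle : G E K s δ e0 i ω e ≤ star E (G E K s δ e0 i ω) univ e := by
          unfold star
          refine Finset.single_le_sum (f := fun x => G E K s δ e0 i ω x)
            (fun x _ => G_nonneg hK hδ i ω x) ?_
          simp [heE]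
        have hcard : (univ : Finset (Fin r)).card = r := by simp
        rw [hcard, hMMM] at hst
        have hsr : 0 < s ^ r := pow_pos hs r
        have h1 : 1 / 4 < Cmx m KK * (1 / s) ^ r * M := lt_of_lt_of_le he (hle.trans hst)
        have h2 : Cmx m KK * (1 / s) ^ r * M = Cmx m KK * M / s ^ r := by
          rw [one_div, inv_pow]; field_simp
        rw [h2, lt_div_iff₀ hsr] at h1
        rw [div_le_iff₀ (by linarith)]
        nlinarith
      · exact fail_half hstep hMpos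
  have hfp := (Good_antitone (e0 := e0) hK hδ i hi hp hp1 ω t).trans hft
  -- moments
  have hmom : ∀ a : Fin (m + 1), Pr p (fun ω' => KK * M
      < WW E δ (G E K s δ e0 i ω) (bitOf i hi) ω' a) ≤ (2 ^ (r + 1) / KK) ^ q := by
    intro a
    refine moments E ?_ (G E K s δ e0 i ω) (fun e => G_nonneg hK hδ i ω e) (bitOf i hi) a ?_
      hnum.hq hnum.hr hδ hp hp2 hp1 hs (by linarith) hKK (C := Cmx m KK) ?_ hnum.hmom
    · intro e he k l hkl
      rw [← hK.part e he k, ← hK.part e he l, hkl]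
    · intro v w hvw
      exact (Good_bitOf_inj hi a a v w hvw).2
    · intro S τ hS
      exact hg.1 S τ hS
  -- union bound
  have hsub : ∀ ω', ¬ GoodS E K s δ KK e0 i hi ω ω' →
      (mass E (Gs E K s δ e0 i hi ω ω') < t) ∨
        (∃ a : Fin (m + 1), KK * M < WW E δ (G E K s δ e0 i ω) (bitOf i hi) ω' a) := by
    intro ω' hbad
    by_contra hcon
    push Not at hcon
    obtain ⟨hc1, hc2⟩ := hcon
    apply hbad
    refine ⟨fun S τ _ => ?_, le_trans hts hc1⟩
    refine le_trans (star_succ hK hδ i hi ω ω' S τ) ?_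
    have hsum : ∑ a, WW E δ (G E K s δ e0 i ω) (bitOf i hi) ω' a ≤ (m + 1) * (KK * M) := by
      calc ∑ a, WW E δ (G E K s δ e0 i ω) (bitOf i hi) ω' a
          ≤ ∑ _a : Fin (m + 1), KK * M := Finset.sum_le_sum fun a _ => hc2 a
        _ = (m + 1) * (KK * M) := by simp
    have hps : 0 ≤ (1 / s) ^ S.card := by positivity
    have hm0 : (0 : ℝ) ≤ m := Nat.cast_nonneg m
    have hM' : M / 2 ≤ mass E (Gs E K s δ e0 i hi ω ω') := le_trans htM hc1
    calc 2 * (1 / s) ^ S.card * ∑ a, WW E δ (G E K s δ e0 i ω) (bitOf i hi) ω' a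
        ≤ 2 * (1 / s) ^ S.card * ((m + 1) * (KK * M)) :=
          mul_le_mul_of_nonneg_left hsum (by positivity)
      _ = Cmx m KK * (1 / s) ^ S.card * (M / 2) := by unfold Cmx; ring
      _ ≤ Cmx m KK * (1 / s) ^ S.card * mass E (Gs E K s δ e0 i hi ω ω') := by
          refine mul_le_mul_of_nonneg_left hM' ?_
          exact mul_nonneg (by linarith) hps
  calc Pr p (fun ω' => ¬ GoodS E K s δ KK e0 i hi ω ω')
      ≤ Pr p (fun ω' => (mass E (Gs E K s δ e0 i hi ω ω') < t) ∨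
        (∃ a : Fin (m + 1), KK * M < WW E δ (G E K s δ e0 i ω) (bitOf i hi) ω' a)) :=
        Pr_mono hp0 hp1 hsub
    _ ≤ Pr p (fun ω' => mass E (Gs E K s δ e0 i hi ω ω') < t) +
        Pr p (fun ω' => ∃ a : Fin (m + 1), KK * M
          < WW E δ (G E K s δ e0 i ω) (bitOf i hi) ω' a) := Pr_or_le hp0 hp1 _ _
    _ ≤ (kapa r (δ * s) (Cmx m KK)) ^ (m + 1) + (m + 1) * (2 ^ (r + 1) / KK) ^ q := by
        refine add_le_add hfp ?_
        refine le_trans (Pr_exists_le hp0 hp1 _) ?_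
        calc ∑ a : Fin (m + 1), Pr p (fun ω' => KK * M
              < WW E δ (G E K s δ e0 i ω) (bitOf i hi) ω' a)
            ≤ ∑ _a : Fin (m + 1), (2 ^ (r + 1) / KK) ^ q := Finset.sum_le_sum fun a _ => hmom a
          _ = (m + 1) * (2 ^ (r + 1) / KK) ^ q := by simp
    _ = kap3 r (δ * s) KK m q := rfl

theorem Good_fail (hK : IsKer E K s χ) (he0 : e0 ∈ E) (hnum : Num r E.card s δ KK c0 T m q)
    {i : ℕ} (hi : i ≤ T) {p : ℝ} (hp : δ ≤ p) (hp2 : p ≤ 2 * δ) :
    Pr p (fun ω : V × Fin T × Fin (m + 1) → Bool => ¬ Good E K s δ KK e0 i ω)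
      ≤ i * kap3 r (δ * s) KK m q := by
  have hδ : 0 < δ := hnum.hδ
  have hp0 : 0 ≤ p := hδ.le.trans hp
  have hp1 : p ≤ 1 := by linarith [hnum.hδ1]
  induction i with
  | zero =>
    have h0 : ∀ ω : V × Fin T × Fin (m + 1) → Bool, Good E K s δ KK e0 0 ω :=
      fun ω => Good_zero hK he0 hnum ω
    have : Pr p (fun ω : V × Fin T × Fin (m + 1) → Bool => ¬ Good E K s δ KK e0 0 ω) = 0 := by
      unfold Pr
      refine Eq.trans ?_ (Ex_const (B := V × Fin T × Fin (m + 1)) p 0)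
      congr 1
      funext ω
      simp [h0 ω]
    rw [this]; simp
  | succ i ih =>
    have hiT : i < T := hi
    have ih' := ih (Nat.le_of_lt hiT)
    -- decompose
    have hdec : Pr p (fun ω : V × Fin T × Fin (m + 1) → Bool => ¬ Good E K s δ KK e0 (i + 1) ω)
        ≤ Pr p (fun ω : V × Fin T × Fin (m + 1) → Bool => ¬ Good E K s δ KK e0 i ω)
          + Pr p (fun ω : V × Fin T × Fin (m + 1) → Bool =>
            Good E K s δ KK e0 i ω ∧ ¬ GoodS E K s δ KK e0 i hiT ω ω) := by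
      refine le_trans (Pr_mono hp0 hp1 (A' := fun ω => ¬ Good E K s δ KK e0 i ω ∨
        (Good E K s δ KK e0 i ω ∧ ¬ GoodS E K s δ KK e0 i hiT ω ω)) ?_) (Pr_or_le hp0 hp1 _ _)
      intro ω hω
      rw [Good_succ_iff i hiT ω] at hω
      by_cases hgi : Good E K s δ KK e0 i ω
      · exact Or.inr ⟨hgi, hω⟩
      · exact Or.inl hgi
    have hstep : Pr p (fun ω : V × Fin T × Fin (m + 1) → Bool =>
            Good E K s δ KK e0 i ω ∧ ¬ GoodS E K s δ KK e0 i hiT ω ω)
        ≤ kap3 r (δ * s) KK m q := by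
      rw [Good_Pr_step p i hiT (fun ω ω' : V × Fin T × Fin (m + 1) → Bool =>
        Good E K s δ KK e0 i ω ∧ ¬ GoodS E K s δ KK e0 i hiT ω ω')
        (by
          intro ω1 ω2 ω' h
          simp only [Good_past i h, GoodS_past i hiT h])
        (by
          intro ω ω1 ω2 h
          simp only [GoodS_fresh i hiT h])]
      have hkap3 : 0 ≤ kap3 r (δ * s) KK m q := by
        have hs : 0 < s := lt_of_lt_of_le one_pos hnum.hs
        have hC4 : 4 ≤ Cmx m KK := Good_Cmx hnum.hK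
        have hKK : 0 < KK := lt_of_lt_of_le one_pos hnum.hK
        have hx : 0 < δ * s := mul_pos hδ hs
        have hkap : 0 ≤ kap r (δ * s) := by
          unfold kap
          have : (1 : ℝ) ≤ 1 + 1 / (δ * s) := by
            have : 0 ≤ 1 / (δ * s) := by positivity
            linarith
          linarith [one_le_pow₀ this (n := r)]
        have hkapa : 0 ≤ kapa r (δ * s) (Cmx m KK) := by
          unfold kapa
          exact mul_nonneg hkap (by linarith)
        unfold kap3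
        positivity
      refine le_trans (Ex_mono hp0 hp1 (G := fun _ => kap3 r (δ * s) KK m q) ?_)
        (Ex_const p _).le
      intro ω
      by_cases hgi : Good E K s δ KK e0 i ω
      · have h1 := Good_round hK he0 hnum hiT hp hp2 hgi
        simpa [hgi] using h1
      · have h0 : Pr p (fun ω' : V × Fin T × Fin (m + 1) → Bool =>
          Good E K s δ KK e0 i ω ∧ ¬ GoodS E K s δ KK e0 i hiT ω ω') = 0 := by
          unfold Pr
          refine Eq.trans ?_ (Ex_const (B := V × Fin T × Fin (m + 1)) p 0)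
          congr 1
          funext ω'
          simp [hgi]
        rw [h0]
        exact hkap3
    have hcast : ((i + 1 : ℕ) : ℝ) * kap3 r (δ * s) KK m q
        = i * kap3 r (δ * s) KK m q + kap3 r (δ * s) KK m q := by
      push_cast; ring
    rw [hcast]
    linarith

end Pool.H18.TC
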