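import Pool.Agent.H18.TC.Gbas

/-! G2: switching off vertices costs a linear fraction -/

open Finset
open Classical

namespace Pool.H18.TC

variable {r : ℕ} {V : Type*} [Fintype V] {T m : ℕ}
variable {E : Finset (Fin r → V)} {K : (Fin r → V) → (Fin r → V) → ℝ} {s : ℝ} {χ : V → Fin r}
  {δ : ℝ} {e0 : Fin r → V}

theorem Gpi_psi_mono {x y : ℝ} (h : x ≤ y) : psi x ≤ psi y := by
  unfold psi
  exact min_le_min le_rfl (by linarith)

theorem Gpi_psi_nonneg {x : ℝ} (h : 0 ≤ x) : 0 ≤ psi x := by
  unfold psi
  exact le_min zero_le_one (by linarith)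

theorem Gpi_psi_scale {t y Y : ℝ} (ht : 0 ≤ t) (hY : 0 ≤ Y) (hy : 0 ≤ y) (h : (1 - t) * y ≤ Y) :
    (1 - t) * psi y ≤ psi Y := by
  by_cases h1 : t ≤ 1
  · have hp : psi y ≤ 1 := min_le_left _ _
    have hp2 : psi y ≤ 2 * y := min_le_right _ _
    have hp0 : 0 ≤ psi y := Gpi_psi_nonneg hy
    have ht1 : 0 ≤ 1 - t := by linarith
    have e1 : (1 - t) * psi y ≤ 1 := by nlinarith
    have e2 : (1 - t) * psi y ≤ 2 * Y := by
      have : (1 - t) * psi y ≤ (1 - t) * (2 * y) := mul_le_mul_of_nonneg_left hp2 ht1
      linarith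
    exact le_min e1 e2
  · have hp0 : 0 ≤ psi y := Gpi_psi_nonneg hy
    have hP0 : 0 ≤ psi Y := Gpi_psi_nonneg hY
    push Not at h1
    have : (1 - t) * psi y ≤ 0 := mul_nonpos_of_nonpos_of_nonneg (by linarith) hp0
    linarith

omit [Fintype V] in
theorem Gpi_off_comm (X Y : Finset V) (ω : V × Fin T × Fin (m + 1) → Bool) :
    off X (off Y ω) = off Y (off X ω) := by
  funext b
  unfold off
  by_cases h1 : b.1 ∈ X <;> by_cases h2 : b.1 ∈ Y <;> simp [h1, h2]

omit [Fintype V] in
theorem Gpi_fire_off (i : ℕ) (hi : i < T) (X : Finset V) (ω : V × Fin T × Fin (m + 1) → Bool)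
    (a : Fin (m + 1)) (e : Fin r → V) (hf : Fire (bitOf i hi) ω a e) (hX : ∀ k, e k ∉ X) :
    Fire (bitOf i hi) (off X ω) a e := by
  intro k
  have h := hf k
  unfold off bitOf at *
  simp only [hX k, if_false]
  exact h

theorem G_off (hK : IsKer E K s χ) (hδ : 0 < δ) (i : ℕ) (hi : i ≤ T)
    (ω : V × Fin T × Fin (m + 1) → Bool) (f : Fin r → V) :
    ∃ π : V → ℝ, (∀ v, 0 ≤ π v) ∧ (∑ v, π v ≤ r * i) ∧
      ∀ X : Finset V, (1 - ∑ v ∈ X, π v) * G E K s δ e0 i ω f ≤ G E K s δ e0 i (off X ω) f := by
  induction i generalizing ω f with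
  | zero =>
    refine ⟨fun _ => 0, fun _ => le_refl _, by simp, fun X => ?_⟩
    simp [G]
  | succ i ih =>
    have hiT : i < T := hi
    have ih' := fun ω f => ih (Nat.le_of_lt hiT) ω f
    by_cases hdj : Dj f e0
    swap
    · refine ⟨fun _ => 0, fun _ => le_refl _, by simp; positivity, fun X => ?_⟩
      rw [G_succ i hiT, G_succ i hiT]
      unfold Gs gnew
      simp [hdj]
    -- the argmax
    set ι : Fin (m + 1) → V → V × Fin T × Fin (m + 1) := bitOf i hiT with hι
    set gf : (V × Fin T × Fin (m + 1) → Bool) → (Fin r → V) → (Fin r → V) → ℝ :=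
      fun ω f' e => G E K s δ e0 i (off (verts f') ω) e with hgf
    have hG : ∀ ω, G E K s δ e0 (i + 1) ω f
        = univ.sup' univ_nonempty (fun a => psi (YY E K δ (gf ω) ι ω a f)) := by
      intro ω
      rw [G_succ i hiT]
      unfold Gs gnew
      rw [if_pos hdj]
    have hterm : ∀ ω (_a : Fin (m + 1)) e, 0 ≤ (1 / δ) ^ r * (gf ω f e * K e f) := by
      intro ω a e
      have h1 : 0 ≤ gf ω f e := G_nonneg hK hδ i _ e
      have h2 := hK.nonneg e f
      positivity
    have hYY0 : ∀ ω a, 0 ≤ YY E K δ (gf ω) ι ω a f := by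
      intro ω a
      unfold YY
      exact Finset.sum_nonneg fun e _ => hterm ω a e
    obtain ⟨a, -, ha⟩ := Finset.exists_mem_eq_sup' (univ_nonempty (α := Fin (m + 1)))
      (fun a => psi (YY E K δ (gf ω) ι ω a f))
    have hGω : G E K s δ e0 (i + 1) ω f = psi (YY E K δ (gf ω) ι ω a f) := by
      rw [hG ω, ha]
    have hGX : ∀ X, psi (YY E K δ (gf (off X ω)) ι (off X ω) a f)
        ≤ G E K s δ e0 (i + 1) (off X ω) f := by
      intro X
      rw [hG (off X ω)]
      exact Finset.le_sup' (fun a => psi (YY E K δ (gf (off X ω)) ι (off X ω) a f)) (mem_univ a)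
    set Y : ℝ := YY E K δ (gf ω) ι ω a f with hY
    rcases eq_or_lt_of_le (hYY0 ω a) with h0 | hpos
    · refine ⟨fun _ => 0, fun _ => le_refl _, by simp; positivity, fun X => ?_⟩
      refine le_trans ?_ (hGX X)
      rw [hGω]
      have hz : psi Y = 0 := by
        rw [hY, ← h0]; unfold psi; simp
      rw [hz, mul_zero]
      exact Gpi_psi_nonneg (hYY0 _ _)
    · -- main case
      choose π hπ0 hπs hπX using fun e => ih' (off (verts f) ω) e
      set F : Finset (Fin r → V) := E.filter (fun e => Dj e f ∧ Fire ι ω a e) with hF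
      set c : (Fin r → V) → ℝ := fun e => (1 / δ) ^ r * (gf ω f e * K e f) with hc
      have hc0 : ∀ e, 0 ≤ c e := fun e => hterm ω a e
      have hYc : Y = ∑ e ∈ F, c e := rfl
      have hYpos : 0 < Y := hpos
      refine ⟨fun v => ∑ e ∈ F, c e / Y * ((if v ∈ verts e then 1 else 0) + π e v), ?_, ?_, ?_⟩
      · intro v
        refine Finset.sum_nonneg fun e _ => ?_
        have h1 := hc0 e
        have h2 := hπ0 e v
        have h3 : (0 : ℝ) ≤ (if v ∈ verts e then (1 : ℝ) else 0) := by split_ifs <;> norm_num
        positivity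
      · rw [Finset.sum_comm]
        have hb : ∀ e ∈ F, ∑ v, c e / Y * ((if v ∈ verts e then (1 : ℝ) else 0) + π e v)
            ≤ c e / Y * (r * (i + 1)) := by
          intro e _
          rw [← Finset.mul_sum]
          refine mul_le_mul_of_nonneg_left ?_ (div_nonneg (hc0 e) hYpos.le)
          rw [Finset.sum_add_distrib]
          have h1 : ∑ v, (if v ∈ verts e then (1 : ℝ) else 0) ≤ r := by
            rw [Finset.sum_ite_mem, Finset.univ_inter, Finset.sum_const, nsmul_eq_mul, mul_one]
            have : (verts e).card ≤ r := by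
              unfold verts
              exact Finset.card_image_le.trans (by simp)
            exact_mod_cast this
          have h2 := hπs e
          have : (r : ℝ) * (i + 1) = r + r * i := by ring
          rw [this]
          exact add_le_add h1 h2
        refine le_trans (Finset.sum_le_sum hb) ?_
        rw [← Finset.sum_mul, ← Finset.sum_div, ← hYc, div_self hYpos.ne', one_mul]
        push_cast
        exact le_refl _
      · intro X
        refine le_trans ?_ (hGX X)
        rw [hGω]
        have htn : 0 ≤ ∑ v ∈ X, ∑ e ∈ F, c e / Y * ((if v ∈ verts e then (1 : ℝ) else 0) + π e v) := by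
          refine Finset.sum_nonneg fun v _ => Finset.sum_nonneg fun e _ => ?_
          have h1 := hc0 e
          have h2 := hπ0 e v
          have h3 : (0 : ℝ) ≤ (if v ∈ verts e then (1 : ℝ) else 0) := by split_ifs <;> norm_num
          positivity
        refine Gpi_psi_scale htn (hYY0 _ _) hYpos.le ?_
        -- the linear estimate
        have hlin : (1 - ∑ v ∈ X, ∑ e ∈ F, c e / Y * ((if v ∈ verts e then (1 : ℝ) else 0) + π e v)) * Y
            = ∑ e ∈ F, (1 - ∑ v ∈ X, ((if v ∈ verts e then (1 : ℝ) else 0) + π e v)) * c e := by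
          have e1 : (∑ v ∈ X, ∑ e ∈ F, c e / Y * ((if v ∈ verts e then (1 : ℝ) else 0) + π e v)) * Y
              = ∑ e ∈ F, (∑ v ∈ X, ((if v ∈ verts e then (1 : ℝ) else 0) + π e v)) * c e := by
            rw [Finset.sum_comm, Finset.sum_mul]
            refine Finset.sum_congr rfl fun e _ => ?_
            rw [← Finset.mul_sum]
            field_simp
          rw [sub_mul, e1, one_mul, hYc, ← Finset.sum_sub_distrib]
          refine Finset.sum_congr rfl fun e _ => ?_
          ring
        rw [hlin]
        -- compare with the sum for `off X ω`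
        have hcmp : ∀ e ∈ F, (1 - ∑ v ∈ X, ((if v ∈ verts e then (1 : ℝ) else 0) + π e v)) * c e
            ≤ if Fire ι (off X ω) a e then (1 / δ) ^ r * (gf (off X ω) f e * K e f) else 0 := by
          intro e he
          by_cases hmeet : ∀ k, e k ∉ X
          · have hfire : Fire ι (off X ω) a e :=
              Gpi_fire_off i hiT X ω a e (Finset.mem_filter.1 he).2.2 hmeet
            rw [if_pos hfire]
            have hz : ∑ v ∈ X, ((if v ∈ verts e then (1 : ℝ) else 0) + π e v) = ∑ v ∈ X, π e v := by
              refine Finset.sum_congr rfl fun v hv => ?_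
              have : v ∉ verts e := by
                intro hv'
                unfold verts at hv'
                rw [Finset.mem_image] at hv'
                obtain ⟨k, -, hk⟩ := hv'
                exact hmeet k (hk ▸ hv)
              simp [this]
            rw [hz]
            have h1 := hπX e X
            have h2 : gf (off X ω) f e = G E K s δ e0 i (off X (off (verts f) ω)) e := by
              simp only [hgf]
              rw [Gpi_off_comm]
            rw [h2, hc]
            simp only
            have h3 := hK.nonneg e f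
            have h4 : 0 ≤ (1 / δ) ^ r := by positivity
            calc (1 - ∑ v ∈ X, π e v) * ((1 / δ) ^ r * (gf ω f e * K e f))
                = (1 / δ) ^ r * (((1 - ∑ v ∈ X, π e v) * gf ω f e) * K e f) := by ring
              _ ≤ (1 / δ) ^ r * (G E K s δ e0 i (off X (off (verts f) ω)) e * K e f) := by
                  refine mul_le_mul_of_nonneg_left ?_ h4
                  exact mul_le_mul_of_nonneg_right h1 h3
          · push Not at hmeet
            obtain ⟨k, hk⟩ := hmeet
            have h1 : (1 : ℝ) ≤ ∑ v ∈ X, ((if v ∈ verts e then (1 : ℝ) else 0) + π e v) := by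
              have h2 : (if e k ∈ verts e then (1 : ℝ) else 0) + π e (e k)
                  ≤ ∑ v ∈ X, ((if v ∈ verts e then (1 : ℝ) else 0) + π e v) := by
                refine Finset.single_le_sum
                  (f := fun v => (if v ∈ verts e then (1 : ℝ) else 0) + π e v) (fun v _ => ?_) hk
                have h2 := hπ0 e v
                have h3 : (0 : ℝ) ≤ (if v ∈ verts e then (1 : ℝ) else 0) := by split_ifs <;> norm_num
                show (0 : ℝ) ≤ _ + _
                linarith
              have h3 : e k ∈ verts e := by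
                unfold verts
                exact Finset.mem_image_of_mem _ (mem_univ k)
              rw [if_pos h3] at h2
              have h4 := hπ0 e (e k)
              linarith
            have h5 : (1 - ∑ v ∈ X, ((if v ∈ verts e then (1 : ℝ) else 0) + π e v)) * c e ≤ 0 :=
              mul_nonpos_of_nonpos_of_nonneg (by linarith) (hc0 e)
            refine le_trans h5 ?_
            split_ifs
            · exact hterm (off X ω) a e
            · exact le_refl _
        refine le_trans (Finset.sum_le_sum hcmp) ?_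
        rw [← Finset.sum_filter]
        unfold YY
        refine Finset.sum_le_sum_of_subset_of_nonneg ?_ (fun e _ _ => hterm (off X ω) a e)
        intro e he
        rw [Finset.mem_filter] at he
        rw [Finset.mem_filter]
        have h1 := Finset.mem_filter.1 he.1
        exact ⟨h1.1, h1.2.1, he.2⟩

omit [Fintype V] in
theorem Gpi_line (hK : IsKer E K s χ) {e : Fin r → V} (he : e ∈ E) (v : V) :
    ∑ f ∈ E, (if v ∈ verts f then K e f else 0) ≤ 1 / s := by
  have h := hK.rowT e he {χ v} (fun _ => v)
  rw [Finset.card_singleton, pow_one] at h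
  refine le_trans ?_ h
  rw [← Finset.sum_filter]
  unfold star
  refine Finset.sum_le_sum_of_subset_of_nonneg ?_ (fun f _ _ => hK.nonneg e f)
  intro f hf
  rw [Finset.mem_filter] at hf ⊢
  refine ⟨hf.1, ?_⟩
  intro k hk
  rw [Finset.mem_singleton] at hk
  have hv := hf.2
  unfold verts at hv
  rw [Finset.mem_image] at hv
  obtain ⟨l, -, hl⟩ := hv
  have hχ := hK.part f hf.1 l
  rw [hl] at hχ
  rw [hk, hχ, hl]

theorem Loss_le (hK : IsKer E K s χ) (hδ : 0 < δ) (i : ℕ) (hi : i ≤ T)
    (ω : V × Fin T × Fin (m + 1) → Bool) :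
    Loss E K s δ e0 i ω ≤ r * i / s * MM E K s δ e0 i ω := by
  have hs : 0 < s := lt_of_lt_of_le one_pos hK.one_le
  choose π hπ0 hπs hπX using fun e => G_off (e0 := e0) hK hδ i hi ω e
  unfold Loss MM mass
  rw [Finset.mul_sum]
  refine Finset.sum_le_sum fun e he => ?_
  have hGe := G_nonneg (e0 := e0) hK hδ i ω e
  calc ∑ f ∈ E, (G E K s δ e0 i ω e - G E K s δ e0 i (off (verts f) ω) e) * K e f
      ≤ ∑ f ∈ E, ∑ v, G E K s δ e0 i ω e * (π e v * (if v ∈ verts f then K e f else 0)) := by
        refine Finset.sum_le_sum fun f _ => ?_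
        have h1 := hπX e (verts f)
        have h2 : (G E K s δ e0 i ω e - G E K s δ e0 i (off (verts f) ω) e)
            ≤ G E K s δ e0 i ω e * ∑ v ∈ verts f, π e v := by linarith
        have h3 : ∑ v, G E K s δ e0 i ω e * (π e v * (if v ∈ verts f then K e f else 0))
            = (G E K s δ e0 i ω e * ∑ v ∈ verts f, π e v) * K e f := by
          rw [← Finset.mul_sum, mul_assoc]
          congr 1
          rw [Finset.sum_mul]
          simp only [mul_ite, mul_zero]
          rw [Finset.sum_ite_mem, Finset.univ_inter]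
        rw [h3]
        exact mul_le_mul_of_nonneg_right h2 (hK.nonneg e f)
    _ = G E K s δ e0 i ω e * ∑ v, π e v * ∑ f ∈ E, (if v ∈ verts f then K e f else 0) := by
        rw [Finset.sum_comm, Finset.mul_sum]
        refine Finset.sum_congr rfl fun v _ => ?_
        rw [Finset.mul_sum, Finset.mul_sum]
    _ ≤ G E K s δ e0 i ω e * ∑ v, π e v * (1 / s) := by
        refine mul_le_mul_of_nonneg_left ?_ hGe
        refine Finset.sum_le_sum fun v _ => ?_
        exact mul_le_mul_of_nonneg_left (Gpi_line hK he v) (hπ0 e v)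
    _ ≤ G E K s δ e0 i ω e * ((r * i) * (1 / s)) := by
        refine mul_le_mul_of_nonneg_left ?_ hGe
        rw [← Finset.sum_mul]
        exact mul_le_mul_of_nonneg_right (hπs e) (by positivity)
    _ = r * i / s * G E K s δ e0 i ω e := by ring

end Pool.H18.TC
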