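import Pool.Agent.H18.TC.Defs

/-! L: the potential -/

open Finset
open Classical

namespace Pool.H18.TC

theorem LamL_maxle {N M : ℝ} (hN : 1 ≤ N) (h : M ≤ N) : max M 1 ≤ N := max_le h hN

theorem LamL_logN {N : ℝ} (hN : 1 ≤ N) : 0 ≤ Real.log N := Real.log_nonneg hN

theorem LamL_log_div_nonneg {N M : ℝ} (hN : 1 ≤ N) (h : M ≤ N) :
    0 ≤ Real.log (N / max M 1) := by
  apply Real.log_nonneg
  have h1 : (0:ℝ) < max M 1 := lt_of_lt_of_le one_pos (le_max_right _ _)
  rw [le_div_iff₀ h1]
  linarith [LamL_maxle hN h]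

theorem LamL_log_div_le {N M : ℝ} (hN : 1 ≤ N) (h : M ≤ N) :
    Real.log (N / max M 1) ≤ Real.log N := by
  have h1 : (1:ℝ) ≤ max M 1 := le_max_right _ _
  apply Real.log_le_log
  · positivity
  · exact div_le_self (by linarith) h1

theorem LamL_log_div_anti {N M M' : ℝ} (hN : 1 ≤ N) (h : M ≤ M') :
    Real.log (N / max M' 1) ≤ Real.log (N / max M 1) := by
  have h1 : (1:ℝ) ≤ max M 1 := le_max_right _ _
  have h2 : (1:ℝ) ≤ max M' 1 := le_max_right _ _
  have h3 : max M 1 ≤ max M' 1 := max_le_max h le_rfl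
  apply Real.log_le_log
  · positivity
  · exact div_le_div_of_nonneg_left (by linarith) (by linarith) h3

theorem Lam_nonneg {N M : ℝ} (hN : 1 ≤ N) (h0 : 0 ≤ M) (h1 : M ≤ N) : 0 ≤ Lam N M := by
  unfold Lam
  have a := LamL_log_div_nonneg hN h1
  have b := LamL_logN hN
  have c : min M 1 ≤ 1 := min_le_right _ _
  apply add_nonneg
  · apply Real.log_nonneg; linarith
  · apply div_nonneg <;> linarith

theorem Lam_le {N M : ℝ} (hN : 1 ≤ N) (h0 : 0 ≤ M) (h1 : M ≤ N) : Lam N M ≤ Lmax N := by
  unfold Lam Lmax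
  have a := LamL_log_div_nonneg hN h1
  have a' := LamL_log_div_le hN h1
  have b := LamL_logN hN
  have c : 0 ≤ min M 1 := le_min h0 zero_le_one
  apply add_le_add
  · apply Real.log_le_log <;> linarith
  · rw [div_le_iff₀ (by linarith)]
    linarith

theorem Lmax_pos {N : ℝ} (hN : 1 ≤ N) : 0 < Lmax N := by
  unfold Lmax
  have b := LamL_logN hN
  have : 0 ≤ Real.log (1 + Real.log N) := Real.log_nonneg (by linarith)
  linarith

theorem Lam_anti {N M M' : ℝ} (hN : 1 ≤ N) (h0 : 0 ≤ M) (h1 : M ≤ M') (h2 : M' ≤ N) :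
    Lam N M' ≤ Lam N M := by
  unfold Lam
  have a := LamL_log_div_nonneg hN h2
  have a' := LamL_log_div_anti hN h1
  have b := LamL_logN hN
  have c : min M 1 ≤ min M' 1 := min_le_min h1 le_rfl
  apply add_le_add
  · apply Real.log_le_log <;> linarith
  · apply div_le_div_of_nonneg_right _ (by linarith)
    linarith

theorem ww_pos {N M : ℝ} (hN : 1 ≤ N) (h2 : M ≤ N) : 0 < ww N M := by
  unfold ww
  have a := LamL_log_div_nonneg hN h2
  have h1 : (1:ℝ) ≤ max M 1 := le_max_right _ _
  positivity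

theorem LamL_mono {N t t' : ℝ} (ht : 0 < t) (h : t ≤ t') (h2 : t' ≤ N) :
    t * (1 + Real.log (N / t)) ≤ t' * (1 + Real.log (N / t')) := by
  have ht' : 0 < t' := lt_of_lt_of_le ht h
  have hN : 0 < N := lt_of_lt_of_le ht' h2
  have e1 : Real.log (N / t) = Real.log (N / t') + Real.log (t' / t) := by
    rw [← Real.log_mul (by positivity) (by positivity)]
    congr 1
    field_simp
  have e2 : 0 ≤ Real.log (N / t') := Real.log_nonneg (by rw [le_div_iff₀ ht']; linarith)
  have e3 : Real.log (t' / t) ≤ t' / t - 1 := Real.log_le_sub_one_of_pos (by positivity)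
  have e4 : t * Real.log (t' / t) ≤ t' - t := by
    calc t * Real.log (t' / t) ≤ t * (t' / t - 1) := mul_le_mul_of_nonneg_left e3 ht.le
      _ = t' - t := by field_simp
  rw [e1]
  nlinarith [mul_nonneg (sub_nonneg.2 h) e2]

theorem ww_anti {N M M' : ℝ} (hN : 1 ≤ N) (h1 : M ≤ M') (h2 : M' ≤ N) :
    ww N M' ≤ ww N M := by
  unfold ww
  have a := LamL_log_div_nonneg hN (le_trans h1 h2)
  have a1 : (1:ℝ) ≤ max M 1 := le_max_right _ _
  have a3 : max M 1 ≤ max M' 1 := max_le_max h1 le_rfl
  apply one_div_le_one_div_of_le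
  · positivity
  · have := LamL_mono (N := N) (by linarith) a3 (LamL_maxle hN h2)
    linarith

/-- the case where both masses are at least one -/
theorem LamL_case1 {N M M' : ℝ} (h0 : 1 ≤ M') (h1 : M' ≤ M) (h2 : M ≤ N) :
    1 / (2 * (M * (1 + Real.log (N / M)))) * (M - M')
      ≤ Real.log (1 + Real.log (N / M')) - Real.log (1 + Real.log (N / M)) := by
  have hM' : 0 < M' := by linarith
  have hM : 0 < M := by linarith
  have hN : 0 < N := by linarith
  have hJ0 : 0 ≤ Real.log (N / M) := Real.log_nonneg (by rw [le_div_iff₀ hM]; linarith)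
  have e1 : Real.log (N / M') = Real.log (N / M) + Real.log (M / M') := by
    rw [← Real.log_mul (by positivity) (by positivity)]
    congr 1
    field_simp
  have hw : 0 ≤ Real.log (M / M') := Real.log_nonneg (by rw [le_div_iff₀ hM']; linarith)
  set J := 1 + Real.log (N / M) with hJ
  have hJ1 : 1 ≤ J := by linarith
  set w := Real.log (M / M') with hwdef
  have e2 : 1 + Real.log (N / M') = J + w := by rw [e1]; ring
  rw [e2, ← Real.log_div (by positivity) (by positivity)]
  -- lower bound of the logarithm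
  have e3 : 1 - ((J + w) / J)⁻¹ ≤ Real.log ((J + w) / J) :=
    Real.one_sub_inv_le_log_of_pos (by positivity)
  have e4 : 1 - ((J + w) / J)⁻¹ = w / (J + w) := by
    rw [inv_div]; field_simp; ring
  -- u = 1 - M'/M
  set u := (M - M') / M with hu
  have hu0 : 0 ≤ u := div_nonneg (by linarith) hM.le
  have hu1 : u ≤ 1 := by rw [hu, div_le_one hM]; linarith
  have huw : u ≤ w := by
    have : 1 - (M / M')⁻¹ ≤ Real.log (M / M') := Real.one_sub_inv_le_log_of_pos (by positivity)
    have e : 1 - (M / M')⁻¹ = u := by rw [hu, inv_div]; field_simp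
    linarith
  have e5 : 1 / (2 * (M * J)) * (M - M') = u / (2 * J) := by
    rw [hu]; field_simp
  rw [e5]
  refine le_trans ?_ (e4 ▸ e3)
  rw [div_le_div_iff₀ (by positivity) (by positivity)]
  nlinarith [mul_le_mul_of_nonneg_left huw (by linarith : (0:ℝ) ≤ J), mul_le_mul_of_nonneg_left hu1 hw,
    mul_le_mul_of_nonneg_left hJ1 hw]

theorem ww_mul_le {N M M' : ℝ} (hN : 1 ≤ N) (h0 : 0 ≤ M') (h1 : M' ≤ M) (h2 : M ≤ N) :
    ww N M * (M - M') ≤ Lam N M' - Lam N M := by
  have hL := LamL_logN hN
  -- both at most one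
  have caseA : ∀ {a b : ℝ}, a ≤ b → b ≤ 1 → ww N b * (b - a) ≤ Lam N a - Lam N b := by
    intro a b hab hb
    unfold ww Lam
    rw [max_eq_right hb, max_eq_right (hab.trans hb), min_eq_left hb, min_eq_left (hab.trans hb)]
    have hJ : (0:ℝ) < 1 + Real.log N := by linarith
    simp only [div_one]
    apply le_of_eq
    field_simp
    ring
  have caseB : ∀ {a b : ℝ}, 1 ≤ a → a ≤ b → b ≤ N → ww N b * (b - a) ≤ Lam N a - Lam N b := by
    intro a b ha hab hb
    unfold ww Lam
    rw [max_eq_left ha, max_eq_left (ha.trans hab), min_eq_right ha, min_eq_right (ha.trans hab)]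
    have := LamL_case1 ha hab hb
    simp only [sub_self, zero_div, add_zero]
    exact this
  rcases le_total M 1 with hM | hM
  · exact caseA h1 hM
  · rcases le_total M' 1 with hM' | hM'
    · have a := caseA hM' le_rfl
      have b := caseB le_rfl hM h2
      have c := ww_anti hN hM h2
      nlinarith [mul_le_mul_of_nonneg_right c (sub_nonneg.2 hM')]
    · exact caseB hM' h1 h2

theorem LamL_log_one_add {x : ℝ} (hx : -(1 / 2) ≤ x) : x - x ^ 2 ≤ Real.log (1 + x) := by
  rcases le_total 0 x with h | h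
  · have e : 1 - (1 + x)⁻¹ ≤ Real.log (1 + x) := Real.one_sub_inv_le_log_of_pos (by linarith)
    have e2 : 1 - (1 + x)⁻¹ = x / (1 + x) := by field_simp; ring
    refine le_trans ?_ (e2 ▸ e)
    rw [le_div_iff₀ (by linarith)]
    nlinarith [pow_nonneg h 3]
  · have hanti : AntitoneOn (fun y : ℝ => Real.log (1 + y) - (y - y ^ 2)) (Set.Icc (-(1/2)) 0) := by
      have hd : ∀ y : ℝ, -(1/2) ≤ y → HasDerivAt (fun y : ℝ => Real.log (1 + y) - (y - y ^ 2))
          (1 / (1 + y) - (1 - 2 * y)) y := by
        intro y hy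
        have h1 : HasDerivAt (fun y : ℝ => 1 + y) 1 y := by
          simpa using (hasDerivAt_id y).const_add 1
        have h2 := h1.log ((by linarith : (0:ℝ) < 1 + y).ne')
        have h3 : HasDerivAt (fun y : ℝ => y - y ^ 2) (1 - 2 * y) y := by
          have := HasDerivAt.fun_sub (hasDerivAt_id' y) (hasDerivAt_pow 2 y)
          simpa using this
        exact HasDerivAt.fun_sub h2 h3
      apply antitoneOn_of_deriv_nonpos (convex_Icc _ _)
      · intro y hy
        exact (hd y hy.1).continuousAt.continuousWithinAt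
      · intro y hy
        rw [interior_Icc] at hy
        exact (hd y hy.1.le).differentiableAt.differentiableWithinAt
      · intro y hy
        rw [interior_Icc] at hy
        rw [(hd y hy.1.le).deriv]
        have hp : (0:ℝ) < 1 + y := by linarith [hy.1]
        have : 1 / (1 + y) - (1 - 2 * y) = y * (1 + 2 * y) / (1 + y) := by field_simp; ring
        rw [this]
        apply div_nonpos_of_nonpos_of_nonneg _ hp.le
        nlinarith [hy.1, hy.2, mul_nonneg (by linarith [hy.2] : (0:ℝ) ≤ -y) (by linarith [hy.1] : (0:ℝ) ≤ 1 + 2 * y)]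
    have := hanti (Set.mem_Icc.2 ⟨hx, h⟩) (Set.mem_Icc.2 ⟨by norm_num, le_rfl⟩) h
    simp at this
    linarith

/-- change of the potential when the mass is multiplied by at least `1 + x` -/
theorem Lam_step {N M M' x : ℝ} (hN : 1 ≤ N) (hM : 2 ≤ M) (hMN : M ≤ N) (hM' : M / 2 ≤ M')
    (hM'N : M' ≤ N) (hx : -(1 / 2) ≤ x) (hx1 : x ≤ 1 / 8) (h : (1 + x) * M ≤ M') :
    Lam N M' ≤ Lam N M - (1 / (1 + Real.log (N / M))) * (x - x ^ 2) := by
  have hM1 : 1 ≤ M := by linarith
  have hM'1 : 1 ≤ M' := by linarith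
  unfold Lam
  rw [max_eq_left hM1, max_eq_left hM'1, min_eq_right hM1, min_eq_right hM'1]
  simp only [sub_self, zero_div, add_zero]
  have hMp : 0 < M := by linarith
  have hM'p : 0 < M' := by linarith
  have hNp : 0 < N := by linarith
  have hJ0 : 0 ≤ Real.log (N / M) := Real.log_nonneg (by rw [le_div_iff₀ hMp]; linarith)
  have hJ0' : 0 ≤ Real.log (N / M') := Real.log_nonneg (by rw [le_div_iff₀ hM'p]; linarith)
  have e1 : Real.log (N / M') = Real.log (N / M) - Real.log (M' / M) := by
    rw [← Real.log_div (by positivity) (by positivity)]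
    congr 1
    field_simp
  have hw : x - x ^ 2 ≤ Real.log (M' / M) := by
    refine (LamL_log_one_add hx).trans ?_
    apply Real.log_le_log (by linarith)
    rw [le_div_iff₀ hMp]; exact h
  set J := 1 + Real.log (N / M) with hJ
  have hJ1 : 1 ≤ J := by linarith
  set w := Real.log (M' / M) with hwdef
  have e2 : 1 + Real.log (N / M') = J - w := by rw [e1]; ring
  have hpos : 0 < J - w := by rw [← e2]; linarith
  rw [e2]
  have e3 : Real.log (J - w) = Real.log J + Real.log ((J - w) / J) := by
    rw [← Real.log_mul (by positivity) (by positivity)]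
    congr 1
    field_simp
  have e4 : Real.log ((J - w) / J) ≤ (J - w) / J - 1 := Real.log_le_sub_one_of_pos (by positivity)
  have e5 : (J - w) / J - 1 = - (1 / J * w) := by field_simp; ring
  have e6 : 1 / J * (x - x ^ 2) ≤ 1 / J * w := mul_le_mul_of_nonneg_left hw (by positivity)
  rw [e3]
  linarith

end Pool.H18.TC
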