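import Pool.Agent.H18.TC.LbHyp

/-! Lower bound, part 3: asymptotic form -/

open Finset
open Classical

namespace Pool.H18.TC

/-- transport along an injection -/
theorem lba_transport {V W : Type*} (r : ℕ) (hr : 1 ≤ r) (f : V → W)
    (hf : Function.Injective f) (H : Finset (Finset V)) (hT : ¬ HasTC r H) :
    ¬ HasTC r (H.image (fun e => e.image f)) := by
  rintro ⟨ℓ, hℓ, v, hv, hw⟩
  apply hT
  have hex : ∀ i : ZMod ℓ, ∃ x : V, f x = v i := by
    intro i
    obtain ⟨e, _, he⟩ := Finset.mem_image.1 (hw i)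
    have h0 : v i ∈ univ.image (fun j : Fin r => v (i + (j.val : ZMod ℓ))) := by
      refine Finset.mem_image.2 ⟨⟨0, by omega⟩, Finset.mem_univ _, ?_⟩
      simp
    rw [← he] at h0
    obtain ⟨x, _, hx⟩ := Finset.mem_image.1 h0
    exact ⟨x, hx⟩
  choose v' hv' using hex
  refine ⟨ℓ, hℓ, v', ?_, ?_⟩
  · intro i j hij
    apply hv
    rw [← hv' i, ← hv' j, hij]
  · intro i
    obtain ⟨e, heH, he⟩ := Finset.mem_image.1 (hw i)
    have h1 : (univ.image (fun j : Fin r => v' (i + (j.val : ZMod ℓ)))).image f = e.image f := by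
      rw [he, Finset.image_image]
      exact Finset.image_congr fun j _ => hv' _
    have h2 := Finset.image_injective hf h1
    rw [h2]
    exact heH

/-- `image` does not depend on the decidability instance -/
theorem lba_image_inst {α β : Type*} (d1 d2 : DecidableEq β) (s : Finset α) (f : α → β) :
    @Finset.image α β d1 f s = @Finset.image α β d2 f s := by
  have h : d1 = d2 := Subsingleton.elim _ _
  rw [h]

theorem lba_transport_inst {V W : Type*} (r : ℕ) (hr : 1 ≤ r) (f : V → W)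
    (hf : Function.Injective f) (H : Finset (Finset V)) (hT : ¬ HasTC r H)
    (d1 : DecidableEq W) (d2 : DecidableEq (Finset W)) :
    ¬ HasTC r (@Finset.image _ _ d2 (fun e => @Finset.image _ _ d1 f e) H) := by
  have h := lba_transport r hr f hf H hT
  have e1 : (fun e => @Finset.image V W d1 f e)
      = (fun e => @Finset.image V W (fun a b => propDecidable (a = b)) f e) :=
    funext fun e => lba_image_inst _ _ e f
  rw [e1, lba_image_inst d2 (fun a b => propDecidable (a = b)) H]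
  rw [lba_image_inst (fun a b => propDecidable (a = b)) _ H]
  exact h

theorem lb_asym (r : ℕ) (hr : 3 ≤ r) : ∃ c : ℝ, 0 < c ∧ ∃ N0 : ℕ, ∀ N : ℕ, N0 ≤ N →
    ∃ H : Finset (Finset (Fin N)), (∀ e ∈ H, e.card = r) ∧ ¬ HasTC r H ∧
      c * (N : ℝ) ^ (r - 1) * (Real.log N / Real.log (Real.log N)) ≤ H.card := by
  have hrpos : (0 : ℝ) < r := by exact_mod_cast (by omega : 0 < r)
  have hr3 : (3 : ℝ) ≤ r := by exact_mod_cast hr
  refine ⟨(1 / (2 * r)) ^ (r - 1) / 16, by positivity,
    max (⌈Real.exp 256⌉₊) (16 * r ^ 2), fun N hN => ?_⟩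
  have hN1 : Real.exp 256 ≤ N := (Nat.le_ceil _).trans (by
    exact_mod_cast (le_max_left _ _).trans hN)
  have hN2 : (16 : ℝ) * r ^ 2 ≤ N := by
    exact_mod_cast (le_max_right _ _).trans hN
  have hNpos : (0 : ℝ) < N := (Real.exp_pos _).trans_le hN1
  set L : ℝ := Real.log N with hL
  have hL256 : (256 : ℝ) ≤ L := by
    rw [hL, Real.le_log_iff_exp_le hNpos]; exact hN1
  set LL : ℝ := Real.log L with hLL
  have hLpos : 0 < L := by linarith
  have hLL1 : 1 ≤ LL := by
    rw [hLL, Real.le_log_iff_exp_le hLpos]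
    have := Real.exp_one_lt_d9
    linarith
  -- log x <= 2 sqrt x
  have hlogsqrt : ∀ x : ℝ, 0 < x → Real.log x ≤ 2 * Real.sqrt x := by
    intro x hx
    have h1 : Real.log x = 2 * Real.log (Real.sqrt x) := by
      rw [Real.log_sqrt hx.le]; ring
    rw [h1]
    have := Real.log_le_sub_one_of_pos (Real.sqrt_pos.2 hx)
    linarith
  have hLLs : LL ≤ 2 * Real.sqrt L := hlogsqrt L hLpos
  have hsL : 16 ≤ Real.sqrt L := by
    rw [show (16 : ℝ) = Real.sqrt 256 by
      rw [show (256 : ℝ) = 16 ^ 2 by norm_num, Real.sqrt_sq (by norm_num)]]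
    exact Real.sqrt_le_sqrt hL256
  have hsLsq : Real.sqrt L * Real.sqrt L = L := Real.mul_self_sqrt hLpos.le
  set Y : ℝ := L / (4 * LL) with hY
  have hY2 : 2 ≤ Y := by
    rw [hY, le_div_iff₀ (by linarith)]
    nlinarith
  set t : ℕ := ⌊Y⌋₊ with ht
  have ht2 : 2 ≤ t := Nat.le_floor (by exact_mod_cast hY2)
  have htY : (t : ℝ) ≤ Y := Nat.floor_le (by linarith)
  have htpos : (0 : ℝ) < t := by exact_mod_cast (by omega : 0 < t)
  have hYt : Y / 2 ≤ t := by
    have := Nat.lt_floor_add_one Y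
    rw [← ht] at this
    linarith
  have htL : (t : ℝ) ≤ L := by
    refine htY.trans ?_
    rw [hY, div_le_iff₀ (by linarith)]
    nlinarith
  have hsN : 4 * (r : ℝ) ≤ Real.sqrt N := by
    rw [show (4 * (r : ℝ)) = Real.sqrt (16 * r ^ 2) by
      rw [show (16 : ℝ) * (r : ℝ) ^ 2 = (4 * r) ^ 2 by ring, Real.sqrt_sq (by linarith)]]
    exact Real.sqrt_le_sqrt hN2
  have hsNsq : Real.sqrt N * Real.sqrt N = N := Real.mul_self_sqrt hNpos.le
  have hsNpos : 0 < Real.sqrt N := Real.sqrt_pos.2 hNpos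
  have hN2r : 2 * Real.sqrt N ≤ N / (2 * r) := by
    rw [le_div_iff₀ (by linarith)]
    nlinarith
  have htN : (t : ℝ) ≤ N / (2 * r) := htL.trans ((hlogsqrt N hNpos).trans hN2r)
  set q : ℕ := ⌊(N : ℝ) / (r * t)⌋₊ with hq
  have hq1 : (q : ℝ) ≤ N / (r * t) := Nat.floor_le (by positivity)
  have hq2 : (N : ℝ) / (r * t) < q + 1 := Nat.lt_floor_add_one _
  set n : ℕ := q * t with hn
  have hnN : (r : ℝ) * n ≤ N := by
    rw [hn]; push_cast
    calc (r : ℝ) * (q * t) = q * (r * t) := by ring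
      _ ≤ N / (r * t) * (r * t) := by gcongr
      _ = N := by field_simp
  have hnlow : (N : ℝ) / (2 * r) ≤ n := by
    rw [hn]; push_cast
    have h1 : (N : ℝ) / r < (q + 1) * t := by
      have h2 : (N : ℝ) / (r * t) * t < (q + 1) * t := mul_lt_mul_of_pos_right hq2 htpos
      have h3 : (N : ℝ) / (r * t) * t = N / r := by field_simp
      rwa [h3] at h2
    have h4 : (N : ℝ) / r = N / (2 * r) + N / (2 * r) := by field_simp; ring
    linarith
  have hbig : 2 * t ^ (2 * t) ≤ n := by
    have h1 : ((t : ℝ)) ^ (2 * t) ≤ Real.sqrt N := by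
      have h2 : ((t : ℝ)) ^ (2 * t) ≤ L ^ (2 * t) := pow_le_pow_left₀ htpos.le htL _
      have h3 : L ^ (2 * t) = Real.exp (2 * t * LL) := by
        rw [← Real.rpow_natCast, Real.rpow_def_of_pos hLpos]
        congr 1
        push_cast
        ring
      have h4 : 2 * t * LL ≤ L / 2 := by
        have h5 : (t : ℝ) * (4 * LL) ≤ L := by
          rw [← le_div_iff₀ (by linarith)]
          exact htY
        linarith
      have h6 : Real.exp (L / 2) = Real.sqrt N := by
        rw [Real.exp_half, hL, Real.exp_log hNpos]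
      rw [← h6]
      exact h2.trans (h3.le.trans (Real.exp_le_exp.2 h4))
    have h7 : (2 : ℝ) * (t : ℝ) ^ (2 * t) ≤ n := by linarith
    exact_mod_cast h7
  obtain ⟨H, hH1, hH2, hH3⟩ := lb_hyper r n q t hr ht2 hn hbig
  -- the injection
  have hcard : Fintype.card (Fin r × Fin n) ≤ Fintype.card (Fin N) := by
    rw [Fintype.card_prod, Fintype.card_fin, Fintype.card_fin, Fintype.card_fin]
    exact_mod_cast hnN
  obtain ⟨f⟩ := Function.Embedding.nonempty_of_card_le hcard
  refine ⟨H.image (fun e => e.image f), ?_,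
    lba_transport_inst r (by omega) f f.injective H hH2 _ _, ?_⟩
  · intro e he
    obtain ⟨e', he', rfl⟩ := Finset.mem_image.1 he
    rw [Finset.card_image_of_injective _ f.injective]
    exact hH1 e' he'
  · rw [Finset.card_image_of_injective _ (Finset.image_injective f.injective)]
    have h1 : ((n : ℝ)) ^ (r - 1) * t ≤ 2 * H.card := by exact_mod_cast hH3
    have h2 : ((N : ℝ) / (2 * r)) ^ (r - 1) ≤ (n : ℝ) ^ (r - 1) :=
      pow_le_pow_left₀ (by positivity) hnlow _
    have h3 : L / LL = 4 * Y := by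
      rw [hY]; field_simp
    rw [h3]
    have h4 : (1 / (2 * (r : ℝ))) ^ (r - 1) / 16 * (N : ℝ) ^ (r - 1) * (4 * Y) =
        ((N : ℝ) / (2 * r)) ^ (r - 1) * (Y / 2) / 2 := by
      rw [div_pow, div_pow, one_pow]
      ring
    rw [h4]
    have h5 : ((N : ℝ) / (2 * r)) ^ (r - 1) * (Y / 2) ≤ (n : ℝ) ^ (r - 1) * t :=
      mul_le_mul h2 hYt (by linarith) (by positivity)
    linarith

end Pool.H18.TC
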