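import Mathlib

/-! Lower bound, part 1: colourings of the complete bipartite graph whose colour classes have
few short cycles -/

open Finset
open Classical

namespace Pool.H18.TC

/-- number of functions with prescribed constant value on a set -/
theorem lbcol_card_const {n q : ℕ} (S : Finset (Fin n × Fin n)) (c : Fin q) :
    (univ.filter fun f : Fin n × Fin n → Fin q => ∀ p ∈ S, f p = c).card * q ^ S.card
      = q ^ (n ^ 2) := by
  have h1 : (univ.filter fun f : Fin n × Fin n → Fin q => ∀ p ∈ S, f p = c)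
      = Fintype.piFinset fun p => if p ∈ S then ({c} : Finset (Fin q)) else univ := by
    ext f
    simp only [Finset.mem_filter, Finset.mem_univ, true_and, Fintype.mem_piFinset]
    constructor
    · intro h p
      by_cases hp : p ∈ S
      · simp [hp, h p hp]
      · simp [hp]
    · intro h p hp
      have := h p
      simpa [hp] using this
  rw [h1, Fintype.card_piFinset]
  have h2 : ∀ p : Fin n × Fin n, (if p ∈ S then ({c} : Finset (Fin q)) else univ).card
      = if p ∈ S then 1 else q := by
    intro p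
    by_cases hp : p ∈ S
    · simp [hp]
    · simp [hp]
  rw [Finset.prod_congr rfl fun p _ => h2 p, Finset.prod_ite, Finset.prod_const_one, one_mul,
    Finset.prod_const, ← pow_add]
  congr 1
  have h3 : (univ.filter fun p => p ∉ S) = Sᶜ := by ext p; simp
  rw [h3, Finset.card_compl]
  have h4 : S.card ≤ Fintype.card (Fin n × Fin n) := Finset.card_le_univ S
  rw [Nat.sub_add_cancel h4]
  simp [sq]

/-- `f` is constant on the closed walk `x, y` -/
def lbcolMono {n q m : ℕ} (f : Fin n × Fin n → Fin q) (x y : ZMod m → Fin n) : Prop :=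
  ∃ c : Fin q, ∀ i, f (x i, y i) = c ∧ f (x (i + 1), y i) = c

theorem lbcol_card_mono {n q : ℕ} (m : ℕ) [NeZero m] (hm : 2 ≤ m) (x y : ZMod m → Fin n)
    (hx : Function.Injective x) (hy : Function.Injective y) :
    (univ.filter fun f : Fin n × Fin n → Fin q => lbcolMono f x y).card * q ^ (2 * m)
      ≤ q * q ^ (n ^ 2) := by
  let g : ZMod m × Bool → Fin n × Fin n := fun p => (x (p.1 + if p.2 then 1 else 0), y p.1)
  have hg : Function.Injective g := by
    rintro ⟨i, b⟩ ⟨j, b'⟩ h
    have h1 : y i = y j := congrArg Prod.snd h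
    have h2 : x (i + if b then 1 else 0) = x (j + if b' then 1 else 0) := congrArg Prod.fst h
    have hij := hy h1
    subst hij
    have h3 := add_left_cancel (hx h2)
    have : Fact (1 < m) := ⟨by omega⟩
    cases b <;> cases b' <;> simp_all
  let S : Finset (Fin n × Fin n) := univ.image g
  have hS : S.card = 2 * m := by
    rw [Finset.card_image_of_injective _ hg]
    simp [ZMod.card, mul_comm]
  have hsub : (univ.filter fun f : Fin n × Fin n → Fin q => lbcolMono f x y) ⊆
      (univ : Finset (Fin q)).biUnion fun c =>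
        univ.filter fun f : Fin n × Fin n → Fin q => ∀ p ∈ S, f p = c := by
    intro f hf
    simp only [Finset.mem_filter, Finset.mem_univ, true_and] at hf
    obtain ⟨c, hc⟩ := hf
    simp only [Finset.mem_biUnion, Finset.mem_univ, true_and, Finset.mem_filter]
    refine ⟨c, fun p hp => ?_⟩
    obtain ⟨⟨i, b⟩, -, rfl⟩ := Finset.mem_image.1 hp
    cases b
    · simpa [g] using (hc i).1
    · simpa [g] using (hc i).2
  calc (univ.filter fun f : Fin n × Fin n → Fin q => lbcolMono f x y).card * q ^ (2 * m)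
      ≤ (∑ c : Fin q, (univ.filter fun f : Fin n × Fin n → Fin q => ∀ p ∈ S, f p = c).card)
          * q ^ (2 * m) :=
        Nat.mul_le_mul_right _ ((Finset.card_le_card hsub).trans Finset.card_biUnion_le)
    _ = ∑ c : Fin q, q ^ (n ^ 2) := by
        rw [Finset.sum_mul]
        refine Finset.sum_congr rfl fun c _ => ?_
        rw [← hS]
        exact lbcol_card_const S c
    _ = q * q ^ (n ^ 2) := by simp

/-- the pairs of walks with `m` rounds on which `f` is constant -/
noncomputable def lbcolT {n q : ℕ} (m : ℕ) [NeZero m] (f : Fin n × Fin n → Fin q) :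
    Finset ((ZMod m → Fin n) × (ZMod m → Fin n)) :=
  univ.filter fun xy => Function.Injective xy.1 ∧ Function.Injective xy.2 ∧
    lbcolMono f xy.1 xy.2

theorem lbcol_sum_T {n q t : ℕ} (hn : n = q * t) (hq : 0 < q) (m : ℕ) [NeZero m] (hm : 2 ≤ m) :
    ∑ f : Fin n × Fin n → Fin q, (lbcolT m f).card ≤ t ^ (2 * m) * q * q ^ (n ^ 2) := by
  have hpos : 0 < q ^ (2 * m) := Nat.pow_pos hq
  refine Nat.le_of_mul_le_mul_right ?_ hpos
  have h1 : ∑ f : Fin n × Fin n → Fin q, (lbcolT m f).card
      = ∑ xy : (ZMod m → Fin n) × (ZMod m → Fin n),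
        (univ.filter fun f : Fin n × Fin n → Fin q => Function.Injective xy.1 ∧
          Function.Injective xy.2 ∧ lbcolMono f xy.1 xy.2).card := by
    simp only [lbcolT, Finset.card_filter]
    exact Finset.sum_comm
  rw [h1, Finset.sum_mul]
  calc ∑ xy : (ZMod m → Fin n) × (ZMod m → Fin n),
        (univ.filter fun f : Fin n × Fin n → Fin q => Function.Injective xy.1 ∧
          Function.Injective xy.2 ∧ lbcolMono f xy.1 xy.2).card * q ^ (2 * m)
      ≤ ∑ xy : (ZMod m → Fin n) × (ZMod m → Fin n), q * q ^ (n ^ 2) := by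
        refine Finset.sum_le_sum fun xy _ => ?_
        by_cases h : Function.Injective xy.1 ∧ Function.Injective xy.2
        · have h2 : (univ.filter fun f : Fin n × Fin n → Fin q => Function.Injective xy.1 ∧
              Function.Injective xy.2 ∧ lbcolMono f xy.1 xy.2)
              = univ.filter fun f : Fin n × Fin n → Fin q => lbcolMono f xy.1 xy.2 := by
            ext f; simp [h.1, h.2]
          rw [h2]
          exact lbcol_card_mono m hm xy.1 xy.2 h.1 h.2
        · have h2 : (univ.filter fun f : Fin n × Fin n → Fin q => Function.Injective xy.1 ∧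
              Function.Injective xy.2 ∧ lbcolMono f xy.1 xy.2) = ∅ := by
            ext f
            simp only [Finset.mem_filter, Finset.mem_univ, true_and, Finset.notMem_empty,
              iff_false]
            exact fun h3 => h ⟨h3.1, h3.2.1⟩
          rw [h2]
          simp
    _ = n ^ (2 * m) * (q * q ^ (n ^ 2)) := by
        rw [Finset.sum_const, Finset.card_univ, Fintype.card_prod, Fintype.card_fun, ZMod.card,
          Fintype.card_fin, smul_eq_mul, ← pow_add, two_mul]
    _ = t ^ (2 * m) * q * q ^ (n ^ 2) * q ^ (2 * m) := by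
        have h3 : n ^ (2 * m) = q ^ (2 * m) * t ^ (2 * m) := by rw [hn, mul_pow]
        rw [h3]; ring

/-- the bad pairs -/
noncomputable def lbcolBad {n q : ℕ} (t : ℕ) (f : Fin n × Fin n → Fin q) :
    Finset (Fin n × Fin n) :=
  (Finset.range (t - 1)).biUnion fun k =>
    (lbcolT (k + 2) f).image fun xy => (xy.1 0, xy.2 0)

/-- there are a colouring with `q = n/t` colours and at least `n^2/2` good pairs such that no cycle
with at most `t` rounds (length at most `2t`) through good pairs is monochromatic -/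
theorem lb_colouring (n q t : ℕ) (ht : 2 ≤ t) (hn : n = q * t) (hbig : 2 * t ^ (2 * t) ≤ n) :
    ∃ (φ : Fin n → Fin n → Fin q) (good : Finset (Fin n × Fin n)), n ^ 2 ≤ 2 * good.card ∧
      ∀ (m : ℕ), 2 ≤ m → m ≤ t → ∀ (x y : ZMod m → Fin n), Function.Injective x →
        Function.Injective y → (∀ i, (x i, y i) ∈ good) → (∀ i, (x (i + 1), y i) ∈ good) →
        ∀ c : Fin q, ¬ (∀ i, φ (x i) (y i) = c ∧ φ (x (i + 1)) (y i) = c) := by
  have htp : 0 < t ^ (2 * t) := Nat.pow_pos (by omega)
  have hnp : 0 < n := by omega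
  have hq : 0 < q := by
    rcases Nat.eq_zero_or_pos q with h | h
    · rw [h, zero_mul] at hn; omega
    · exact h
  -- the total number of bad pairs
  have hsum : 2 * ∑ f : Fin n × Fin n → Fin q, (lbcolBad t f).card ≤ n ^ 2 * q ^ (n ^ 2) := by
    have h1 : ∑ f : Fin n × Fin n → Fin q, (lbcolBad t f).card
        ≤ ∑ k ∈ Finset.range (t - 1), t ^ (2 * (k + 2)) * q * q ^ (n ^ 2) := by
      calc ∑ f : Fin n × Fin n → Fin q, (lbcolBad t f).card
          ≤ ∑ f : Fin n × Fin n → Fin q, ∑ k ∈ Finset.range (t - 1), (lbcolT (k + 2) f).card := by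
            refine Finset.sum_le_sum fun f _ => ?_
            refine Finset.card_biUnion_le.trans (Finset.sum_le_sum fun k _ => ?_)
            exact Finset.card_image_le
        _ = ∑ k ∈ Finset.range (t - 1), ∑ f : Fin n × Fin n → Fin q,
              (lbcolT (k + 2) f).card := Finset.sum_comm
        _ ≤ _ := Finset.sum_le_sum fun k _ => lbcol_sum_T hn hq (k + 2) (by omega)
    have h2 : ∑ k ∈ Finset.range (t - 1), t ^ (2 * (k + 2)) * q * q ^ (n ^ 2)
        ≤ t * (t ^ (2 * t) * q * q ^ (n ^ 2)) := by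
      calc ∑ k ∈ Finset.range (t - 1), t ^ (2 * (k + 2)) * q * q ^ (n ^ 2)
          ≤ ∑ k ∈ Finset.range (t - 1), t ^ (2 * t) * q * q ^ (n ^ 2) := by
            refine Finset.sum_le_sum fun k hk => ?_
            rw [Finset.mem_range] at hk
            have : t ^ (2 * (k + 2)) ≤ t ^ (2 * t) :=
              Nat.pow_le_pow_right (by omega) (by omega)
            exact Nat.mul_le_mul_right _ (Nat.mul_le_mul_right _ this)
        _ = (t - 1) * (t ^ (2 * t) * q * q ^ (n ^ 2)) := by
            rw [Finset.sum_const, Finset.card_range, smul_eq_mul]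
        _ ≤ _ := Nat.mul_le_mul_right _ (by omega)
    calc 2 * ∑ f : Fin n × Fin n → Fin q, (lbcolBad t f).card
        ≤ 2 * (t * (t ^ (2 * t) * q * q ^ (n ^ 2))) := Nat.mul_le_mul_left _ (h1.trans h2)
      _ = (2 * t ^ (2 * t)) * (q * t) * q ^ (n ^ 2) := by ring
      _ = (2 * t ^ (2 * t)) * n * q ^ (n ^ 2) := by rw [← hn]
      _ ≤ n * n * q ^ (n ^ 2) := Nat.mul_le_mul_right _ (Nat.mul_le_mul_right _ hbig)
      _ = n ^ 2 * q ^ (n ^ 2) := by ring
  -- one function with few bad pairs
  obtain ⟨f, hf⟩ : ∃ f : Fin n × Fin n → Fin q, 2 * (lbcolBad t f).card ≤ n ^ 2 := by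
    by_contra hcon
    push Not at hcon
    have : Nonempty (Fin n × Fin n → Fin q) := ⟨fun _ => ⟨0, hq⟩⟩
    have h1 : ∑ f : Fin n × Fin n → Fin q, n ^ 2
        < ∑ f : Fin n × Fin n → Fin q, 2 * (lbcolBad t f).card :=
      Finset.sum_lt_sum_of_nonempty Finset.univ_nonempty fun f _ => hcon f
    rw [Finset.sum_const, Finset.card_univ, Fintype.card_fun, Fintype.card_prod,
      Fintype.card_fin, Fintype.card_fin, smul_eq_mul, ← Finset.mul_sum, ← sq] at h1
    have h2 : q ^ n ^ 2 * n ^ 2 = n ^ 2 * q ^ n ^ 2 := mul_comm _ _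
    omega
  refine ⟨fun a b => f (a, b), (lbcolBad t f)ᶜ, ?_, ?_⟩
  · rw [Finset.card_compl, Fintype.card_prod, Fintype.card_fin, ← sq]
    omega
  · intro m hm2 hmt x y hx hy hg1 _ c hc
    have h0 := hg1 0
    rw [Finset.mem_compl] at h0
    apply h0
    obtain ⟨k, rfl⟩ : ∃ k, m = k + 2 := ⟨m - 2, by omega⟩
    refine Finset.mem_biUnion.2 ⟨k, Finset.mem_range.2 (by omega), ?_⟩
    refine Finset.mem_image.2 ⟨(x, y), ?_, rfl⟩
    exact Finset.mem_filter.2 ⟨Finset.mem_univ _, hx, hy, c, hc⟩

end Pool.H18.TC
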