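import Pool.Agent.H18.TC.LbCol

/-! Lower bound, part 2: the hypergraph -/

open Finset
open Classical

namespace Pool.H18.TC

/-- a tight cycle of length `ℓ ≥ r + 1` in the `r`-graph `H` -/
def HasTC {V : Type*} (r : ℕ) (H : Finset (Finset V)) : Prop :=
  ∃ ℓ : ℕ, r + 1 ≤ ℓ ∧ ∃ v : ZMod ℓ → V, Function.Injective v ∧
    ∀ i : ZMod ℓ, univ.image (fun j : Fin r => v (i + (j.val : ZMod ℓ))) ∈ H

section cyc

variable {r n : ℕ}

/-- the edge of a transversal -/
noncomputable def LbHyp_edge (u : Fin r → Fin n) : Finset (Fin r × Fin n) :=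
  univ.image (fun k => (k, u k))

theorem LbHyp_mem_edge (u : Fin r → Fin n) (a : Fin r × Fin n) :
    a ∈ LbHyp_edge u ↔ a.2 = u a.1 := by
  unfold LbHyp_edge
  rw [Finset.mem_image]
  constructor
  · rintro ⟨k, _, rfl⟩
    rfl
  · intro h
    exact ⟨a.1, Finset.mem_univ _, by rw [← h]⟩

theorem LbHyp_edge_inj : Function.Injective (LbHyp_edge (r := r) (n := n)) := by
  intro u u' h
  funext k
  have h1 : (k, u k) ∈ LbHyp_edge u := (LbHyp_mem_edge u _).2 rfl
  rw [h] at h1
  exact (LbHyp_mem_edge u' _).1 h1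

theorem LbHyp_edge_card (u : Fin r → Fin n) : (LbHyp_edge u).card = r := by
  unfold LbHyp_edge
  rw [Finset.card_image_of_injective]
  · simp
  · intro a b h
    exact congrArg Prod.fst h

/-- the structure of a tight cycle in a family of transversals -/
theorem LbHyp_cycle (hr : 1 ≤ r) (P : (Fin r → Fin n) → Prop) (H : Finset (Finset (Fin r × Fin n)))
    (hH : ∀ e ∈ H, ∃ u, P u ∧ e = LbHyp_edge u) (hc : HasTC r H) :
    ∃ (m : ℕ) (w : ℕ → Fin r × Fin n), 2 ≤ m ∧ (∀ i, w (i + r * m) = w i) ∧
      (∀ i j, w i = w j → i % (r * m) = j % (r * m)) ∧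
      (∀ i, (w (i + r)).1 = (w i).1) ∧
      (∀ s k, ∃ j < r, (w (s + j)).1 = k) ∧
      (∀ s, ∃ u, P u ∧ ∀ j < r, (w (s + j)).2 = u (w (s + j)).1) := by
  obtain ⟨L, hL, v, hv, hvH⟩ := hc
  have : NeZero L := ⟨by omega⟩
  have hwin : ∀ s : ℕ, ∃ u, P u ∧ ∀ a : Fin r × Fin n,
      (∃ j : Fin r, v ((s : ZMod L) + (j.val : ZMod L)) = a) ↔ a.2 = u a.1 := by
    intro s
    obtain ⟨u, hu, he⟩ := hH _ (hvH (s : ZMod L))
    refine ⟨u, hu, fun a => ?_⟩
    have h3 := Finset.ext_iff.1 he a
    rw [LbHyp_mem_edge] at h3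
    rw [← h3]
    simp only [Finset.mem_image, Finset.mem_univ, true_and]
  set w : ℕ → Fin r × Fin n := fun i => v (i : ZMod L) with hw
  have hperL : ∀ i, w (i + L) = w i := by
    intro i
    simp [hw]
  have hwinj : ∀ i j, w i = w j → i % L = j % L := by
    intro i j h
    have h1 := hv h
    exact (ZMod.natCast_eq_natCast_iff' i j L).1 h1
  have hval : ∀ s, ∃ u, P u ∧ ∀ j < r, (w (s + j)).2 = u (w (s + j)).1 := by
    intro s
    obtain ⟨u, hu, he⟩ := hwin s
    refine ⟨u, hu, fun j hj => ?_⟩
    exact (he (w (s + j))).1 ⟨⟨j, hj⟩, by simp [hw]⟩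
  have hsurj : ∀ s k, ∃ j < r, (w (s + j)).1 = k := by
    intro s k
    obtain ⟨u, hu, he⟩ := hwin s
    obtain ⟨j, hj⟩ := (he (k, u k)).2 rfl
    refine ⟨j.val, j.isLt, ?_⟩
    have : w (s + j.val) = v ((s : ZMod L) + (j.val : ZMod L)) := by simp [hw]
    rw [this, hj]
  have hinj : ∀ s j j', j < r → j' < r → (w (s + j)).1 = (w (s + j')).1 → j = j' := by
    intro s j j' hj hj' h
    have hs : Function.Surjective (fun j : Fin r => (w (s + j.val)).1) := by
      intro k
      obtain ⟨j, hj, hk⟩ := hsurj s k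
      exact ⟨⟨j, hj⟩, hk⟩
    have hi := Finite.injective_iff_surjective.2 hs
    have := @hi ⟨j, hj⟩ ⟨j', hj'⟩ h
    exact congrArg Fin.val this
  have hperr : ∀ i, (w (i + r)).1 = (w i).1 := by
    intro i
    obtain ⟨j, hj, hk⟩ := hsurj (i + 1) (w i).1
    rcases Nat.lt_or_ge (j + 1) r with h | h
    · have := hinj i (j + 1) 0 h (by omega) (by
        rw [show i + (j + 1) = i + 1 + j by ring, hk, Nat.add_zero])
      omega
    · have : i + 1 + j = i + r := by omega
      rw [this] at hk
      exact hk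
  have hperrm : ∀ i a, (w (i + r * a)).1 = (w i).1 := by
    intro i a
    induction a with
    | zero => simp
    | succ a ih =>
      rw [Nat.mul_succ, ← Nat.add_assoc, hperr, ih]
  have hdvd : r ∣ L := by
    by_contra hnd
    have hpos : 0 < L % r := Nat.pos_of_ne_zero (fun h => hnd (Nat.dvd_of_mod_eq_zero h))
    have hlt : L % r < r := Nat.mod_lt _ (by omega)
    have h1 : (w (0 + L % r)).1 = (w 0).1 := by
      have h2 := hperrm (L % r) (L / r)
      rw [Nat.mod_add_div] at h2
      rw [Nat.zero_add, ← h2]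
      have h3 := hperL 0
      rw [Nat.zero_add] at h3
      rw [h3]
    have := hinj 0 (L % r) 0 hlt (by omega) (by rw [h1])
    omega
  obtain ⟨m, rfl⟩ := hdvd
  have hm : 2 ≤ m := by
    by_contra h
    have : m ≤ 1 := by omega
    have : r * m ≤ r * 1 := Nat.mul_le_mul_left _ this
    omega
  exact ⟨m, w, hm, hperL, hwinj, hperr, hsurj, hval⟩

end cyc

theorem lb_hyper (r n q t : ℕ) (hr : 3 ≤ r) (ht : 2 ≤ t) (hn : n = q * t)
    (hbig : 2 * t ^ (2 * t) ≤ n) :
    ∃ H : Finset (Finset (Fin r × Fin n)), (∀ e ∈ H, e.card = r) ∧ ¬ HasTC r H ∧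
      n ^ (r - 1) * t ≤ 2 * H.card := by
  obtain ⟨φ, good, hgood, hcyc⟩ := lb_colouring n q t ht hn hbig
  have hdivlt : ∀ z : Fin n, z.val / t < q := by
    intro z
    have h1 := z.isLt
    have h2 : z.val < t * q := by
      calc z.val < n := h1
        _ = t * q := by rw [hn, Nat.mul_comm]
    exact Nat.div_lt_of_lt_mul h2
  set cz : Fin n → Fin q := fun z => ⟨z.val / t, hdivlt z⟩ with hcz
  set k0 : Fin r := ⟨0, by omega⟩ with hk0
  set k1 : Fin r := ⟨1, by omega⟩ with hk1
  set k2 : Fin r := ⟨2, by omega⟩ with hk2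
  have hk01 : k0 ≠ k1 := by simp [hk0, hk1]
  have hk02 : k0 ≠ k2 := by simp [hk0, hk2]
  have hk12 : k1 ≠ k2 := by simp [hk1, hk2]
  set P : (Fin r → Fin n) → Prop := fun u => (u k0, u k1) ∈ good ∧ cz (u k2) = φ (u k0) (u k1)
    with hP
  set U : Finset (Fin r → Fin n) := univ.filter P with hU
  refine ⟨U.image LbHyp_edge, ?_, ?_, ?_⟩
  · intro e he
    rw [Finset.mem_image] at he
    obtain ⟨u, _, rfl⟩ := he
    exact LbHyp_edge_card u
  · intro hc
    obtain ⟨m, w, hm, hperL, hwinj, hperr, hsurj, hval⟩ := LbHyp_cycle (by omega) P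
      (U.image LbHyp_edge) (by
        intro e he
        rw [Finset.mem_image] at he
        obtain ⟨u, hu, rfl⟩ := he
        exact ⟨u, (Finset.mem_filter.1 hu).2, rfl⟩) hc
    have hperrm : ∀ i a, (w (i + r * a)).1 = (w i).1 := by
      intro i a
      induction a with
      | zero => simp
      | succ a ih =>
        rw [Nat.mul_succ, ← Nat.add_assoc, hperr, ih]
    obtain ⟨p0, hp0, hC0⟩ := hsurj 0 k0
    rw [Nat.zero_add] at hC0
    have hfind : ∀ k, k ≠ k0 → ∃ p, p0 < p ∧ p < p0 + r ∧ (w p).1 = k := by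
      intro k hk
      obtain ⟨j, hj, hjk⟩ := hsurj (p0 + 1) k
      refine ⟨p0 + 1 + j, by omega, ?_, hjk⟩
      rcases Nat.lt_or_ge (j + 1) r with h | h
      · omega
      · exfalso
        have : p0 + 1 + j = p0 + r := by omega
        rw [this, hperr, hC0] at hjk
        exact hk hjk.symm
    obtain ⟨p1, hp01, hp1r, hC1⟩ := hfind k1 hk01.symm
    obtain ⟨p2, hp02, hp2r, hC2⟩ := hfind k2 hk02.symm
    have hp12 : p1 ≠ p2 := by
      intro h
      rw [h, hC2] at hC1
      exact hk12 hC1.symm
    set xx : ℕ → Fin n := fun i => (w (p0 + r * i)).2 with hxx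
    set yy : ℕ → Fin n := fun i => (w (p1 + r * i)).2 with hyy
    set zz : ℕ → Fin n := fun i => (w (p2 + r * i)).2 with hzz
    have hC0' : ∀ i, (w (p0 + r * i)).1 = k0 := fun i => by rw [hperrm, hC0]
    have hC1' : ∀ i, (w (p1 + r * i)).1 = k1 := fun i => by rw [hperrm, hC1]
    have hC2' : ∀ i, (w (p2 + r * i)).1 = k2 := fun i => by rw [hperrm, hC2]
    -- generic reading of a window
    have hread : ∀ s a b c : ℕ, s ≤ p0 + r * a → p0 + r * a < s + r → s ≤ p1 + r * b →
        p1 + r * b < s + r → s ≤ p2 + r * c → p2 + r * c < s + r →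
        (xx a, yy b) ∈ good ∧ cz (zz c) = φ (xx a) (yy b) := by
      intro s a b c ha1 ha2 hb1 hb2 hc1 hc2
      obtain ⟨u, hu, huw⟩ := hval s
      have h0 := huw (p0 + r * a - s) (by omega)
      have h1 := huw (p1 + r * b - s) (by omega)
      have h2 := huw (p2 + r * c - s) (by omega)
      rw [Nat.add_sub_cancel' ha1, hC0'] at h0
      rw [Nat.add_sub_cancel' hb1, hC1'] at h1
      rw [Nat.add_sub_cancel' hc1, hC2'] at h2
      have e0 : xx a = u k0 := h0
      have e1 : yy b = u k1 := h1
      have e2 : zz c = u k2 := h2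
      rw [e0, e1, e2]
      exact hu
    have hmul : ∀ i, r * (i + 1) = r * i + r := fun i => Nat.mul_succ r i
    have R1 : ∀ i, (xx i, yy i) ∈ good ∧ cz (zz i) = φ (xx i) (yy i) := fun i =>
      hread (p0 + r * i) i i i (by omega) (by omega) (by omega) (by omega) (by omega) (by omega)
    have R2 : ∀ i, (xx (i + 1), yy i) ∈ good ∧ cz (zz i) = φ (xx (i + 1)) (yy i) := fun i => by
      have := hmul i
      exact hread (p0 + r * i + 1) (i + 1) i i (by omega) (by omega) (by omega) (by omega)
        (by omega) (by omega)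
    have R3 : ∀ i, cz (zz (i + 1)) = cz (zz i) := by
      intro i
      have := hmul i
      rcases Nat.lt_or_gt_of_ne hp12 with h | h
      · have h1 := (hread (p1 + r * i + 1) (i + 1) (i + 1) i (by omega) (by omega) (by omega)
          (by omega) (by omega) (by omega)).2
        rw [(R1 (i + 1)).2, h1]
      · have h1 := (hread (p2 + r * i + 1) (i + 1) i (i + 1) (by omega) (by omega) (by omega)
          (by omega) (by omega) (by omega)).2
        rw [h1, (R2 i).2]
    have R3' : ∀ i, cz (zz i) = cz (zz 0) := by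
      intro i
      induction i with
      | zero => rfl
      | succ i ih => rw [R3, ih]
    have : NeZero m := ⟨by omega⟩
    -- injectivity along a class
    have hclsinj : ∀ p k, (∀ i, (w (p + r * i)).1 = k) → ∀ i j, i < m → j < m →
        (w (p + r * i)).2 = (w (p + r * j)).2 → i = j := by
      intro p k hk i j hi hj h
      have h1 : w (p + r * i) = w (p + r * j) := Prod.ext (by rw [hk, hk]) h
      have h2 := hwinj _ _ h1
      have h3 : r * i ≡ r * j [MOD r * m] := Nat.ModEq.add_left_cancel' p h2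
      have h4 : i ≡ j [MOD m] := Nat.ModEq.mul_left_cancel' (by omega) h3
      have h5 : i % m = j % m := h4
      rwa [Nat.mod_eq_of_lt hi, Nat.mod_eq_of_lt hj] at h5
    have hperW : ∀ p i, w (p + r * (i % m)) = w (p + r * i) := by
      intro p i
      have h1 : ∀ a b, w (b + r * m * a) = w b := by
        intro a
        induction a with
        | zero => intro b; simp
        | succ a ih =>
          intro b
          rw [Nat.mul_succ, ← Nat.add_assoc, hperL, ih]
      have h2 := h1 (i / m) (p + r * (i % m))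
      rw [← h2]
      congr 1
      have h3 := Nat.mod_add_div i m
      calc p + r * (i % m) + r * m * (i / m) = p + r * (i % m + m * (i / m)) := by ring
        _ = p + r * i := by rw [h3]
    -- m ≤ t
    have hmt : m ≤ t := by
      have hmaps : ∀ i ∈ range m, (zz i).val % t ∈ range t := by
        intro i _
        exact Finset.mem_range.2 (Nat.mod_lt _ (by omega))
      have hinjz : ∀ i ∈ range m, ∀ j ∈ range m, (zz i).val % t = (zz j).val % t → i = j := by
        intro i hi j hj h
        refine hclsinj p2 k2 hC2' i j (Finset.mem_range.1 hi) (Finset.mem_range.1 hj) ?_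
        have h1 : (zz i).val / t = (zz j).val / t := by
          have h2 : cz (zz i) = cz (zz j) := by rw [R3' i, R3' j]
          exact congrArg Fin.val h2
        apply Fin.ext
        change (zz i).val = (zz j).val
        rw [← Nat.mod_add_div (zz i).val t, ← Nat.mod_add_div (zz j).val t, h, h1]
      have := Finset.card_le_card_of_injOn (fun i => (zz i).val % t) hmaps
        (fun i hi j hj h => hinjz i hi j hj h)
      simpa using this
    -- the cycle in the complete bipartite graph
    refine hcyc m hm hmt (fun i => xx i.val) (fun i => yy i.val) ?_ ?_ ?_ ?_ (cz (zz 0)) ?_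
    · intro i j h
      exact ZMod.val_injective m (hclsinj p0 k0 hC0' i.val j.val (ZMod.val_lt i) (ZMod.val_lt j) h)
    · intro i j h
      exact ZMod.val_injective m (hclsinj p1 k1 hC1' i.val j.val (ZMod.val_lt i) (ZMod.val_lt j) h)
    · intro i
      exact (R1 i.val).1
    · intro i
      have h1 : xx (i + 1).val = xx (i.val + 1) := by
        change (w (p0 + r * (i + 1).val)).2 = (w (p0 + r * (i.val + 1))).2
        rw [ZMod.val_add, ZMod.val_one_eq_one_mod, Nat.add_mod_mod, hperW]
      rw [h1]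
      exact (R2 i.val).1
    · intro i
      have h1 : xx (i + 1).val = xx (i.val + 1) := by
        change (w (p0 + r * (i + 1).val)).2 = (w (p0 + r * (i.val + 1))).2
        rw [ZMod.val_add, ZMod.val_one_eq_one_mod, Nat.add_mod_mod, hperW]
      refine ⟨?_, ?_⟩
      · rw [← (R1 i.val).2, R3' i.val]
      · rw [h1, ← (R2 i.val).2, R3' i.val]
  · -- counting
    rw [Finset.card_image_of_injective _ LbHyp_edge_inj]
    -- injection from good × Fin t × (Fin (r-3) → Fin n)
    have hlt : ∀ (c : Fin q) (j : Fin t), c.val * t + j.val < n := by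
      intro c j
      rw [hn]
      have h1 := c.isLt
      have h2 := j.isLt
      calc c.val * t + j.val < c.val * t + t := by omega
        _ = (c.val + 1) * t := by ring
        _ ≤ q * t := Nat.mul_le_mul_right _ (by omega)
    set F : (Fin n × Fin n) × (Fin t × (Fin (r - 3) → Fin n)) → (Fin r → Fin n) := fun a k =>
      if k.val = 0 then a.1.1 else if k.val = 1 then a.1.2 else if k.val = 2 then
        ⟨(φ a.1.1 a.1.2).val * t + a.2.1.val, hlt _ _⟩ else
        if h : k.val - 3 < r - 3 then a.2.2 ⟨k.val - 3, h⟩ else a.1.1 with hF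
    have hF0 : ∀ a, F a k0 = a.1.1 := by
      intro a
      simp [hF, hk0]
    have hF1 : ∀ a, F a k1 = a.1.2 := by
      intro a
      simp [hF, hk1]
    have hF2 : ∀ a, F a k2 = ⟨(φ a.1.1 a.1.2).val * t + a.2.1.val, hlt _ _⟩ := by
      intro a
      simp [hF, hk2]
    have hF3 : ∀ a (i : Fin (r - 3)), F a ⟨i.val + 3, by have := i.isLt; omega⟩ = a.2.2 i := by
      intro a i
      have := i.isLt
      simp [hF]
    have hmaps : ∀ a ∈ good ×ˢ (univ : Finset (Fin t × (Fin (r - 3) → Fin n))), F a ∈ U := by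
      intro a ha
      rw [Finset.mem_product] at ha
      rw [hU, Finset.mem_filter]
      refine ⟨Finset.mem_univ _, ?_, ?_⟩
      · rw [hF0, hF1]
        exact ha.1
      · rw [hF0, hF1, hF2]
        apply Fin.ext
        change ((φ a.1.1 a.1.2).val * t + a.2.1.val) / t = (φ a.1.1 a.1.2).val
        rw [Nat.add_comm, Nat.add_mul_div_right _ _ (by omega), Nat.div_eq_of_lt a.2.1.isLt,
          Nat.zero_add]
    have hinjF : Function.Injective F := by
      intro a b h
      have h0 : a.1.1 = b.1.1 := by rw [← hF0 a, ← hF0 b, h]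
      have h1 : a.1.2 = b.1.2 := by rw [← hF1 a, ← hF1 b, h]
      have h2 : F a k2 = F b k2 := by rw [h]
      rw [hF2, hF2, h0, h1] at h2
      have h3 : a.2.1 = b.2.1 := by
        have := congrArg Fin.val h2
        apply Fin.ext
        simpa using this
      have h4 : a.2.2 = b.2.2 := by
        funext i
        rw [← hF3 a i, ← hF3 b i, h]
      exact Prod.ext (Prod.ext h0 h1) (Prod.ext h3 h4)
    have hcard := Finset.card_le_card_of_injOn F hmaps (fun a _ b _ h => hinjF h)
    rw [Finset.card_product, Finset.card_univ, Fintype.card_prod, Fintype.card_fun,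
      Fintype.card_fin, Fintype.card_fin, Fintype.card_fin] at hcard
    have e1 : n ^ (r - 1) = n ^ 2 * n ^ (r - 3) := by
      rw [← pow_add]
      congr 1
      omega
    calc n ^ (r - 1) * t = n ^ 2 * (t * n ^ (r - 3)) := by rw [e1]; ring
      _ ≤ 2 * good.card * (t * n ^ (r - 3)) := Nat.mul_le_mul_right _ hgood
      _ = 2 * (good.card * (t * n ^ (r - 3))) := by ring
      _ ≤ 2 * U.card := Nat.mul_le_mul_left _ hcard

end Pool.H18.TC
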