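import Pool.Agent.H18.TC.Prob

/-! P2: Russo's formula and the mean value theorem -/

open Finset
open Classical

namespace Pool.H18.TC

variable {B : Type*} [Fintype B]

theorem hasDerivAt_Ex (F : (B → Bool) → ℝ) (p : ℝ) :
    HasDerivAt (fun q => Ex q F) (-∑ b, Ex p (Dd b F)) p := Prob_deriv F p

theorem russo_mvt (F : (B → Bool) → ℝ) (L δ0 : ℝ) (hδ : 0 < δ0) (hδ1 : 2 * δ0 ≤ 1)
    (h0 : ∀ ω, 0 ≤ F ω) (h1 : ∀ ω, F ω ≤ L) :
    ∃ δ, δ0 ≤ δ ∧ δ ≤ 2 * δ0 ∧ ∑ b, Ex δ (Dd b F) ≤ L / δ0 := by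
  have hlt : δ0 < 2 * δ0 := by linarith
  obtain ⟨c, hc, hc'⟩ := exists_hasDerivAt_eq_slope (fun q => Ex q F)
    (fun q => -∑ b, Ex q (Dd b F)) hlt
    (fun x _ => (hasDerivAt_Ex F x).continuousAt.continuousWithinAt)
    (fun x _ => hasDerivAt_Ex F x)
  refine ⟨c, hc.1.le, hc.2.le, ?_⟩
  have h2 : Ex δ0 F ≤ L := by
    rw [← Ex_const (B := B) δ0 L]
    exact Ex_mono hδ.le (by linarith) h1
  have h3 : 0 ≤ Ex (2 * δ0) F := Ex_nonneg (by linarith) hδ1 h0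
  have h4 : (2 * δ0 - δ0) = δ0 := by ring
  rw [h4] at hc'
  have h5 : ∑ b, Ex c (Dd b F) = (Ex δ0 F - Ex (2 * δ0) F) / δ0 := by
    have : ∑ b, Ex c (Dd b F) = -((Ex (2 * δ0) F - Ex δ0 F) / δ0) := by
      rw [← hc']
      ring
    rw [this]
    ring
  rw [h5]
  apply div_le_div_of_nonneg_right _ hδ.le
  linarith

end Pool.H18.TC
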