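import Pool.Agent.H18.TC.Prob

/-! P5: telescoping over the bits that are switched off -/

open Finset
open Classical

namespace Pool.H18.TC

variable {B : Type*} [Fintype B]

theorem tele {p : ℝ} (h0 : 0 ≤ p) (h1 : p < 1) (A : Finset B) (hA : 1 / 2 ≤ (1 - p) ^ A.card)
    {F w : (B → Bool) → ℝ} (hF : Monotone F) (hw0 : ∀ ω, 0 ≤ w ω) (hw : Antitone w) :
    Ex p (fun ω => w ω * (F ω - F (merge A (fun _ => false) ω)))
      ≤ 2 * ∑ b ∈ A, Ex p (fun ω => w ω * (F ω - F (Function.update ω b false))) := by
  have hle : ∀ (S : Finset B) (ω : B → Bool), merge S (fun _ => false) ω ≤ ω := by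
    intro S ω b
    unfold merge
    split_ifs
    · exact Bool.false_le _
    · exact le_rfl
  have hupd : ∀ (b : B) (ω : B → Bool), Function.update ω b false ≤ ω := by
    intro b ω j
    by_cases hj : j = b
    · subst hj
      simp
    · rw [Function.update_of_ne hj]
  have key : ∀ S : Finset B, S ⊆ A →
      Ex p (fun ω => w ω * (F ω - F (merge S (fun _ => false) ω)))
      ≤ 2 * ∑ b ∈ S, Ex p (fun ω => w ω * (F ω - F (Function.update ω b false))) := by
    intro S
    induction S using Finset.induction_on with
    | empty =>
      intro _
      have : ∀ ω : B → Bool, merge ∅ (fun _ => false) ω = ω := by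
        intro ω
        funext b
        unfold merge
        simp
      simp only [this, sub_self, mul_zero, Finset.sum_empty]
      rw [Ex_const]
    | insert b S hb ih =>
      intro hS
      have hS' : S ⊆ A := fun x hx => hS (Finset.mem_insert_of_mem hx)
      have ih' := ih hS'
      set Φ : (B → Bool) → ℝ := fun ω => w ω * (F ω - F (Function.update ω b false)) with hΦ
      have hΦ0 : ∀ ω, 0 ≤ Φ ω := fun ω => mul_nonneg (hw0 ω) (sub_nonneg.2 (hF (hupd b ω)))
      have hrem := Ex_remove h0 h1.le S hΦ0
      have hcard : (1 - p) ^ A.card ≤ (1 - p) ^ S.card :=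
        pow_le_pow_of_le_one (by linarith) (by linarith) (Finset.card_le_card hS')
      have hEΦ0 : 0 ≤ Ex p (fun ω => Φ (merge S (fun _ => false) ω)) :=
        Ex_nonneg h0 h1.le fun ω => hΦ0 _
      have h2 : Ex p (fun ω => Φ (merge S (fun _ => false) ω)) ≤ 2 * Ex p Φ := by nlinarith
      have hmerge : ∀ ω : B → Bool, merge (insert b S) (fun _ => false) ω
          = Function.update (merge S (fun _ => false) ω) b false := by
        intro ω
        funext j
        by_cases hj : j = b
        · subst hj
          rw [Function.update_self]
          unfold merge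
          rw [if_pos (Finset.mem_insert_self _ _)]
        · rw [Function.update_of_ne hj]
          unfold merge
          simp only [Finset.mem_insert, hj, false_or]
      have h3 : Ex p (fun ω => w ω * (F ω - F (merge (insert b S) (fun _ => false) ω)))
          ≤ Ex p (fun ω => w ω * (F ω - F (merge S (fun _ => false) ω))
            + Φ (merge S (fun _ => false) ω)) := by
        refine Ex_mono h0 h1.le fun ω => ?_
        have h4 : w ω * (F (merge S (fun _ => false) ω)
            - F (Function.update (merge S (fun _ => false) ω) b false))
            ≤ Φ (merge S (fun _ => false) ω) := by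
          rw [hΦ]
          exact mul_le_mul_of_nonneg_right (hw (hle S ω)) (sub_nonneg.2 (hF (hupd b _)))
        rw [hmerge]
        linarith
      rw [Ex_add] at h3
      rw [Finset.sum_insert hb]
      linarith
  exact key A (Finset.Subset.refl A)

theorem pivot_bit {p : ℝ} (h0 : 0 ≤ p) (h1 : p ≤ 1) (b : B) {F w Λ : (B → Bool) → ℝ}
    (h : ∀ ω, ω b = true → w ω * (F ω - F (Function.update ω b false)) ≤ Dd b Λ ω) :
    Ex p (fun ω => w ω * (F ω - F (Function.update ω b false))) ≤ p * Ex p (Dd b Λ) := by
  have hp : p = Ex p (fun ω : B → Bool => if ω b = true then (1 : ℝ) else 0) := by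
    have := Pr_all_on p ({b} : Finset B)
    rw [Finset.card_singleton, pow_one, Prob_Pr_eq] at this
    conv_lhs => rw [← this]
    congr 1
    funext ω
    by_cases hω : ω b = true
    · rw [if_pos hω, if_pos (by simpa using hω)]
    · rw [if_neg hω, if_neg (by simpa using hω)]
  have hind : Ex p (fun ω : B → Bool => (if ω b = true then (1 : ℝ) else 0) * Dd b Λ ω)
      = p * Ex p (Dd b Λ) := by
    rw [Ex_indep p {b} (fun ω => if ω b = true then (1 : ℝ) else 0) (Dd b Λ)]
    · rw [← hp]
    · intro ω ω' hω
      rw [hω b (Finset.mem_singleton_self b)]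
    · intro ω ω' hω
      have : ∀ c, Function.update ω b c = Function.update ω' b c := by
        intro c
        funext j
        by_cases hj : j = b
        · subst hj
          simp
        · rw [Function.update_of_ne hj, Function.update_of_ne hj]
          exact hω j (by simpa using hj)
      unfold Dd
      rw [this, this]
  rw [← hind]
  refine Ex_mono h0 h1 fun ω => ?_
  by_cases hω : ω b = true
  · rw [if_pos hω, one_mul]
    exact h ω hω
  · rw [if_neg hω, zero_mul]
    have hω' : ω b = false := by simpa using hω
    have : Function.update ω b false = ω := by rw [← hω']; exact Function.update_eq_self b ω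
    rw [this, sub_self, mul_zero]

end Pool.H18.TC
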