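import Pool.Agent.H18.TC.Gbas
import Pool.Agent.H18.TC.Tele
import Pool.Agent.H18.TC.Russo

/-! PV: the loss is controlled by the pivotal bits -/

open Finset
open Classical

namespace Pool.H18.TC

variable {r : ℕ} {V : Type*} [Fintype V] {T m : ℕ}
variable {E : Finset (Fin r → V)} {K : (Fin r → V) → (Fin r → V) → ℝ} {s : ℝ} {χ : V → Fin r}
  {δ : ℝ} {e0 : Fin r → V}

/-- switch off one bit -/
noncomputable def Piv_upd {B : Type*} (b : B) (ω : B → Bool) : B → Bool := Function.update ω b false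

theorem Piv_upd_le {B : Type*} (b : B) (ω : B → Bool) : Piv_upd b ω ≤ ω := by
  intro b'
  unfold Piv_upd
  by_cases hb : b' = b
  · subst hb; rw [Function.update_self]; exact Bool.false_le _
  · rw [Function.update_of_ne hb]

theorem Piv_tele {B : Type*} [Fintype B] {p : ℝ} (h0 : 0 ≤ p) (h1 : p < 1) (A : Finset B)
    (hA : 1 / 2 ≤ (1 - p) ^ A.card)
    {F w : (B → Bool) → ℝ} (hF : Monotone F) (hw0 : ∀ ω, 0 ≤ w ω) (hw : Antitone w) :
    Ex p (fun ω => w ω * (F ω - F (merge A (fun _ => false) ω)))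
      ≤ 2 * ∑ b ∈ A, Ex p (fun ω => w ω * (F ω - F (Piv_upd b ω))) :=
  tele h0 h1 A hA hF hw0 hw

theorem Piv_bit {B : Type*} [Fintype B] {p : ℝ} (h0 : 0 ≤ p) (h1 : p ≤ 1) (b : B)
    {F w Λ : (B → Bool) → ℝ}
    (h : ∀ ω, w ω * (F ω - F (Piv_upd b ω)) ≤ Λ (Piv_upd b ω) - Λ ω) :
    Ex p (fun ω => w ω * (F ω - F (Piv_upd b ω))) ≤ p * Ex p (Dd b Λ) := by
  refine pivot_bit h0 h1 b (fun ω hω => ?_)
  have h7 : Function.update ω b true = ω := by
    rw [← hω, Function.update_eq_self]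
  unfold Dd
  rw [h7]
  exact h ω

theorem Piv_card_le (f : Fin r → V) :
    (univ.filter (fun b : V × Fin T × Fin (m + 1) => b.1 ∈ verts f)).card
      ≤ r * (T * (m + 1)) := by
  have h1 : (univ.filter (fun b : V × Fin T × Fin (m + 1) => b.1 ∈ verts f))
      = (verts f) ×ˢ (univ : Finset (Fin T × Fin (m + 1))) := by
    ext b; simp
  rw [h1, card_product, card_univ, Fintype.card_prod, Fintype.card_fin, Fintype.card_fin]
  apply Nat.mul_le_mul_right
  unfold verts
  calc (univ.image f).card ≤ (univ : Finset (Fin r)).card := card_image_le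
    _ = r := by simp

theorem Piv_through (hK : IsKer E K s χ) {e : Fin r → V} (he : e ∈ E) (v : V) :
    ∑ f ∈ E.filter (fun f => v ∈ verts f), K e f ≤ 1 / s := by
  have h := hK.rowT e he {χ v} (fun _ => v)
  rw [card_singleton, pow_one] at h
  refine le_trans ?_ h
  unfold star
  apply sum_le_sum_of_subset_of_nonneg
  · intro f hf
    rw [mem_filter] at hf ⊢
    refine ⟨hf.1, ?_⟩
    intro k hk
    rw [mem_singleton] at hk
    obtain ⟨hfE, hv⟩ := hf
    unfold verts at hv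
    rw [mem_image] at hv
    obtain ⟨l, -, hl⟩ := hv
    have : χ v = l := by rw [← hl]; exact hK.part f hfE l
    rw [hk, this, hl]
  · intro f _ _
    exact hK.nonneg e f

theorem loss_pivotal (hK : IsKer E K s χ) (he0 : e0 ∈ E) (hδ : 0 < δ) (i : ℕ) {p : ℝ} (hp : 0 ≤ p)
    (hp1 : p < 1) (hoff : 1 / 2 ≤ (1 - p) ^ (r * (T * (m + 1)))) :
    Ex p (fun ω : V × Fin T × Fin (m + 1) → Bool =>
        ww E.card (MM E K s δ e0 i ω) * Loss E K s δ e0 i ω)
      ≤ 2 * p / s * ∑ b, Ex p (Dd b (fun ω : V × Fin T × Fin (m + 1) → Bool =>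
          Lam E.card (MM E K s δ e0 i ω))) := by
  have hN : (1 : ℝ) ≤ (E.card : ℝ) := by
    exact_mod_cast card_pos.2 ⟨e0, he0⟩
  have hs : 0 < s := lt_of_lt_of_le one_pos hK.one_le
  set w : (V × Fin T × Fin (m + 1) → Bool) → ℝ := fun ω => ww E.card (MM E K s δ e0 i ω) with hw
  have hw0 : ∀ ω, 0 ≤ w ω := fun ω => (ww_pos hN (MM_le hK he0 hδ i ω)).le
  have hwa : Antitone w := fun ω ω' h => ww_anti hN (MM_mono hK hδ i h) (MM_le hK he0 hδ i ω')
  have hGm : ∀ e, Monotone (fun ω : V × Fin T × Fin (m + 1) → Bool => G E K s δ e0 i ω e) :=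
    fun e ω ω' h => G_mono hK hδ i h e
  -- the basic terms
  set t : (Fin r → V) → (V × Fin T × Fin (m + 1)) → ℝ := fun e b =>
    Ex p (fun ω => w ω * (G E K s δ e0 i ω e - G E K s δ e0 i (Piv_upd b ω) e)) with ht
  have ht0 : ∀ e b, 0 ≤ t e b := fun e b => Ex_nonneg hp hp1.le (fun ω =>
    mul_nonneg (hw0 ω) (sub_nonneg.2 (hGm e (Piv_upd_le b ω))))
  have h1 : Ex p (fun ω => w ω * Loss E K s δ e0 i ω)
      = ∑ e ∈ E, ∑ f ∈ E, K e f * Ex p (fun ω => w ω *
        (G E K s δ e0 i ω e - G E K s δ e0 i (off (verts f) ω) e)) := by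
    have : (fun ω => w ω * Loss E K s δ e0 i ω) = (fun ω => ∑ e ∈ E, ∑ f ∈ E, K e f * (w ω *
        (G E K s δ e0 i ω e - G E K s δ e0 i (off (verts f) ω) e))) := by
      funext ω
      unfold Loss
      rw [mul_sum]
      refine sum_congr rfl (fun e _ => ?_)
      rw [mul_sum]
      refine sum_congr rfl (fun f _ => ?_)
      ring
    rw [this, Ex_sum]
    refine sum_congr rfl (fun e _ => ?_)
    rw [Ex_sum]
    refine sum_congr rfl (fun f _ => ?_)
    rw [Ex_mul_left]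
  have h2 : ∀ e f : Fin r → V, Ex p (fun ω => w ω *
        (G E K s δ e0 i ω e - G E K s δ e0 i (off (verts f) ω) e))
      ≤ 2 * ∑ b, if b.1 ∈ verts f then t e b else 0 := by
    intro e f
    have hA : 1 / 2 ≤ (1 - p) ^
        (univ.filter (fun b : V × Fin T × Fin (m + 1) => b.1 ∈ verts f)).card := by
      refine hoff.trans ?_
      exact pow_le_pow_of_le_one (by linarith) (by linarith) (Piv_card_le f)
    have h3 := Piv_tele hp hp1 (univ.filter (fun b : V × Fin T × Fin (m + 1) => b.1 ∈ verts f)) hA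
      (hGm e) hw0 hwa
    simp only [off_eq_merge]
    refine h3.trans (le_of_eq ?_)
    rw [sum_filter]
  have h4 : ∑ e ∈ E, ∑ f ∈ E, K e f * Ex p (fun ω => w ω *
        (G E K s δ e0 i ω e - G E K s δ e0 i (off (verts f) ω) e))
      ≤ 2 / s * ∑ b, ∑ e ∈ E, t e b := by
    calc ∑ e ∈ E, ∑ f ∈ E, K e f * Ex p (fun ω => w ω *
        (G E K s δ e0 i ω e - G E K s δ e0 i (off (verts f) ω) e))
        ≤ ∑ e ∈ E, ∑ f ∈ E, K e f * (2 * ∑ b, if b.1 ∈ verts f then t e b else 0) :=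
          sum_le_sum (fun e _ => sum_le_sum (fun f _ =>
            mul_le_mul_of_nonneg_left (h2 e f) (hK.nonneg e f)))
      _ = ∑ e ∈ E, ∑ b, 2 * t e b * ∑ f ∈ E.filter (fun f => b.1 ∈ verts f), K e f := by
          refine sum_congr rfl (fun e _ => ?_)
          simp only [mul_sum]
          rw [sum_comm]
          refine sum_congr rfl (fun b _ => ?_)
          rw [sum_filter]
          refine sum_congr rfl (fun f _ => ?_)
          split_ifs
          · ring
          · ring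
      _ ≤ ∑ e ∈ E, ∑ b, 2 * t e b * (1 / s) := by
          refine sum_le_sum (fun e he => sum_le_sum (fun b _ => ?_))
          exact mul_le_mul_of_nonneg_left (Piv_through hK he b.1) (by have := ht0 e b; linarith)
      _ = 2 / s * ∑ b, ∑ e ∈ E, t e b := by
          rw [sum_comm, mul_sum]
          refine sum_congr rfl (fun b _ => ?_)
          rw [mul_sum]
          refine sum_congr rfl (fun e _ => ?_)
          ring
  have h5 : ∀ b, ∑ e ∈ E, t e b ≤ p * Ex p (Dd b (fun ω : V × Fin T × Fin (m + 1) → Bool =>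
          Lam E.card (MM E K s δ e0 i ω))) := by
    intro b
    have h6 : ∑ e ∈ E, t e b = Ex p (fun ω => w ω *
        (MM E K s δ e0 i ω - MM E K s δ e0 i (Piv_upd b ω))) := by
      rw [ht]
      rw [← Ex_sum]
      congr 1
      funext ω
      unfold MM mass
      rw [← sum_sub_distrib, mul_sum]
    rw [h6]
    apply Piv_bit hp hp1.le b (F := fun ω => MM E K s δ e0 i ω)
    intro ω
    exact ww_mul_le hN (MM_nonneg hK hδ i _) (MM_mono hK hδ i (Piv_upd_le b ω)) (MM_le hK he0 hδ i ω)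
  rw [h1]
  refine h4.trans ?_
  calc 2 / s * ∑ b, ∑ e ∈ E, t e b
      ≤ 2 / s * ∑ b, p * Ex p (Dd b (fun ω : V × Fin T × Fin (m + 1) → Bool =>
          Lam E.card (MM E K s δ e0 i ω))) :=
        mul_le_mul_of_nonneg_left (sum_le_sum (fun b _ => h5 b)) (by positivity)
    _ = 2 * p / s * ∑ b, Ex p (Dd b (fun ω : V × Fin T × Fin (m + 1) → Bool =>
          Lam E.card (MM E K s δ e0 i ω))) := by
        rw [← mul_sum]; ring

/-- choice of the rate -/
theorem rate_choice (hK : IsKer E K s χ) (he0 : e0 ∈ E) (hδ : 0 < δ) (hδ1 : 2 * δ < 1)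
    (hoff : 1 / 2 ≤ (1 - 2 * δ) ^ (r * (T * (m + 1)))) :
    ∃ p, δ ≤ p ∧ p ≤ 2 * δ ∧
      ∑ i ∈ range T, Ex p (fun ω : V × Fin T × Fin (m + 1) → Bool =>
        ww E.card (MM E K s δ e0 i ω) * Loss E K s δ e0 i ω) ≤ 4 * T * Lmax E.card / s := by
  have hN : (1 : ℝ) ≤ (E.card : ℝ) := by
    exact_mod_cast card_pos.2 ⟨e0, he0⟩
  have hs : 0 < s := lt_of_lt_of_le one_pos hK.one_le
  have hL : 0 < Lmax (E.card : ℝ) := Lmax_pos hN
  obtain ⟨p, hp1, hp2, hp3⟩ := russo_mvt (fun ω : V × Fin T × Fin (m + 1) → Bool =>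
      ∑ i ∈ range T, Lam E.card (MM E K s δ e0 i ω)) (T * Lmax E.card) δ hδ hδ1.le
    (fun ω => sum_nonneg (fun i _ => Lam_nonneg hN (MM_nonneg hK hδ i ω) (MM_le hK he0 hδ i ω)))
    (fun ω => by
      calc ∑ i ∈ range T, Lam E.card (MM E K s δ e0 i ω)
          ≤ ∑ _i ∈ range T, Lmax (E.card : ℝ) :=
            sum_le_sum (fun i _ => Lam_le hN (MM_nonneg hK hδ i ω) (MM_le hK he0 hδ i ω))
        _ = T * Lmax E.card := by rw [sum_const, card_range, nsmul_eq_mul])
  refine ⟨p, hp1, hp2, ?_⟩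
  have hp0 : 0 ≤ p := by linarith
  have hplt : p < 1 := by linarith
  have hoffp : 1 / 2 ≤ (1 - p) ^ (r * (T * (m + 1))) :=
    hoff.trans (pow_le_pow_left₀ (by linarith) (by linarith) _)
  have h8 : ∀ b, Ex p (Dd b (fun ω : V × Fin T × Fin (m + 1) → Bool =>
      ∑ i ∈ range T, Lam E.card (MM E K s δ e0 i ω)))
      = ∑ i ∈ range T, Ex p (Dd b (fun ω : V × Fin T × Fin (m + 1) → Bool =>
          Lam E.card (MM E K s δ e0 i ω))) := by
    intro b
    rw [← Ex_sum]
    congr 1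
    funext ω
    unfold Dd
    rw [← sum_sub_distrib]
  simp only [h8] at hp3
  rw [sum_comm] at hp3
  calc ∑ i ∈ range T, Ex p (fun ω : V × Fin T × Fin (m + 1) → Bool =>
        ww E.card (MM E K s δ e0 i ω) * Loss E K s δ e0 i ω)
      ≤ ∑ i ∈ range T, 2 * p / s * ∑ b, Ex p (Dd b (fun ω : V × Fin T × Fin (m + 1) → Bool =>
          Lam E.card (MM E K s δ e0 i ω))) :=
        sum_le_sum (fun i _ => loss_pivotal hK he0 hδ i hp0 hplt hoffp)
    _ = 2 * p / s * ∑ i ∈ range T, ∑ b, Ex p (Dd b (fun ω : V × Fin T × Fin (m + 1) → Bool =>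
          Lam E.card (MM E K s δ e0 i ω))) := by rw [mul_sum]
    _ ≤ 2 * p / s * (T * Lmax E.card / δ) := mul_le_mul_of_nonneg_left hp3 (by positivity)
    _ = 2 * (T * Lmax E.card) / s * (p / δ) := by ring
    _ ≤ 2 * (T * Lmax E.card) / s * 2 := by
        apply mul_le_mul_of_nonneg_left _ (by positivity)
        rw [div_le_iff₀ hδ]; exact hp2
    _ = 4 * T * Lmax E.card / s := by ring

end Pool.H18.TC
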