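import Pool.Agent.H18.TC.Good
import Pool.Agent.H18.TC.Drift
import Pool.Agent.H18.TC.Piv

/-! MN, second part: the process fills most of `E` -/

open Finset
open Classical

namespace Pool.H18.TC

variable {r : ℕ} {V : Type*} [Fintype V] {T m : ℕ}
variable {E : Finset (Fin r → V)} {K : (Fin r → V) → (Fin r → V) → ℝ} {s : ℝ} {χ : V → Fin r}
  {δ : ℝ} {e0 : Fin r → V} {KK c0 : ℝ} {q : ℕ}

theorem Main_kap_nonneg (r : ℕ) {x : ℝ} (hx : 0 < x) : 0 ≤ kap r x := by
  unfold kap
  have h1 : (1 : ℝ) ≤ 1 + 1 / x := by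
    have : 0 < 1 / x := by positivity
    linarith
  have := one_le_pow₀ (n := r) h1
  linarith

theorem Main_push_nonneg (hK : IsKer E K s χ) {g : (Fin r → V) → ℝ} (g0 : ∀ e ∈ E, 0 ≤ g e) (f) :
    0 ≤ push E K g f := by
  unfold push
  exact Finset.sum_nonneg fun e he => mul_nonneg (g0 e he) (hK.nonneg e f)

theorem Main_push_le (hK : IsKer E K s χ) {g : (Fin r → V) → ℝ} (g1 : ∀ e ∈ E, g e ≤ 1) {f}
    (hf : f ∈ E) : push E K g f ≤ 1 := by
  unfold push
  rw [← hK.col f hf]
  exact Finset.sum_le_sum fun e he => by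
    have := mul_le_mul_of_nonneg_right (g1 e he) (hK.nonneg e f)
    simpa using this

theorem Main_Gs_mass_le (i : ℕ) (hi : i < T) (ω ω' : V × Fin T × Fin (m + 1) → Bool) :
    mass E (Gs E K s δ e0 i hi ω ω') ≤ E.card := by
  unfold mass
  calc ∑ x ∈ E, Gs E K s δ e0 i hi ω ω' x ≤ ∑ x ∈ E, (1 : ℝ) :=
        Finset.sum_le_sum fun x _ => gnew_le_one _ _ _ _ _ _ _ _
    _ = E.card := by simp

theorem Main_Gs_nonneg (hK : IsKer E K s χ) (hδ : 0 < δ) (i : ℕ) (hi : i < T)
    (ω ω' : V × Fin T × Fin (m + 1) → Bool) (f) : 0 ≤ Gs E K s δ e0 i hi ω ω' f := by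
  unfold Gs gnew
  split_ifs with h
  · refine le_trans ?_ (Finset.le_sup' _ (Finset.mem_univ (0 : Fin (m + 1))))
    unfold psi
    refine le_min (by norm_num) ?_
    refine mul_nonneg (by norm_num) ?_
    unfold YY
    refine Finset.sum_nonneg fun e _ => ?_
    exact mul_nonneg (by positivity) (mul_nonneg (G_nonneg hK hδ _ _ _) (hK.nonneg _ _))
  · exact le_refl _

/-- the bound for one round, given the past -/
theorem Main_cond (hK : IsKer E K s χ) (hE : Expands E K c0) (he0 : e0 ∈ E)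
    (hnum : Num r E.card s δ KK c0 T m q) {i : ℕ} (hi : i < T) {p : ℝ} (hp : δ ≤ p)
    (hp2 : p ≤ 2 * δ) (ω : V × Fin T × Fin (m + 1) → Bool) :
    Ex p (fun ω' : V × Fin T × Fin (m + 1) → Bool =>
        Lam E.card (mass E (Gs E K s δ e0 i hi ω ω')))
      ≤ Lam E.card (MM E K s δ e0 i ω)
        - cgain E.card c0 * (if Good E K s δ KK e0 i ω ∧ MM E K s δ e0 i ω ≤ 9 / 10 * E.card
            then 1 else 0)
        + 6 * (ww E.card (MM E K s δ e0 i ω) * Loss E K s δ e0 i ω)
        + (6 * r / s + 4 * (16 * kap r (δ * s)) ^ (m + 1)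
            + kapa r (δ * s) (Cmx m KK) ^ (m + 1) * (Lmax E.card + 1))
        + Lmax E.card * (if ¬ Good E K s δ KK e0 i ω then 1 else 0) := by
  have hδ := hnum.hδ
  have hs : 0 < s := lt_of_lt_of_le one_pos hnum.hs
  have hp0 : 0 ≤ p := le_trans hδ.le hp
  have hp1 : p ≤ 1 := by have := hnum.hδ1; linarith
  have hN : (1 : ℝ) ≤ E.card := hnum.hN
  have hκ0 : 0 ≤ kap r (δ * s) := Main_kap_nonneg r (by positivity)
  have hC0 : 0 ≤ Cmx m KK := by
    unfold Cmx
    have := hnum.hK
    positivity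
  have hκa : 0 ≤ kapa r (δ * s) (Cmx m KK) := by
    unfold kapa
    exact mul_nonneg hκ0 (by positivity)
  have hMN := MM_le hK he0 hδ i ω
  have hM0 := MM_nonneg (e0 := e0) hK hδ i ω
  have hLoss : 0 ≤ Loss E K s δ e0 i ω := by
    unfold Loss
    refine Finset.sum_nonneg fun e _ => Finset.sum_nonneg fun f _ => ?_
    exact mul_nonneg (sub_nonneg.2 (G_mono hK hδ i (off_le _ _) _)) (hK.nonneg _ _)
  have hww : 0 ≤ ww E.card (MM E K s δ e0 i ω) := (ww_pos hN hMN).le
  have hLmax := (Lmax_pos hN).le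
  have hr0 : (0 : ℝ) ≤ r := Nat.cast_nonneg r
  by_cases hg : Good E K s δ KK e0 i ω
  · obtain ⟨hst, hl, hM2⟩ := Good_step hK he0 hnum hi hg
    rw [if_neg (not_not.2 hg), mul_zero, add_zero]
    have hanti : Antitone (fun ω' : V × Fin T × Fin (m + 1) → Bool =>
        Lam E.card (mass E (Gs E K s δ e0 i hi ω ω'))) := by
      intro ω1 ω2 h12
      refine Lam_anti hN ?_ ?_ (Main_Gs_mass_le i hi ω ω2)
      · exact Finset.sum_nonneg fun f _ => Main_Gs_nonneg hK hδ i hi ω ω1 f
      · exact Finset.sum_le_sum fun f _ => Gs_mono hK hδ i hi h12 f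
    have h1 := Ex_antitone hδ.le hp hp1 hanti
    have h2 := drift hst (show 2 ≤ mass E (G E K s δ e0 i ω) from hM2) hnum.hκ
    refine le_trans h1 (le_trans h2 ?_)
    rw [hl]
    set M := mass E (G E K s δ e0 i ω) with hMdef
    have hMM : MM E K s δ e0 i ω = M := rfl
    rw [hMM] at hM2 hMN hM0 hww ⊢
    set J := 1 + Real.log (E.card / M) with hJ
    have hMpos : 0 < M := by linarith
    have hlog0 : 0 ≤ Real.log (E.card / M) := Real.log_nonneg (by rw [le_div_iff₀ hMpos]; linarith)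
    have hJ1 : 1 ≤ J := by rw [hJ]; linarith
    have hJpos : 0 < J := by linarith
    have hJle : J ≤ 1 + Real.log E.card := by
      rw [hJ]
      have : Real.log (E.card / M) ≤ Real.log E.card := by
        apply Real.log_le_log (by positivity)
        rw [div_le_iff₀ hMpos]
        nlinarith
      linarith
    have hwweq : ww E.card M = 1 / (2 * (M * J)) := by
      unfold ww
      rw [max_eq_left (by linarith : (1:ℝ) ≤ M)]
    set Q := ∑ f ∈ E, min (push E K (G E K s δ e0 i ω) f) (1 - push E K (G E K s δ e0 i ω) f) with hQ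
    have hQ0 : 0 ≤ Q := by
      refine Finset.sum_nonneg fun f hf => le_min ?_ ?_
      · exact Main_push_nonneg hK (fun e _ => G_nonneg hK hδ _ _ _) f
      · exact sub_nonneg.2 (Main_push_le hK (fun e he => G_le_one hK he0 hδ _ _ he) hf)
    have hgain : cgain E.card c0 * (if Good E K s δ KK e0 i ω ∧ M ≤ 9 / 10 * E.card then 1 else 0)
        ≤ (1 / J) * (1 / 2 * min (3 / 8 * Q / M) (1 / 16)) := by
      split_ifs with h
      · have hexp := hE (G E K s δ e0 i ω) (fun x _ => G_nonneg hK hδ _ _ _)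
          (fun x hx => G_le_one hK he0 hδ _ _ hx) (by linarith) h.2
        rw [← hMdef, ← hJ, ← hQ] at hexp
        have hc := hnum.hc0
        rw [mul_one]
        unfold cgain
        have hx : c0 * J ≤ Q / M := by rw [le_div_iff₀ hMpos]; exact hexp
        rcases min_choice (3 / 8 * Q / M) (1 / 16) with hmin | hmin
        · rw [hmin]
          refine le_trans (min_le_left _ _) ?_
          have h3 : 3 / 8 * Q / M = 3 / 8 * (Q / M) := by ring
          rw [h3, div_mul_eq_mul_div, one_mul, le_div_iff₀ hJpos]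
          nlinarith
        · rw [hmin]
          refine le_trans (min_le_right _ _) ?_
          have : 1 / J * (1 / 2 * (1 / 16)) = 1 / (32 * J) := by field_simp; norm_num
          rw [this]
          apply one_div_le_one_div_of_le (by positivity)
          linarith
      · rw [mul_zero]
        have : 0 ≤ min (3 / 8 * Q / M) (1 / 16) := le_min (by positivity) (by norm_num)
        positivity
    have hterm : (1 / J) * (3 * (Loss E K s δ e0 i ω + 2 * r / s * M) / M)
        ≤ 6 * (ww E.card M * Loss E K s δ e0 i ω) + 6 * r / s := by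
      rw [hwweq]
      have e1 : (1 / J) * (3 * (Loss E K s δ e0 i ω + 2 * r / s * M) / M)
          = 6 * (1 / (2 * (M * J)) * Loss E K s δ e0 i ω) + (1 / J) * (6 * r / s) := by
        field_simp
        ring
      rw [e1]
      have : (1 / J) * (6 * r / s) ≤ 1 * (6 * r / s) := by
        apply mul_le_mul_of_nonneg_right _ (by positivity)
        rw [div_le_one hJpos]; exact hJ1
      linarith
    have hterm2 : (1 / J) * (4 * (16 * kap r (δ * s)) ^ (m + 1)) ≤ 4 * (16 * kap r (δ * s)) ^ (m + 1) := by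
      have h0 : 0 ≤ 4 * (16 * kap r (δ * s)) ^ (m + 1) := by positivity
      have : (1 / J) * (4 * (16 * kap r (δ * s)) ^ (m + 1)) ≤ 1 * (4 * (16 * kap r (δ * s)) ^ (m + 1)) := by
        apply mul_le_mul_of_nonneg_right _ h0
        rw [div_le_one hJpos]; exact hJ1
      linarith
    have hexpand : (1 / J) * (1 / 2 * min (3 / 8 * Q / M) (1 / 16)
            - 3 * (Loss E K s δ e0 i ω + 2 * r / s * M) / M
            - 4 * (16 * kap r (δ * s)) ^ (m + 1))
        = (1 / J) * (1 / 2 * min (3 / 8 * Q / M) (1 / 16))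
          - (1 / J) * (3 * (Loss E K s δ e0 i ω + 2 * r / s * M) / M)
          - (1 / J) * (4 * (16 * kap r (δ * s)) ^ (m + 1)) := by ring
    rw [hexpand]
    linarith
  · rw [if_pos hg, if_neg (fun h => hg h.1), mul_zero, mul_one]
    have h1 : Ex p (fun ω' : V × Fin T × Fin (m + 1) → Bool =>
        Lam E.card (mass E (Gs E K s δ e0 i hi ω ω'))) ≤ Lmax E.card := by
      rw [← Ex_const (B := V × Fin T × Fin (m + 1)) p (Lmax E.card)]
      refine Ex_mono hp0 hp1 fun ω' => ?_
      exact Lam_le hN (Finset.sum_nonneg fun f _ => Main_Gs_nonneg hK hδ i hi ω ω' f)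
        (Main_Gs_mass_le i hi ω ω')
    have h2 := Lam_nonneg hN hM0 hMN
    have h3 : 0 ≤ 6 * (r : ℝ) / s := by positivity
    have h4 : 0 ≤ 4 * (16 * kap r (δ * s)) ^ (m + 1) := by positivity
    have h5 : 0 ≤ kapa r (δ * s) (Cmx m KK) ^ (m + 1) * (Lmax E.card + 1) := by positivity
    have h6 : 0 ≤ 6 * (ww E.card (MM E K s δ e0 i ω) * Loss E K s δ e0 i ω) := by positivity
    linarith

theorem potential_step (hK : IsKer E K s χ) (hE : Expands E K c0) (he0 : e0 ∈ E)
    (hnum : Num r E.card s δ KK c0 T m q) {i : ℕ} (hi : i < T) {p : ℝ} (hp : δ ≤ p)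
    (hp2 : p ≤ 2 * δ) :
    Ex p (fun ω : V × Fin T × Fin (m + 1) → Bool => Lam E.card (MM E K s δ e0 (i + 1) ω))
      ≤ Ex p (fun ω : V × Fin T × Fin (m + 1) → Bool => Lam E.card (MM E K s δ e0 i ω))
        - cgain E.card c0 * Pr p (fun ω : V × Fin T × Fin (m + 1) → Bool =>
            Good E K s δ KK e0 i ω ∧ MM E K s δ e0 i ω ≤ 9 / 10 * E.card)
        + 6 * Ex p (fun ω : V × Fin T × Fin (m + 1) → Bool =>
            ww E.card (MM E K s δ e0 i ω) * Loss E K s δ e0 i ω)
        + (6 * r / s + 4 * (16 * kap r (δ * s)) ^ (m + 1)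
            + kapa r (δ * s) (Cmx m KK) ^ (m + 1) * (Lmax E.card + 1)
            + Lmax E.card * (T * kap3 r (δ * s) KK m q)) := by
  have hδ := hnum.hδ
  have hs : 0 < s := lt_of_lt_of_le one_pos hnum.hs
  have hp0 : 0 ≤ p := le_trans hδ.le hp
  have hp1 : p ≤ 1 := by have := hnum.hδ1; linarith
  have hN : (1 : ℝ) ≤ E.card := hnum.hN
  have hLmax := (Lmax_pos hN).le
  have e1 : Ex p (fun ω : V × Fin T × Fin (m + 1) → Bool => Lam E.card (MM E K s δ e0 (i + 1) ω))
      = Ex p (fun ω : V × Fin T × Fin (m + 1) → Bool =>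
          Lam E.card (mass E (Gs E K s δ e0 i hi ω ω))) := by
    congr 1
    funext ω
    unfold MM
    congr 1
    unfold mass
    exact Finset.sum_congr rfl fun f _ => G_succ i hi ω f
  rw [e1, Ex_step p i hi (fun ω ω' => Lam E.card (mass E (Gs E K s δ e0 i hi ω ω')))]
  · have h1 := Ex_mono hp0 hp1 (fun ω => Main_cond (m := m) hK hE he0 hnum hi hp hp2 ω)
    refine le_trans h1 ?_
    rw [Ex_add, Ex_add, Ex_add, Ex_sub, Ex_mul_left, Ex_mul_left, Ex_mul_left, Ex_const]
    have h2 := Good_fail hK he0 hnum hi.le hp hp2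
    have h3 : (0 : ℝ) ≤ kap3 r (δ * s) KK m q := by
      unfold kap3 kapa
      have hκ0 : 0 ≤ kap r (δ * s) := Main_kap_nonneg r (by positivity)
      have := hnum.hK
      have hC0 : 0 ≤ Cmx m KK := by
        unfold Cmx
        positivity
      positivity
    have h4 : (i : ℝ) * kap3 r (δ * s) KK m q ≤ T * kap3 r (δ * s) KK m q := by
      apply mul_le_mul_of_nonneg_right _ h3
      exact_mod_cast hi.le
    have h5 : Lmax E.card * Pr p (fun ω : V × Fin T × Fin (m + 1) → Bool =>
        ¬ Good E K s δ KK e0 i ω) ≤ Lmax E.card * (T * kap3 r (δ * s) KK m q) :=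
      mul_le_mul_of_nonneg_left (le_trans h2 h4) hLmax
    have h6 : Ex p (fun ω : V × Fin T × Fin (m + 1) → Bool =>
        if ¬ Good E K s δ KK e0 i ω then (1 : ℝ) else 0)
        = Pr p (fun ω : V × Fin T × Fin (m + 1) → Bool => ¬ Good E K s δ KK e0 i ω) := by
      unfold Pr
      congr 1
      funext ω
      by_cases h : Good E K s δ KK e0 i ω <;> simp [h]
    have h7 : Ex p (fun ω : V × Fin T × Fin (m + 1) → Bool =>
        if (Good E K s δ KK e0 i ω ∧ MM E K s δ e0 i ω ≤ 9 / 10 * E.card) then (1 : ℝ) else 0)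
        = Pr p (fun ω : V × Fin T × Fin (m + 1) → Bool =>
            Good E K s δ KK e0 i ω ∧ MM E K s δ e0 i ω ≤ 9 / 10 * E.card) := by
      unfold Pr
      congr 1
      funext ω
      by_cases h : (Good E K s δ KK e0 i ω ∧ MM E K s δ e0 i ω ≤ 9 / 10 * E.card) <;> simp [h]
    rw [h6, h7]
    linarith
  · intro ω1 ω2 ω' h
    have : (Gs E K s δ e0 i hi ω1 ω') = (Gs E K s δ e0 i hi ω2 ω') := by
      funext f
      exact Gs_past i hi h f
    simp only [this]
  · intro ω ω1 ω2 h
    have : (Gs E K s δ e0 i hi ω ω1) = (Gs E K s δ e0 i hi ω ω2) := by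
      funext f
      exact Gs_fresh i hi h f
    simp only [this]

theorem main_grow (hK : IsKer E K s χ) (hE : Expands E K c0) (he0 : e0 ∈ E)
    (hnum : Num r E.card s δ KK c0 T m q) :
    ∃ p, δ ≤ p ∧ p ≤ 2 * δ ∧ ∃ i < T, 9 / 10 ≤
      Pr p (fun ω : V × Fin T × Fin (m + 1) → Bool => 9 / 10 * (E.card : ℝ) < MM E K s δ e0 i ω) := by
  have hδ := hnum.hδ
  have hs : 0 < s := lt_of_lt_of_le one_pos hnum.hs
  have hN : (1 : ℝ) ≤ E.card := hnum.hN
  have hLmax := (Lmax_pos hN)
  obtain ⟨p, hp, hp2, hsum⟩ := rate_choice (T := T) (m := m) hK he0 hδ hnum.hδ1 hnum.hoff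
  refine ⟨p, hp, hp2, ?_⟩
  have hp0 : 0 ≤ p := le_trans hδ.le hp
  have hp1 : p ≤ 1 := by have := hnum.hδ1; linarith
  set D := (6 * r / s + 4 * (16 * kap r (δ * s)) ^ (m + 1)
            + kapa r (δ * s) (Cmx m KK) ^ (m + 1) * (Lmax E.card + 1)
            + Lmax E.card * (T * kap3 r (δ * s) KK m q)) with hD
  -- partial sums
  have hpart : ∀ j, j ≤ T →
      Ex p (fun ω : V × Fin T × Fin (m + 1) → Bool => Lam E.card (MM E K s δ e0 j ω))
        + cgain E.card c0 * ∑ i ∈ range j, Pr p (fun ω : V × Fin T × Fin (m + 1) → Bool =>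
            Good E K s δ KK e0 i ω ∧ MM E K s δ e0 i ω ≤ 9 / 10 * E.card)
      ≤ Lmax E.card + 6 * (∑ i ∈ range j, Ex p (fun ω : V × Fin T × Fin (m + 1) → Bool =>
            ww E.card (MM E K s δ e0 i ω) * Loss E K s δ e0 i ω)) + j * D := by
    intro j
    induction j with
    | zero =>
      intro _
      simp only [Finset.range_zero, Finset.sum_empty, mul_zero, add_zero, Nat.cast_zero, zero_mul]
      rw [← Ex_const (B := V × Fin T × Fin (m + 1)) p (Lmax E.card)]
      refine Ex_mono hp0 hp1 fun ω => ?_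
      exact Lam_le hN (MM_nonneg hK hδ _ _) (MM_le hK he0 hδ _ _)
    | succ j ih =>
      intro hj
      have h1 := ih (by omega)
      have h2 := potential_step hK hE he0 hnum (show j < T by omega) hp hp2
      rw [Finset.sum_range_succ, Finset.sum_range_succ]
      push_cast
      rw [← hD] at h2
      linarith
  have hfin := hpart T le_rfl
  have hc : 0 < cgain E.card c0 := by
    unfold cgain
    have := hnum.hc0
    have h0 : 0 ≤ Real.log (E.card : ℝ) := Real.log_nonneg hN
    exact lt_min (by positivity) (by positivity)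
  have hT1 : (1 : ℝ) ≤ T := by exact_mod_cast hnum.hT1
  have hE0 : 0 ≤ Ex p (fun ω : V × Fin T × Fin (m + 1) → Bool => Lam E.card (MM E K s δ e0 T ω)) :=
    Ex_nonneg hp0 hp1 fun ω => Lam_nonneg hN (MM_nonneg hK hδ _ _) (MM_le hK he0 hδ _ _)
  have hbound : ∑ i ∈ range T, Pr p (fun ω : V × Fin T × Fin (m + 1) → Bool =>
            Good E K s δ KK e0 i ω ∧ MM E K s δ e0 i ω ≤ 9 / 10 * E.card) ≤ T * (1 / 20) := by
    have h1 := hnum.hT
    have h2 := hnum.herr
    have h3 : cgain E.card c0 * ∑ i ∈ range T, Pr p (fun ω : V × Fin T × Fin (m + 1) → Bool =>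
            Good E K s δ KK e0 i ω ∧ MM E K s δ e0 i ω ≤ 9 / 10 * E.card)
        ≤ cgain E.card c0 * (T * (1 / 20)) := by
      have h4 : 6 * (4 * T * Lmax E.card / s) = T * (24 * Lmax E.card / s) := by ring
      have h5 : T * (24 * Lmax E.card / s) + T * D ≤ T * (cgain E.card c0 / 40) := by
        rw [← mul_add]
        apply mul_le_mul_of_nonneg_left _ (by positivity)
        rw [hD]
        linarith
      nlinarith
    exact le_of_mul_le_mul_left h3 hc
  obtain ⟨i, hi, hPi⟩ : ∃ i ∈ range T, Pr p (fun ω : V × Fin T × Fin (m + 1) → Bool =>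
            Good E K s δ KK e0 i ω ∧ MM E K s δ e0 i ω ≤ 9 / 10 * E.card) ≤ 1 / 20 := by
    by_contra hcon
    push Not at hcon
    have : (T : ℝ) * (1 / 20) < ∑ i ∈ range T, Pr p (fun ω : V × Fin T × Fin (m + 1) → Bool =>
            Good E K s δ KK e0 i ω ∧ MM E K s δ e0 i ω ≤ 9 / 10 * E.card) := by
      have hne : (range T).Nonempty := ⟨0, Finset.mem_range.2 (by have := hnum.hT1; omega)⟩
      calc (T : ℝ) * (1 / 20) = ∑ i ∈ range T, (1 / 20 : ℝ) := by simp
        _ < _ := Finset.sum_lt_sum_of_nonempty hne hcon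
    linarith
  rw [Finset.mem_range] at hi
  refine ⟨i, hi, ?_⟩
  have hgf := Good_fail hK he0 hnum hi.le hp hp2
  have h3 : (0 : ℝ) ≤ kap3 r (δ * s) KK m q := by
    unfold kap3 kapa
    have hκ0 : 0 ≤ kap r (δ * s) := Main_kap_nonneg r (by positivity)
    have := hnum.hK
    have hC0 : 0 ≤ Cmx m KK := by
      unfold Cmx
      positivity
    positivity
  have h4 : (i : ℝ) * kap3 r (δ * s) KK m q ≤ T * kap3 r (δ * s) KK m q := by
    apply mul_le_mul_of_nonneg_right _ h3
    exact_mod_cast hi.le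
  have h5 := hnum.hfail
  have h6 : Pr p (fun ω : V × Fin T × Fin (m + 1) → Bool =>
      ¬ (9 / 10 * (E.card : ℝ) < MM E K s δ e0 i ω)) ≤
      Pr p (fun ω : V × Fin T × Fin (m + 1) → Bool =>
            (Good E K s δ KK e0 i ω ∧ MM E K s δ e0 i ω ≤ 9 / 10 * E.card) ∨
            ¬ Good E K s δ KK e0 i ω) := by
    refine Pr_mono hp0 hp1 fun ω h => ?_
    by_cases hg : Good E K s δ KK e0 i ω
    · exact Or.inl ⟨hg, not_lt.1 h⟩
    · exact Or.inr hg
  have h7 := Pr_or_le hp0 hp1 (fun ω : V × Fin T × Fin (m + 1) → Bool =>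
            (Good E K s δ KK e0 i ω ∧ MM E K s δ e0 i ω ≤ 9 / 10 * E.card))
            (fun ω => ¬ Good E K s δ KK e0 i ω)
  rw [Pr_not] at h6
  linarith

end Pool.H18.TC
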