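import Pool.Agent.H18.TC.OneDef

/-! S1, first part: means, variances and pointwise bounds for one round -/

open Finset
open Classical

namespace Pool.H18.TC

variable {r : ℕ} {V : Type*} [Fintype V] {B : Type*} [Fintype B] {m : ℕ}
variable {E : Finset (Fin r → V)} {K : (Fin r → V) → (Fin r → V) → ℝ} {s : ℝ} {χ : V → Fin r}
  {δ C : ℝ} {e0 : Fin r → V} {g : (Fin r → V) → ℝ} {gf : (Fin r → V) → (Fin r → V) → ℝ}
  {ι : Fin (m + 1) → V → B}

theorem psi_low {y Y : ℝ} (hy : y ≤ 1 / 4) : 2 * Y - 2 * (Y - y) ^ 2 ≤ psi Y := by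
  unfold psi
  refine le_min ?_ ?_
  · nlinarith [sq_nonneg (Y - y - 1 / 2)]
  · nlinarith [sq_nonneg (Y - y)]

theorem psi_mid {y Y : ℝ} (hy : 1 / 4 ≤ y) (hy1 : y ≤ 3 / 4) (hY : 0 ≤ Y) :
    y + 3 / 16 - 16 * (Y - y) ^ 2 ≤ psi Y := by
  unfold psi
  refine le_min ?_ ?_
  · nlinarith [sq_nonneg (Y - y)]
  · nlinarith [sq_nonneg (Y - y + 1 / 16)]

theorem psi_sat {y Y : ℝ} (hy : 3 / 4 ≤ y) (hY : 0 ≤ Y) : 1 - 16 * (Y - y) ^ 2 ≤ psi Y := by
  unfold psi
  refine le_min ?_ ?_
  · nlinarith [sq_nonneg (Y - y)]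
  · nlinarith [sq_nonneg (Y - y + 1 / 16)]

theorem psi_sat' {Y : ℝ} (hY : 0 ≤ Y) : 1 - (if Y < 1 / 2 then 1 else 0) ≤ psi Y := by
  unfold psi
  split_ifs with h
  · rw [sub_self]
    exact le_min zero_le_one (by linarith)
  · rw [sub_zero]
    exact le_min le_rfl (by linarith)

theorem psi_nonneg' {Y : ℝ} (hY : 0 ≤ Y) : 0 ≤ psi Y := le_min zero_le_one (by linarith)

theorem psi_le_one' (Y : ℝ) : psi Y ≤ 1 := min_le_left _ _

theorem Step.g0 (h : Step E K s χ δ C e0 g gf ι) (e) : 0 ≤ g e := (h.gf0 e e).trans (h.gfg e e)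

theorem Step.injE (h : Step E K s χ δ C e0 g gf ι) {e} (he : e ∈ E) : Function.Injective e := by
  intro k l hkl
  rw [← h.ker.part e he k, ← h.ker.part e he l, hkl]

theorem Step.injι (h : Step E K s χ δ C e0 g gf ι) (a) : Function.Injective (ι a) :=
  fun _ _ hvw => (h.inj _ _ _ _ hvw).2

theorem yy_nonneg (h : Step E K s χ δ C e0 g gf ι) (f) : 0 ≤ yy E K gf f :=
  Finset.sum_nonneg fun e _ => mul_nonneg (h.gf0 f e) (h.ker.nonneg e f)

theorem yy_le_push (h : Step E K s χ δ C e0 g gf ι) (f) : yy E K gf f ≤ push E K g f := by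
  unfold yy push
  calc ∑ e ∈ E.filter (fun e => Dj e f), gf f e * K e f
      ≤ ∑ e ∈ E.filter (fun e => Dj e f), g e * K e f :=
        Finset.sum_le_sum fun e _ => mul_le_mul_of_nonneg_right (h.gfg f e) (h.ker.nonneg e f)
    _ ≤ ∑ e ∈ E, g e * K e f :=
        Finset.sum_le_sum_of_subset_of_nonneg (Finset.filter_subset _ _)
          fun e _ _ => mul_nonneg (h.g0 e) (h.ker.nonneg e f)

theorem push_nonneg' (h : Step E K s χ δ C e0 g gf ι) (f) : 0 ≤ push E K g f :=
  Finset.sum_nonneg fun e _ => mul_nonneg (h.g0 e) (h.ker.nonneg e f)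

theorem push_le_one' (h : Step E K s χ δ C e0 g gf ι) {f} (hf : f ∈ E) : push E K g f ≤ 1 := by
  unfold push
  calc ∑ e ∈ E, g e * K e f ≤ ∑ e ∈ E, 1 * K e f :=
        Finset.sum_le_sum fun e he => mul_le_mul_of_nonneg_right (h.g1 e he) (h.ker.nonneg e f)
    _ = 1 := by simp only [one_mul]; exact h.ker.col f hf

theorem yy_le_one (h : Step E K s χ δ C e0 g gf ι) {f} (hf : f ∈ E) : yy E K gf f ≤ 1 :=
  (yy_le_push h f).trans (push_le_one' h hf)

theorem YY_nonneg (h : Step E K s χ δ C e0 g gf ι) (ω a f) : 0 ≤ YY E K δ gf ι ω a f :=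
  Finset.sum_nonneg fun e _ => mul_nonneg (pow_nonneg (by have := h.δ0; positivity) _)
    (mul_nonneg (h.gf0 f e) (h.ker.nonneg e f))

theorem one_YY_eq (E : Finset (Fin r → V)) (K) (δ : ℝ) (gf) (ι : Fin (m + 1) → V → B) (ω : B → Bool)
    (a f) : YY E K δ gf ι ω a f = ∑ e ∈ (E.filter (fun e => Dj e f)).filter (fun e => Fire ι ω a e),
      (1 / δ) ^ r * (gf f e * K e f) := by
  unfold YY
  refine Finset.sum_congr ?_ fun _ _ => rfl
  ext e
  simp only [Finset.mem_filter, and_assoc]

theorem Ex_YY (h : Step E K s χ δ C e0 g gf ι) (a f) :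
    Ex δ (fun ω => YY E K δ gf ι ω a f) = yy E K gf f := by
  have h1 := Ex_fire (E.filter (fun e => Dj e f)) (fun e he => h.injE (Finset.mem_filter.1 he).1)
    ι a (h.injι a) h.δ0 (fun e => gf f e * K e f)
  have h2 : (fun ω => YY E K δ gf ι ω a f) = fun ω =>
      ∑ e ∈ (E.filter (fun e => Dj e f)).filter (fun e => Fire ι ω a e),
        (1 / δ) ^ r * (gf f e * K e f) := by
    funext ω
    exact one_YY_eq E K δ gf ι ω a f
  rw [h2, h1]
  rfl

theorem Var_YY (h : Step E K s χ δ C e0 g gf ι) (a) {f} (hf : f ∈ E) :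
    Ex δ (fun ω => (YY E K δ gf ι ω a f - yy E K gf f) ^ 2) ≤ kap r (δ * s) * yy E K gf f := by
  have h1 := Var_fire (E.filter (fun e => Dj e f)) χ
    (fun e he => h.ker.part e (Finset.mem_filter.1 he).1) ι a (h.injι a) h.δ0 h.δ1
    (fun e => gf f e * K e f) (fun e => mul_nonneg (h.gf0 f e) (h.ker.nonneg e f)) (D := 1) (s := s)
    (lt_of_lt_of_le one_pos h.ker.one_le) (by
      intro T τ _
      rw [one_mul]
      refine le_trans ?_ (h.ker.colT f hf T τ)
      unfold star
      rw [Finset.filter_filter]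
      calc ∑ x ∈ E.filter (fun x => Dj x f ∧ ∀ k ∈ T, x k = τ k), gf f x * K x f
          ≤ ∑ x ∈ E.filter (fun x => Dj x f ∧ ∀ k ∈ T, x k = τ k), K x f := by
            refine Finset.sum_le_sum fun x hx => ?_
            have hxE := (Finset.mem_filter.1 hx).1
            have h3 : gf f x ≤ 1 := (h.gfg f x).trans (h.g1 x hxE)
            calc gf f x * K x f ≤ 1 * K x f := mul_le_mul_of_nonneg_right h3 (h.ker.nonneg x f)
              _ = K x f := one_mul _
        _ ≤ ∑ x ∈ E.filter (fun x => ∀ k ∈ T, x k = τ k), K x f := by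
            refine Finset.sum_le_sum_of_subset_of_nonneg ?_ fun x _ _ => h.ker.nonneg x f
            intro x hx
            rw [Finset.mem_filter] at hx ⊢
            exact ⟨hx.1, hx.2.2⟩)
  rw [one_mul] at h1
  have h2 : (fun ω => (YY E K δ gf ι ω a f - yy E K gf f) ^ 2) = fun ω =>
      (∑ e ∈ (E.filter (fun e => Dj e f)).filter (fun e => Fire ι ω a e),
        (1 / δ) ^ r * (gf f e * K e f) -
          mass (E.filter (fun e => Dj e f)) (fun e => gf f e * K e f)) ^ 2 := by
    funext ω
    rw [one_YY_eq]; rfl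
  rw [h2]
  exact h1

theorem Ex_ZZ (h : Step E K s χ δ C e0 g gf ι) (a) :
    Ex δ (fun ω => ZZ E K δ gf e0 ι ω a) = 0 := by
  unfold ZZ
  rw [Ex_mul_left, Ex_sum, Finset.sum_eq_zero, mul_zero]
  intro f _
  rw [Ex_sub, Ex_const, Ex_YY h, sub_self]

theorem low_le_Gam (h : Step E K s χ δ C e0 g gf ι) :
    ∑ f ∈ (FF E e0).filter (fun f => yy E K gf f ≤ 1 / 4), yy E K gf f ≤ Gam E K gf e0 := by
  unfold Gam
  rw [Finset.sum_filter]
  refine Finset.sum_le_sum fun f hf => ?_
  have hfE : f ∈ E := (Finset.mem_filter.1 hf).1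
  have h1 := yy_le_one h hfE
  split_ifs
  · exact le_rfl
  · norm_num
  · linarith

theorem mass_nonneg' (h : Step E K s χ δ C e0 g gf ι) : 0 ≤ mass E g :=
  Finset.sum_nonneg fun e _ => h.g0 e

theorem Var_ZZ (h : Step E K s χ δ C e0 g gf ι) (a) :
    Ex δ (fun ω => (ZZ E K δ gf e0 ι ω a) ^ 2)
      ≤ 4 * kap r (δ * s) * C * mass E g * Gam E K gf e0 := by
  set L := (FF E e0).filter (fun f => yy E K gf f ≤ 1 / 4) with hL
  set hh : (Fin r → V) → ℝ := fun e => ∑ f ∈ L.filter (fun f => Dj e f), gf f e * K e f with hhd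
  have hLE : ∀ f ∈ L, f ∈ E := fun f hf =>
    (Finset.mem_filter.1 (Finset.mem_filter.1 hf).1).1
  have hh0 : ∀ e, 0 ≤ hh e := fun e => Finset.sum_nonneg fun f _ =>
    mul_nonneg (h.gf0 f e) (h.ker.nonneg e f)
  have hhg : ∀ e ∈ E, hh e ≤ g e := by
    intro e he
    calc hh e ≤ ∑ f ∈ L.filter (fun f => Dj e f), g e * K e f :=
          Finset.sum_le_sum fun f _ => mul_le_mul_of_nonneg_right (h.gfg f e) (h.ker.nonneg e f)
      _ ≤ ∑ f ∈ E, g e * K e f := by
          refine Finset.sum_le_sum_of_subset_of_nonneg ?_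
            fun f _ _ => mul_nonneg (h.g0 e) (h.ker.nonneg e f)
          intro f hf
          exact hLE f (Finset.mem_filter.1 hf).1
      _ = g e := by rw [← Finset.mul_sum, h.ker.row e he, mul_one]
  have hmass : mass E hh = ∑ f ∈ L, yy E K gf f := by
    unfold mass yy
    simp only [hhd, Finset.sum_filter]
    exact Finset.sum_comm
  have hZ : ∀ ω, ZZ E K δ gf e0 ι ω a =
      2 * (∑ e ∈ E.filter (fun e => Fire ι ω a e), (1 / δ) ^ r * hh e - mass E hh) := by
    intro ω
    unfold ZZ
    rw [Finset.sum_sub_distrib, hmass]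
    congr 2
    have h1 : ∀ f, YY E K δ gf ι ω a f = ∑ e ∈ E, if Fire ι ω a e then
        (if Dj e f then (1 / δ) ^ r * (gf f e * K e f) else 0) else 0 := by
      intro f
      rw [one_YY_eq, Finset.sum_filter, Finset.sum_filter]
      refine Finset.sum_congr rfl fun e _ => ?_
      by_cases h2 : Dj e f <;> by_cases h3 : Fire ι ω a e <;> simp [h2, h3]
    simp only [h1]
    rw [Finset.sum_comm, Finset.sum_filter]
    refine Finset.sum_congr rfl fun e _ => ?_
    by_cases h3 : Fire ι ω a e
    · simp only [h3, if_true, hhd]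
      rw [Finset.mul_sum, Finset.sum_filter, Finset.sum_filter, hL, Finset.sum_filter]
    · simp only [h3, if_false, Finset.sum_const_zero]
  have h1 := Var_fire E χ (fun e he => h.ker.part e he) ι a (h.injι a) h.δ0 h.δ1
    hh hh0 (D := C * mass E g) (s := s)
    (lt_of_lt_of_le one_pos h.ker.one_le) (by
      intro T τ hT
      have h2 := h.spread T τ hT
      calc star E hh T τ ≤ star E g T τ :=
            Finset.sum_le_sum fun x hx => hhg x (Finset.mem_filter.1 hx).1
        _ ≤ C * (1 / s) ^ T.card * mass E g := h2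
        _ = C * mass E g * (1 / s) ^ T.card := by ring)
  have h2 : (fun ω => (ZZ E K δ gf e0 ι ω a) ^ 2) = fun ω => 4 *
      (∑ e ∈ E.filter (fun e => Fire ι ω a e), (1 / δ) ^ r * hh e - mass E hh) ^ 2 := by
    funext ω
    rw [hZ]; ring
  rw [h2, Ex_mul_left]
  have h3 : mass E hh ≤ Gam E K gf e0 := by
    rw [hmass]; exact low_le_Gam h
  have hkap : 0 ≤ kap r (δ * s) := by
    unfold kap
    have h4 : (0 : ℝ) ≤ 1 / (δ * s) := by
      have := h.δ0
      have := lt_of_lt_of_le one_pos h.ker.one_le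
      positivity
    have h5 : (1 : ℝ) ≤ (1 + 1 / (δ * s)) ^ r := one_le_pow₀ (by linarith)
    linarith
  have hC0 : 0 ≤ C * mass E g * kap r (δ * s) :=
    mul_nonneg (mul_nonneg (by linarith [h.C0]) (mass_nonneg' h)) hkap
  have h4 := mul_le_mul_of_nonneg_left h3 hC0
  calc 4 * _ ≤ 4 * (C * mass E g * kap r (δ * s) * mass E hh) := by linarith
    _ ≤ 4 * (C * mass E g * kap r (δ * s) * Gam E K gf e0) := by linarith
    _ = _ := by ring

/-- the states that meet a fixed state -/
theorem one_meet (h : IsKer E K s χ) {e x : Fin r → V} (he : e ∈ E) (hx : x ∈ E) :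
    ∑ f ∈ E.filter (fun f => ¬ Dj f x), K e f ≤ r / s := by
  have h1 : ∑ f ∈ E.filter (fun f => ¬ Dj f x), K e f ≤
      ∑ k : Fin r, ∑ f ∈ E.filter (fun f => f k = x k), K e f := by
    simp only [Finset.sum_filter]
    rw [Finset.sum_comm]
    refine Finset.sum_le_sum fun f hf => ?_
    by_cases hD : Dj f x
    · rw [if_neg (not_not.2 hD)]
      exact Finset.sum_nonneg fun k _ => by
        split_ifs
        · exact h.nonneg e f
        · exact le_rfl
    · rw [if_pos hD]
      unfold Dj at hD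
      push Not at hD
      obtain ⟨k, l, hkl⟩ := hD
      have hkl' : k = l := by
        rw [← h.part f hf k, ← h.part x hx l, hkl]
      subst hkl'
      calc K e f = if f k = x k then K e f else 0 := by rw [if_pos hkl]
        _ ≤ ∑ k, if f k = x k then K e f else 0 :=
          Finset.single_le_sum (f := fun k => if f k = x k then K e f else 0) (fun k _ => by
            show 0 ≤ if f k = x k then K e f else 0
            split_ifs
            · exact h.nonneg e f
            · exact le_rfl) (Finset.mem_univ k)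
  refine h1.trans ?_
  calc ∑ k : Fin r, ∑ f ∈ E.filter (fun f => f k = x k), K e f ≤ ∑ _k : Fin r, 1 / s := by
        refine Finset.sum_le_sum fun k _ => ?_
        have h2 := h.rowT e he {k} x
        rw [Finset.card_singleton, pow_one] at h2
        refine le_trans (le_of_eq ?_) h2
        unfold star
        refine Finset.sum_congr ?_ fun _ _ => rfl
        ext f
        simp
    _ = r / s := by
        rw [Finset.sum_const, Finset.card_univ, Fintype.card_fin, nsmul_eq_mul]; ring

theorem one_mass_eq (h : Step E K s χ δ C e0 g gf ι) :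
    mass E g = ∑ e ∈ E, ∑ f ∈ E, g e * K e f := by
  unfold mass
  refine Finset.sum_congr rfl fun e he => ?_
  rw [← Finset.mul_sum, h.ker.row e he, mul_one]

theorem sum_push (h : Step E K s χ δ C e0 g gf ι) : ∑ f ∈ E, push E K g f = mass E g := by
  rw [one_mass_eq h, Finset.sum_comm]; rfl

/-- total expected mass: the loss is the vertex avoidance and the states meeting `f` or `e0` -/
theorem sum_yy_ge (h : Step E K s χ δ C e0 g gf ι) :
    mass E g - (loss1 E K g gf + 2 * r / s * mass E g) ≤ ∑ f ∈ FF E e0, yy E K gf f := by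
  have hDc : ∀ x y : Fin r → V, Dj x y ↔ Dj y x := fun x y =>
    ⟨fun h k l hkl => h l k hkl.symm, fun h k l hkl => h l k hkl.symm⟩
  have h1 : ∑ f ∈ FF E e0, yy E K gf f =
      ∑ e ∈ E, ∑ f ∈ E, if Dj f e0 ∧ Dj e f then gf f e * K e f else 0 := by
    unfold FF yy
    rw [Finset.sum_filter, Finset.sum_comm]
    refine Finset.sum_congr rfl fun f _ => ?_
    by_cases h2 : Dj f e0
    · simp only [h2, if_true, true_and, Finset.sum_filter]
    · simp only [h2, if_false, false_and, Finset.sum_const_zero]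
  have h2 : mass E g - loss1 E K g gf = ∑ e ∈ E, ∑ f ∈ E, gf f e * K e f := by
    rw [one_mass_eq h]
    unfold loss1
    rw [← Finset.sum_sub_distrib]
    refine Finset.sum_congr rfl fun e _ => ?_
    rw [← Finset.sum_sub_distrib]
    exact Finset.sum_congr rfl fun f _ => by ring
  have h3 : ∑ e ∈ E, ∑ f ∈ E, gf f e * K e f ≤
      ∑ e ∈ E, ∑ f ∈ E, (if Dj f e0 ∧ Dj e f then gf f e * K e f else 0) + 2 * r / s * mass E g := by
    have h4 : 2 * r / s * mass E g = ∑ e ∈ E, g e * (r / s + r / s) := by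
      unfold mass
      rw [Finset.mul_sum]
      exact Finset.sum_congr rfl fun e _ => by ring
    rw [h4, ← Finset.sum_add_distrib]
    refine Finset.sum_le_sum fun e he => ?_
    have h5 := one_meet h.ker he h.e0E
    have h6 := one_meet h.ker he he
    have h7 : ∑ f ∈ E, gf f e * K e f ≤ ∑ f ∈ E, (if Dj f e0 ∧ Dj e f then gf f e * K e f else 0) +
        g e * (∑ f ∈ E.filter (fun f => ¬ Dj f e0), K e f +
          ∑ f ∈ E.filter (fun f => ¬ Dj f e), K e f) := by
      rw [Finset.sum_filter, Finset.sum_filter, ← Finset.sum_add_distrib, Finset.mul_sum,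
        ← Finset.sum_add_distrib]
      refine Finset.sum_le_sum fun f _ => ?_
      have hK := h.ker.nonneg e f
      have hg := h.g0 e
      have hgK : gf f e * K e f ≤ g e * K e f := mul_le_mul_of_nonneg_right (h.gfg f e) hK
      have hgK0 : 0 ≤ g e * K e f := mul_nonneg hg hK
      have hfe := hDc f e
      by_cases a1 : Dj f e0 <;> by_cases a2 : Dj e f
      · have a3 : Dj f e := hfe.2 a2
        simp [a1, a2, a3]
      · have a3 : ¬ Dj f e := fun h => a2 (hfe.1 h)
        simp only [a1, a2, a3, and_false, if_false, not_true_eq_false, not_false_eq_true, if_true]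
        linarith
      · have a3 : Dj f e := hfe.2 a2
        simp only [a1, a2, a3, and_true, if_false, not_true_eq_false, not_false_eq_true, if_true]
        linarith
      · have a3 : ¬ Dj f e := fun h => a2 (hfe.1 h)
        simp only [a1, a2, a3, and_false, if_false, not_false_eq_true, if_true]
        linarith
    refine h7.trans ?_
    have := mul_le_mul_of_nonneg_left (add_le_add h5 h6) (h.g0 e)
    linarith
  rw [h1]
  linarith

theorem sum_yy_le (h : Step E K s χ δ C e0 g gf ι) :
    ∑ f ∈ FF E e0, yy E K gf f ≤ mass E g := by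
  rw [← sum_push h]
  calc ∑ f ∈ FF E e0, yy E K gf f ≤ ∑ f ∈ FF E e0, push E K g f :=
        Finset.sum_le_sum fun f _ => yy_le_push h f
    _ ≤ ∑ f ∈ E, push E K g f :=
        Finset.sum_le_sum_of_subset_of_nonneg (Finset.filter_subset _ _)
          fun f _ _ => push_nonneg' h f

theorem Gam_nonneg (h : Step E K s χ δ C e0 g gf ι) : 0 ≤ Gam E K gf e0 := by
  unfold Gam
  refine Finset.sum_nonneg fun f hf => ?_
  have hfE : f ∈ E := (Finset.mem_filter.1 hf).1
  have h1 := yy_le_one h hfE
  have h2 := yy_nonneg h f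
  split_ifs
  · exact h2
  · norm_num
  · linarith

theorem Gam_le (h : Step E K s χ δ C e0 g gf ι) : Gam E K gf e0 ≤ mass E g := by
  refine le_trans ?_ (sum_yy_le h)
  unfold Gam
  refine Finset.sum_le_sum fun f _ => ?_
  split_ifs with h1 h2
  · exact le_rfl
  · push Not at h1; linarith
  · push Not at h1 h2; linarith

/-- the gain is at least `(3/8) ∑ min(y,1-y)`, compared with the expansion term -/
theorem Gam_ge (h : Step E K s χ δ C e0 g gf ι) :
    3 / 8 * (∑ f ∈ E, min (push E K g f) (1 - push E K g f)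
        - (loss1 E K g gf + 2 * r / s * mass E g)) ≤ Gam E K gf e0 := by
  have h1 : 3 / 8 * ∑ f ∈ FF E e0, min (yy E K gf f) (1 - yy E K gf f) ≤ Gam E K gf e0 := by
    unfold Gam
    rw [Finset.mul_sum]
    refine Finset.sum_le_sum fun f hf => ?_
    have hfE : f ∈ E := (Finset.mem_filter.1 hf).1
    have h2 := yy_nonneg h f
    have h3 := yy_le_one h hfE
    have h4 := min_le_left (yy E K gf f) (1 - yy E K gf f)
    have h5 := min_le_right (yy E K gf f) (1 - yy E K gf f)
    split_ifs
    · linarith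
    · linarith
    · linarith
  have h2 : ∑ f ∈ E, min (push E K g f) (1 - push E K g f) ≤
      ∑ f ∈ FF E e0, min (yy E K gf f) (1 - yy E K gf f) +
        (∑ f ∈ E, push E K g f - ∑ f ∈ FF E e0, yy E K gf f) := by
    unfold FF
    rw [Finset.sum_filter, Finset.sum_filter, ← Finset.sum_sub_distrib, ← Finset.sum_add_distrib]
    refine Finset.sum_le_sum fun f _ => ?_
    have h3 := yy_le_push h f
    split_ifs
    · rcases le_total (yy E K gf f) (1 - yy E K gf f) with h4 | h4
      · rw [min_eq_left h4]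
        have := min_le_left (push E K g f) (1 - push E K g f)
        linarith
      · rw [min_eq_right h4]
        have := min_le_right (push E K g f) (1 - push E K g f)
        linarith
    · have := min_le_left (push E K g f) (1 - push E K g f)
      linarith
  have h3 := sum_yy_ge h
  rw [sum_push h] at h2
  linarith

/-- lower bound for the new mass using the copy `a` only -/
theorem mass_gnew_ge (h : Step E K s χ δ C e0 g gf ι) (ω) (a) :
    ∑ f ∈ FF E e0, psi (YY E K δ gf ι ω a f) ≤ mass E (gnew E K δ e0 gf ι ω) := by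
  unfold mass FF gnew
  rw [Finset.sum_filter]
  refine Finset.sum_le_sum fun f _ => ?_
  split_ifs
  · exact Finset.le_sup' (fun a => psi (YY E K δ gf ι ω a f)) (Finset.mem_univ a)
  · exact le_rfl

/-- the new mass function only depends on the bits read by `ι` -/
theorem gnew_congr (E : Finset (Fin r → V)) (K) (δ : ℝ) (e0) (gf) (ι : Fin (m + 1) → V → B)
    {ω ω' : B → Bool} (h : ∀ a v, ω (ι a v) = ω' (ι a v)) (f) :
    gnew E K δ e0 gf ι ω f = gnew E K δ e0 gf ι ω' f := by
  have h1 : ∀ a, YY E K δ gf ι ω a f = YY E K δ gf ι ω' a f := by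
    intro a
    unfold YY
    refine Finset.sum_congr ?_ fun _ _ => rfl
    ext e
    rw [Finset.mem_filter, Finset.mem_filter]
    unfold Fire
    simp only [h]
  unfold gnew
  simp only [h1]

theorem gnew_nonneg (h : Step E K s χ δ C e0 g gf ι) (ω f) : 0 ≤ gnew E K δ e0 gf ι ω f := by
  unfold gnew
  split_ifs
  · exact (psi_nonneg' (YY_nonneg h ω 0 f)).trans
      (Finset.le_sup' (fun a => psi (YY E K δ gf ι ω a f)) (Finset.mem_univ 0))
  · exact le_rfl

theorem gnew_le_one (E : Finset (Fin r → V)) (K) (δ : ℝ) (e0) (gf) (ι : Fin (m + 1) → V → B)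
    (ω : B → Bool) (f) : gnew E K δ e0 gf ι ω f ≤ 1 := by
  unfold gnew
  split_ifs
  · exact Finset.sup'_le _ _ fun a _ => psi_le_one' _
  · exact zero_le_one

end Pool.H18.TC
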