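import Pool.Agent.H18.TC.VarF
import Pool.Agent.H18.TC.LamL

/-! definitions for the analysis of one round -/

open Finset
open Classical

namespace Pool.H18.TC

variable {r : ℕ} {V : Type*} [Fintype V] {B : Type*} [Fintype B] {m : ℕ}

/-- the mass lost in one round -/
noncomputable def loss1 (E : Finset (Fin r → V)) (K : (Fin r → V) → (Fin r → V) → ℝ)
    (g : (Fin r → V) → ℝ) (gf : (Fin r → V) → (Fin r → V) → ℝ) : ℝ :=
  ∑ e ∈ E, ∑ f ∈ E, (g e - gf f e) * K e f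

/-- hypotheses for the analysis of one round -/
structure Step (E : Finset (Fin r → V)) (K : (Fin r → V) → (Fin r → V) → ℝ) (s : ℝ) (χ : V → Fin r)
    (δ C : ℝ) (e0 : Fin r → V) (g : (Fin r → V) → ℝ) (gf : (Fin r → V) → (Fin r → V) → ℝ)
    (ι : Fin (m + 1) → V → B) : Prop where
  ker : IsKer E K s χ
  hr : 1 ≤ r
  δ0 : 0 < δ
  δ1 : δ ≤ 1
  e0E : e0 ∈ E
  gf0 : ∀ f e, 0 ≤ gf f e
  gfg : ∀ f e, gf f e ≤ g e
  g1 : ∀ e ∈ E, g e ≤ 1
  C0 : 1 ≤ C
  inj : ∀ a b v w, ι a v = ι b w → a = b ∧ v = w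
  spread : ∀ (T : Finset (Fin r)) (τ : Fin r → V), T.Nonempty →
      star E g T τ ≤ C * (1 / s) ^ T.card * mass E g
  lam : loss1 E K g gf + 2 * r / s * mass E g ≤ mass E g / 8

/-- expected value of `YY` -/
noncomputable def yy (E : Finset (Fin r → V)) (K : (Fin r → V) → (Fin r → V) → ℝ)
    (gf : (Fin r → V) → (Fin r → V) → ℝ) (f : Fin r → V) : ℝ :=
  ∑ e ∈ E.filter (fun e => Dj e f), gf f e * K e f

/-- the states that are allowed -/
noncomputable def FF (E : Finset (Fin r → V)) (e0 : Fin r → V) : Finset (Fin r → V) :=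
  E.filter (fun f => Dj f e0)

/-- gain of one round -/
noncomputable def Gam (E : Finset (Fin r → V)) (K : (Fin r → V) → (Fin r → V) → ℝ)
    (gf : (Fin r → V) → (Fin r → V) → ℝ) (e0 : Fin r → V) : ℝ :=
  ∑ f ∈ FF E e0, (if yy E K gf f ≤ 1 / 4 then yy E K gf f
    else if yy E K gf f < 3 / 4 then 3 / 16 else 1 - yy E K gf f)

/-- the linear fluctuation -/
noncomputable def ZZ (E : Finset (Fin r → V)) (K : (Fin r → V) → (Fin r → V) → ℝ) (δ : ℝ)
    (gf : (Fin r → V) → (Fin r → V) → ℝ) (e0 : Fin r → V) (ι : Fin (m + 1) → V → B) (ω : B → Bool)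
    (a : Fin (m + 1)) : ℝ :=
  2 * ∑ f ∈ (FF E e0).filter (fun f => yy E K gf f ≤ 1 / 4), (YY E K δ gf ι ω a f - yy E K gf f)

end Pool.H18.TC
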