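import Pool.Agent.H18.TC.Defs

/-! P1: toolkit for finite product Bernoulli spaces -/

open Finset
open Classical

namespace Pool.H18.TC

variable {B : Type*} [Fintype B]

theorem wt_nonneg {p : ℝ} (h0 : 0 ≤ p) (h1 : p ≤ 1) (ω : B → Bool) : 0 ≤ wt p ω := by
  unfold wt
  refine Finset.prod_nonneg fun b _ => ?_
  split_ifs
  · exact h0
  · linarith

theorem Prob_sum_prod (f : B → Bool → ℝ) :
    ∑ ω : B → Bool, ∏ b, f b (ω b) = ∏ b, (f b true + f b false) := by
  have h := Finset.prod_univ_sum (fun _ : B => (univ : Finset Bool)) f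
  rw [Fintype.piFinset_univ] at h
  rw [← h]
  refine Finset.prod_congr rfl fun b _ => ?_
  simp

theorem Prob_sum_wt (p : ℝ) : ∑ ω : B → Bool, wt p ω = 1 := by
  unfold wt
  have h := Prob_sum_prod (B := B) (fun _ c => if c = true then p else 1 - p)
  rw [h]
  simp

theorem Ex_const (p c : ℝ) : Ex p (fun _ : B → Bool => c) = c := by
  unfold Ex
  rw [← Finset.sum_mul, Prob_sum_wt, one_mul]

theorem Ex_add (p : ℝ) (F G : (B → Bool) → ℝ) :
    Ex p (fun ω => F ω + G ω) = Ex p F + Ex p G := by
  unfold Ex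
  rw [← Finset.sum_add_distrib]
  exact Finset.sum_congr rfl fun ω _ => by ring

theorem Ex_sub (p : ℝ) (F G : (B → Bool) → ℝ) :
    Ex p (fun ω => F ω - G ω) = Ex p F - Ex p G := by
  unfold Ex
  rw [← Finset.sum_sub_distrib]
  exact Finset.sum_congr rfl fun ω _ => by ring

theorem Ex_mul_left (p c : ℝ) (F : (B → Bool) → ℝ) :
    Ex p (fun ω => c * F ω) = c * Ex p F := by
  unfold Ex
  rw [Finset.mul_sum]
  exact Finset.sum_congr rfl fun ω _ => by ring

theorem Ex_sum {α : Type*} (p : ℝ) (S : Finset α) (F : α → (B → Bool) → ℝ) :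
    Ex p (fun ω => ∑ x ∈ S, F x ω) = ∑ x ∈ S, Ex p (F x) := by
  unfold Ex
  rw [Finset.sum_comm]
  exact Finset.sum_congr rfl fun ω _ => by rw [Finset.mul_sum]

theorem Ex_mono {p : ℝ} (h0 : 0 ≤ p) (h1 : p ≤ 1) {F G : (B → Bool) → ℝ}
    (h : ∀ ω, F ω ≤ G ω) : Ex p F ≤ Ex p G := by
  unfold Ex
  exact Finset.sum_le_sum fun ω _ => mul_le_mul_of_nonneg_left (h ω) (wt_nonneg h0 h1 ω)

theorem Ex_nonneg {p : ℝ} (h0 : 0 ≤ p) (h1 : p ≤ 1) {F : (B → Bool) → ℝ}
    (h : ∀ ω, 0 ≤ F ω) : 0 ≤ Ex p F := by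
  unfold Ex
  exact Finset.sum_nonneg fun ω _ => mul_nonneg (wt_nonneg h0 h1 ω) (h ω)

/-- Markov -/
theorem Pr_le_of_lt {p : ℝ} (h0 : 0 ≤ p) (h1 : p ≤ 1) {F : (B → Bool) → ℝ} (hF : ∀ ω, 0 ≤ F ω)
    {A : (B → Bool) → Prop} {t : ℝ} (ht : 0 < t) (hA : ∀ ω, A ω → t ≤ F ω) :
    Pr p A ≤ Ex p F / t := by
  rw [le_div_iff₀ ht, mul_comm]
  unfold Pr
  rw [← Ex_mul_left]
  refine Ex_mono h0 h1 fun ω => ?_
  split_ifs with h
  · rw [mul_one]; exact hA ω h
  · rw [mul_zero]; exact hF ω

theorem Pr_mono {p : ℝ} (h0 : 0 ≤ p) (h1 : p ≤ 1) {A A' : (B → Bool) → Prop}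
    (h : ∀ ω, A ω → A' ω) : Pr p A ≤ Pr p A' := by
  unfold Pr
  refine Ex_mono h0 h1 fun ω => ?_
  by_cases h1 : A ω
  · rw [if_pos h1, if_pos (h ω h1)]
  · rw [if_neg h1]
    split_ifs <;> norm_num

theorem Pr_or_le {p : ℝ} (h0 : 0 ≤ p) (h1 : p ≤ 1) (A A' : (B → Bool) → Prop) :
    Pr p (fun ω => A ω ∨ A' ω) ≤ Pr p A + Pr p A' := by
  unfold Pr
  rw [← Ex_add]
  refine Ex_mono h0 h1 fun ω => ?_
  by_cases hA : A ω <;> by_cases hA' : A' ω <;> simp [hA, hA']

/-- instance-independent form of the definition of `Pr` -/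
theorem Prob_Pr_eq (p : ℝ) (A : (B → Bool) → Prop) [∀ ω, Decidable (A ω)] :
    Pr p A = Ex p (fun ω => if A ω then (1 : ℝ) else 0) := by
  unfold Pr
  congr 1
  funext ω
  by_cases hA : A ω
  · rw [if_pos hA, if_pos hA]
  · rw [if_neg hA, if_neg hA]

theorem Pr_not (p : ℝ) (A : (B → Bool) → Prop) : Pr p (fun ω => ¬ A ω) = 1 - Pr p A := by
  have h : Pr p (fun ω => ¬ A ω) + Pr p A = Ex p (fun _ : B → Bool => (1 : ℝ)) := by
    unfold Pr
    rw [← Ex_add]
    congr 1
    funext ω
    by_cases hA : A ω <;> simp [hA]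
  rw [Ex_const] at h
  linarith

theorem Pr_exists_le {α : Type*} [Fintype α] {p : ℝ} (h0 : 0 ≤ p) (h1 : p ≤ 1)
    (A : α → (B → Bool) → Prop) : Pr p (fun ω => ∃ a, A a ω) ≤ ∑ a, Pr p (A a) := by
  unfold Pr
  rw [← Ex_sum]
  refine Ex_mono h0 h1 fun ω => ?_
  by_cases hA : ∃ a, A a ω
  · rw [if_pos hA]
    obtain ⟨a, ha⟩ := hA
    have := Finset.single_le_sum (f := fun a => if A a ω then (1 : ℝ) else 0)
      (fun b _ => by split_ifs <;> norm_num) (Finset.mem_univ a)
    simpa [ha] using this
  · rw [if_neg hA]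
    exact Finset.sum_nonneg fun b _ => by split_ifs <;> norm_num

theorem Prob_merge_merge (A : Finset B) (ω ω' : B → Bool) :
    merge A (merge A ω ω') (merge A ω' ω) = ω := by
  funext b
  unfold merge
  split_ifs <;> rfl

theorem Prob_wt_merge (p : ℝ) (A : Finset B) (ω ω' : B → Bool) :
    wt p (merge A ω' ω) * wt p (merge A ω ω') = wt p ω * wt p ω' := by
  unfold wt
  rw [← Finset.prod_mul_distrib, ← Finset.prod_mul_distrib]
  refine Finset.prod_congr rfl fun b _ => ?_
  unfold merge
  by_cases h : b ∈ A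
  · simp only [if_pos h]
    ring
  · simp only [if_neg h]

/-- resampling the bits of `A` -/
theorem Ex_resample (p : ℝ) (A : Finset B) (F : (B → Bool) → ℝ) :
    Ex p F = Ex p (fun ω => Ex p (fun ω' => F (merge A ω' ω))) := by
  have hinv : Function.Involutive
      (fun x : (B → Bool) × (B → Bool) => (merge A x.2 x.1, merge A x.1 x.2)) := by
    rintro ⟨ω, ω'⟩
    simp only [Prob_merge_merge]
  have h1 : Ex p (fun ω => Ex p (fun ω' => F (merge A ω' ω)))
      = ∑ x : (B → Bool) × (B → Bool), wt p x.1 * wt p x.2 * F (merge A x.2 x.1) := by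
    unfold Ex
    rw [Fintype.sum_prod_type]
    refine Finset.sum_congr rfl fun ω _ => ?_
    rw [Finset.mul_sum]
    exact Finset.sum_congr rfl fun ω' _ => by ring
  have h2 : ∑ x : (B → Bool) × (B → Bool), wt p x.1 * wt p x.2 * F (merge A x.2 x.1)
      = ∑ x : (B → Bool) × (B → Bool), wt p x.1 * wt p x.2 * F x.1 := by
    rw [← Equiv.sum_comp hinv.toPerm
      (fun x : (B → Bool) × (B → Bool) => wt p x.1 * wt p x.2 * F x.1)]
    refine Finset.sum_congr rfl fun x _ => ?_
    simp only [Function.Involutive.coe_toPerm]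
    rw [Prob_wt_merge]
  rw [h1, h2, Fintype.sum_prod_type]
  unfold Ex
  refine Finset.sum_congr rfl fun ω _ => ?_
  have h3 : ∀ ω' : B → Bool, wt p ω * wt p ω' * F ω = wt p ω' * (wt p ω * F ω) := fun ω' => by ring
  simp only [h3]
  rw [← Finset.sum_mul, Prob_sum_wt, one_mul]

/-- independence: `F` depends only on the bits in `A`, `G` only on the bits outside `A` -/
theorem Ex_indep (p : ℝ) (A : Finset B) (F G : (B → Bool) → ℝ)
    (hF : ∀ ω ω', (∀ b ∈ A, ω b = ω' b) → F ω = F ω')
    (hG : ∀ ω ω', (∀ b, b ∉ A → ω b = ω' b) → G ω = G ω') :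
    Ex p (fun ω => F ω * G ω) = Ex p F * Ex p G := by
  rw [Ex_resample p A (fun ω => F ω * G ω)]
  have h1 : (fun ω : B → Bool => Ex p (fun ω' => F (merge A ω' ω) * G (merge A ω' ω)))
      = (fun ω => Ex p F * G ω) := by
    funext ω
    have h2 : (fun ω' : B → Bool => F (merge A ω' ω) * G (merge A ω' ω))
        = (fun ω' => G ω * F ω') := by
      funext ω'
      rw [hF (merge A ω' ω) ω' (fun b hb => by unfold merge; rw [if_pos hb]),
        hG (merge A ω' ω) ω (fun b hb => by unfold merge; rw [if_neg hb]), mul_comm]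
    rw [h2, Ex_mul_left, mul_comm]
  rw [h1, Ex_mul_left]

/-- independence of finitely many events depending on disjoint sets of bits -/
theorem Pr_forall_indep {n : ℕ} (p : ℝ) (A : Fin n → Finset B)
    (hdis : ∀ i j, i ≠ j → Disjoint (A i) (A j)) (P : Fin n → (B → Bool) → Prop)
    (hP : ∀ i ω ω', (∀ b ∈ A i, ω b = ω' b) → (P i ω ↔ P i ω')) :
    Pr p (fun ω => ∀ i, P i ω) = ∏ i, Pr p (P i) := by
  induction n with
  | zero =>
    simp only [Finset.univ_eq_empty, Finset.prod_empty]
    rw [← Ex_const (B := B) p 1]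
    unfold Pr
    congr 1
    funext ω
    exact if_pos (fun i => i.elim0)
  | succ n ih =>
    rw [Fin.prod_univ_succ]
    have ih' := ih (fun i => A i.succ) (fun i j hij => hdis _ _ (fun h => hij (Fin.succ_injective _ h)))
      (fun i => P i.succ) (fun i ω ω' h => hP i.succ ω ω' h)
    rw [← ih']
    have e1 : Pr p (P 0) = Ex p (fun ω => if P 0 ω then (1 : ℝ) else 0) := Prob_Pr_eq p _
    have e2 : Pr p (fun ω => ∀ i : Fin n, P i.succ ω)
        = Ex p (fun ω => if ∀ i : Fin n, P i.succ ω then (1 : ℝ) else 0) := Prob_Pr_eq p _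
    have e3 : Pr p (fun ω => ∀ i : Fin (n + 1), P i ω)
        = Ex p (fun ω => if ∀ i : Fin (n + 1), P i ω then (1 : ℝ) else 0) := Prob_Pr_eq p _
    rw [e1, e2, e3]
    rw [← Ex_indep p (A 0) (fun ω => if P 0 ω then (1 : ℝ) else 0)
      (fun ω => if ∀ i : Fin n, P i.succ ω then (1 : ℝ) else 0)]
    · congr 1
      funext ω
      by_cases h0 : P 0 ω
      · by_cases h1 : ∀ i : Fin n, P i.succ ω
        · rw [if_pos h0, if_pos h1, if_pos (Fin.forall_fin_succ.2 ⟨h0, h1⟩), one_mul]
        · rw [if_pos h0, if_neg h1, if_neg (fun h => h1 (Fin.forall_fin_succ.1 h).2), one_mul]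
      · rw [if_neg h0, if_neg (fun h => h0 (Fin.forall_fin_succ.1 h).1), zero_mul]
    · intro ω ω' h
      by_cases hc : P 0 ω
      · rw [if_pos hc, if_pos ((hP 0 ω ω' h).1 hc)]
      · rw [if_neg hc, if_neg (fun h' => hc ((hP 0 ω ω' h).2 h'))]
    · intro ω ω' h
      have : (∀ i : Fin n, P i.succ ω) ↔ (∀ i : Fin n, P i.succ ω') := by
        refine forall_congr' fun i => hP i.succ ω ω' fun b hb => h b fun hb0 => ?_
        exact (Finset.disjoint_left.1 (hdis 0 i.succ (Fin.succ_ne_zero i).symm)) hb0 hb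
      by_cases hc : ∀ i : Fin n, P i.succ ω
      · rw [if_pos hc, if_pos (this.1 hc)]
      · rw [if_neg hc, if_neg (fun h => hc (this.2 h))]

theorem Prob_all (p : ℝ) (A : Finset B) (c : Bool) :
    Pr p (fun ω => ∀ b ∈ A, ω b = c) = (if c = true then p else 1 - p) ^ A.card := by
  rw [Prob_Pr_eq]
  unfold Ex wt
  have h1 : ∀ ω : B → Bool, (∏ b, (if ω b = true then p else 1 - p)) *
      (if ∀ b ∈ A, ω b = c then (1 : ℝ) else 0)
      = ∏ b, ((if ω b = true then p else 1 - p) * (if b ∈ A then (if ω b = c then 1 else 0) else 1)) := by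
    intro ω
    rw [Finset.prod_mul_distrib]
    congr 1
    by_cases h : ∀ b ∈ A, ω b = c
    · rw [if_pos h]
      symm
      refine Finset.prod_eq_one fun b _ => ?_
      split_ifs with h1 h2
      · rfl
      · exact absurd (h b h1) h2
      · rfl
    · rw [if_neg h]
      symm
      push Not at h
      obtain ⟨b, hb, hbc⟩ := h
      refine Finset.prod_eq_zero (Finset.mem_univ b) ?_
      rw [if_pos hb, if_neg hbc]
  simp only [h1]
  rw [Prob_sum_prod (fun b d => (if d = true then p else 1 - p) *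
    (if b ∈ A then (if d = c then (1 : ℝ) else 0) else 1))]
  have h2 : ∀ b : B, ((if true = true then p else 1 - p) * (if b ∈ A then (if true = c then (1 : ℝ) else 0) else 1)
      + (if false = true then p else 1 - p) * (if b ∈ A then (if false = c then (1 : ℝ) else 0) else 1))
      = if b ∈ A then (if c = true then p else 1 - p) else 1 := by
    intro b
    cases c <;> by_cases hb : b ∈ A <;> simp [hb]
  rw [Finset.prod_congr rfl fun b _ => h2 b]
  rw [Finset.prod_ite_mem, Finset.univ_inter, Finset.prod_const]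

theorem Pr_all_on (p : ℝ) (A : Finset B) : Pr p (fun ω => ∀ b ∈ A, ω b = true) = p ^ A.card := by
  rw [Prob_all]
  simp

theorem Pr_all_off (p : ℝ) (A : Finset B) :
    Pr p (fun ω => ∀ b ∈ A, ω b = false) = (1 - p) ^ A.card := by
  rw [Prob_all]
  simp

/-- splitting a sum according to the value of one bit -/
theorem Prob_sum_split (b : B) (Ξ : (B → Bool) → ℝ) :
    ∑ ω : B → Bool, (Ξ (Function.update ω b true) + Ξ (Function.update ω b false))
      = 2 * ∑ ω : B → Bool, Ξ ω := by
  have hinv : Function.Involutive (fun ω : B → Bool => Function.update ω b (!(ω b))) := by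
    intro ω
    simp
  have h1 : ∀ ω : B → Bool, Ξ (Function.update ω b true) + Ξ (Function.update ω b false)
      = Ξ ω + Ξ (Function.update ω b (!(ω b))) := by
    intro ω
    by_cases h : ω b = true
    · have e1 : Function.update ω b true = ω := by rw [← h]; exact Function.update_eq_self b ω
      rw [e1, h]
      rfl
    · have h' : ω b = false := by simpa using h
      have e1 : Function.update ω b false = ω := by rw [← h']; exact Function.update_eq_self b ω
      rw [e1, h', add_comm]
      rfl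
  simp only [h1]
  rw [Finset.sum_add_distrib, two_mul]
  congr 1
  exact Equiv.sum_comp hinv.toPerm Ξ

theorem Prob_deriv (F : (B → Bool) → ℝ) (p : ℝ) :
    HasDerivAt (fun q => Ex q F) (-∑ b, Ex p (Dd b F)) p := by
  unfold Ex
  -- derivative of the weights
  have hw : ∀ ω : B → Bool, HasDerivAt (fun q => wt q ω)
      (∑ b, (∏ j ∈ univ.erase b, (if ω j = true then p else 1 - p)) •
        (if ω b = true then (1 : ℝ) else -1)) p := by
    intro ω
    unfold wt
    refine HasDerivAt.fun_finsetProd fun b _ => ?_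
    by_cases h : ω b = true
    · simp only [h, if_true]
      exact hasDerivAt_id p
    · simp only [h, if_false]
      simpa using (hasDerivAt_id p).const_sub 1
  have h1 : HasDerivAt (fun q => ∑ ω : B → Bool, wt q ω * F ω)
      (∑ ω : B → Bool, (∑ b, (∏ j ∈ univ.erase b, (if ω j = true then p else 1 - p)) •
        (if ω b = true then (1 : ℝ) else -1)) * F ω) p := by
    refine HasDerivAt.fun_sum fun ω _ => ?_
    exact (hw ω).mul_const (F ω)
  convert h1 using 1
  -- rearrange
  simp only [Finset.sum_mul, smul_eq_mul]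
  rw [← Finset.sum_neg_distrib]
  conv_rhs => rw [Finset.sum_comm]
  refine Finset.sum_congr rfl fun b _ => ?_
  set h : (B → Bool) → ℝ := fun ω => ∏ j ∈ univ.erase b, (if ω j = true then p else 1 - p) with hh
  have hup : ∀ ω c, h (Function.update ω b c) = h ω := by
    intro ω c
    rw [hh]
    refine Finset.prod_congr rfl fun j hj => ?_
    rw [Function.update_of_ne (Finset.ne_of_mem_erase hj)]
  have hwt : ∀ ω : B → Bool, wt p ω = (if ω b = true then p else 1 - p) * h ω := by
    intro ω
    unfold wt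
    rw [hh]
    exact (Finset.mul_prod_erase univ (fun j => if ω j = true then p else 1 - p) (Finset.mem_univ b)).symm
  have e1 := Prob_sum_split b (fun ω => wt p ω * Dd b F ω)
  have e2 := Prob_sum_split b (fun ω => h ω * (if ω b = true then (1 : ℝ) else -1) * F ω)
  have e3 : ∑ ω : B → Bool, (wt p (Function.update ω b true) * Dd b F (Function.update ω b true) +
      wt p (Function.update ω b false) * Dd b F (Function.update ω b false))
      = - ∑ ω : B → Bool, (h (Function.update ω b true) *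
          (if (Function.update ω b true) b = true then (1 : ℝ) else -1) * F (Function.update ω b true)
        + h (Function.update ω b false) *
          (if (Function.update ω b false) b = true then (1 : ℝ) else -1) * F (Function.update ω b false)) := by
    rw [← Finset.sum_neg_distrib]
    refine Finset.sum_congr rfl fun ω _ => ?_
    rw [hwt, hwt, hup, hup]
    unfold Dd
    simp only [Function.update_self, Function.update_idem, if_true, Bool.false_eq_true, if_false]
    ring
  rw [e3, e2] at e1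
  have e4 : ∑ ω : B → Bool, h ω * (if ω b = true then (1 : ℝ) else -1) * F ω
      = ∑ x : B → Bool, (∏ j ∈ univ.erase b, (if x j = true then p else 1 - p)) *
        (if x b = true then (1 : ℝ) else -1) * F x := rfl
  rw [← e4]
  change -∑ ω : B → Bool, wt p ω * Dd b F ω = _
  linarith

/-- expectations of decreasing functions decrease in the parameter -/
theorem Ex_antitone {p q : ℝ} (h0 : 0 ≤ p) (hpq : p ≤ q) (h1 : q ≤ 1) {F : (B → Bool) → ℝ}
    (hF : Antitone F) : Ex q F ≤ Ex p F := by
  have hanti : AntitoneOn (fun t => Ex t F) (Set.Icc (0 : ℝ) 1) := by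
    apply antitoneOn_of_deriv_nonpos (convex_Icc 0 1)
    · exact fun x _ => (Prob_deriv F x).continuousAt.continuousWithinAt
    · exact fun x _ => (Prob_deriv F x).differentiableAt.differentiableWithinAt
    · intro x hx
      rw [interior_Icc] at hx
      rw [(Prob_deriv F x).deriv]
      rw [neg_nonpos]
      refine Finset.sum_nonneg fun b _ => Ex_nonneg hx.1.le hx.2.le fun ω => ?_
      unfold Dd
      refine sub_nonneg.2 (hF ?_)
      intro j
      by_cases hj : j = b
      · subst hj
        simp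
      · rw [Function.update_of_ne hj, Function.update_of_ne hj]
  exact hanti ⟨h0, le_trans hpq h1⟩ ⟨le_trans h0 hpq, h1⟩ hpq

/-- switching off the bits of `A` costs a factor `(1-p)^(-|A|)` -/
theorem Ex_remove {p : ℝ} (h0 : 0 ≤ p) (h1 : p ≤ 1) (A : Finset B) {Φ : (B → Bool) → ℝ}
    (hΦ : ∀ ω, 0 ≤ Φ ω) :
    (1 - p) ^ A.card * Ex p (fun ω => Φ (merge A (fun _ => false) ω)) ≤ Ex p Φ := by
  rw [← Pr_all_off p A, Prob_Pr_eq]
  rw [← Ex_indep p A]
  · refine Ex_mono h0 h1 fun ω => ?_
    by_cases h : ∀ b ∈ A, ω b = false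
    · rw [if_pos h, one_mul]
      have : merge A (fun _ => false) ω = ω := by
        funext b
        unfold merge
        split_ifs with hb
        · exact (h b hb).symm
        · rfl
      rw [this]
    · rw [if_neg h, zero_mul]
      exact hΦ ω
  · intro ω ω' h
    have : (∀ b ∈ A, ω b = false) ↔ (∀ b ∈ A, ω' b = false) := by
      refine forall₂_congr fun b hb => ?_
      rw [h b hb]
    by_cases hc : ∀ b ∈ A, ω b = false
    · rw [if_pos hc, if_pos (this.1 hc)]
    · rw [if_neg hc, if_neg (fun h' => hc (this.2 h'))]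
  · intro ω ω' h
    have : merge A (fun _ => false) ω = merge A (fun _ => false) ω' := by
      funext b
      unfold merge
      split_ifs with hb
      · rfl
      · exact h b hb
    simp only [this]

end Pool.H18.TC
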