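import Pool.Agent.H18.TC.Prob

/-! variance of linear statistics of the fired states -/

open Finset
open Classical

namespace Pool.H18.TC

variable {r : ℕ} {V : Type*} [Fintype V] {B : Type*} [Fintype B] {m : ℕ}

theorem kap_eq (r : ℕ) (x : ℝ) :
    kap r x = ∑ T ∈ (univ : Finset (Finset (Fin r))).filter (fun T => T.Nonempty), (1 / x) ^ T.card := by
  have h := Finset.sum_pow_mul_eq_add_pow (1 / x) 1 (univ : Finset (Fin r))
  simp only [one_pow, mul_one, Finset.powerset_univ, Finset.card_univ, Fintype.card_fin] at h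
  unfold kap
  rw [add_comm 1 (1 / x), ← h,
    ← Finset.sum_filter_add_sum_filter_not univ (fun T : Finset (Fin r) => T.Nonempty)]
  have h2 : (univ : Finset (Finset (Fin r))).filter (fun T => ¬ T.Nonempty) = {∅} := by
    ext T
    simp [Finset.not_nonempty_iff_eq_empty]
  rw [h2]
  simp

/-- probability that all vertices of `X` are on in copy `a` -/
lemma varf_on (ι : Fin (m + 1) → V → B) (a : Fin (m + 1)) (hι : Function.Injective (ι a))
    (p : ℝ) (X : Finset V) :
    Ex p (fun ω => if (∀ v ∈ X, ω (ι a v) = true) then (1 : ℝ) else 0) = p ^ X.card := by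
  have h := Pr_all_on p (X.image (ι a))
  rw [Finset.card_image_of_injective _ hι] at h
  rw [← h]
  unfold Pr
  congr 1
  funext ω
  have : (∀ v ∈ X, ω (ι a v) = true) ↔ (∀ b ∈ X.image (ι a), ω b = true) := by
    simp
  by_cases h1 : ∀ v ∈ X, ω (ι a v) = true
  · rw [if_pos h1, if_pos (this.mp h1)]
  · rw [if_neg h1, if_neg (fun h2 => h1 (this.mpr h2))]

lemma varf_fire_iff (ι : Fin (m + 1) → V → B) (a : Fin (m + 1)) (ω : B → Bool) (e : Fin r → V) :
    Fire ι ω a e ↔ ∀ v ∈ verts e, ω (ι a v) = true := by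
  unfold Fire verts
  simp

lemma varf_fire2_iff (ι : Fin (m + 1) → V → B) (a : Fin (m + 1)) (ω : B → Bool)
    (e e' : Fin r → V) :
    (Fire ι ω a e ∧ Fire ι ω a e') ↔ ∀ v ∈ verts e ∪ verts e', ω (ι a v) = true := by
  rw [varf_fire_iff, varf_fire_iff]
  constructor
  · rintro ⟨h1, h2⟩ v hv
    rcases Finset.mem_union.mp hv with h | h
    · exact h1 v h
    · exact h2 v h
  · intro h
    exact ⟨fun v hv => h v (Finset.mem_union_left _ hv), fun v hv => h v (Finset.mem_union_right _ hv)⟩

lemma varf_pr (ι : Fin (m + 1) → V → B) (a : Fin (m + 1)) (hι : Function.Injective (ι a))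
    (p : ℝ) (e : Fin r → V) :
    Ex p (fun ω => if Fire ι ω a e then (1 : ℝ) else 0) = p ^ (verts e).card := by
  rw [← varf_on ι a hι p (verts e)]
  congr 1
  funext ω
  by_cases h1 : Fire ι ω a e
  · rw [if_pos h1, if_pos ((varf_fire_iff ι a ω e).mp h1)]
  · rw [if_neg h1, if_neg (fun h2 => h1 ((varf_fire_iff ι a ω e).mpr h2))]

lemma varf_pr2 (ι : Fin (m + 1) → V → B) (a : Fin (m + 1)) (hι : Function.Injective (ι a))
    (p : ℝ) (e e' : Fin r → V) :
    Ex p (fun ω => (if Fire ι ω a e then (1 : ℝ) else 0) * (if Fire ι ω a e' then (1 : ℝ) else 0))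
      = p ^ (verts e ∪ verts e').card := by
  rw [← varf_on ι a hι p (verts e ∪ verts e')]
  congr 1
  funext ω
  by_cases h1 : Fire ι ω a e ∧ Fire ι ω a e'
  · rw [if_pos h1.1, if_pos h1.2, if_pos ((varf_fire2_iff ι a ω e e').mp h1), one_mul]
  · rw [if_neg (fun h2 => h1 ((varf_fire2_iff ι a ω e e').mpr h2))]
    by_cases h2 : Fire ι ω a e
    · have h3 : ¬ Fire ι ω a e' := fun h => h1 ⟨h2, h⟩
      rw [if_neg h3, mul_zero]
    · rw [if_neg h2, zero_mul]

lemma varf_card (e : Fin r → V) (he : Function.Injective e) : (verts e).card = r := by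
  unfold verts
  rw [Finset.card_image_of_injective _ he]
  simp

theorem Ex_fire (E : Finset (Fin r → V)) (hinj : ∀ e ∈ E, Function.Injective e)
    (ι : Fin (m + 1) → V → B) (a : Fin (m + 1)) (hι : Function.Injective (ι a)) {δ : ℝ} (hδ : 0 < δ)
    (h : (Fin r → V) → ℝ) :
    Ex δ (fun ω => ∑ e ∈ E.filter (fun e => Fire ι ω a e), (1 / δ) ^ r * h e) = mass E h := by
  have h1 : ∀ ω : B → Bool, ∑ e ∈ E.filter (fun e => Fire ι ω a e), (1 / δ) ^ r * h e
      = ∑ e ∈ E, ((1 / δ) ^ r * h e) * (if Fire ι ω a e then (1 : ℝ) else 0) := by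
    intro ω
    rw [Finset.sum_filter]
    apply Finset.sum_congr rfl
    intro e _
    split_ifs <;> simp
  simp_rw [h1]
  rw [Ex_sum]
  unfold mass
  apply Finset.sum_congr rfl
  intro e he
  rw [Ex_mul_left, varf_pr ι a hι, varf_card e (hinj e he)]
  have h2 : (1 / δ) ^ r * δ ^ r = 1 := by
    rw [← mul_pow, one_div_mul_cancel hδ.ne', one_pow]
  calc (1 / δ) ^ r * h e * δ ^ r = ((1 / δ) ^ r * δ ^ r) * h e := by ring
    _ = h e := by rw [h2, one_mul]

theorem Var_fire (E : Finset (Fin r → V)) (χ : V → Fin r) (hχ : ∀ x ∈ E, ∀ k, χ (x k) = k)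
    (ι : Fin (m + 1) → V → B) (a : Fin (m + 1)) (hι : Function.Injective (ι a)) {δ : ℝ} (hδ : 0 < δ)
    (hδ1 : δ ≤ 1) (h : (Fin r → V) → ℝ) (h0 : ∀ e, 0 ≤ h e) {D s : ℝ} (hs : 0 < s)
    (hD : ∀ (T : Finset (Fin r)) (τ : Fin r → V), T.Nonempty → star E h T τ ≤ D * (1 / s) ^ T.card) :
    Ex δ (fun ω => (∑ e ∈ E.filter (fun e => Fire ι ω a e), (1 / δ) ^ r * h e - mass E h) ^ 2)
      ≤ D * kap r (δ * s) * mass E h := by
  have hinj : ∀ e ∈ E, Function.Injective e := by
    intro e he k l hkl
    rw [← hχ e he k, ← hχ e he l, hkl]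
  have hfire := Ex_fire E hinj ι a hι hδ h
  -- rewrite the statistic
  set S : (B → Bool) → ℝ := fun ω => ∑ e ∈ E.filter (fun e => Fire ι ω a e), (1 / δ) ^ r * h e
    with hS
  have hS1 : ∀ ω : B → Bool, S ω
      = ∑ e ∈ E, ((1 / δ) ^ r * h e) * (if Fire ι ω a e then (1 : ℝ) else 0) := by
    intro ω
    rw [hS]
    dsimp only
    rw [Finset.sum_filter]
    apply Finset.sum_congr rfl
    intro e _
    split_ifs <;> simp
  have hvar : Ex δ (fun ω => (S ω - mass E h) ^ 2) = Ex δ (fun ω => S ω * S ω) - mass E h ^ 2 := by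
    have h1 : (fun ω : B → Bool => (S ω - mass E h) ^ 2)
        = fun ω => (S ω * S ω - (2 * mass E h) * S ω) + mass E h ^ 2 := by
      funext ω; ring
    rw [h1, Ex_add, Ex_sub, Ex_mul_left, Ex_const, hfire]
    ring
  rw [hvar]
  have hsq : Ex δ (fun ω => S ω * S ω) = ∑ e ∈ E, ∑ e' ∈ E,
      ((1 / δ) ^ r * h e) * ((1 / δ) ^ r * h e') * δ ^ (verts e ∪ verts e').card := by
    have h1 : (fun ω : B → Bool => S ω * S ω) = fun ω => ∑ e ∈ E, ∑ e' ∈ E,
        (((1 / δ) ^ r * h e) * ((1 / δ) ^ r * h e')) *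
          ((if Fire ι ω a e then (1 : ℝ) else 0) * (if Fire ι ω a e' then (1 : ℝ) else 0)) := by
      funext ω
      rw [hS1, Finset.sum_mul_sum]
      apply Finset.sum_congr rfl
      intro e _
      apply Finset.sum_congr rfl
      intro e' _
      ring
    rw [h1, Ex_sum]
    apply Finset.sum_congr rfl
    intro e _
    rw [Ex_sum]
    apply Finset.sum_congr rfl
    intro e' _
    rw [Ex_mul_left, varf_pr2 ι a hι]
  rw [hsq]
  -- one pair
  have hpair : ∀ e ∈ E, ∀ e' ∈ E,
      ((1 / δ) ^ r * h e) * ((1 / δ) ^ r * h e') * δ ^ (verts e ∪ verts e').card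
        ≤ h e * h e' + ∑ T ∈ (univ : Finset (Finset (Fin r))).filter (fun T => T.Nonempty),
          h e * ((1 / δ) ^ T.card * (if (∀ k ∈ T, e' k = e k) then h e' else 0)) := by
    intro e he e' he'
    set I := (univ : Finset (Fin r)).filter (fun k => e' k = e k) with hI
    have h1 : (verts e ∪ verts e').card + (verts e ∩ verts e').card
        = (verts e).card + (verts e').card := Finset.card_union_add_card_inter _ _
    have h3 : (verts e ∩ verts e').card = I.card := by
      have : verts e ∩ verts e' = I.image e := by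
        ext v
        simp only [verts, Finset.mem_inter, Finset.mem_image, Finset.mem_filter,
          Finset.mem_univ, true_and, hI]
        constructor
        · rintro ⟨⟨k, rfl⟩, l, hl⟩
          have h4 : l = k := by
            have h5 := hχ e' he' l
            rw [hl, hχ e he k] at h5
            exact h5.symm
          exact ⟨k, by rw [← hl, h4], rfl⟩
        · rintro ⟨k, hk, rfl⟩
          exact ⟨⟨k, rfl⟩, k, hk⟩
      rw [this, Finset.card_image_of_injective _ (hinj e he)]
    rw [h3, varf_card e (hinj e he), varf_card e' (hinj e' he')] at h1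
    have h4 : δ ^ (verts e ∪ verts e').card * δ ^ I.card = δ ^ r * δ ^ r := by
      rw [← pow_add, h1, pow_add]
    have hone : ∀ k : ℕ, (1 / δ) ^ k * δ ^ k = 1 := by
      intro k
      rw [← mul_pow, one_div_mul_cancel hδ.ne', one_pow]
    have h5 : (1 / δ) ^ r * (1 / δ) ^ r * δ ^ (verts e ∪ verts e').card = (1 / δ) ^ I.card := by
      calc (1 / δ) ^ r * (1 / δ) ^ r * δ ^ (verts e ∪ verts e').card
          = (1 / δ) ^ r * (1 / δ) ^ r * δ ^ (verts e ∪ verts e').card
            * ((1 / δ) ^ I.card * δ ^ I.card) := by rw [hone, mul_one]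
        _ = (1 / δ) ^ r * (1 / δ) ^ r * (δ ^ (verts e ∪ verts e').card * δ ^ I.card)
            * (1 / δ) ^ I.card := by ring
        _ = ((1 / δ) ^ r * δ ^ r) * ((1 / δ) ^ r * δ ^ r) * (1 / δ) ^ I.card := by
            rw [h4]; ring
        _ = (1 / δ) ^ I.card := by rw [hone]; ring
    have h6 : ((1 / δ) ^ r * h e) * ((1 / δ) ^ r * h e') * δ ^ (verts e ∪ verts e').card
        = h e * h e' * (1 / δ) ^ I.card := by
      rw [← h5]; ring
    rw [h6]
    have hnn : ∀ T ∈ (univ : Finset (Finset (Fin r))).filter (fun T => T.Nonempty),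
        0 ≤ h e * ((1 / δ) ^ T.card * (if (∀ k ∈ T, e' k = e k) then h e' else 0)) := by
      intro T _
      apply mul_nonneg (h0 e)
      apply mul_nonneg (by positivity)
      split_ifs
      · exact h0 e'
      · exact le_refl _
    rcases I.eq_empty_or_nonempty with hE | hE
    · rw [hE]
      simp only [Finset.card_empty, pow_zero, mul_one]
      have := Finset.sum_nonneg hnn
      linarith
    · have h7 := Finset.single_le_sum hnn (a := I) (by simp [hE])
      have h8 : (if (∀ k ∈ I, e' k = e k) then h e' else 0) = h e' := by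
        rw [if_pos]
        intro k hk
        rw [hI, Finset.mem_filter] at hk
        exact hk.2
      rw [h8] at h7
      have h9 : 0 ≤ h e * h e' := mul_nonneg (h0 e) (h0 e')
      calc h e * h e' * (1 / δ) ^ I.card = h e * ((1 / δ) ^ I.card * h e') := by ring
        _ ≤ _ := by linarith
  have hsum : ∑ e ∈ E, ∑ e' ∈ E,
      ((1 / δ) ^ r * h e) * ((1 / δ) ^ r * h e') * δ ^ (verts e ∪ verts e').card
      ≤ mass E h ^ 2 + D * kap r (δ * s) * mass E h := by
    calc ∑ e ∈ E, ∑ e' ∈ E,
        ((1 / δ) ^ r * h e) * ((1 / δ) ^ r * h e') * δ ^ (verts e ∪ verts e').card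
        ≤ ∑ e ∈ E, ∑ e' ∈ E, (h e * h e'
          + ∑ T ∈ (univ : Finset (Finset (Fin r))).filter (fun T => T.Nonempty),
          h e * ((1 / δ) ^ T.card * (if (∀ k ∈ T, e' k = e k) then h e' else 0))) :=
          Finset.sum_le_sum (fun e he => Finset.sum_le_sum (fun e' he' => hpair e he e' he'))
      _ = mass E h ^ 2 + ∑ e ∈ E, h e * ∑ T ∈ (univ : Finset (Finset (Fin r))).filter
            (fun T => T.Nonempty), (1 / δ) ^ T.card * star E h T e := by
          simp_rw [Finset.sum_add_distrib]
          congr 1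
          · unfold mass
            rw [sq, Finset.sum_mul_sum]
          · apply Finset.sum_congr rfl
            intro e _
            rw [Finset.sum_comm, Finset.mul_sum]
            apply Finset.sum_congr rfl
            intro T _
            unfold star
            rw [Finset.sum_filter, Finset.mul_sum, Finset.mul_sum]
      _ ≤ mass E h ^ 2 + ∑ e ∈ E, h e * ∑ T ∈ (univ : Finset (Finset (Fin r))).filter
            (fun T => T.Nonempty), (1 / δ) ^ T.card * (D * (1 / s) ^ T.card) := by
          have h1 : ∀ e ∈ E, h e * ∑ T ∈ (univ : Finset (Finset (Fin r))).filter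
              (fun T => T.Nonempty), (1 / δ) ^ T.card * star E h T e
              ≤ h e * ∑ T ∈ (univ : Finset (Finset (Fin r))).filter
              (fun T => T.Nonempty), (1 / δ) ^ T.card * (D * (1 / s) ^ T.card) := by
            intro e _
            apply mul_le_mul_of_nonneg_left _ (h0 e)
            apply Finset.sum_le_sum
            intro T hT
            rw [Finset.mem_filter] at hT
            apply mul_le_mul_of_nonneg_left (hD T e hT.2) (by positivity)
          have h2 := Finset.sum_le_sum h1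
          linarith
      _ = mass E h ^ 2 + D * kap r (δ * s) * mass E h := by
          congr 1
          rw [← Finset.sum_mul, kap_eq]
          have h1 : ∑ T ∈ (univ : Finset (Finset (Fin r))).filter (fun T => T.Nonempty),
              (1 / δ) ^ T.card * (D * (1 / s) ^ T.card)
              = D * ∑ T ∈ (univ : Finset (Finset (Fin r))).filter (fun T => T.Nonempty),
              (1 / (δ * s)) ^ T.card := by
            rw [Finset.mul_sum]
            apply Finset.sum_congr rfl
            intro T _
            have : (1 : ℝ) / (δ * s) = (1 / δ) * (1 / s) := by field_simp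
            rw [this, mul_pow]
            ring
          rw [h1]
          unfold mass
          ring
  linarith

end Pool.H18.TC
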