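import Pool.Agent.H18.TC.Defs

/-! X2: the kernels `KL` -/

open Finset
open Classical

namespace Pool.H18.TC

variable {r : ℕ} {V : Type*} [Fintype V]

omit [Fintype V] in
theorem xker_update_eq (k : Fin r) (x y : Fin r → V) (h : ∀ j, j ≠ k → x j = y j) (v : V) :
    Function.update x k v = Function.update y k v := by
  funext j
  by_cases hj : j = k
  · subst hj; simp
  · simp [Function.update_of_ne hj, h j hj]

theorem xker_dg_eq (E : Finset (Fin r → V)) (k : Fin r) (x y : Fin r → V)
    (h : ∀ j, j ≠ k → x j = y j) : dg E k x = dg E k y := by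
  unfold dg
  congr 1
  ext v
  simp only [Finset.mem_filter, Finset.mem_univ, true_and]
  rw [xker_update_eq k x y h v]

theorem xker_Kone_symm (E : Finset (Fin r → V)) (k : Fin r) (x y : Fin r → V) :
    Kone E k x y = Kone E k y x := by
  unfold Kone
  by_cases h : x ∈ E ∧ y ∈ E ∧ ∀ j, j ≠ k → x j = y j
  · have h' : y ∈ E ∧ x ∈ E ∧ ∀ j, j ≠ k → y j = x j :=
      ⟨h.2.1, h.1, fun j hj => (h.2.2 j hj).symm⟩
    rw [if_pos h, if_pos h', xker_dg_eq E k x y h.2.2]
  · have h' : ¬ (y ∈ E ∧ x ∈ E ∧ ∀ j, j ≠ k → y j = x j) := fun h' =>
      h ⟨h'.2.1, h'.1, fun j hj => (h'.2.2 j hj).symm⟩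
    rw [if_neg h, if_neg h']

theorem xker_Kone_nonneg (E : Finset (Fin r → V)) (k : Fin r) (x y : Fin r → V) :
    0 ≤ Kone E k x y := by
  unfold Kone
  split_ifs
  · positivity
  · exact le_rfl

theorem xker_dg_pos (E : Finset (Fin r → V)) (k : Fin r) (x : Fin r → V) (hx : x ∈ E) :
    0 < dg E k x := by
  unfold dg
  apply Finset.card_pos.mpr
  exact ⟨x k, by simp [hx]⟩

theorem xker_Kone_row (E : Finset (Fin r → V)) (k : Fin r) (x : Fin r → V) (hx : x ∈ E) :
    ∑ y ∈ E, Kone E k x y = 1 := by
  have h1 : ∑ y ∈ E, Kone E k x y
      = ∑ y ∈ E.filter (fun y => ∀ j, j ≠ k → x j = y j), (1 / (dg E k x : ℝ)) := by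
    rw [Finset.sum_filter]
    apply Finset.sum_congr rfl
    intro y hy
    unfold Kone
    by_cases h : ∀ j, j ≠ k → x j = y j
    · rw [if_pos ⟨hx, hy, h⟩, if_pos h]
    · rw [if_neg (fun h' => h h'.2.2), if_neg h]
  have h2 : (E.filter (fun y => ∀ j, j ≠ k → x j = y j)).card = dg E k x := by
    unfold dg
    apply Finset.card_bij' (fun y _ => y k) (fun v _ => Function.update x k v)
    · intro y hy
      rw [Finset.mem_filter] at hy
      simp only [Finset.mem_filter, Finset.mem_univ, true_and]
      rw [xker_update_eq k x y hy.2 (y k), Function.update_eq_self]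
      exact hy.1
    · intro v hv
      simp only [Finset.mem_filter, Finset.mem_univ, true_and] at hv
      rw [Finset.mem_filter]
      exact ⟨hv, fun j hj => by rw [Function.update_of_ne hj]⟩
    · intro y hy
      rw [Finset.mem_filter] at hy
      show Function.update x k (y k) = y
      rw [xker_update_eq k x y hy.2 (y k), Function.update_eq_self]
    · intro v hv
      simp
  rw [h1, Finset.sum_const, h2, nsmul_eq_mul]
  have := xker_dg_pos E k x hx
  have h3 : (dg E k x : ℝ) ≠ 0 := by exact_mod_cast this.ne'
  field_simp

theorem xker_KL_nonneg (E : Finset (Fin r → V)) (l : List (Fin r)) :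
    ∀ x y : Fin r → V, 0 ≤ KL E l x y := by
  induction l with
  | nil =>
    intro x y
    simp only [KL]
    split_ifs <;> norm_num
  | cons k l ih =>
    intro x y
    simp only [KL]
    exact Finset.sum_nonneg (fun z _ => mul_nonneg (xker_Kone_nonneg E k x z) (ih z y))

theorem xker_KL_left (E : Finset (Fin r → V)) (l : List (Fin r)) (x y : Fin r → V) (hx : x ∉ E) :
    KL E l x y = 0 := by
  cases l with
  | nil => simp [KL, hx]
  | cons k l =>
    simp only [KL]
    apply Finset.sum_eq_zero
    intro z hz
    unfold Kone
    rw [if_neg (fun h => hx h.1)]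
    ring

theorem xker_KL_right (E : Finset (Fin r → V)) (l : List (Fin r)) :
    ∀ x y : Fin r → V, y ∉ E → KL E l x y = 0 := by
  induction l with
  | nil =>
    intro x y hy
    simp only [KL]
    rw [if_neg]
    rintro ⟨h1, h2⟩
    exact hy (h2 ▸ h1)
  | cons k l ih =>
    intro x y hy
    simp only [KL]
    apply Finset.sum_eq_zero
    intro z hz
    rw [ih z y hy, mul_zero]

theorem xker_KL_append (E : Finset (Fin r → V)) (l l' : List (Fin r)) :
    ∀ x y : Fin r → V, KL E (l ++ l') x y = ∑ z ∈ E, KL E l x z * KL E l' z y := by
  induction l with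
  | nil =>
    intro x y
    simp only [List.nil_append, KL]
    by_cases hx : x ∈ E
    · rw [Finset.sum_eq_single x]
      · simp [hx]
      · intro z _ hz
        rw [if_neg (fun h => hz h.2.symm), zero_mul]
      · intro h; exact absurd hx h
    · rw [xker_KL_left E l' x y hx]
      symm
      apply Finset.sum_eq_zero
      intro z hz
      rw [if_neg (fun h => hx h.1), zero_mul]
  | cons k l ih =>
    intro x y
    simp only [List.cons_append, KL]
    calc ∑ z ∈ E, Kone E k x z * KL E (l ++ l') z y
        = ∑ z ∈ E, ∑ w ∈ E, Kone E k x z * (KL E l z w * KL E l' w y) := by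
          apply Finset.sum_congr rfl
          intro z _
          rw [ih z y, Finset.mul_sum]
      _ = ∑ w ∈ E, ∑ z ∈ E, Kone E k x z * (KL E l z w * KL E l' w y) := Finset.sum_comm
      _ = ∑ w ∈ E, (∑ z ∈ E, Kone E k x z * KL E l z w) * KL E l' w y := by
          apply Finset.sum_congr rfl
          intro w _
          rw [Finset.sum_mul]
          apply Finset.sum_congr rfl
          intro z _
          ring

theorem xker_KL_single (E : Finset (Fin r → V)) (k : Fin r) (x y : Fin r → V) :
    KL E [k] x y = Kone E k x y := by
  simp only [KL]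
  by_cases hy : y ∈ E
  · rw [Finset.sum_eq_single y]
    · simp [hy]
    · intro z _ hz
      rw [if_neg (fun h => hz h.2), mul_zero]
    · intro h; exact absurd hy h
  · have h0 : Kone E k x y = 0 := by
      unfold Kone
      rw [if_neg (fun h => hy h.2.1)]
    rw [h0]
    apply Finset.sum_eq_zero
    intro z hz
    rw [if_neg, mul_zero]
    rintro ⟨h1, h2⟩
    exact hy (h2 ▸ h1)

theorem KL_rev (E : Finset (Fin r → V)) (l : List (Fin r)) (x y : Fin r → V) :
    KL E l.reverse x y = KL E l y x := by
  induction l generalizing x y with
  | nil =>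
    simp only [List.reverse_nil, KL]
    by_cases h : x ∈ E ∧ x = y
    · rw [if_pos h, if_pos ⟨h.2 ▸ h.1, h.2.symm⟩]
    · rw [if_neg h, if_neg]
      rintro ⟨h1, h2⟩
      exact h ⟨h2 ▸ h1, h2.symm⟩
  | cons k l ih =>
    rw [List.reverse_cons, xker_KL_append]
    simp only [xker_KL_single]
    simp only [KL]
    apply Finset.sum_congr rfl
    intro z _
    rw [ih x z, xker_Kone_symm E k z y]
    ring

theorem xker_KL_row (E : Finset (Fin r → V)) (l : List (Fin r)) :
    ∀ x ∈ E, ∑ y ∈ E, KL E l x y = 1 := by
  induction l with
  | nil =>
    intro x hx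
    simp only [KL]
    rw [Finset.sum_eq_single x]
    · simp [hx]
    · intro z _ hz
      rw [if_neg (fun h => hz h.2.symm)]
    · intro h; exact absurd hx h
  | cons k l ih =>
    intro x hx
    simp only [KL]
    rw [Finset.sum_comm]
    calc ∑ z ∈ E, ∑ y ∈ E, Kone E k x z * KL E l z y
        = ∑ z ∈ E, Kone E k x z := by
          apply Finset.sum_congr rfl
          intro z hz
          rw [← Finset.mul_sum, ih z hz, mul_one]
      _ = 1 := xker_Kone_row E k x hx

theorem xker_KL_fix (E : Finset (Fin r → V)) (l : List (Fin r)) (k : Fin r) (hk : k ∉ l) :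
    ∀ x y : Fin r → V, KL E l x y ≠ 0 → x k = y k := by
  induction l with
  | nil =>
    intro x y h
    simp only [KL] at h
    by_contra hne
    apply h
    rw [if_neg]
    rintro ⟨_, h2⟩
    exact hne (by rw [h2])
  | cons i l ih =>
    intro x y h
    simp only [KL] at h
    obtain ⟨z, _, hz⟩ := Finset.exists_ne_zero_of_sum_ne_zero h
    have h1 : Kone E i x z ≠ 0 := left_ne_zero_of_mul hz
    have h2 : KL E l z y ≠ 0 := right_ne_zero_of_mul hz
    have hki : k ≠ i := fun h => hk (by simp [h])
    have hkl : k ∉ l := fun h => hk (by simp [h])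
    have h3 : x ∈ E ∧ z ∈ E ∧ ∀ j, j ≠ i → x j = z j := by
      by_contra hne
      apply h1
      unfold Kone
      rw [if_neg hne]
    rw [h3.2.2 k hki, ih hkl z y h2]

theorem xker_rowT (E : Finset (Fin r → V)) (s : ℝ) (hs : 1 ≤ s)
    (hdeg : ∀ x ∈ E, ∀ k, s ≤ (dg E k x : ℝ)) (l : List (Fin r)) :
    l.Nodup → ∀ T : Finset (Fin r), (∀ k ∈ T, k ∈ l) → ∀ τ : Fin r → V, ∀ e ∈ E,
      star E (fun f => KL E l e f) T τ ≤ (1 / s) ^ T.card := by
  have hs0 : 0 < s := by linarith
  induction l with
  | nil =>
    intro _ T hT τ e he
    have hT0 : T = ∅ := by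
      apply Finset.eq_empty_of_forall_notMem
      intro k hk
      exact absurd (hT k hk) (by simp)
    subst hT0
    simp only [Finset.card_empty, pow_zero, star]
    have : E.filter (fun x => ∀ k ∈ (∅ : Finset (Fin r)), x k = τ k) = E := by
      apply Finset.filter_true_of_mem
      intro x _ k hk
      exact absurd hk (by simp)
    rw [this]
    exact le_of_eq (xker_KL_row E [] e he)
  | cons k l ih =>
    intro hnd T hT τ e he
    have hnd' := List.nodup_cons.mp hnd
    have hexp : star E (fun f => KL E (k :: l) e f) T τ
        = ∑ z ∈ E, Kone E k e z * star E (fun f => KL E l z f) T τ := by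
      unfold star
      simp only [KL]
      rw [Finset.sum_comm]
      apply Finset.sum_congr rfl
      intro z _
      rw [Finset.mul_sum]
    rw [hexp]
    by_cases hkT : k ∈ T
    · -- at most one z
      have hcard : T.card = (T.erase k).card + 1 := by
        rw [Finset.card_erase_of_mem hkT]
        have : 0 < T.card := Finset.card_pos.mpr ⟨k, hkT⟩
        omega
      have hstar : ∀ z ∈ E, star E (fun f => KL E l z f) T τ
          ≤ if z k = τ k then (1 / s) ^ (T.erase k).card else 0 := by
        intro z hz
        by_cases hzk : z k = τ k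
        · rw [if_pos hzk]
          refine le_trans ?_ (ih hnd'.2 (T.erase k) ?_ τ z hz)
          · unfold star
            apply Finset.sum_le_sum_of_subset_of_nonneg
            · intro f hf
              rw [Finset.mem_filter] at hf ⊢
              exact ⟨hf.1, fun j hj => hf.2 j (Finset.mem_of_mem_erase hj)⟩
            · intro f _ _
              exact xker_KL_nonneg E l z f
          · intro j hj
            have h1 := hT j (Finset.mem_of_mem_erase hj)
            have h2 := Finset.ne_of_mem_erase hj
            rcases List.mem_cons.mp h1 with h | h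
            · exact absurd h h2
            · exact h
        · rw [if_neg hzk]
          unfold star
          apply le_of_eq
          apply Finset.sum_eq_zero
          intro f hf
          rw [Finset.mem_filter] at hf
          by_contra hne
          have := xker_KL_fix E l k hnd'.1 z f hne
          exact hzk (this.trans (hf.2 k hkT))
      calc ∑ z ∈ E, Kone E k e z * star E (fun f => KL E l z f) T τ
          ≤ ∑ z ∈ E, (if z = Function.update e k (τ k) then
              (1 / s) * (1 / s) ^ (T.erase k).card else 0) := by
            apply Finset.sum_le_sum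
            intro z hz
            have h1 := hstar z hz
            have h2 := xker_Kone_nonneg E k e z
            have h3 : (0 : ℝ) ≤ (1 / s) ^ (T.erase k).card := by positivity
            by_cases hzk : z = Function.update e k (τ k)
            · rw [if_pos hzk]
              have h4 : z k = τ k := by rw [hzk]; simp
              rw [if_pos h4] at h1
              have h5 : Kone E k e z ≤ 1 / s := by
                unfold Kone
                split_ifs
                · exact one_div_le_one_div_of_le hs0 (hdeg e he k)
                · positivity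
              calc Kone E k e z * star E (fun f => KL E l z f) T τ
                  ≤ Kone E k e z * (1 / s) ^ (T.erase k).card :=
                    mul_le_mul_of_nonneg_left h1 h2
                _ ≤ (1 / s) * (1 / s) ^ (T.erase k).card :=
                    mul_le_mul_of_nonneg_right h5 h3
            · rw [if_neg hzk]
              by_cases h4 : z k = τ k
              · have h5 : Kone E k e z = 0 := by
                  unfold Kone
                  rw [if_neg]
                  rintro ⟨_, _, h6⟩
                  apply hzk
                  funext j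
                  by_cases hj : j = k
                  · subst hj; simp [h4]
                  · rw [Function.update_of_ne hj]; exact (h6 j hj).symm
                rw [h5, zero_mul]
              · rw [if_neg h4] at h1
                calc Kone E k e z * star E (fun f => KL E l z f) T τ
                    ≤ Kone E k e z * 0 := mul_le_mul_of_nonneg_left h1 h2
                  _ = 0 := mul_zero _
        _ ≤ (1 / s) * (1 / s) ^ (T.erase k).card := by
            rw [Finset.sum_ite_eq']
            split_ifs
            · exact le_rfl
            · positivity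
        _ = (1 / s) ^ T.card := by rw [hcard, pow_succ]; ring
    · have hT' : ∀ j ∈ T, j ∈ l := by
        intro j hj
        rcases List.mem_cons.mp (hT j hj) with h | h
        · exact absurd (h ▸ hj) hkT
        · exact h
      calc ∑ z ∈ E, Kone E k e z * star E (fun f => KL E l z f) T τ
          ≤ ∑ z ∈ E, Kone E k e z * (1 / s) ^ T.card := by
            apply Finset.sum_le_sum
            intro z hz
            exact mul_le_mul_of_nonneg_left (ih hnd'.2 T hT' τ z hz) (xker_Kone_nonneg E k e z)
        _ = (1 / s) ^ T.card := by
            rw [← Finset.sum_mul, xker_Kone_row E k e he, one_mul]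

theorem KL_isKer (E : Finset (Fin r → V)) (s : ℝ) (hs : 1 ≤ s) (χ : V → Fin r)
    (hχ : ∀ x ∈ E, ∀ k, χ (x k) = k) (hdeg : ∀ x ∈ E, ∀ k, s ≤ (dg E k x : ℝ))
    (l : List (Fin r)) (hl : l.Nodup) (hall : ∀ k, k ∈ l) : IsKer E (KL E l) s χ := by
  refine ⟨hs, hχ, xker_KL_nonneg E l, xker_KL_row E l, ?_, ?_, ?_⟩
  · intro f hf
    have h1 := xker_KL_row E l.reverse f hf
    rw [← h1]
    apply Finset.sum_congr rfl
    intro e _
    rw [KL_rev]
  · intro e he T τ
    exact xker_rowT E s hs hdeg l hl T (fun k _ => hall k) τ e he
  · intro f hf T τ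
    have h1 := xker_rowT E s hs hdeg l.reverse (List.nodup_reverse.mpr hl) T
      (fun k _ => List.mem_reverse.mpr (hall k)) τ f hf
    refine le_trans (le_of_eq ?_) h1
    unfold star
    apply Finset.sum_congr rfl
    intro e _
    exact (KL_rev E l f e).symm

theorem KL_mix (E : Finset (Fin r → V)) (e f : Fin r → V) (h : KL E (List.finRange r) e f ≠ 0) :
    ∀ k ≤ r, mix k e f ∈ E := by
  intro k hk
  have hsplit : (List.finRange r).take k ++ (List.finRange r).drop k = List.finRange r :=
    List.take_append_drop k _
  rw [← hsplit, xker_KL_append] at h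
  obtain ⟨z, hz, hne⟩ := Finset.exists_ne_zero_of_sum_ne_zero h
  have h1 := left_ne_zero_of_mul hne
  have h2 := right_ne_zero_of_mul hne
  have hz' : z = mix k e f := by
    funext j
    unfold mix
    split_ifs with hj
    · apply xker_KL_fix E _ j _ z f h2
      intro hmem
      rw [List.mem_iff_getElem] at hmem
      obtain ⟨i, hi, hij⟩ := hmem
      rw [List.getElem_drop] at hij
      simp only [List.getElem_finRange] at hij
      have := congrArg Fin.val hij
      simp at this
      omega
    · symm
      apply xker_KL_fix E _ j _ e z h1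
      intro hmem
      rw [List.mem_iff_getElem] at hmem
      obtain ⟨i, hi, hij⟩ := hmem
      rw [List.getElem_take] at hij
      simp only [List.getElem_finRange] at hij
      have := congrArg Fin.val hij
      simp at this
      rw [List.length_take] at hi
      have := lt_of_lt_of_le hi (min_le_left _ _)
      omega
  rw [← hz']
  exact hz

end Pool.H18.TC
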